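import Mathlib

/-!
# MP_226de1_co, exponent 2: basic definitions

`μ > 1` is the ratio (R+a)/(R-a); near distance 1, far distance `μ`, `2a = μ - 1`, `m = μ^2`,
`l = log μ`.  Everything is built from one power series `dd F v = ∑ F n v^n` with nonnegative
coefficients, `dd F 1 = 1`, radius of convergence at least `μ^2`.
`x = log t`, `v = -t^2 = -exp (2x)` (`xv x`).
-/

set_option autoImplicit false

namespace EQ2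

open Complex Set Filter Topology

noncomputable section

/-- `S(d) = sqrt((μ²+d)/(1-d))`, principal branch -/
def Sq (μ : ℝ) (d : ℂ) : ℂ := Complex.exp (Complex.log (((μ : ℂ) ^ 2 + d) / (1 - d)) / 2)

/-- real version of `Sq` -/
def Sr (μ : ℝ) (d : ℝ) : ℝ := Real.sqrt ((μ ^ 2 + d) / (1 - d))

/-- the power series -/
def dd (F : ℕ → ℝ) (v : ℂ) : ℂ := ∑' n, (F n : ℂ) * v ^ n

/-- real version of the power series -/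
def dr (F : ℕ → ℝ) (t : ℝ) : ℝ := ∑' n, F n * t ^ n

/-- the data of the chart at the end `A` (normalised so that `dd F 1 = 1`) -/
structure HF (μ : ℝ) (F : ℕ → ℝ) : Prop where
  hμ : 1 < μ
  F0 : F 0 = 0
  F1 : 0 < F 1
  nonneg : ∀ n, 0 ≤ F n
  sum1 : HasSum F 1
  summ : ∀ ρ : ℝ, 0 ≤ ρ → ρ < μ ^ 2 → Summable fun n => F n * ρ ^ n
  feq : ∀ v : ℂ, ‖v‖ < 1 →
    dd F ((μ : ℂ) ^ 2 * v) + dd F v + 2 * (μ : ℂ) * ((μ : ℂ) - 1) =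
      Sq μ (dd F v) * (2 * ((μ : ℂ) - 1) + dd F v + dd F (v / (μ : ℂ) ^ 2))

/-- horizontal coordinate, as a function of `v` -/
def Xv (μ : ℝ) (F : ℕ → ℝ) (v : ℂ) : ℂ :=
  1 + (dd F v + dd F (v / (μ : ℂ) ^ 2)) / (2 * ((μ : ℂ) - 1))

/-- square of the vertical coordinate, as a function of `v` -/
def Rv (μ : ℝ) (F : ℕ → ℝ) (v : ℂ) : ℂ := 1 - dd F v - Xv μ F v ^ 2

/-- `y(v)`: `Y = t y(v)`, `Y^2 = R`, i.e. `v y(v)^2 = - R(v)` -/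
structure HY (μ : ℝ) (F : ℕ → ℝ) (y : ℂ → ℂ) : Prop where
  an : DifferentiableOn ℂ y (Metric.ball 0 (μ ^ 2))
  sq : ∀ v ∈ Metric.ball (0 : ℂ) (μ ^ 2), v * y v ^ 2 = - Rv μ F v
  conj : ∀ v ∈ Metric.ball (0 : ℂ) (μ ^ 2), y ((starRingEnd ℂ) v) = (starRingEnd ℂ) (y v)
  pos : ∀ t : ℝ, |t| < μ ^ 2 → 0 < (y (t : ℂ)).re ∧ (y (t : ℂ)).im = 0
  ne : ∀ v ∈ Metric.ball (0 : ℂ) (μ ^ 2), y v ≠ 0
  feq : ∀ v : ℂ, ‖v‖ < 1 → (μ : ℂ) * y ((μ : ℂ) ^ 2 * v) = Sq μ (dd F v) * y v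

/-- `v = - exp (2x)` -/
def xv (x : ℂ) : ℂ := - Complex.exp (2 * x)

def ell (μ : ℝ) : ℝ := Real.log μ

def Dx (F : ℕ → ℝ) (x : ℂ) : ℂ := dd F (xv x)
def Sx (μ : ℝ) (F : ℕ → ℝ) (x : ℂ) : ℂ := Sq μ (Dx F x)
def Xx (μ : ℝ) (F : ℕ → ℝ) (x : ℂ) : ℂ := Xv μ F (xv x)
def Yx (y : ℂ → ℂ) (x : ℂ) : ℂ := Complex.exp x * y (xv x)
/-- `q = X / Y`, the cotangent of the angle of the line -/
def qx (μ : ℝ) (F : ℕ → ℝ) (y : ℂ → ℂ) (x : ℂ) : ℂ := Xx μ F x / Yx y x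
/-- `p = 1/D_{n-1}^2 = Y^2/(2a)^2` -/
def px (μ : ℝ) (y : ℂ → ℂ) (x : ℂ) : ℂ := (Yx y x / ((μ : ℂ) - 1)) ^ 2
/-- the constant `C = c/(2a)^2` -/
def Cc (μ : ℝ) : ℝ := (1 + μ ^ 2) / (μ - 1) ^ 2

end

end EQ2
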