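import Pool.Agent.Lib.MP_226de1_co.ChartReal

/-! Asymptotics of the chart on the real line near `-∞`. -/

set_option autoImplicit false

namespace EQ2

open Complex Set Filter Topology

variable {μ : ℝ} {F : ℕ → ℝ} {y : ℂ → ℂ}

private theorem ca_contDiffAt {r : ℝ} (hr : 0 < r) {f : ℂ → ℂ}
    (hf : DifferentiableOn ℂ f (Metric.ball 0 r)) (k : ℝ) :
    ContDiffAt ℝ 1 (fun w : ℝ => (f ((-(k * w) : ℝ) : ℂ)).re) 0 := by
  have h1 : AnalyticAt ℂ f 0 := hf.analyticAt (Metric.ball_mem_nhds 0 hr)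
  have h2 : ContDiffAt ℂ 1 f 0 := h1.contDiffAt
  have h3 : ContDiffAt ℝ 1 f 0 := h2.restrict_scalars ℝ
  have h4 : ContDiffAt ℝ 1 (fun w : ℝ => ((-(k * w) : ℝ) : ℂ)) 0 := by
    have h5 : ContDiff ℝ 1 (fun w : ℝ => -(k * w)) := (contDiff_const.mul contDiff_id).neg
    exact (Complex.ofRealCLM.contDiff.comp h5).contDiffAt
  have h6 : ContDiffAt ℝ 1 f ((fun w : ℝ => ((-(k * w) : ℝ) : ℂ)) 0) := by
    simpa using h3
  have h7 : ContDiffAt ℝ 1 (fun w : ℝ => f ((-(k * w) : ℝ) : ℂ)) 0 :=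
    ContDiffAt.comp (g := f) (f := fun w : ℝ => ((-(k * w) : ℝ) : ℂ)) (0 : ℝ) h6 h4
  exact ContDiffAt.comp (g := fun z : ℂ => z.re) (f := fun w : ℝ => f ((-(k * w) : ℝ) : ℂ)) (0 : ℝ)
    Complex.reCLM.contDiff.contDiffAt h7

/-- `rq t = cg (exp (2 t)) / exp t`. -/
private noncomputable def cg (μ : ℝ) (F : ℕ → ℝ) (y : ℂ → ℂ) (w : ℝ) : ℝ :=
  (1 + (dr F (-w) + dr F (-(w / μ ^ 2))) / (2 * (μ - 1))) / (y ((-w : ℝ) : ℂ)).re

private theorem ca_rq (h : HF μ F) (t : ℝ) :
    rq μ F y t = cg μ F y (Real.exp (2 * t)) / Real.exp t := by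
  have hμ := h.hμ
  have h1 : Real.exp (2 * (t - ell μ)) = Real.exp (2 * t) / μ ^ 2 := by
    have h2 : 2 * (t - ell μ) = 2 * t - (Real.log μ + Real.log μ) := by
      unfold ell
      ring
    rw [h2, Real.exp_sub, Real.exp_add, Real.exp_log (by linarith)]
    ring
  unfold rq rX rY rD cg
  rw [h1]
  rw [div_div]
  congr 1
  ring

private theorem ca_dr (h : HF μ F) (k : ℝ) :
    ContDiffAt ℝ 1 (fun w : ℝ => dr F (-(k * w))) 0 := by
  have hμ := h.hμ
  have hμ2 : 0 < μ ^ 2 := by positivity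
  have h1 := ca_contDiffAt hμ2 h.dd_differentiableOn k
  refine h1.congr_of_eventuallyEq ?_
  have h2 : ∀ᶠ w : ℝ in 𝓝 0, |-(k * w)| < μ ^ 2 := by
    have h3 : Continuous (fun w : ℝ => |-(k * w)|) := by fun_prop
    have h4 : Tendsto (fun w : ℝ => |-(k * w)|) (𝓝 0) (𝓝 0) := by
      have := h3.tendsto 0
      simpa using this
    exact h4.eventually (gt_mem_nhds hμ2)
  filter_upwards [h2] with w hw
  rw [h.dd_ofReal hw, Complex.ofReal_re]

private theorem ca_dr_zero (h : HF μ F) : dr F 0 = 0 := by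
  have hμ := h.hμ
  have h1 := h.dd_ofReal (t := 0) (by simp; positivity)
  rw [Complex.ofReal_zero, h.dd_zero] at h1
  exact_mod_cast h1.symm

private theorem ca_data (h : HF μ F) (hy : HY μ F y) : ∃ w0 L g0 g1 : ℝ, 0 < w0 ∧ 0 ≤ L ∧
    0 < g0 ∧ 0 < g1 ∧
    (∀ w w' : ℝ, 0 ≤ w → w ≤ w0 → 0 ≤ w' → w' ≤ w0 →
      |dr F (-w) - dr F (-w')| ≤ L * |w - w'| ∧
      |cg μ F y w - cg μ F y w'| ≤ L * |w - w'|) ∧
    (∀ w : ℝ, 0 ≤ w → w ≤ w0 → g0 ≤ cg μ F y w ∧ cg μ F y w ≤ g1) := by
  have hμ := h.hμ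
  have hμ2 : 0 < μ ^ 2 := by positivity
  have hd : ContDiffAt ℝ 1 (fun w : ℝ => dr F (-w)) 0 := by
    have := ca_dr h 1
    simpa using this
  have hd2 : ContDiffAt ℝ 1 (fun w : ℝ => dr F (-(w / μ ^ 2))) 0 := by
    have := ca_dr h (1 / μ ^ 2)
    have e : (fun w : ℝ => dr F (-(1 / μ ^ 2 * w))) = (fun w : ℝ => dr F (-(w / μ ^ 2))) := by
      funext w
      congr 2
      ring
    rwa [e] at this
  have hyc : ContDiffAt ℝ 1 (fun w : ℝ => (y ((-w : ℝ) : ℂ)).re) 0 := by
    have := ca_contDiffAt hμ2 hy.an 1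
    simpa using this
  have hy0 : 0 < (y ((-(0 : ℝ) : ℝ) : ℂ)).re := (hy.pos (-0) (by simp; positivity)).1
  have hg : ContDiffAt ℝ 1 (cg μ F y) 0 := by
    unfold cg
    refine ContDiffAt.div ?_ hyc hy0.ne'
    exact contDiffAt_const.add ((hd.add hd2).div_const _)
  have hg0 : 0 < cg μ F y 0 := by
    unfold cg
    have e : -((0 : ℝ) / μ ^ 2) = 0 := by simp
    rw [e, neg_zero, ca_dr_zero h]
    have hy0' : 0 < (y ((0 : ℝ) : ℂ)).re := by simpa using hy0
    simpa using hy0'
  obtain ⟨K1, s1, hs1, hL1⟩ := hd.exists_lipschitzOnWith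
  obtain ⟨K2, s2, hs2, hL2⟩ := hg.exists_lipschitzOnWith
  have hev : ∀ᶠ w : ℝ in 𝓝 0, cg μ F y 0 / 2 ≤ cg μ F y w ∧ cg μ F y w ≤ 2 * cg μ F y 0 := by
    have hc : Tendsto (cg μ F y) (𝓝 0) (𝓝 (cg μ F y 0)) := hg.continuousAt
    have h1 := hc.eventually (lt_mem_nhds (show cg μ F y 0 / 2 < cg μ F y 0 by linarith))
    have h2 := hc.eventually (gt_mem_nhds (show cg μ F y 0 < 2 * cg μ F y 0 by linarith))
    filter_upwards [h1, h2] with w hw1 hw2
    exact ⟨hw1.le, hw2.le⟩
  have hall := (Filter.eventually_mem_set.2 hs1).and ((Filter.eventually_mem_set.2 hs2).and hev)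
  obtain ⟨ε, hε, hball⟩ := Metric.eventually_nhds_iff.1 hall
  refine ⟨ε / 2, (K1 : ℝ) + K2, cg μ F y 0 / 2, 2 * cg μ F y 0, by linarith, by positivity,
    by linarith, by linarith, ?_, ?_⟩
  · intro w w' h0 h1 h0' h1'
    have hw : dist w 0 < ε := by
      rw [Real.dist_eq, sub_zero, abs_of_nonneg h0]; linarith
    have hw' : dist w' 0 < ε := by
      rw [Real.dist_eq, sub_zero, abs_of_nonneg h0']; linarith
    have a1 := hball hw
    have a2 := hball hw'
    have b1 := hL1.dist_le_mul w a1.1 w' a2.1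
    have b2 := hL2.dist_le_mul w a1.2.1 w' a2.2.1
    rw [Real.dist_eq, Real.dist_eq] at b1 b2
    have hK1 : 0 ≤ (K1 : ℝ) := K1.2
    have hK2 : 0 ≤ (K2 : ℝ) := K2.2
    have hn := abs_nonneg (w - w')
    constructor
    · calc |dr F (-w) - dr F (-w')| ≤ K1 * |w - w'| := b1
        _ ≤ ((K1 : ℝ) + K2) * |w - w'| := by nlinarith
    · calc |cg μ F y w - cg μ F y w'| ≤ K2 * |w - w'| := b2
        _ ≤ ((K1 : ℝ) + K2) * |w - w'| := by nlinarith
  · intro w h0 h1
    have hw : dist w 0 < ε := by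
      rw [Real.dist_eq, sub_zero, abs_of_nonneg h0]; linarith
    exact (hball hw).2.2

/-- asymptotics at `-∞`: `rq t = e^{-t} (g₀ + O(e^{2t}))`, `rq' t = -e^{-t}(g₀ + O(e^{2t}))`,
`rD' t = O(e^{2t})`.  The last item: for `a < b ≤ X`, `|rD a - rD b| ≤ K₁ e^{2b} (b-a)` and
`|rq a - rq b| ≥ k e^{-b} (b-a)`. -/
theorem chart_asymp (h : HF μ F) (hy : HY μ F y) : ∃ X c₁ c₂ K : ℝ, X < 0 ∧ 0 < c₁ ∧ 0 < c₂ ∧
    0 < K ∧ StrictAntiOn (rq μ F y) (Set.Iic X) ∧ ContinuousOn (rq μ F y) (Set.Iic X) ∧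
    Tendsto (rq μ F y) atBot atTop ∧
    (∀ t ≤ X, c₁ * Real.exp (-t) ≤ rq μ F y t ∧ rq μ F y t ≤ c₂ * Real.exp (-t)) ∧
    (∀ a ≤ X, ∀ b ≤ X, |rD F a - rD F b| ≤
      K * Real.exp (3 * max a b) * |rq μ F y a - rq μ F y b|) := by
  obtain ⟨w0, L, g0, g1, hw0, hL, hg0, hg1, hlip, hbd⟩ := ca_data h hy
  set w1 : ℝ := min w0 (min (1 / 4) (g0 / (4 * (L + 1)))) with hw1
  have hw1pos : 0 < w1 := by
    rw [hw1]
    refine lt_min hw0 (lt_min (by norm_num) (by positivity))
  have hw10 : w1 ≤ w0 := min_le_left _ _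
  have hw14 : w1 ≤ 1 / 4 := (min_le_right _ _).trans (min_le_left _ _)
  have hw1g : w1 ≤ g0 / (4 * (L + 1)) := (min_le_right _ _).trans (min_le_right _ _)
  have hw1g' : 4 * (L + 1) * w1 ≤ g0 := by
    rw [le_div_iff₀ (by positivity)] at hw1g
    linarith
  set X : ℝ := Real.log w1 / 2 with hX
  have hexpX : Real.exp (2 * X) = w1 := by
    rw [hX, show 2 * (Real.log w1 / 2) = Real.log w1 by ring, Real.exp_log hw1pos]
  have hX0 : X < 0 := by
    have := Real.log_neg hw1pos (by linarith)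
    rw [hX]
    linarith
  have hle : ∀ t ≤ X, Real.exp (2 * t) ≤ w1 := by
    intro t ht
    rw [← hexpX]
    exact Real.exp_le_exp.2 (by linarith)
  have hsq : ∀ t : ℝ, Real.exp (2 * t) = Real.exp t * Real.exp t := by
    intro t
    rw [← Real.exp_add]
    congr 1
    ring
  have key : ∀ a b : ℝ, a < b → b ≤ X →
      g0 / 2 * ((Real.exp b - Real.exp a) / (Real.exp a * Real.exp b)) ≤
        rq μ F y a - rq μ F y b := by
    intro a b hab hb
    have ha : a ≤ X := hab.le.trans hb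
    have hα := Real.exp_pos a
    have hβ := Real.exp_pos b
    have hαβ : Real.exp a < Real.exp b := Real.exp_lt_exp.2 hab
    have e1 := hlip (Real.exp (2 * a)) (Real.exp (2 * b)) (Real.exp_pos _).le
      ((hle a ha).trans hw10) (Real.exp_pos _).le ((hle b hb).trans hw10)
    have e2 := hbd (Real.exp (2 * a)) (Real.exp_pos _).le ((hle a ha).trans hw10)
    rw [ca_rq h, ca_rq h]
    have hβ2 : Real.exp b * Real.exp b ≤ w1 := by rw [← hsq]; exact hle b hb
    rw [hsq a, hsq b] at *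
    set α := Real.exp a
    set β := Real.exp b
    set ga := cg μ F y (α * α)
    set gb := cg μ F y (β * β)
    have e3 : |ga - gb| ≤ L * (β * β - α * α) := by
      have e4 := e1.2
      have e5 : |α * α - β * β| = β * β - α * α := by
        rw [abs_sub_comm, abs_of_nonneg (by nlinarith)]
      rwa [e5] at e4
    have e6 : ga / α - gb / β = (ga * (β - α) + (ga - gb) * α) / (α * β) := by
      field_simp
      ring
    rw [e6, mul_div_assoc', div_le_div_iff_of_pos_right (by positivity)]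
    have e7 := (abs_le.1 e3).1
    have e8 : g0 ≤ ga := e2.1
    have e9 : g0 * (β - α) ≤ ga * (β - α) := mul_le_mul_of_nonneg_right e8 (by linarith)
    have e10 : -(L * (β * β - α * α)) * α ≤ (ga - gb) * α :=
      mul_le_mul_of_nonneg_right e7 hα.le
    have e11 : L * (β * β - α * α) * α ≤ g0 / 2 * (β - α) := by
      have e12 : L * (β * β - α * α) * α = L * ((β + α) * α) * (β - α) := by ring
      rw [e12]
      refine mul_le_mul_of_nonneg_right ?_ (by linarith)
      have e13 : (β + α) * α ≤ 2 * (β * β) := by nlinarith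
      have e14 : L * ((β + α) * α) ≤ L * (2 * (β * β)) := mul_le_mul_of_nonneg_left e13 hL
      have e15 : L * (2 * (β * β)) ≤ L * (2 * w1) :=
        mul_le_mul_of_nonneg_left (by linarith) hL
      nlinarith
    nlinarith
  have hDl : ∀ a b : ℝ, a < b → b ≤ X → |rD F a - rD F b| ≤
      4 * (L + 1) / g0 * Real.exp (3 * b) * (rq μ F y a - rq μ F y b) := by
    intro a b hab hb
    have ha : a ≤ X := hab.le.trans hb
    have hk := key a b hab hb
    have hα := Real.exp_pos a
    have hβ := Real.exp_pos b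
    have hαβ : Real.exp a < Real.exp b := Real.exp_lt_exp.2 hab
    have e1 := (hlip (Real.exp (2 * a)) (Real.exp (2 * b)) (Real.exp_pos _).le
      ((hle a ha).trans hw10) (Real.exp_pos _).le ((hle b hb).trans hw10)).1
    have e2 : |rD F a - rD F b| ≤ L * (Real.exp b * Real.exp b - Real.exp a * Real.exp a) := by
      unfold rD
      rw [hsq a, hsq b] at *
      have e5 : |Real.exp a * Real.exp a - Real.exp b * Real.exp b| =
          Real.exp b * Real.exp b - Real.exp a * Real.exp a := by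
        rw [abs_sub_comm, abs_of_nonneg (by nlinarith)]
      rwa [e5] at e1
    have e3 : Real.exp (3 * b) = Real.exp b * Real.exp b * Real.exp b := by
      rw [← Real.exp_add, ← Real.exp_add]
      congr 1
      ring
    rw [e3]
    set α := Real.exp a
    set β := Real.exp b
    refine e2.trans ?_
    have e4 : L * (β * β - α * α) ≤ 2 * (L + 1) * β * (β - α) := by
      have e5 : L * (β * β - α * α) = L * (β + α) * (β - α) := by ring
      rw [e5]
      refine mul_le_mul_of_nonneg_right ?_ (by linarith)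
      nlinarith
    refine e4.trans ?_
    have e6 : 4 * (L + 1) / g0 * (β * β * β) * (g0 / 2 * ((β - α) / (α * β))) ≤
        4 * (L + 1) / g0 * (β * β * β) * (rq μ F y a - rq μ F y b) :=
      mul_le_mul_of_nonneg_left hk (by positivity)
    refine le_trans ?_ e6
    have e7 : 4 * (L + 1) / g0 * (β * β * β) * (g0 / 2 * ((β - α) / (α * β))) =
        2 * (L + 1) * β * (β - α) * (β / α) := by
      field_simp
      ring
    rw [e7]
    have e8 : 1 ≤ β / α := by
      rw [le_div_iff₀ hα]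
      linarith
    have e9 : 0 ≤ 2 * (L + 1) * β * (β - α) := by
      have : 0 ≤ β - α := by linarith
      positivity
    nlinarith
  have hanti : ∀ a b : ℝ, a < b → b ≤ X → rq μ F y b < rq μ F y a := by
    intro a b hab hb
    have hk := key a b hab hb
    have hαβ : Real.exp a < Real.exp b := Real.exp_lt_exp.2 hab
    have : 0 < g0 / 2 * ((Real.exp b - Real.exp a) / (Real.exp a * Real.exp b)) := by
      have h1 : 0 < Real.exp b - Real.exp a := by linarith
      have h2 := Real.exp_pos a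
      have h3 := Real.exp_pos b
      positivity
    linarith
  have hbound : ∀ t ≤ X, g0 * Real.exp (-t) ≤ rq μ F y t ∧ rq μ F y t ≤ g1 * Real.exp (-t) := by
    intro t ht
    have e2 := hbd (Real.exp (2 * t)) (Real.exp_pos _).le ((hle t ht).trans hw10)
    have hα := Real.exp_pos t
    rw [ca_rq h, Real.exp_neg, ← div_eq_mul_inv, ← div_eq_mul_inv]
    exact ⟨div_le_div_of_nonneg_right e2.1 hα.le, div_le_div_of_nonneg_right e2.2 hα.le⟩
  refine ⟨X, g0, g1, 4 * (L + 1) / g0, hX0, hg0, hg1, by positivity, ?_, ?_, ?_, hbound, ?_⟩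
  · intro a ha b hb hab
    exact hanti a b hab hb
  · have hcg : ContinuousOn (cg μ F y) (Set.Icc 0 w0) := by
      have hlo : LipschitzOnWith (Real.toNNReal L) (cg μ F y) (Set.Icc 0 w0) := by
        refine LipschitzOnWith.of_dist_le_mul ?_
        intro w hw w' hw'
        rw [Real.dist_eq, Real.dist_eq, Real.coe_toNNReal L hL]
        exact (hlip w w' hw.1 hw.2 hw'.1 hw'.2).2
      exact hlo.continuousOn
    have e : rq μ F y = fun t => cg μ F y (Real.exp (2 * t)) / Real.exp t := by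
      funext t
      exact ca_rq h t
    rw [e]
    refine ContinuousOn.div ?_ Real.continuous_exp.continuousOn (fun t _ => (Real.exp_pos t).ne')
    refine hcg.comp (by fun_prop) ?_
    intro t ht
    exact ⟨(Real.exp_pos _).le, (hle t ht).trans hw10⟩
  · have e1 : Tendsto (fun t : ℝ => g0 * Real.exp (-t)) atBot atTop := by
      refine Tendsto.const_mul_atTop hg0 ?_
      exact Real.tendsto_exp_atTop.comp tendsto_neg_atBot_atTop
    refine tendsto_atTop_mono' atBot ?_ e1
    filter_upwards [eventually_le_atBot X] with t ht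
    exact (hbound t ht).1
  · intro a ha b hb
    rcases lt_trichotomy a b with hab | hab | hab
    · rw [max_eq_right hab.le, abs_of_pos (sub_pos.2 (hanti a b hab hb))]
      exact hDl a b hab hb
    · subst hab
      simp
    · rw [max_eq_left hab.le, abs_sub_comm, abs_sub_comm (rq μ F y a),
        abs_of_pos (sub_pos.2 (hanti b a hab ha))]
      exact hDl b a hab ha

theorem rD_tendsto (h : HF μ F) : Tendsto (rD F) atBot (𝓝 0) := by
  have h1 : Tendsto (fun t : ℝ => Real.exp (2 * t)) atBot (𝓝 0) := by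
    have h2 : Tendsto (fun t : ℝ => 2 * t) atBot atBot :=
      Tendsto.const_mul_atBot (by norm_num) tendsto_id
    exact Real.tendsto_exp_atBot.comp h2
  refine squeeze_zero_norm' ?_ h1
  filter_upwards [eventually_le_atBot (0 : ℝ)] with t ht
  have h3 : Real.exp (2 * t) ≤ 1 := Real.exp_le_one_iff.2 (by linarith)
  have h4 : |(-Real.exp (2 * t))| = Real.exp (2 * t) := by
    rw [abs_neg, abs_of_pos (Real.exp_pos _)]
  have h5 := h.abs_dr_le (t := -Real.exp (2 * t)) (by rw [h4]; exact h3)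
  rw [h4] at h5
  exact h5

end EQ2
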