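import Pool.Agent.Lib.MP_226de1_co.LineSys

/-! The chart on the real line near `-∞`, in the form needed for the uniqueness argument. -/

set_option autoImplicit false

namespace EQ2

open Complex Set Filter Topology

variable {μ : ℝ} {F : ℕ → ℝ} {y : ℂ → ℂ}

private theorem cr_lt {t : ℝ} (h : HF μ F) (ht : t < 0) : t < ell μ := by
  have := ell_pos h.hμ
  linarith

private theorem cr_cast (t : ℝ) : (t : ℂ) + (ell μ : ℂ) = ((t + ell μ : ℝ) : ℂ) := by
  push_cast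
  ring

private theorem cr_alg {G q' D : ℝ} (hμ : 1 < μ) (hD : 0 < D)
    (hG : 1 + μ ^ 2 - G = (μ - 1) ^ 2 * (1 + q' ^ 2) / D ^ 2) :
    D = stepD μ G q' ∧ (μ - 1) ^ 2 * (1 + (q' - D) ^ 2) / D ^ 2 = stepG μ G q' := by
  have h3 : 0 < μ - 1 := by linarith
  have h4 : 0 < Real.sqrt (1 + q' ^ 2) := Real.sqrt_pos.2 (by positivity)
  have h5 : 0 ≤ 1 + q' ^ 2 := by positivity
  have hs : Real.sqrt (1 + μ ^ 2 - G) = (μ - 1) * Real.sqrt (1 + q' ^ 2) / D := by
    rw [hG]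
    have : (μ - 1) ^ 2 * (1 + q' ^ 2) / D ^ 2 = ((μ - 1) * Real.sqrt (1 + q' ^ 2) / D) ^ 2 := by
      rw [div_pow, mul_pow, Real.sq_sqrt h5]
    rw [this, Real.sqrt_sq (by positivity)]
  constructor
  · unfold stepD
    rw [hs]
    field_simp
  · unfold stepG
    rw [hs, hG]
    have h6 : 2 * (μ - 1) * ((μ - 1) * Real.sqrt (1 + q' ^ 2) / D) * q' / Real.sqrt (1 + q' ^ 2) =
        2 * (μ - 1) ^ 2 * q' / D := by
      field_simp
    rw [h6]
    field_simp
    ring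

/-- real relations (`HY.qx_shift`, `HY.px_shift`, `HY.qp_rel` on the real line) -/
theorem rq_sub (h : HF μ F) (hy : HY μ F y) {t : ℝ} (ht : t < 0) :
    0 < rq μ F y t - rq μ F y (t + ell μ) := by
  have h1 := hy.qx_shift h (x := (t : ℂ)) (by simpa using ht)
  have hl : t + ell μ < ell μ := by linarith
  rw [cr_cast, hy.qx_ofReal h (cr_lt h ht), hy.qx_ofReal h hl, hy.Yx_ofReal h hl] at h1
  have h2 : rq μ F y t - rq μ F y (t + ell μ) = (μ - 1) / rY y (t + ell μ) := by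
    exact_mod_cast h1
  rw [h2]
  exact div_pos (by linarith [h.hμ]) (hy.rY_pos h hl)

theorem rp_step (h : HF μ F) (hy : HY μ F y) {t : ℝ} (ht : t < 0) :
    rp μ y (t + ell μ) * (rq μ F y t - rq μ F y (t + ell μ)) ^ 2 = 1 := by
  have h1 := hy.px_shift h (x := (t : ℂ)) (by simpa using ht)
  have hl : t + ell μ < ell μ := by linarith
  rw [cr_cast, hy.qx_ofReal h (cr_lt h ht), hy.qx_ofReal h hl, hy.px_ofReal h hl] at h1
  exact_mod_cast h1

theorem rqp_rel (h : HF μ F) (hy : HY μ F y) {t : ℝ} (ht : t < 0) :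
    (1 + rq μ F y t ^ 2) * (rp μ y t + rp μ y (t + ell μ)) = Cc μ := by
  have h1 := hy.qp_rel h (x := (t : ℂ)) (by simpa using ht)
  have hl : t + ell μ < ell μ := by linarith
  rw [cr_cast, hy.qx_ofReal h (cr_lt h ht), hy.px_ofReal h (cr_lt h ht), hy.px_ofReal h hl] at h1
  exact_mod_cast h1

/-- `(μ-1)²(1+q²)p = 1 - D` -/
theorem rG_eq (h : HF μ F) (hy : HY μ F y) {t : ℝ} (ht : t < ell μ) :
    (μ - 1) ^ 2 * (1 + rq μ F y t ^ 2) * rp μ y t = 1 - rD F t := by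
  have h1 := hy.XY_sq h (x := (t : ℂ)) (by simpa using ht)
  rw [h.Xx_ofReal ht, hy.Yx_ofReal h ht, h.Dx_ofReal ht] at h1
  have h2 : rX μ F t ^ 2 + rY y t ^ 2 = 1 - rD F t := by exact_mod_cast h1
  have h3 := hy.rY_pos h ht
  have h4 : μ - 1 ≠ 0 := by linarith [h.hμ]
  rw [← h2]
  unfold rq rp
  field_simp
  ring

/-- one step of the chart, in the same form as `Gs_step`, `dn_eq` -/
theorem rG_step (h : HF μ F) (hy : HY μ F y) {t : ℝ} (ht : t < 0) :
    rq μ F y (t + ell μ) = rq μ F y t - stepD μ (1 - rD F t) (rq μ F y t) ∧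
    1 - rD F (t + ell μ) = stepG μ (1 - rD F t) (rq μ F y t) := by
  have hl : t + ell μ < ell μ := by linarith
  have hD := rq_sub h hy ht
  have hp := rp_step h hy ht
  have hr := rqp_rel h hy ht
  have hG := rG_eq h hy (cr_lt h ht)
  have hG2 := rG_eq h hy hl
  have hm : μ - 1 ≠ 0 := by linarith [h.hμ]
  set q' := rq μ F y t with hq'
  set q := rq μ F y (t + ell μ) with hq
  set D := q' - q with hDd
  have hp2 : rp μ y (t + ell μ) = 1 / D ^ 2 := by
    rw [eq_div_iff (by positivity)]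
    exact hp
  have hkey : 1 + μ ^ 2 - (1 - rD F t) = (μ - 1) ^ 2 * (1 + q' ^ 2) / D ^ 2 := by
    rw [← hG]
    have h5 : (μ - 1) ^ 2 * ((1 + q' ^ 2) * (rp μ y t + rp μ y (t + ell μ))) = 1 + μ ^ 2 := by
      rw [hr]
      unfold Cc
      field_simp
    rw [← h5, hp2]
    ring
  obtain ⟨e1, e2⟩ := cr_alg h.hμ hD hkey
  refine ⟨?_, ?_⟩
  · rw [← e1, hDd]
    ring
  · rw [← hG2, ← e2, hp2, hDd]
    ring

end EQ2
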