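import Pool.Agent.Lib.MP_226de1_co.SqBasic

/-! One-step maps on the positive and on the negative axis, monotonicity, and the explicit
super/sub-solution `Dbar v = (μ²-1) γ v / (1 - γ v)` (`w = γ v`). -/

set_option autoImplicit false

namespace EQ2

noncomputable section

/-- one step on the positive axis: `D(μ² v) = Psi (D v) (D (v/μ²))` -/
def Psi (μ d d' : ℝ) : ℝ := Sr μ d * (2 * (μ - 1) + d + d') - d - 2 * μ * (μ - 1)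

/-- one step on the negative axis (`e = -D`): `e(μ² v) = Ph (e v) (e (v/μ²))` -/
def Ph (μ e e' : ℝ) : ℝ :=
  2 * μ * (μ - 1) - e - Real.sqrt ((μ ^ 2 - e) / (1 + e)) * (2 * (μ - 1) - e - e')

end

theorem Psi_mono {μ : ℝ} (hμ : 1 < μ) {d₁ d₁' d₂ d₂' : ℝ} (h0 : 0 ≤ d₁) (h0' : 0 ≤ d₁')
    (h1 : d₁ ≤ d₂) (h1' : d₁' ≤ d₂') (h2 : d₂ < 1) : Psi μ d₁ d₁' ≤ Psi μ d₂ d₂' := by
  unfold Psi Sr
  have hm : 1 < μ ^ 2 := by nlinarith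
  set s₁ := Real.sqrt ((μ ^ 2 + d₁) / (1 - d₁)) with hs₁
  set s₂ := Real.sqrt ((μ ^ 2 + d₂) / (1 - d₂)) with hs₂
  have hA : (μ ^ 2 + d₁) / (1 - d₁) ≤ (μ ^ 2 + d₂) / (1 - d₂) := by
    rw [div_le_div_iff₀ (by linarith) (by linarith)]
    nlinarith
  have h12 : s₁ ≤ s₂ := Real.sqrt_le_sqrt hA
  have hs1 : 1 ≤ s₁ := by
    rw [hs₁, Real.one_le_sqrt, le_div_iff₀ (by linarith)]
    linarith
  have e1 : s₁ * (2 * (μ - 1) + d₂ + d₂') ≤ s₂ * (2 * (μ - 1) + d₂ + d₂') :=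
    mul_le_mul_of_nonneg_right h12 (by linarith)
  have e2 : 1 * (d₂ - d₁) ≤ s₁ * (d₂ - d₁) := mul_le_mul_of_nonneg_right hs1 (by linarith)
  have e3 : 0 ≤ s₁ * (d₂' - d₁') := mul_nonneg (by linarith) (by linarith)
  nlinarith

/-- `s(e) = sqrt((μ²-e)/(1+e)) ≥ 1` iff `e ≤ (μ²-1)/2`, decreasing; so for `e₁ ≤ e₂`
`s(e₁)(K-e₁) - s(e₂)(K-e₂) ≥ s(e₂)(e₂-e₁) ≥ e₂ - e₁`. -/
theorem Ph_mono {μ : ℝ} (hμ : 1 < μ) {e₁ e₁' e₂ e₂' : ℝ} (h0 : 0 ≤ e₁) (h0' : 0 ≤ e₁')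
    (h1 : e₁ ≤ e₂) (h1' : e₁' ≤ e₂') (h2 : e₂ ≤ (μ ^ 2 - 1) / 2)
    (h3 : e₂ + e₂' ≤ 2 * (μ - 1)) : Ph μ e₁ e₁' ≤ Ph μ e₂ e₂' := by
  unfold Ph
  have hm : 1 < μ ^ 2 := by nlinarith
  set s₁ := Real.sqrt ((μ ^ 2 - e₁) / (1 + e₁)) with hs₁
  set s₂ := Real.sqrt ((μ ^ 2 - e₂) / (1 + e₂)) with hs₂
  have hA : (μ ^ 2 - e₂) / (1 + e₂) ≤ (μ ^ 2 - e₁) / (1 + e₁) := by
    rw [div_le_div_iff₀ (by linarith) (by linarith)]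
    nlinarith
  have h12 : s₂ ≤ s₁ := Real.sqrt_le_sqrt hA
  have hs1 : 1 ≤ s₂ := by
    rw [hs₂, Real.one_le_sqrt, le_div_iff₀ (by linarith)]
    linarith
  have e1 : s₂ * (2 * (μ - 1) - e₁ - e₁') ≤ s₁ * (2 * (μ - 1) - e₁ - e₁') :=
    mul_le_mul_of_nonneg_right h12 (by linarith)
  have e2 : 1 * (e₂ - e₁) ≤ s₂ * (e₂ - e₁) := mul_le_mul_of_nonneg_right hs1 (by linarith)
  have e3 : 0 ≤ s₂ * (e₂' - e₁') := mul_nonneg (by linarith) (by linarith)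
  nlinarith

/-- With `m = μ²`, `A = 2m + (μ-1)(m+1) w - 2μ w²`, `B = 2μ - (μ-1)(m+1) w - 2 m w²`:
`B² (m - w) - A² (1 - m w) = (μ-1)³ (μ+1)⁵ w² (1+w)` and
`2(μ-1)+Dbar+Dbar₋ = (μ-1) A/((1-w)(m-w))`, `Dbar₊ + Dbar + 2μ(μ-1) = (μ-1) B/((1-w)(1-mw))`,
`(m + Dbar)/(1 - Dbar) = (m-w)/(1-mw)`. -/
theorem Psi_bar {μ : ℝ} (hμ : 1 < μ) {w : ℝ} (h0 : 0 ≤ w) (h1 : μ ^ 2 * w < 1) :
    Psi μ ((μ ^ 2 - 1) * w / (1 - w)) ((μ ^ 2 - 1) * w / (μ ^ 2 - w)) ≤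
      (μ ^ 2 - 1) * (μ ^ 2 * w) / (1 - μ ^ 2 * w) := by
  have hm : 1 < μ ^ 2 := by nlinarith
  have hw1 : w < 1 := by nlinarith
  have a1 : 0 < 1 - w := by linarith
  have a2 : 0 < μ ^ 2 - w := by linarith
  have a3 : 0 < 1 - μ ^ 2 * w := by linarith
  have a4 : 0 < μ - 1 := by linarith
  have hq : (μ ^ 2 + (μ ^ 2 - 1) * w / (1 - w)) / (1 - (μ ^ 2 - 1) * w / (1 - w)) =
      (μ ^ 2 - w) / (1 - μ ^ 2 * w) := by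
    have e1 : μ ^ 2 + (μ ^ 2 - 1) * w / (1 - w) = (μ ^ 2 - w) / (1 - w) := by
      field_simp
      ring
    have e2 : 1 - (μ ^ 2 - 1) * w / (1 - w) = (1 - μ ^ 2 * w) / (1 - w) := by
      field_simp
      ring
    rw [e1, e2]
    field_simp
  unfold Psi Sr
  rw [hq]
  set S := Real.sqrt ((μ ^ 2 - w) / (1 - μ ^ 2 * w)) with hS
  have hS2 : S ^ 2 = (μ ^ 2 - w) / (1 - μ ^ 2 * w) := Real.sq_sqrt (by positivity)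
  have hX : 2 * (μ - 1) + (μ ^ 2 - 1) * w / (1 - w) + (μ ^ 2 - 1) * w / (μ ^ 2 - w) =
      (μ - 1) * (2 * μ ^ 2 + (μ - 1) * (μ ^ 2 + 1) * w - 2 * μ * w ^ 2) /
        ((1 - w) * (μ ^ 2 - w)) := by
    field_simp
    ring
  have hY : (μ ^ 2 - 1) * (μ ^ 2 * w) / (1 - μ ^ 2 * w) + (μ ^ 2 - 1) * w / (1 - w) +
      2 * μ * (μ - 1) =
      (μ - 1) * (2 * μ - (μ - 1) * (μ ^ 2 + 1) * w - 2 * μ ^ 2 * w ^ 2) /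
        ((1 - w) * (1 - μ ^ 2 * w)) := by
    field_simp
    ring
  have hm0 : 0 ≤ μ ^ 2 - 1 := by linarith
  have hY0 : 0 ≤ (μ ^ 2 - 1) * (μ ^ 2 * w) / (1 - μ ^ 2 * w) + (μ ^ 2 - 1) * w / (1 - w) +
      2 * μ * (μ - 1) := by
    have : 0 ≤ (μ ^ 2 - 1) * (μ ^ 2 * w) / (1 - μ ^ 2 * w) := by positivity
    have : 0 ≤ (μ ^ 2 - 1) * w / (1 - w) := by positivity
    have : 0 ≤ 2 * μ * (μ - 1) := by nlinarith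
    linarith
  suffices h : S * (2 * (μ - 1) + (μ ^ 2 - 1) * w / (1 - w) + (μ ^ 2 - 1) * w / (μ ^ 2 - w)) ≤
      (μ ^ 2 - 1) * (μ ^ 2 * w) / (1 - μ ^ 2 * w) + (μ ^ 2 - 1) * w / (1 - w) +
      2 * μ * (μ - 1) by linarith
  refine (le_abs_self _).trans (abs_le_of_sq_le_sq ?_ hY0)
  rw [mul_pow, hS2, hX, hY, ← sub_nonneg]
  have key : ((μ - 1) * (2 * μ - (μ - 1) * (μ ^ 2 + 1) * w - 2 * μ ^ 2 * w ^ 2) /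
        ((1 - w) * (1 - μ ^ 2 * w))) ^ 2 - (μ ^ 2 - w) / (1 - μ ^ 2 * w) *
      ((μ - 1) * (2 * μ ^ 2 + (μ - 1) * (μ ^ 2 + 1) * w - 2 * μ * w ^ 2) /
        ((1 - w) * (μ ^ 2 - w))) ^ 2 =
      (μ - 1) ^ 5 * (μ + 1) ^ 5 * w ^ 2 * (1 + w) /
        ((1 - w) ^ 2 * (1 - μ ^ 2 * w) ^ 2 * (μ ^ 2 - w)) := by
    field_simp
    ring
  rw [key]
  have : 0 < μ + 1 := by linarith
  positivity

/-- the same at `w = -σ`, `0 ≤ σ ≤ 1` (`B ≥ 0` there, since `B` is concave in `w` with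
`B(0) = 2μ`, `B(-1) = (μ-1)³`). -/
theorem Ph_bar {μ : ℝ} (hμ : 1 < μ) {σ : ℝ} (h0 : 0 ≤ σ) (h1 : σ ≤ 1) :
    (μ ^ 2 - 1) * (μ ^ 2 * σ) / (1 + μ ^ 2 * σ) ≤
      Ph μ ((μ ^ 2 - 1) * σ / (1 + σ)) ((μ ^ 2 - 1) * σ / (μ ^ 2 + σ)) := by
  have hm : 1 < μ ^ 2 := by nlinarith
  have hμ0 : 0 < μ := by linarith
  have a1 : 0 < 1 + σ := by linarith
  have a2 : 0 < μ ^ 2 + σ := by linarith
  have a3 : 0 < 1 + μ ^ 2 * σ := by positivity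
  have a4 : 0 < μ - 1 := by linarith
  have hq : (μ ^ 2 - (μ ^ 2 - 1) * σ / (1 + σ)) / (1 + (μ ^ 2 - 1) * σ / (1 + σ)) =
      (μ ^ 2 + σ) / (1 + μ ^ 2 * σ) := by
    have e1 : μ ^ 2 - (μ ^ 2 - 1) * σ / (1 + σ) = (μ ^ 2 + σ) / (1 + σ) := by
      field_simp
      ring
    have e2 : 1 + (μ ^ 2 - 1) * σ / (1 + σ) = (1 + μ ^ 2 * σ) / (1 + σ) := by
      field_simp
      ring
    rw [e1, e2]
    field_simp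
  unfold Ph
  rw [hq]
  set S := Real.sqrt ((μ ^ 2 + σ) / (1 + μ ^ 2 * σ)) with hS
  have hS2 : S ^ 2 = (μ ^ 2 + σ) / (1 + μ ^ 2 * σ) := Real.sq_sqrt (by positivity)
  have hX : 2 * (μ - 1) - (μ ^ 2 - 1) * σ / (1 + σ) - (μ ^ 2 - 1) * σ / (μ ^ 2 + σ) =
      (μ - 1) * (2 * μ ^ 2 - (μ - 1) * (μ ^ 2 + 1) * σ - 2 * μ * σ ^ 2) /
        ((1 + σ) * (μ ^ 2 + σ)) := by
    field_simp
    ring
  have hY : 2 * μ * (μ - 1) - (μ ^ 2 - 1) * σ / (1 + σ) -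
      (μ ^ 2 - 1) * (μ ^ 2 * σ) / (1 + μ ^ 2 * σ) =
      (μ - 1) * (2 * μ + (μ - 1) * (μ ^ 2 + 1) * σ - 2 * μ ^ 2 * σ ^ 2) /
        ((1 + σ) * (1 + μ ^ 2 * σ)) := by
    field_simp
    ring
  have hB : 0 ≤ 2 * μ + (μ - 1) * (μ ^ 2 + 1) * σ - 2 * μ ^ 2 * σ ^ 2 := by
    have e1 : σ ^ 2 ≤ σ := by nlinarith
    have e2 : 2 * μ + (μ - 1) * (μ ^ 2 + 1) * σ - 2 * μ ^ 2 * σ =
        2 * μ * (1 - σ) + (μ - 1) ^ 3 * σ := by ring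
    have e3 : 0 ≤ 2 * μ * (1 - σ) := mul_nonneg (by linarith) (by linarith)
    have e4 : 0 ≤ (μ - 1) ^ 3 * σ := by positivity
    nlinarith
  have hY0 : 0 ≤ 2 * μ * (μ - 1) - (μ ^ 2 - 1) * σ / (1 + σ) -
      (μ ^ 2 - 1) * (μ ^ 2 * σ) / (1 + μ ^ 2 * σ) := by
    rw [hY]
    exact div_nonneg (mul_nonneg a4.le hB) (by positivity)
  suffices h : S * (2 * (μ - 1) - (μ ^ 2 - 1) * σ / (1 + σ) - (μ ^ 2 - 1) * σ / (μ ^ 2 + σ)) ≤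
      2 * μ * (μ - 1) - (μ ^ 2 - 1) * σ / (1 + σ) -
      (μ ^ 2 - 1) * (μ ^ 2 * σ) / (1 + μ ^ 2 * σ) by linarith
  refine (le_abs_self _).trans (abs_le_of_sq_le_sq ?_ hY0)
  rw [mul_pow, hS2, hX, hY, ← sub_nonneg]
  have key : ((μ - 1) * (2 * μ + (μ - 1) * (μ ^ 2 + 1) * σ - 2 * μ ^ 2 * σ ^ 2) /
        ((1 + σ) * (1 + μ ^ 2 * σ))) ^ 2 - (μ ^ 2 + σ) / (1 + μ ^ 2 * σ) *
      ((μ - 1) * (2 * μ ^ 2 - (μ - 1) * (μ ^ 2 + 1) * σ - 2 * μ * σ ^ 2) /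
        ((1 + σ) * (μ ^ 2 + σ))) ^ 2 =
      (μ - 1) ^ 5 * (μ + 1) ^ 5 * σ ^ 2 * (1 - σ) /
        ((1 + σ) ^ 2 * (1 + μ ^ 2 * σ) ^ 2 * (μ ^ 2 + σ)) := by
    field_simp
    ring
  rw [key]
  have e1 : 0 < μ + 1 := by linarith
  have e2 : 0 ≤ 1 - σ := by linarith
  positivity

end EQ2
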