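import Pool.Agent.Lib.MP_226de1_co.LoopAll

/-! Consequences of the quadrant loop on `Re x < ℓ/2`. -/

set_option autoImplicit false

namespace EQ2

open Complex Set Filter Topology

variable {μ : ℝ} {F : ℕ → ℝ} {y : ℂ → ℂ}

private theorem conseq_half (h : HF μ F) : ell μ / 2 < ell μ := by
  have := ell_pos h.hμ
  linarith

theorem P1_le (h : HF μ F) (hy : HY μ F y) {x : ℂ} (hx : x.re < ell μ / 2) (h0 : 0 ≤ x.im)
    (h1 : x.im ≤ Real.pi / 2) : (Dx F x).im ≤ 0 := by
  have hr : x.re - ell μ / 2 < 0 := by linarith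
  exact QB_P1 h hy hr (QB_all h hy hr.le) x (by linarith) h0 h1

private theorem conseq_nhds {x : ℂ} (hx : x.re < ell μ / 2) (h0 : 0 < x.im)
    (h1 : x.im < Real.pi / 2) :
    ∀ᶠ z in 𝓝 x, z.re < ell μ / 2 ∧ 0 ≤ z.im ∧ z.im ≤ Real.pi / 2 := by
  have e1 : ∀ᶠ z : ℂ in 𝓝 x, z.re < ell μ / 2 :=
    Complex.continuous_re.continuousAt.eventually (gt_mem_nhds hx)
  have e2 : ∀ᶠ z : ℂ in 𝓝 x, 0 < z.im :=
    Complex.continuous_im.continuousAt.eventually (lt_mem_nhds h0)
  have e3 : ∀ᶠ z : ℂ in 𝓝 x, z.im < Real.pi / 2 :=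
    Complex.continuous_im.continuousAt.eventually (gt_mem_nhds h1)
  filter_upwards [e1, e2, e3] with z a b c
  exact ⟨a, b.le, c.le⟩

private theorem conseq_open (b : ℝ) : IsOpen {z : ℂ | z.re < b} :=
  isOpen_lt Complex.continuous_re continuous_const

/-- strict version, by `im_neg_of_nonpos`, `Dx_not_loc_const` -/
theorem P1_lt (h : HF μ F) (hy : HY μ F y) {x : ℂ} (hx : x.re < ell μ / 2) (h0 : 0 < x.im)
    (h1 : x.im < Real.pi / 2) : (Dx F x).im < 0 := by
  have hl := conseq_half h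
  have hxl : x.re < ell μ := by linarith
  have han : AnalyticAt ℂ (Dx F) x := by
    have hd : DifferentiableOn ℂ (Dx F) {z : ℂ | z.re < ell μ} := fun z hz =>
      (h.Dx_differentiableAt hz).differentiableWithinAt
    exact hd.analyticAt ((conseq_open _).mem_nhds hxl)
  refine im_neg_of_nonpos han ?_ (Dx_not_loc_const h hxl)
  filter_upwards [conseq_nhds hx h0 h1] with z hz
  exact P1_le h hy hz.1 hz.2.1 hz.2.2

theorem p_im_nonneg (h : HF μ F) (hy : HY μ F y) {x : ℂ} (hx : x.re < ell μ / 2)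
    (h0 : 0 ≤ x.im) (h1 : x.im ≤ Real.pi / 2) : 0 ≤ (px μ y x).im := by
  have hr : x.re - ell μ / 2 < 0 := by linarith
  exact QB_p h hy hr (QB_all h hy hr.le) x (by linarith) h0 h1

private theorem p_im_pos (h : HF μ F) (hy : HY μ F y) {x : ℂ} (hx : x.re < ell μ / 2)
    (h0 : 0 < x.im) (h1 : x.im < Real.pi / 2) : 0 < (px μ y x).im := by
  have hl := conseq_half h
  have hxl : x.re < ell μ := by linarith
  have han : AnalyticAt ℂ (fun z => - px μ y z) x := by
    have hd : DifferentiableOn ℂ (px μ y) {z : ℂ | z.re < ell μ} := fun z hz =>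
      (HY.px_differentiableAt h hy hz).differentiableWithinAt
    exact (hd.analyticAt ((conseq_open _).mem_nhds hxl)).neg
  have hneg : (- px μ y x).im < 0 := by
    refine im_neg_of_nonpos (f := fun z => - px μ y z) han ?_ ?_
    · filter_upwards [conseq_nhds hx h0 h1] with z hz
      rw [Complex.neg_im]
      have := p_im_nonneg h hy hz.1 hz.2.1 hz.2.2
      linarith
    · intro hc
      apply px_not_loc_const h hy hxl
      filter_upwards [hc] with z hz
      exact neg_injective hz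
  rw [Complex.neg_im] at hneg
  linarith

/-- `Re Y > 0`, `Im Y ≥ 0` for `0 ≤ Im x < π/2` -/
theorem Y_Q1 (h : HF μ F) (hy : HY μ F y) {x : ℂ} (hx : x.re < ell μ / 2) (h0 : 0 ≤ x.im)
    (h1 : x.im < Real.pi / 2) : 0 < (Yx y x).re ∧ 0 ≤ (Yx y x).im := by
  have hl := conseq_half h
  have hr : x.re - ell μ / 2 < 0 := by linarith
  obtain ⟨hre, him⟩ := QB_Y h hy hr (QB_all h hy hr.le) x (by linarith) h0 h1.le
  refine ⟨?_, him⟩
  rcases lt_or_eq_of_le h0 with h2 | h2
  · rcases lt_or_eq_of_le hre with h3 | h3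
    · exact h3
    · exfalso
      have hp := p_im_pos h hy hx h2 h1
      have h4 : (px μ y x).im = 0 := by
        have hY : Yx y x = Complex.I * ((Yx y x).im : ℂ) := by
          apply Complex.ext
          · simp [← h3]
          · simp
        have h5 : px μ y x = ((-((Yx y x).im / (μ - 1)) ^ 2 : ℝ) : ℂ) := by
          unfold px
          rw [hY]
          push_cast
          rw [mul_div_assoc, mul_pow, Complex.I_sq]
          simp
        rw [h5, Complex.ofReal_im]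
      linarith
  · have hxr : x = ((x.re : ℝ) : ℂ) := by
      apply Complex.ext
      · simp
      · simp [← h2]
    rw [hxr, HY.Yx_ofReal h hy (by linarith), Complex.ofReal_re]
    exact HY.rY_pos h hy (by linarith)

/-- `q' ∈ Q2` on `Re x ≤ 0` -/
theorem deriv_q_Q2 (h : HF μ F) (hy : HY μ F y) {x : ℂ} (hx : x.re ≤ 0) (h0 : 0 ≤ x.im)
    (h1 : x.im ≤ Real.pi / 2) :
    (deriv (qx μ F y) x).re ≤ 0 ∧ 0 ≤ (deriv (qx μ F y) x).im := by
  have hl := ell_pos h.hμ
  have hstrict : ∀ z : ℂ, z.re < 0 → 0 ≤ z.im → z.im ≤ Real.pi / 2 →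
      (deriv (qx μ F y) z).re ≤ 0 ∧ 0 ≤ (deriv (qx μ F y) z).im := fun z hz h2 h3 =>
    QB_deriv h hy hz (QB_all h hy hz.le) z le_rfl h2 h3
  have hcont : ContinuousAt (deriv (qx μ F y)) x := by
    have hd : DifferentiableOn ℂ (qx μ F y) {z : ℂ | z.re < ell μ} := fun z hz =>
      (HY.qx_differentiableAt h hy hz).differentiableWithinAt
    have h2 := hd.deriv (conseq_open _)
    have h3 : x.re < ell μ := by linarith
    exact (h2.differentiableAt ((conseq_open _).mem_nhds h3)).continuousAt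
  have hpath : Tendsto (fun ε : ℝ => (⟨x.re - ε, x.im⟩ : ℂ)) (𝓝[>] 0) (𝓝 x) := by
    have h2 : Continuous (fun ε : ℝ => x - (ε : ℂ)) :=
      continuous_const.sub Complex.continuous_ofReal
    have h3 : Tendsto (fun ε : ℝ => x - (ε : ℂ)) (𝓝[>] 0) (𝓝 (x - ((0 : ℝ) : ℂ))) :=
      (h2.tendsto 0).mono_left nhdsWithin_le_nhds
    rw [Complex.ofReal_zero, sub_zero] at h3
    refine h3.congr fun ε => ?_
    apply Complex.ext
    · simp
    · simp
  have hlim := hcont.tendsto.comp hpath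
  have hev : ∀ᶠ ε : ℝ in 𝓝[>] 0, 0 < ε := self_mem_nhdsWithin
  constructor
  · refine le_of_tendsto ((Complex.continuous_re.tendsto _).comp hlim) ?_
    filter_upwards [hev] with ε hε
    refine (hstrict ⟨x.re - ε, x.im⟩ ?_ h0 h1).1
    show x.re - ε < 0
    linarith
  · refine ge_of_tendsto ((Complex.continuous_im.tendsto _).comp hlim) ?_
    filter_upwards [hev] with ε hε
    refine (hstrict ⟨x.re - ε, x.im⟩ ?_ h0 h1).2
    show x.re - ε < 0
    linarith

theorem rD_strictAnti' (h : HF μ F) (hy : HY μ F y) : StrictAntiOn (rD F) (Set.Iio (ell μ / 2)) :=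
  rD_strictAnti h (conseq_half h).le fun _ hx h0 h1 => P1_le h hy hx h0 h1

theorem rD_neg' (h : HF μ F) (hy : HY μ F y) {t : ℝ} (ht : t < ell μ / 2) : rD F t < 0 :=
  rD_neg h (conseq_half h).le (fun _ hx h0 h1 => P1_le h hy hx h0 h1) ht

private theorem conseq_vert {f : ℂ → ℂ} {c s : ℝ} (hf : DifferentiableAt ℂ f ⟨c, s⟩) :
    HasDerivAt (fun s : ℝ => (f ⟨c, s⟩).re) (-(deriv f ⟨c, s⟩).im) s := by
  have h1 : HasDerivAt (fun s : ℝ => (⟨c, s⟩ : ℂ)) Complex.I s := by
    have h2 : HasDerivAt (fun s : ℝ => (c : ℂ) + (s : ℂ) * Complex.I) (0 + 1 * Complex.I) s :=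
      (hasDerivAt_const s (c : ℂ)).add (Complex.ofRealCLM.hasDerivAt.mul_const Complex.I)
    rw [zero_add, one_mul] at h2
    refine h2.congr_of_eventuallyEq (Eventually.of_forall fun t => ?_)
    apply Complex.ext
    · simp
    · simp
  have h3 : HasDerivAt (fun s : ℝ => f ⟨c, s⟩) (Complex.I • deriv f ⟨c, s⟩) s :=
    HasDerivAt.scomp (h := fun s : ℝ => (⟨c, s⟩ : ℂ)) s hf.hasDerivAt h1
  have h4 := Complex.reCLM.hasFDerivAt.comp_hasDerivAt s h3
  have h5 : Complex.reCLM (Complex.I • deriv f ⟨c, s⟩) = -(deriv f ⟨c, s⟩).im := by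
    simp
  rw [h5] at h4
  exact h4

/-- `q > 0` on the real half line `t ≤ 0`.  At `t = 0`: `Re q (i s)` is nonincreasing in `s`
(`deriv_q_Q2`), vanishes at `s = π/2` with negative derivative; for `t < 0` use that `rq` is
antitone on `t ≤ 0` (`deriv_q_Q2` on the real axis). -/
theorem rq_pos (h : HF μ F) (hy : HY μ F y) {t : ℝ} (ht : t ≤ 0) : 0 < rq μ F y t := by
  have hl := ell_pos h.hμ
  have htl : t < ell μ := by linarith
  have hpi : 0 < Real.pi / 2 := by positivity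
  have hdiff : ∀ s : ℝ, DifferentiableAt ℂ (qx μ F y) ⟨t, s⟩ := fun s =>
    HY.qx_differentiableAt h hy htl
  obtain ⟨g, hg⟩ : ∃ g : ℝ → ℝ, g = fun s : ℝ => (qx μ F y ⟨t, s⟩).re := ⟨_, rfl⟩
  have hgd : ∀ s, HasDerivAt g (-(deriv (qx μ F y) ⟨t, s⟩).im) s := by
    intro s; rw [hg]; exact conseq_vert (hdiff s)
  have hanti : AntitoneOn g (Icc 0 (Real.pi / 2)) := by
    refine antitoneOn_of_deriv_nonpos (convex_Icc _ _)
      (fun s _ => (hgd s).continuousAt.continuousWithinAt)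
      (fun s _ => (hgd s).differentiableAt.differentiableWithinAt) ?_
    intro s hs
    rw [interior_Icc] at hs
    rw [(hgd s).deriv]
    have := (deriv_q_Q2 h hy (x := ⟨t, s⟩) ht hs.1.le hs.2.le).2
    linarith
  have hgtop : g (Real.pi / 2) = 0 := by
    rw [hg]
    have h1 := HY.qx_top h hy htl
    show (qx μ F y (pt t (Real.pi / 2))).re = 0
    rw [h1]
    simp
  have hdtop : -(deriv (qx μ F y) ⟨t, Real.pi / 2⟩).im < 0 := by
    have := HY.deriv_qx_top_im h hy ht
    linarith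
  have hslope := hasDerivAt_iff_tendsto_slope.mp (hgd (Real.pi / 2))
  have hev1 : ∀ᶠ s in 𝓝[≠] (Real.pi / 2), slope g (Real.pi / 2) s < 0 :=
    hslope.eventually (gt_mem_nhds hdtop)
  have hev2 : ∀ᶠ s in 𝓝[<] (Real.pi / 2), slope g (Real.pi / 2) s < 0 :=
    hev1.filter_mono (nhdsWithin_mono _ fun s hs => ne_of_lt hs)
  have hev3 : ∀ᶠ s in 𝓝[<] (Real.pi / 2), 0 < s :=
    mem_nhdsWithin_of_mem_nhds (lt_mem_nhds hpi)
  have hev4 : ∀ᶠ s in 𝓝[<] (Real.pi / 2), s < Real.pi / 2 := self_mem_nhdsWithin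
  obtain ⟨s, hs1, hs2, hs3⟩ := (hev2.and (hev3.and hev4)).exists
  have hgs : 0 < g s := by
    rw [slope_def_field, hgtop, sub_zero, div_neg_iff] at hs1
    rcases hs1 with h1 | h1
    · exact h1.1
    · linarith [h1.2]
  have hg0 : g s ≤ g 0 := hanti ⟨le_rfl, hpi.le⟩ ⟨hs2.le, hs3.le⟩ hs2.le
  have h1 : g 0 = rq μ F y t := by
    rw [hg]
    have h2 : (⟨t, 0⟩ : ℂ) = (t : ℂ) := rfl
    show (qx μ F y ⟨t, 0⟩).re = rq μ F y t
    rw [h2, HY.qx_ofReal h hy htl, Complex.ofReal_re]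
  rw [← h1]
  linarith

theorem rX_pos (h : HF μ F) (hy : HY μ F y) {t : ℝ} (ht : t ≤ 0) : 0 < rX μ F t := by
  have hl := ell_pos h.hμ
  have h1 := rq_pos h hy ht
  have h2 := HY.rY_pos h hy (t := t) (by linarith)
  unfold rq at h1
  exact (div_pos_iff_of_pos_right h2).mp h1

end EQ2
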