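import Pool.Agent.Lib.MP_226de1_co.LocalExist2

/-! Global chart: extend the local solution and rescale so that `dd F 1 = 1`.

Let `a` be the local solution.  `ρ* = sup {ρ ≥ 0 : ∑ a n ρ^n converges and is < 1}`; `ρ* ≤ 1` since
`a 1 = 1`.  On `|v| < ρ*`, `|dd a v| < 1` and
`Φ(v) = Sq (dd a v) (2(μ-1) + dd a v + dd a (v/μ²)) - dd a v - 2μ(μ-1)
      = 2(μ-1)(S-μ) + (S-1) D + S D₋` is `NNS ρ*` (`NNS.comp`, `NNS_Sq`), and equals
`dd a (μ² v)` near `0`; so by `NNS.unique` its coefficients are `a n μ^{2n}`, hence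
`∑ a n (μ²ρ)^n` converges for `ρ < ρ*`, and the functional equation holds on `|v| < ρ*`.
By continuity `∑ a n ρ*^n = 1`.  Put `F n = a n ρ*^n`. -/

set_option autoImplicit false

namespace EQ2

open Complex Set Filter Topology

private theorem ge_sub_const {r : ℝ} {f : ℂ → ℂ} (hr : 0 < r) (hf : NNS r f) {c : ℝ}
    (hc : c ≤ (f 0).re) : NNS r (fun z => f z - (c : ℂ)) := by
  obtain ⟨a, ha, hs⟩ := hf
  have h0 : (f 0).re = a 0 := by
    have h1 := hs 0 (by simpa using hr)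
    have h2 : HasSum (fun n => (a n : ℂ) * (0 : ℂ) ^ n) ((a 0 : ℂ) * (0 : ℂ) ^ 0) := by
      apply hasSum_single 0
      intro n hn
      simp [zero_pow hn]
    rw [h1.unique h2]
    simp
  refine ⟨fun n => a n - (if n = 0 then c else 0), ?_, ?_⟩
  · intro n
    by_cases hn : n = 0
    · subst hn
      simp only [if_true]
      linarith
    · simp only [hn, if_false, sub_zero]
      exact ha n
  · intro z hz
    have h1 := hs z hz
    have h2 : HasSum (fun n : ℕ => ((if n = 0 then c else 0 : ℝ) : ℂ) * z ^ n) (c : ℂ) := by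
      have h3 : HasSum (fun n : ℕ => ((if n = 0 then c else 0 : ℝ) : ℂ) * z ^ n)
          (((if (0 : ℕ) = 0 then c else 0 : ℝ) : ℂ) * z ^ 0) := by
        apply hasSum_single 0
        intro n hn
        simp [hn]
      simpa using h3
    have h4 := h1.sub h2
    have h5 : (fun n : ℕ => ((a n - (if n = 0 then c else 0) : ℝ) : ℂ) * z ^ n) =
        fun n => (a n : ℂ) * z ^ n - ((if n = 0 then c else 0 : ℝ) : ℂ) * z ^ n := by
      funext n
      rw [Complex.ofReal_sub, sub_mul]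
    rw [h5]
    exact h4

private theorem ge_norm_term (a : ℕ → ℝ) (ha : ∀ n, 0 ≤ a n) (z : ℂ) (n : ℕ) :
    ‖(a n : ℂ) * z ^ n‖ = a n * ‖z‖ ^ n := by
  rw [norm_mul, norm_pow, Complex.norm_real, Real.norm_of_nonneg (ha n)]

private theorem ge_hasSum {a : ℕ → ℝ} (ha : ∀ n, 0 ≤ a n) {z : ℂ}
    (hs : Summable (fun n => a n * ‖z‖ ^ n)) :
    HasSum (fun n => (a n : ℂ) * z ^ n) (dd a z) := by
  have h1 : Summable (fun n => (a n : ℂ) * z ^ n) := by
    apply Summable.of_norm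
    simpa only [ge_norm_term a ha z] using hs
  exact h1.hasSum

private theorem ge_dd_ofReal (a : ℕ → ℝ) (t : ℝ) :
    dd a (t : ℂ) = ((∑' n, a n * t ^ n : ℝ) : ℂ) := by
  unfold dd
  rw [Complex.ofReal_tsum]
  refine tsum_congr fun n => ?_
  push_cast
  ring

private theorem ge_Sq_zero {μ : ℝ} (hμ : 1 < μ) : Sq μ 0 = (μ : ℂ) := by
  unfold Sq
  have h1 : (((μ : ℂ) ^ 2 + 0) / (1 - 0)) = ((μ ^ 2 : ℝ) : ℂ) := by
    push_cast
    ring
  rw [h1, ← Complex.ofReal_log (by positivity), Real.log_pow]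
  have h2 : (((2 : ℕ) : ℝ) * Real.log μ : ℝ) = 2 * Real.log μ := by norm_num
  rw [h2]
  have h3 : ((2 * Real.log μ : ℝ) : ℂ) / 2 = ((Real.log μ : ℝ) : ℂ) := by
    push_cast
    ring
  rw [h3, ← Complex.ofReal_exp, Real.exp_log (by linarith)]

/-- extension step -/
theorem extend_radius {μ r₀ R : ℝ} (hμ : 1 < μ) (hr₀ : 0 < r₀) (hR : 0 < R) {a : ℕ → ℝ} (h0 : a 0 = 0)
    (ha : ∀ n, 0 ≤ a n)
    (hs : ∀ t : ℝ, 0 ≤ t → t < R → Summable (fun n => a n * t ^ n) ∧ ∑' n, a n * t ^ n < 1)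
    (hfe : ∀ v : ℂ, ‖v‖ < r₀ →
        dd a ((μ : ℂ) ^ 2 * v) + dd a v + 2 * (μ : ℂ) * ((μ : ℂ) - 1) =
          Sq μ (dd a v) * (2 * ((μ : ℂ) - 1) + dd a v + dd a (v / (μ : ℂ) ^ 2))) :
    (∀ t : ℝ, 0 ≤ t → t < μ ^ 2 * R → Summable (fun n => a n * t ^ n)) ∧
    ∀ v : ℂ, ‖v‖ < R →
        dd a ((μ : ℂ) ^ 2 * v) + dd a v + 2 * (μ : ℂ) * ((μ : ℂ) - 1) =
          Sq μ (dd a v) * (2 * ((μ : ℂ) - 1) + dd a v + dd a (v / (μ : ℂ) ^ 2)) := by
  have hμ0 : (0 : ℝ) < μ := by linarith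
  have hm : (0 : ℝ) < μ ^ 2 := by positivity
  have hNa : NNS R (dd a) := ⟨a, ha, fun z hz => ge_hasSum ha (hs _ (norm_nonneg z) hz).1⟩
  have hlt : ∀ t : ℝ, 0 ≤ t → t < R → (dd a (t : ℂ)).re < 1 := by
    intro t h1 h2
    rw [ge_dd_ofReal, Complex.ofReal_re]
    exact (hs t h1 h2).2
  have hS1 : NNS R (fun v => Sq μ (dd a v) - (μ : ℂ)) := by
    have h1 : NNS 1 (fun d => Sq μ d - ((μ : ℝ) : ℂ)) :=
      ge_sub_const one_pos (NNS_Sq hμ) (by rw [ge_Sq_zero hμ, Complex.ofReal_re])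
    exact NNS.comp h1 hNa hlt
  have hS2 : NNS R (fun v => Sq μ (dd a v) - 1) := by
    have h1 : NNS 1 (fun d => Sq μ d - ((1 : ℝ) : ℂ)) :=
      ge_sub_const one_pos (NNS_Sq hμ) (by rw [ge_Sq_zero hμ, Complex.ofReal_re]; linarith)
    have h2 := NNS.comp h1 hNa hlt
    simpa using h2
  have hS3 : NNS R (fun v => Sq μ (dd a v)) := NNS.comp (NNS_Sq hμ) hNa hlt
  have hsc : NNS R (fun v => dd a (v / (μ : ℂ) ^ 2)) := by
    have h1 := hNa.scale (μ ^ 2) (by nlinarith)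
    simpa using h1
  have hPhi : NNS R (fun v => ((2 * (μ - 1) : ℝ) : ℂ) * (Sq μ (dd a v) - (μ : ℂ)) +
      (Sq μ (dd a v) - 1) * dd a v + Sq μ (dd a v) * dd a (v / (μ : ℂ) ^ 2)) :=
    (((NNS.const R (2 * (μ - 1)) (by linarith)).mul hS1).add (hS2.mul hNa)).add (hS3.mul hsc)
  obtain ⟨b, hb, hbs⟩ := hPhi
  -- coefficients
  set ε : ℝ := min r₀ (R / μ ^ 2) with hε
  have hε0 : 0 < ε := lt_min hr₀ (by positivity)
  have hεR : ∀ v : ℂ, ‖v‖ < ε → ‖(μ : ℂ) ^ 2 * v‖ < R := by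
    intro v hv
    have h1 : ‖v‖ < R / μ ^ 2 := hv.trans_le (min_le_right _ _)
    rw [norm_mul, norm_pow, Complex.norm_real, Real.norm_of_nonneg hμ0.le]
    rw [lt_div_iff₀ hm] at h1
    linarith
  have hεR' : ∀ v : ℂ, ‖v‖ < ε → ‖v‖ < R := by
    intro v hv
    have h1 : ‖v‖ < R / μ ^ 2 := hv.trans_le (min_le_right _ _)
    have h2 : R / μ ^ 2 ≤ R := div_le_self hR.le (by nlinarith)
    linarith
  have huniq : (fun n => (b n : ℂ)) = (fun n => ((a n * (μ ^ 2) ^ n : ℝ) : ℂ)) := by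
    refine NNS.unique hε0 (f := fun v => dd a ((μ : ℂ) ^ 2 * v)) ?_ ?_
    · intro v hv
      have h1 := hbs v (hεR' v hv)
      have h2 := hfe v (hv.trans_le (min_le_left _ _))
      have h3 : dd a ((μ : ℂ) ^ 2 * v) = ((2 * (μ - 1) : ℝ) : ℂ) * (Sq μ (dd a v) - (μ : ℂ)) +
          (Sq μ (dd a v) - 1) * dd a v + Sq μ (dd a v) * dd a (v / (μ : ℂ) ^ 2) := by
        have h4 : dd a ((μ : ℂ) ^ 2 * v) = Sq μ (dd a v) * (2 * ((μ : ℂ) - 1) + dd a v +
            dd a (v / (μ : ℂ) ^ 2)) - dd a v - 2 * (μ : ℂ) * ((μ : ℂ) - 1) := by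
          rw [← h2]
          ring
        rw [h4]
        push_cast
        ring
      show HasSum _ (dd a ((μ : ℂ) ^ 2 * v))
      rw [h3]
      exact h1
    · intro v hv
      have h1 := ge_hasSum ha (hs _ (norm_nonneg _) (hεR v hv)).1
      show HasSum _ (dd a ((μ : ℂ) ^ 2 * v))
      have h2 : (fun n => (a n : ℂ) * ((μ : ℂ) ^ 2 * v) ^ n) =
          (fun n => ((a n * (μ ^ 2) ^ n : ℝ) : ℂ) * v ^ n) := by
        funext n
        push_cast
        rw [mul_pow]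
        ring
      rw [h2] at h1
      exact h1
  have hba : ∀ n, b n = a n * (μ ^ 2) ^ n := fun n => by exact_mod_cast congrFun huniq n
  have hsum : ∀ t : ℝ, 0 ≤ t → t < μ ^ 2 * R → Summable (fun n => a n * t ^ n) := by
    intro t ht htR
    have h1 : ‖((t / μ ^ 2 : ℝ) : ℂ)‖ < R := by
      rw [Complex.norm_real, Real.norm_of_nonneg (by positivity), div_lt_iff₀ hm]
      linarith
    have h2 := (hbs _ h1).summable
    have h3 : (fun n => (b n : ℂ) * ((t / μ ^ 2 : ℝ) : ℂ) ^ n) =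
        (fun n => ((a n * t ^ n : ℝ) : ℂ)) := by
      funext n
      rw [hba n]
      have h4 : a n * t ^ n = a n * (μ ^ 2) ^ n * (t / μ ^ 2) ^ n := by
        rw [mul_assoc, ← mul_pow, mul_div_cancel₀ _ hm.ne']
      rw [h4]
      push_cast
      ring
    rw [h3] at h2
    exact_mod_cast h2
  refine ⟨hsum, fun v hv => ?_⟩
  have h1 := hbs v hv
  have h2 : HasSum (fun n => (b n : ℂ) * v ^ n) (dd a ((μ : ℂ) ^ 2 * v)) := by
    have h3 := ge_hasSum ha (z := (μ : ℂ) ^ 2 * v) (hsum _ (norm_nonneg _) (by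
      rw [norm_mul, norm_pow, Complex.norm_real, Real.norm_of_nonneg hμ0.le]
      exact mul_lt_mul_of_pos_left hv hm))
    have h4 : (fun n => (a n : ℂ) * ((μ : ℂ) ^ 2 * v) ^ n) = (fun n => (b n : ℂ) * v ^ n) := by
      funext n
      rw [hba n]
      push_cast
      rw [mul_pow]
      ring
    rw [h4] at h3
    exact h3
  rw [h2.unique h1]
  push_cast
  ring

theorem exists_HF {μ : ℝ} (hμ : 1 < μ) : ∃ F : ℕ → ℝ, HF μ F := by
  have hμ0 : (0 : ℝ) < μ := by linarith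
  have hm : (1 : ℝ) < μ ^ 2 := by nlinarith
  obtain ⟨r, hr, a, h0, h1, ha, hsr, hlr, hfe⟩ := local_existence hμ
  set T : Set ℝ := {ρ | 0 ≤ ρ ∧ Summable (fun n => a n * ρ ^ n) ∧ ∑' n, a n * ρ ^ n < 1} with hT
  have hrT : r ∈ T := ⟨hr.le, hsr, hlr⟩
  have hTb : ∀ ρ ∈ T, ρ ≤ 1 := by
    intro ρ hρ
    have h2 : a 1 * ρ ^ 1 ≤ ∑' n, a n * ρ ^ n :=
      hρ.2.1.le_tsum 1 fun n _ => mul_nonneg (ha n) (pow_nonneg hρ.1 n)
    rw [h1] at h2
    linarith [hρ.2.2]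
  have hbdd : BddAbove T := ⟨1, hTb⟩
  set R : ℝ := sSup T with hRdef
  have hrR : r ≤ R := le_csSup hbdd hrT
  have hR : 0 < R := hr.trans_le hrR
  have hmono : ∀ s t : ℝ, 0 ≤ s → s ≤ t → Summable (fun n => a n * t ^ n) →
      Summable (fun n => a n * s ^ n) ∧ ∑' n, a n * s ^ n ≤ ∑' n, a n * t ^ n := by
    intro s t hs0 hst hst2
    have h2 : ∀ n, a n * s ^ n ≤ a n * t ^ n := fun n =>
      mul_le_mul_of_nonneg_left (pow_le_pow_left₀ hs0 hst n) (ha n)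
    have h3 : Summable (fun n => a n * s ^ n) :=
      Summable.of_nonneg_of_le (fun n => mul_nonneg (ha n) (pow_nonneg hs0 n)) h2 hst2
    exact ⟨h3, h3.tsum_le_tsum h2 hst2⟩
  have hs : ∀ t : ℝ, 0 ≤ t → t < R → Summable (fun n => a n * t ^ n) ∧ ∑' n, a n * t ^ n < 1 := by
    intro t ht htR
    obtain ⟨ρ, hρ, htρ⟩ := exists_lt_of_lt_csSup ⟨r, hrT⟩ htR
    obtain ⟨h2, h3⟩ := hmono t ρ ht htρ.le hρ.2.1
    exact ⟨h2, h3.trans_lt hρ.2.2⟩
  obtain ⟨hsum, hfeR⟩ := extend_radius hμ (r₀ := r / μ ^ 2) (by positivity) hR h0 ha hs hfe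
  have hRR : R < μ ^ 2 * R := by nlinarith
  -- continuity of the sum
  set R' : ℝ := (R + μ ^ 2 * R) / 2 with hR'
  have hRR' : R < R' := by rw [hR']; linarith
  have hR'2 : R' < μ ^ 2 * R := by rw [hR']; linarith
  have hcont : ContinuousOn (fun t : ℝ => ∑' n, a n * t ^ n) (Icc 0 R') := by
    apply continuousOn_tsum (u := fun n => a n * R' ^ n)
    · intro n
      fun_prop
    · exact hsum R' (by linarith) hR'2
    · intro n t ht
      rw [Real.norm_of_nonneg (mul_nonneg (ha n) (pow_nonneg ht.1 n))]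
      exact mul_le_mul_of_nonneg_left (pow_le_pow_left₀ ht.1 ht.2 n) (ha n)
  have hcR : ContinuousAt (fun t : ℝ => ∑' n, a n * t ^ n) R :=
    hcont.continuousAt (Icc_mem_nhds hR hRR')
  have hsR : Summable (fun n => a n * R ^ n) := hsum R hR.le hRR
  have hle : ∑' n, a n * R ^ n ≤ 1 := by
    have h2 : Tendsto (fun t : ℝ => ∑' n, a n * t ^ n) (𝓝[<] R) (𝓝 (∑' n, a n * R ^ n)) :=
      hcR.tendsto.mono_left nhdsWithin_le_nhds
    refine le_of_tendsto h2 ?_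
    have h3 : Ioo 0 R ∈ 𝓝[<] R := Ioo_mem_nhdsLT hR
    filter_upwards [h3] with t ht
    exact (hs t ht.1.le ht.2).2.le
  have hge : 1 ≤ ∑' n, a n * R ^ n := by
    by_contra hlt
    push Not at hlt
    have h2 : ∀ᶠ t in 𝓝 R, ∑' n, a n * t ^ n < 1 := hcR.eventually (gt_mem_nhds hlt)
    have h3 : ∀ᶠ t in 𝓝 R, t < R' := gt_mem_nhds hRR'
    obtain ⟨ε, hε, hball⟩ := Metric.eventually_nhds_iff.mp (h2.and h3)
    have h4 := hball (y := R + ε / 2) (by
      rw [Real.dist_eq, add_sub_cancel_left, abs_of_pos (by linarith)]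
      linarith)
    have h5 : R + ε / 2 ∈ T := ⟨by linarith, hsum _ (by linarith) (h4.2.trans hR'2), h4.1⟩
    have h6 := le_csSup hbdd h5
    rw [← hRdef] at h6
    linarith
  have hone : ∑' n, a n * R ^ n = 1 := le_antisymm hle hge
  have hddF : ∀ v : ℂ, dd (fun n => a n * R ^ n) v = dd a ((R : ℂ) * v) := by
    intro v
    unfold dd
    refine tsum_congr fun n => ?_
    push_cast
    rw [mul_pow]
    ring
  refine ⟨fun n => a n * R ^ n, hμ, ?_, ?_, ?_, ?_, ?_, ?_⟩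
  · simp [h0]
  · simp [h1, hR]
  · exact fun n => mul_nonneg (ha n) (pow_nonneg hR.le n)
  · rw [← hone]
    exact hsR.hasSum
  · intro ρ hρ hρ2
    have h2 := hsum (R * ρ) (by positivity) (by
      have := mul_lt_mul_of_pos_left hρ2 hR
      linarith)
    have h3 : (fun n => a n * R ^ n * ρ ^ n) = (fun n => a n * (R * ρ) ^ n) := by
      funext n
      rw [mul_pow]
      ring
    rw [h3]
    exact h2
  · intro v hv
    have h2 : ‖(R : ℂ) * v‖ < R := by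
      rw [norm_mul, Complex.norm_real, Real.norm_of_nonneg hR.le]
      nlinarith
    have h3 := hfeR _ h2
    rw [hddF, hddF, hddF]
    have h4 : (R : ℂ) * ((μ : ℂ) ^ 2 * v) = (μ : ℂ) ^ 2 * ((R : ℂ) * v) := by ring
    have h5 : (R : ℂ) * (v / (μ : ℂ) ^ 2) = ((R : ℂ) * v) / (μ : ℂ) ^ 2 := by ring
    rw [h4, h5]
    exact h3

end EQ2
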