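import Pool.Agent.Lib.MP_226de1_co.Identity
import Pool.Agent.Lib.MP_226de1_co.NStart
import Pool.Agent.Lib.MP_226de1_co.GlobalExt
import Pool.Agent.Lib.MP_226de1_co.RealLine2

/-! No line system exists. -/

set_option autoImplicit false

namespace EQ2

theorem no_lineSys {μ : ℝ} {dn dp : Bool → ℝ → ℝ} (hL : LineSys μ dn dp) : False := by
  obtain ⟨F, h⟩ := exists_HF hL.hμ
  obtain ⟨y, hy⟩ := h.exists_HY
  have hpk := pack_of h hy
  obtain ⟨t, ht0, ht1, ht2⟩ := exists_rq_neg h hy
  have hl : 0 < ell μ := ell_pos hL.hμ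
  refine pack_contra hpk (t := t) ?_ ht0 ht1 ?_ ?_
  · have h0 : ((0 : ℝ) : ℂ).re < ell μ := by simpa using hl
    have := qE_eq h hy h0
    rw [hy.qx_ofReal h (by simpa using hl)] at this
    rw [Complex.ofReal_zero] at this
    rw [this, Complex.ofReal_re]
    exact rq_pos h hy le_rfl
  · have h0 : ((t : ℝ) : ℂ).re < ell μ := by simpa using ht1
    rw [qE_eq h hy h0, hy.qx_ofReal h ht1, Complex.ofReal_re]
    exact ht2
  · intro x z hx hz hq
    have hx' : ((x : ℝ) : ℂ).re < ell μ := by simpa using hx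
    have hz' : ((z : ℝ) : ℂ).re < ell μ := by simpa using hz
    rw [qE_eq h hy hx', qE_eq h hy hz', hy.qx_ofReal h hx, hy.qx_ofReal h hz] at hq
    rw [qE_eq h hy hx', pE_eq h hy hx', pE_eq h hy hz', hy.qx_ofReal h hx, hy.px_ofReal h hx,
      hy.px_ofReal h hz]
    have hq' : rq μ F y x + rq μ F y z = 0 := by exact_mod_cast hq
    have := body_identity h hy hL hx hz hq'
    exact_mod_cast this

end EQ2
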