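import Pool.Agent.Lib.MP_226de1_co.SqBasic

/-! Basic facts on the power series `dd F` of a chart. -/

set_option autoImplicit false

namespace EQ2

open Complex Set Filter Topology

variable {μ : ℝ} {F : ℕ → ℝ}

private theorem DDBasic_one_lt (h : HF μ F) : 1 < μ ^ 2 := by
  have := h.hμ
  nlinarith

theorem HF.hasSum (h : HF μ F) {v : ℂ} (hv : ‖v‖ < μ ^ 2) :
    HasSum (fun n => (F n : ℂ) * v ^ n) (dd F v) := by
  have h1 : Summable fun n => (F n : ℂ) * v ^ n := by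
    refine Summable.of_norm ?_
    refine (h.summ ‖v‖ (norm_nonneg v) hv).congr fun n => ?_
    rw [norm_mul, norm_pow, Complex.norm_real, Real.norm_of_nonneg (h.nonneg n)]
  exact h1.hasSum

theorem HF.hasSum_real (h : HF μ F) {t : ℝ} (ht : |t| < μ ^ 2) :
    HasSum (fun n => F n * t ^ n) (dr F t) := by
  have h1 : Summable fun n => F n * t ^ n := by
    refine Summable.of_norm ?_
    refine (h.summ |t| (abs_nonneg t) ht).congr fun n => ?_
    rw [norm_mul, norm_pow, Real.norm_eq_abs t, Real.norm_of_nonneg (h.nonneg n)]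
  exact h1.hasSum

theorem HF.dd_ofReal (h : HF μ F) {t : ℝ} (ht : |t| < μ ^ 2) : dd F (t : ℂ) = (dr F t : ℂ) := by
  unfold dd dr
  rw [Complex.ofReal_tsum]
  push_cast
  rfl

/-- differentiability of a power series with nonnegative coefficients -/
private theorem DDBasic_diff (G : ℕ → ℝ) (hG : ∀ n, 0 ≤ G n) (R : ℝ)
    (hs : ∀ ρ : ℝ, 0 ≤ ρ → ρ < R → Summable fun n => G n * ρ ^ n) :
    DifferentiableOn ℂ (fun v : ℂ => ∑' n, (G n : ℂ) * v ^ n) (Metric.ball 0 R) := by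
  intro v hv
  rw [mem_ball_zero_iff] at hv
  obtain ⟨ρ, h1, h2⟩ := exists_between hv
  have h0 : 0 ≤ ρ := (norm_nonneg v).trans h1.le
  have h3 : DifferentiableOn ℂ (fun v : ℂ => ∑' n, (G n : ℂ) * v ^ n) (Metric.ball 0 ρ) := by
    refine differentiableOn_tsum_of_summable_norm (hs ρ h0 h2) ?_ Metric.isOpen_ball ?_
    · intro n
      exact ((differentiable_id.pow n).const_mul _).differentiableOn
    · intro n w hw
      rw [mem_ball_zero_iff] at hw
      rw [norm_mul, norm_pow, Complex.norm_real, Real.norm_of_nonneg (hG n)]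
      exact mul_le_mul_of_nonneg_left (pow_le_pow_left₀ (norm_nonneg w) hw.le n) (hG n)
  have h4 : v ∈ Metric.ball (0 : ℂ) ρ := by
    rw [mem_ball_zero_iff]
    exact h1
  exact (h3.differentiableAt (Metric.isOpen_ball.mem_nhds h4)).differentiableWithinAt

theorem HF.dd_differentiableOn (h : HF μ F) :
    DifferentiableOn ℂ (dd F) (Metric.ball 0 (μ ^ 2)) :=
  DDBasic_diff F h.nonneg (μ ^ 2) h.summ

theorem HF.dd_conj (h : HF μ F) (v : ℂ) :
    dd F ((starRingEnd ℂ) v) = (starRingEnd ℂ) (dd F v) := by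
  unfold dd
  rw [Complex.conj_tsum]
  refine tsum_congr fun n => ?_
  rw [map_mul, map_pow, Complex.conj_ofReal]

theorem HF.dd_zero (h : HF μ F) : dd F 0 = 0 := by
  unfold dd
  rw [tsum_eq_single 0]
  · rw [h.F0]
    simp
  · intro n hn
    rw [zero_pow hn, mul_zero]

/-- the quotient series `∑ F (n+1) v^n` -/
private theorem DDBasic_shift (h : HF μ F) :
    ∀ ρ : ℝ, 0 ≤ ρ → ρ < μ ^ 2 → Summable fun n => F (n + 1) * ρ ^ n := by
  intro ρ h0 hρ
  have h1 := DDBasic_one_lt h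
  have h2 : max ρ 1 < μ ^ 2 := max_lt hρ h1
  have h3 := (summable_nat_add_iff 1).2 (h.summ (max ρ 1) (h0.trans (le_max_left _ _)) h2)
  refine h3.of_nonneg_of_le (fun n => mul_nonneg (h.nonneg _) (pow_nonneg h0 _)) fun n => ?_
  refine mul_le_mul_of_nonneg_left ?_ (h.nonneg _)
  calc ρ ^ n ≤ max ρ 1 ^ n := pow_le_pow_left₀ h0 (le_max_left _ _) n
    _ ≤ max ρ 1 ^ (n + 1) := pow_le_pow_right₀ (le_max_right _ _) (Nat.le_succ n)

theorem HF.deriv_dd_zero (h : HF μ F) : deriv (dd F) 0 = (F 1 : ℂ) := by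
  have h1 := DDBasic_one_lt h
  set g : ℂ → ℂ := fun v => ∑' n, (F (n + 1) : ℂ) * v ^ n with hg
  have hgd : DifferentiableOn ℂ g (Metric.ball 0 (μ ^ 2)) :=
    DDBasic_diff (fun n => F (n + 1)) (fun n => h.nonneg _) (μ ^ 2) (DDBasic_shift h)
  have h0 : (0 : ℂ) ∈ Metric.ball (0 : ℂ) (μ ^ 2) := by
    rw [mem_ball_zero_iff, norm_zero]
    linarith
  have hg0 : DifferentiableAt ℂ g 0 := hgd.differentiableAt (Metric.isOpen_ball.mem_nhds h0)
  have heq : dd F =ᶠ[𝓝 0] fun v => v * g v := by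
    filter_upwards [Metric.isOpen_ball.mem_nhds h0] with v hv
    rw [mem_ball_zero_iff] at hv
    have h2 := (h.hasSum hv).summable.tsum_eq_zero_add
    have h3 : dd F v = ∑' n, (F n : ℂ) * v ^ n := rfl
    rw [h3, h2, h.F0, hg]
    simp only [Complex.ofReal_zero, zero_mul, zero_add]
    rw [← tsum_mul_left]
    refine tsum_congr fun n => ?_
    ring
  rw [heq.deriv_eq]
  have h4 : HasDerivAt (fun v => v * g v) (1 * g 0 + 0 * deriv g 0) 0 :=
    (hasDerivAt_id (0 : ℂ)).mul hg0.hasDerivAt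
  rw [h4.deriv]
  have h5 : g 0 = (F 1 : ℂ) := by
    simp only [hg]
    rw [tsum_eq_single 0]
    · simp
    · intro n hn
      rw [zero_pow hn, mul_zero]
  rw [h5]
  ring

private theorem DDBasic_pow_le (h : HF μ F) {x : ℝ} (h0 : 0 ≤ x) (h1 : x ≤ 1) (n : ℕ) :
    F n * x ^ n ≤ F n * x := by
  rcases Nat.eq_zero_or_pos n with hn | hn
  · rw [hn, h.F0]
    simp
  · refine mul_le_mul_of_nonneg_left ?_ (h.nonneg n)
    calc x ^ n ≤ x ^ 1 := pow_le_pow_of_le_one h0 h1 hn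
      _ = x := pow_one x

theorem HF.norm_dd_le (h : HF μ F) {v : ℂ} (hv : ‖v‖ ≤ 1) : ‖dd F v‖ ≤ ‖v‖ := by
  have h1 : HasSum (fun n => F n * ‖v‖) (1 * ‖v‖) := h.sum1.mul_right _
  rw [one_mul] at h1
  refine tsum_of_norm_bounded h1 fun n => ?_
  rw [norm_mul, norm_pow, Complex.norm_real, Real.norm_of_nonneg (h.nonneg n)]
  exact DDBasic_pow_le h (norm_nonneg v) hv n

theorem HF.norm_dd_lt (h : HF μ F) {v : ℂ} (hv : ‖v‖ < 1) : ‖dd F v‖ < 1 :=
  (h.norm_dd_le hv.le).trans_lt hv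

theorem HF.dr_one (h : HF μ F) : dr F 1 = 1 := by
  unfold dr
  simp only [one_pow, mul_one]
  exact h.sum1.tsum_eq

theorem HF.dr_nonneg (h : HF μ F) {t : ℝ} (ht : 0 ≤ t) : 0 ≤ dr F t :=
  tsum_nonneg fun n => mul_nonneg (h.nonneg n) (pow_nonneg ht n)

theorem HF.dr_strictMonoOn (h : HF μ F) : StrictMonoOn (dr F) (Set.Ico 0 (μ ^ 2)) := by
  intro s hs t ht hst
  have h1 := (h.hasSum_real (t := s) (by rw [abs_of_nonneg hs.1]; exact hs.2)).summable
  have h2 := (h.hasSum_real (t := t) (by rw [abs_of_nonneg ht.1]; exact ht.2)).summable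
  refine Summable.tsum_lt_tsum (i := 1) ?_ ?_ h1 h2
  · intro n
    exact mul_le_mul_of_nonneg_left (pow_le_pow_left₀ hs.1 hst.le n) (h.nonneg n)
  · rw [pow_one, pow_one]
    exact mul_lt_mul_of_pos_left hst h.F1

theorem HF.abs_dr_le (h : HF μ F) {t : ℝ} (ht : |t| ≤ 1) : |dr F t| ≤ |t| := by
  have h1 : HasSum (fun n => F n * |t|) (1 * |t|) := h.sum1.mul_right _
  rw [one_mul] at h1
  rw [← Real.norm_eq_abs (dr F t)]
  refine tsum_of_norm_bounded h1 fun n => ?_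
  rw [norm_mul, norm_pow, Real.norm_of_nonneg (h.nonneg n), Real.norm_eq_abs]
  exact DDBasic_pow_le h (abs_nonneg t) ht n

private theorem DDBasic_hasDeriv (h : HF μ F) {t : ℝ} (ht : |t| < μ ^ 2) :
    HasDerivAt (dr F) (deriv (dd F) (t : ℂ)).re t := by
  have h1 : (t : ℂ) ∈ Metric.ball (0 : ℂ) (μ ^ 2) := by
    rw [mem_ball_zero_iff, Complex.norm_real, Real.norm_eq_abs]
    exact ht
  have h2 : HasDerivAt (dd F) (deriv (dd F) (t : ℂ)) (t : ℂ) :=
    (h.dd_differentiableOn.differentiableAt (Metric.isOpen_ball.mem_nhds h1)).hasDerivAt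
  have h3 := h2.real_of_complex
  refine h3.congr_of_eventuallyEq ?_
  have h4 : {s : ℝ | |s| < μ ^ 2} ∈ 𝓝 t :=
    (isOpen_lt continuous_abs continuous_const).mem_nhds ht
  filter_upwards [h4] with s hs
  rw [h.dd_ofReal hs, Complex.ofReal_re]

theorem HF.dr_differentiableAt (h : HF μ F) {t : ℝ} (ht : |t| < μ ^ 2) :
    DifferentiableAt ℝ (dr F) t := (DDBasic_hasDeriv h ht).differentiableAt

/-- the derivative is positive on `[0, μ²)` -/
theorem HF.deriv_dr_pos (h : HF μ F) {t : ℝ} (h0 : 0 ≤ t) (ht : t < μ ^ 2) :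
    0 < deriv (dr F) t := by
  have h1 : |t| < μ ^ 2 := by
    rw [abs_of_nonneg h0]
    exact ht
  have h2 := (h.dr_differentiableAt h1).hasDerivAt
  have h3 := (hasDerivAt_iff_tendsto_slope.1 h2).mono_left
    (nhdsWithin_mono t (fun s (hs : s ∈ Set.Ioi t) => (ne_of_gt hs : s ≠ t)))
  refine lt_of_lt_of_le h.F1 (ge_of_tendsto h3 ?_)
  have h4 : Set.Ioo t (μ ^ 2) ∈ 𝓝[>] t := Ioo_mem_nhdsGT ht
  filter_upwards [h4] with s hs
  have hs0 : 0 ≤ s := h0.trans hs.1.le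
  have hs1 : |s| < μ ^ 2 := by
    rw [abs_of_nonneg hs0]
    exact hs.2
  have h5 := (h.hasSum_real hs1).sub (h.hasSum_real h1)
  have h6 : F 1 * (s - t) ≤ dr F s - dr F t := by
    have h7 := h5.tsum_eq
    rw [← h7]
    have h8 := h5.summable.le_tsum 1 (fun n _ => by
      have := mul_le_mul_of_nonneg_left (pow_le_pow_left₀ h0 hs.1.le n) (h.nonneg n)
      linarith)
    refine le_trans (le_of_eq ?_) h8
    ring
  rw [slope_def_field, le_div_iff₀ (by linarith [hs.1])]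
  exact h6

/-- functional equation on the real line -/
theorem HF.feq_real (h : HF μ F) {t : ℝ} (ht : |t| < 1) :
    dr F (μ ^ 2 * t) + dr F t + 2 * μ * (μ - 1) =
      Sr μ (dr F t) * (2 * (μ - 1) + dr F t + dr F (t / μ ^ 2)) := by
  have h1 := DDBasic_one_lt h
  have hm : 0 < μ ^ 2 := by linarith
  have e1 : |t| < μ ^ 2 := ht.trans h1
  have e2 : |μ ^ 2 * t| < μ ^ 2 := by
    rw [abs_mul, abs_of_pos hm]
    nlinarith [abs_nonneg t]
  have e3 : |t / μ ^ 2| < μ ^ 2 := by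
    rw [abs_div, abs_of_pos hm, div_lt_iff₀ hm]
    nlinarith [abs_nonneg t]
  have h2 := h.feq (t : ℂ) (by rw [Complex.norm_real, Real.norm_eq_abs]; exact ht)
  have h3 := h.abs_dr_le ht.le
  have h4 := abs_le.1 h3
  have f1 := h.dd_ofReal e1
  have f2 := h.dd_ofReal e2
  have f3 := h.dd_ofReal e3
  push_cast at f2 f3
  rw [f1, f2, f3, Sq_ofReal h.hμ (by linarith [h4.1]) (by linarith [h4.2])] at h2
  exact_mod_cast h2

end EQ2
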