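import Pool.Agent.Lib.MP_226de1_co.Basic

/-! Power series with nonnegative coefficients: closure properties. -/

set_option autoImplicit false

namespace EQ2

open Complex Set Filter Topology

/-- `f` is given on the disc of radius `r` by a power series with nonnegative coefficients. -/
def NNS (r : ℝ) (f : ℂ → ℂ) : Prop :=
  ∃ a : ℕ → ℝ, (∀ n, 0 ≤ a n) ∧ ∀ z : ℂ, ‖z‖ < r → HasSum (fun n => (a n : ℂ) * z ^ n) (f z)

theorem NNS.const (r c : ℝ) (hc : 0 ≤ c) : NNS r (fun _ => (c : ℂ)) := by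
  refine ⟨fun n => if n = 0 then c else 0, fun n => ?_, fun z _ => ?_⟩
  · show (0 : ℝ) ≤ if n = 0 then c else 0
    split_ifs <;> simp [hc]
  · have h := hasSum_single (f := fun n : ℕ => (((if n = 0 then c else 0 : ℝ)) : ℂ) * z ^ n) 0
      (fun n hn => by simp [hn])
    simpa using h

theorem NNS.id (r : ℝ) : NNS r (fun z => z) := by
  refine ⟨fun n => if n = 1 then 1 else 0, fun n => ?_, fun z _ => ?_⟩
  · show (0 : ℝ) ≤ if n = 1 then 1 else 0
    split_ifs <;> simp
  · have h := hasSum_single (f := fun n : ℕ => (((if n = 1 then 1 else 0 : ℝ)) : ℂ) * z ^ n) 1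
      (fun n hn => by simp [hn])
    simpa using h

theorem NNS.add {r : ℝ} {f g : ℂ → ℂ} (hf : NNS r f) (hg : NNS r g) :
    NNS r (fun z => f z + g z) := by
  obtain ⟨a, ha, hfa⟩ := hf
  obtain ⟨b, hb, hgb⟩ := hg
  refine ⟨fun n => a n + b n, fun n => add_nonneg (ha n) (hb n), fun z hz => ?_⟩
  have h := (hfa z hz).add (hgb z hz)
  have e : (fun n => ((a n + b n : ℝ) : ℂ) * z ^ n) =
      fun n => (a n : ℂ) * z ^ n + (b n : ℂ) * z ^ n := by
    funext n
    push_cast
    ring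
  rw [e]
  exact h

theorem NNS.mul {r : ℝ} {f g : ℂ → ℂ} (hf : NNS r f) (hg : NNS r g) :
    NNS r (fun z => f z * g z) := by
  obtain ⟨a, ha, hfa⟩ := hf
  obtain ⟨b, hb, hgb⟩ := hg
  refine ⟨fun n => ∑ kl ∈ Finset.HasAntidiagonal.antidiagonal n, a kl.1 * b kl.2,
    fun n => Finset.sum_nonneg fun kl _ => mul_nonneg (ha _) (hb _), fun z hz => ?_⟩
  have h1 := (hfa z hz).summable.norm
  have h2 := (hgb z hz).summable.norm
  have h3 := summable_norm_sum_mul_antidiagonal_of_summable_norm h1 h2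
  have h4 := tsum_mul_tsum_eq_tsum_sum_antidiagonal_of_summable_norm h1 h2
  rw [(hfa z hz).tsum_eq, (hgb z hz).tsum_eq] at h4
  have e : (fun n => ((∑ kl ∈ Finset.HasAntidiagonal.antidiagonal n, a kl.1 * b kl.2 : ℝ) : ℂ) * z ^ n) =
      fun n => ∑ kl ∈ Finset.HasAntidiagonal.antidiagonal n, (a kl.1 : ℂ) * z ^ kl.1 * ((b kl.2 : ℂ) * z ^ kl.2) := by
    funext n
    push_cast
    rw [Finset.sum_mul]
    refine Finset.sum_congr rfl fun kl hkl => ?_
    rw [← Finset.HasAntidiagonal.mem_antidiagonal.mp hkl, pow_add]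
    ring
  rw [e]
  show HasSum _ (f z * g z)
  rw [h4]
  exact h3.of_norm.hasSum

theorem NNS.scale {r : ℝ} {f : ℂ → ℂ} (hf : NNS r f) (s : ℝ) (hs : 1 ≤ s) :
    NNS r (fun z => f (z / (s : ℂ))) := by
  obtain ⟨a, ha, hfa⟩ := hf
  refine ⟨fun n => a n / s ^ n, fun n => div_nonneg (ha n) (by positivity), fun z hz => ?_⟩
  have hz' : ‖z / (s : ℂ)‖ < r := by
    rw [norm_div, Complex.norm_real, Real.norm_of_nonneg (by linarith)]
    exact lt_of_le_of_lt (div_le_self (norm_nonneg _) hs) hz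
  have h := hfa _ hz'
  have e : (fun n => ((a n / s ^ n : ℝ) : ℂ) * z ^ n) =
      fun n => (a n : ℂ) * (z / (s : ℂ)) ^ n := by
    funext n
    push_cast
    rw [div_pow]
    ring
  rw [e]
  exact h

/-- powers -/
theorem NNS.pow' {s : ℝ} {g : ℂ → ℂ} (hg : NNS s g) (n : ℕ) : NNS s (fun z => g z ^ n) := by
  induction n with
  | zero =>
    have h := NNS.const s 1 zero_le_one
    simpa using h
  | succ n ih =>
    have h := ih.mul hg
    simpa [pow_succ] using h

/-- values at nonnegative reals -/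
theorem NNS.real' {s : ℝ} {g : ℂ → ℂ} {b : ℕ → ℝ} (hb : ∀ n, 0 ≤ b n)
    (hgb : ∀ z : ℂ, ‖z‖ < s → HasSum (fun n => (b n : ℂ) * z ^ n) (g z)) {t : ℝ} (ht : 0 ≤ t)
    (hts : t < s) : HasSum (fun n => b n * t ^ n) (g (t : ℂ)).re ∧ (g (t : ℂ)).im = 0 ∧
      0 ≤ (g (t : ℂ)).re ∧ g (t : ℂ) = (((g (t : ℂ)).re : ℝ) : ℂ) := by
  have h := hgb (t : ℂ) (by rw [Complex.norm_real, Real.norm_of_nonneg ht]; exact hts)
  have e : (fun n => (b n : ℂ) * (t : ℂ) ^ n) = fun n => ((b n * t ^ n : ℝ) : ℂ) := by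
    funext n
    push_cast
    ring
  rw [e] at h
  have h1 : HasSum (fun n => b n * t ^ n) (g (t : ℂ)).re := by
    have h3 := Complex.hasSum_re h
    simp only [Complex.ofReal_re] at h3
    exact h3
  have h2 : (g (t : ℂ)).im = 0 := by
    have h3 := Complex.hasSum_im h
    simp only [Complex.ofReal_im] at h3
    exact h3.unique hasSum_zero
  refine ⟨h1, h2, ?_, ?_⟩
  · exact h1.nonneg fun n => mul_nonneg (hb n) (by positivity)
  · exact Complex.ext (by simp) (by simp [h2])

/-- composition; `g t` for real `t ≥ 0` is real and `≥ 0`, so the hypothesis bounds `‖g z‖`. -/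
theorem NNS.comp {r s : ℝ} {f g : ℂ → ℂ} (hf : NNS r f) (hg : NNS s g)
    (h : ∀ t : ℝ, 0 ≤ t → t < s → (g (t : ℂ)).re < r) : NNS s (fun z => f (g z)) := by
  obtain ⟨a, ha, hfa⟩ := hf
  have hpow := fun n => hg.pow' n
  choose b hb hgb using hpow
  obtain ⟨b', hb', hgb'⟩ := hg
  -- the double series
  have hF : ∀ t : ℝ, 0 ≤ t → t < s → Summable (fun p : ℕ × ℕ => a p.1 * (b p.1 p.2 * t ^ p.2)) := by
    intro t ht hts
    have hn : ∀ n, HasSum (fun k => b n k * t ^ k) ((g (t : ℂ)).re ^ n) := by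
      intro n
      have h1 := (NNS.real' (hb n) (hgb n) ht hts).1
      have h2 := (NNS.real' hb' hgb' ht hts).2.2.2
      have h3 : ((g (t : ℂ)) ^ n).re = (g (t : ℂ)).re ^ n := by
        rw [h2, ← Complex.ofReal_pow, Complex.ofReal_re, Complex.ofReal_re]
      rw [h3] at h1
      exact h1
    rw [summable_prod_of_nonneg]
    · refine ⟨fun n => ((hn n).mul_left (a n)).summable, ?_⟩
      have h4 : (fun n => ∑' k, a n * (b n k * t ^ k)) = fun n => a n * (g (t : ℂ)).re ^ n := by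
        funext n
        exact ((hn n).mul_left (a n)).tsum_eq
      rw [h4]
      have h5 := (NNS.real' hb' hgb' ht hts).2.2.1
      have h6 := (NNS.real' ha hfa h5 (h t ht hts)).1
      exact h6.summable
    · intro p
      exact mul_nonneg (ha _) (mul_nonneg (hb _ _) (by positivity))
  refine ⟨fun k => ∑' n, a n * b n k, fun k => tsum_nonneg fun n => mul_nonneg (ha n) (hb n k),
    fun z hz => ?_⟩
  have hs : 0 < s := (norm_nonneg z).trans_lt hz
  have hck : ∀ k, Summable fun n => a n * b n k := by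
    intro k
    have h1 := hF (s / 2) (by linarith) (by linarith)
    have h2 := h1.comp_injective (i := fun n : ℕ => (n, k)) (fun x y hxy => (Prod.mk.inj hxy).1)
    have h3 := h2.mul_right (((s / 2) ^ k)⁻¹)
    refine h3.congr fun n => ?_
    simp only [Function.comp]
    have : (s / 2) ^ k ≠ 0 := by positivity
    field_simp
  have hFz : Summable (fun p : ℕ × ℕ => (a p.1 : ℂ) * ((b p.1 p.2 : ℂ) * z ^ p.2)) := by
    refine Summable.of_norm ?_
    refine (hF ‖z‖ (norm_nonneg z) hz).congr fun p => ?_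
    rw [norm_mul, norm_mul, norm_pow, Complex.norm_real, Complex.norm_real,
      Real.norm_of_nonneg (ha _), Real.norm_of_nonneg (hb _ _)]
  have hgz : ‖g z‖ < r := by
    have h1 := hgb' z hz
    have h2 := NNS.real' hb' hgb' (norm_nonneg z) hz
    have h3 : ‖g z‖ ≤ (g ((‖z‖ : ℝ) : ℂ)).re := by
      refine h1.norm_le_of_bounded h2.1 fun n => ?_
      rw [norm_mul, norm_pow, Complex.norm_real, Real.norm_of_nonneg (hb' n)]
    exact h3.trans_lt (h _ (norm_nonneg z) hz)
  have hsum1 : HasSum (fun n => (a n : ℂ) * g z ^ n) (f (g z)) := hfa _ hgz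
  have hrow : ∀ n, HasSum (fun k => (a n : ℂ) * ((b n k : ℂ) * z ^ k)) ((a n : ℂ) * g z ^ n) :=
    fun n => (hgb n z hz).mul_left _
  have htot : HasSum (fun p : ℕ × ℕ => (a p.1 : ℂ) * ((b p.1 p.2 : ℂ) * z ^ p.2)) (f (g z)) := by
    have h1 := hFz.hasSum.prod_fiberwise hrow
    have h2 := hFz.hasSum
    have h3 := h1.unique hsum1
    rw [h3] at h2
    exact h2
  have hcol : ∀ k, HasSum (fun n => (a n : ℂ) * ((b n k : ℂ) * z ^ k))
      (((∑' n, a n * b n k : ℝ) : ℂ) * z ^ k) := by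
    intro k
    have h1 := (Complex.hasSum_ofReal.mpr (hck k).hasSum).mul_right (z ^ k)
    refine h1.congr_fun fun n => ?_
    push_cast
    ring
  have hswap := (Equiv.prodComm ℕ ℕ).hasSum_iff.mpr htot
  exact hswap.prod_fiberwise hcol

/-- coefficients are determined by the values near `0` -/
theorem NNS.unique {a b : ℕ → ℂ} {ε : ℝ} (hε : 0 < ε) {f : ℂ → ℂ}
    (ha : ∀ z : ℂ, ‖z‖ < ε → HasSum (fun n => a n * z ^ n) (f z))
    (hb : ∀ z : ℂ, ‖z‖ < ε → HasSum (fun n => b n * z ^ n) (f z)) : a = b := by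
  have key : ∀ c : ℕ → ℂ, (∀ z : ℂ, ‖z‖ < ε → HasSum (fun n => c n * z ^ n) (f z)) →
      HasFPowerSeriesAt f (FormalMultilinearSeries.ofScalars ℂ c) 0 := by
    intro c hc
    rw [hasFPowerSeriesAt_iff]
    have h1 : ∀ᶠ z : ℂ in 𝓝 0, ‖z‖ < ε := by
      have := Metric.ball_mem_nhds (0 : ℂ) hε
      filter_upwards [this] with z hz
      simpa using hz
    filter_upwards [h1] with z hz
    rw [zero_add]
    have h2 := hc z hz
    have e : (fun n => z ^ n • (FormalMultilinearSeries.ofScalars ℂ c).coeff n) =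
        fun n => c n * z ^ n := by
      funext n
      rw [FormalMultilinearSeries.coeff_ofScalars, smul_eq_mul, mul_comm]
    rw [e]
    exact h2
  have h1 := (key a ha).eq_formalMultilinearSeries (key b hb)
  funext n
  have h2 := congrArg (fun p => FormalMultilinearSeries.coeff p n) h1
  simpa only [FormalMultilinearSeries.coeff_ofScalars] using h2

end EQ2
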