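import Pool.Agent.Lib.MP_226de1_co.Basic

/-! Elementary properties of `S(d) = sqrt((μ²+d)/(1-d))`. -/

set_option autoImplicit false

namespace EQ2

open Complex Set Filter Topology

variable {μ : ℝ}

private theorem sqb_re (μ : ℝ) (d : ℂ) : (((μ : ℂ) ^ 2 + d) / (1 - d)).re =
    ((μ ^ 2 + d.re) * (1 - d.re) - d.im ^ 2) / Complex.normSq (1 - d) := by
  have h1 : ((μ : ℂ) ^ 2 + d).re = μ ^ 2 + d.re := by
    rw [add_re, ← ofReal_pow, ofReal_re]
  have h2 : ((μ : ℂ) ^ 2 + d).im = d.im := by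
    rw [add_im, ← ofReal_pow, ofReal_im, zero_add]
  rw [Complex.div_re, h1, h2]
  simp only [sub_re, sub_im, one_re, one_im]
  ring

private theorem sqb_im (μ : ℝ) (d : ℂ) : (((μ : ℂ) ^ 2 + d) / (1 - d)).im =
    (μ ^ 2 + 1) * d.im / Complex.normSq (1 - d) := by
  have h1 : ((μ : ℂ) ^ 2 + d).re = μ ^ 2 + d.re := by
    rw [add_re, ← ofReal_pow, ofReal_re]
  have h2 : ((μ : ℂ) ^ 2 + d).im = d.im := by
    rw [add_im, ← ofReal_pow, ofReal_im, zero_add]
  rw [Complex.div_im, h1, h2]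
  simp only [sub_re, sub_im, one_re, one_im]
  ring

theorem quot_re_pos (hμ : 1 < μ) {d : ℂ} (hd : ‖d‖ < 1) :
    0 < (((μ : ℂ) ^ 2 + d) / (1 - d)).re := by
  have h0 : ‖d‖ ^ 2 < 1 := by
    have := norm_nonneg d
    nlinarith
  have h1 : d.re ^ 2 + d.im ^ 2 < 1 := by
    rw [← Complex.normSq_eq_norm_sq, Complex.normSq_apply] at h0
    nlinarith
  have h2 : d.re < 1 := lt_of_le_of_lt (Complex.re_le_norm d) hd
  have hne : 1 - d ≠ 0 := by
    intro h
    have : d = 1 := (sub_eq_zero.mp h).symm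
    rw [this, norm_one] at hd
    exact lt_irrefl _ hd
  rw [sqb_re]
  apply div_pos _ (Complex.normSq_pos.mpr hne)
  have hm : 1 < μ ^ 2 := by nlinarith
  nlinarith

theorem quot_im_neg (hμ : 1 < μ) {d : ℂ} (hd : d.im < 0) :
    (((μ : ℂ) ^ 2 + d) / (1 - d)).im < 0 := by
  have hne : 1 - d ≠ 0 := by
    intro h
    have : d = 1 := (sub_eq_zero.mp h).symm
    rw [this, one_im] at hd
    exact lt_irrefl _ hd
  rw [sqb_im]
  apply div_neg_of_neg_of_pos _ (Complex.normSq_pos.mpr hne)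
  exact mul_neg_of_pos_of_neg (by positivity) hd

/-- the admissible set of values `d`: off the real rays `d ≤ -μ²` and `d ≥ 1` -/
def Adm (μ : ℝ) (d : ℂ) : Prop := d.im ≠ 0 ∨ (-μ ^ 2 < d.re ∧ d.re < 1)

theorem Adm.of_norm (hμ : 1 < μ) {d : ℂ} (hd : ‖d‖ < 1) : Adm μ d := by
  right
  have h1 := abs_le.mp (Complex.abs_re_le_norm d)
  constructor
  · have hm : 1 < μ ^ 2 := by nlinarith
    linarith [h1.1]
  · linarith [h1.2]

theorem Adm.ne (hμ : 1 < μ) {d : ℂ} (hd : Adm μ d) : 1 - d ≠ 0 ∧ (μ : ℂ) ^ 2 + d ≠ 0 := by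
  constructor
  · intro h
    have h1 : d = 1 := (sub_eq_zero.mp h).symm
    rcases hd with hd | hd
    · rw [h1] at hd
      exact hd one_im
    · rw [h1, one_re] at hd
      exact lt_irrefl _ hd.2
  · intro h
    have h1 : d = -((μ ^ 2 : ℝ) : ℂ) := by
      push_cast
      linear_combination h
    rcases hd with hd | hd
    · rw [h1, neg_im, ofReal_im] at hd
      exact hd neg_zero
    · rw [h1, neg_re, ofReal_re] at hd
      exact lt_irrefl _ hd.1

theorem Adm.slit (hμ : 1 < μ) {d : ℂ} (hd : Adm μ d) :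
    ((μ : ℂ) ^ 2 + d) / (1 - d) ∈ Complex.slitPlane := by
  have hne := (Adm.ne hμ hd).1
  have hn := Complex.normSq_pos.mpr hne
  rw [Complex.mem_slitPlane_iff]
  by_cases h : d.im = 0
  · left
    rcases hd with hd | hd
    · exact absurd h hd
    · rw [sqb_re, h]
      apply div_pos _ hn
      have := mul_pos (show 0 < μ ^ 2 + d.re by linarith [hd.1]) (show 0 < 1 - d.re by linarith [hd.2])
      nlinarith
  · right
    rw [sqb_im]
    apply div_ne_zero _ hn.ne'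
    exact mul_ne_zero (by positivity) h

theorem Sq_sq (hμ : 1 < μ) {d : ℂ} (hd : Adm μ d) :
    Sq μ d ^ 2 = ((μ : ℂ) ^ 2 + d) / (1 - d) := by
  have h0 : ((μ : ℂ) ^ 2 + d) / (1 - d) ≠ 0 := div_ne_zero (Adm.ne hμ hd).2 (Adm.ne hμ hd).1
  unfold Sq
  rw [← Complex.exp_nat_mul]
  have : ((2 : ℕ) : ℂ) * (Complex.log (((μ : ℂ) ^ 2 + d) / (1 - d)) / 2) =
      Complex.log (((μ : ℂ) ^ 2 + d) / (1 - d)) := by
    push_cast
    ring
  rw [this, Complex.exp_log h0]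

theorem Sq_ne (μ : ℝ) (d : ℂ) : Sq μ d ≠ 0 := by
  unfold Sq
  exact Complex.exp_ne_zero _

theorem Sq_re_pos (hμ : 1 < μ) {d : ℂ} (hd : Adm μ d) : 0 < (Sq μ d).re := by
  have hs := Adm.slit hμ hd
  unfold Sq
  set w := ((μ : ℂ) ^ 2 + d) / (1 - d) with hw
  rw [Complex.exp_re]
  apply mul_pos (Real.exp_pos _)
  have h1 : (Complex.log w / 2).im = Complex.arg w / 2 := by
    rw [Complex.div_ofNat_im, Complex.log_im]
  rw [h1]
  have h2 := Complex.neg_pi_lt_arg w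
  have h3 := Complex.arg_le_pi w
  have h4 := Complex.slitPlane_arg_ne_pi hs
  have h5 := lt_of_le_of_ne h3 h4
  apply Real.cos_pos_of_mem_Ioo
  constructor <;> linarith

theorem Sq_im_nonpos (hμ : 1 < μ) {d : ℂ} (hd : Adm μ d) (h : d.im ≤ 0) : (Sq μ d).im ≤ 0 := by
  have hs := Adm.slit hμ hd
  have hne := (Adm.ne hμ hd).1
  have him : (((μ : ℂ) ^ 2 + d) / (1 - d)).im ≤ 0 := by
    rw [sqb_im]
    apply div_nonpos_of_nonpos_of_nonneg _ (Complex.normSq_nonneg _)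
    exact mul_nonpos_of_nonneg_of_nonpos (by positivity) h
  unfold Sq
  set w := ((μ : ℂ) ^ 2 + d) / (1 - d) with hw
  rw [Complex.exp_im]
  apply mul_nonpos_of_nonneg_of_nonpos (Real.exp_pos _).le
  have h1 : (Complex.log w / 2).im = Complex.arg w / 2 := by
    rw [Complex.div_ofNat_im, Complex.log_im]
  rw [h1]
  have h2 := Complex.neg_pi_lt_arg w
  have h6 : Complex.arg w ≤ 0 := by
    rcases lt_or_eq_of_le him with h7 | h7
    · exact (Complex.arg_neg_iff.mpr h7).le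
    · rw [Complex.mem_slitPlane_iff] at hs
      rcases hs with h8 | h8
      · have h9 : w = ((w.re : ℝ) : ℂ) := by
          apply Complex.ext
          · rw [ofReal_re]
          · rw [ofReal_im, h7]
        rw [h9, Complex.arg_ofReal_of_nonneg h8.le]
      · exact absurd h7 h8
  apply Real.sin_nonpos_of_nonpos_of_neg_pi_le
  · linarith
  · linarith [Real.pi_pos]

theorem Sq_conj (hμ : 1 < μ) {d : ℂ} (hd : Adm μ d) :
    Sq μ ((starRingEnd ℂ) d) = (starRingEnd ℂ) (Sq μ d) := by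
  have hs := Adm.slit hμ hd
  unfold Sq
  rw [← Complex.exp_conj]
  congr 1
  have h1 : ((μ : ℂ) ^ 2 + (starRingEnd ℂ) d) / (1 - (starRingEnd ℂ) d) =
      (starRingEnd ℂ) (((μ : ℂ) ^ 2 + d) / (1 - d)) := by
    simp
  rw [h1, Complex.log_conj _ (Complex.slitPlane_arg_ne_pi hs), map_div₀]
  rw [Complex.conj_ofNat]

theorem Sq_differentiableAt (hμ : 1 < μ) {d : ℂ} (hd : Adm μ d) :
    DifferentiableAt ℂ (Sq μ) d := by
  have hs := Adm.slit hμ hd
  have hne := (Adm.ne hμ hd).1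
  have h1 : DifferentiableAt ℂ (fun x : ℂ => ((μ : ℂ) ^ 2 + x) / (1 - x)) d :=
    DifferentiableAt.fun_div (by fun_prop) (by fun_prop) hne
  have h2 : DifferentiableAt ℂ (fun x : ℂ => Complex.log (((μ : ℂ) ^ 2 + x) / (1 - x))) d :=
    DifferentiableAt.clog h1 hs
  exact (h2.div_const 2).cexp

theorem Sr_pos (hμ : 1 < μ) {d : ℝ} (h1 : -μ ^ 2 < d) (h2 : d < 1) : 0 < Sr μ d := by
  unfold Sr
  apply Real.sqrt_pos.mpr
  exact div_pos (by linarith) (by linarith)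

theorem Sq_ofReal (hμ : 1 < μ) {d : ℝ} (h1 : -μ ^ 2 < d) (h2 : d < 1) :
    Sq μ (d : ℂ) = (Sr μ d : ℂ) := by
  have hp : 0 < (μ ^ 2 + d) / (1 - d) := div_pos (by linarith) (by linarith)
  have h3 : ((μ : ℂ) ^ 2 + (d : ℂ)) / (1 - (d : ℂ)) = (((μ ^ 2 + d) / (1 - d) : ℝ) : ℂ) := by
    push_cast
    rfl
  unfold Sq Sr
  rw [h3, ← Complex.ofReal_log hp.le]
  have h4 : ((Real.log ((μ ^ 2 + d) / (1 - d)) : ℝ) : ℂ) / 2 =
      ((Real.log ((μ ^ 2 + d) / (1 - d)) / 2 : ℝ) : ℂ) := by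
    push_cast
    rfl
  rw [h4, ← Complex.ofReal_exp, Real.exp_half, Real.exp_log hp]

theorem Sr_strictMonoOn (hμ : 1 < μ) : StrictMonoOn (Sr μ) (Set.Ioo (-μ ^ 2) 1) := by
  intro a ha b hb hab
  unfold Sr
  apply Real.sqrt_lt_sqrt
  · exact (div_pos (by linarith [ha.1]) (by linarith [ha.2])).le
  · rw [div_lt_div_iff₀ (by linarith [ha.2]) (by linarith [hb.2])]
    nlinarith [ha.1, ha.2, hb.1, hb.2]

end EQ2
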