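import Pool.Agent.Lib.MP_226de1_co.NNS
import Pool.Agent.Lib.MP_226de1_co.SqBasic

/-! `S(d) = sqrt((μ²+d)/(1-d))` has nonnegative Taylor coefficients on the unit disc.
Easiest: with `m = μ²`, `L(d) = ∑_{n≥1} (1/n) (1 - (-1/m)^n) d^n` (coefficients `≥ 0`) one has
`log ((m+d)/(1-d)) = log m + L(d)` on the unit disc, so `S = μ exp (L/2)`; `exp` has nonnegative
coefficients (`NNS r exp` for every `r`), use `NNS.comp`, `NNS.const`, `NNS.mul`. -/

set_option autoImplicit false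

namespace EQ2

open Complex Set Filter Topology

theorem NNS_exp (r : ℝ) : NNS r Complex.exp := by
  refine ⟨fun n => ((n.factorial : ℝ))⁻¹, fun n => by positivity, fun z _ => ?_⟩
  have h := NormedSpace.expSeries_div_hasSum_exp z
  rw [← Complex.exp_eq_exp_ℂ] at h
  have e : (fun n : ℕ => ((((n.factorial : ℝ))⁻¹ : ℝ) : ℂ) * z ^ n) =
      fun n => z ^ n / (n.factorial : ℂ) := by
    funext n
    push_cast
    rw [div_eq_mul_inv, mul_comm]
  show HasSum (fun n : ℕ => ((((n.factorial : ℝ))⁻¹ : ℝ) : ℂ) * z ^ n) _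
  rw [e]
  exact h

private theorem log_sub_of_re {a b : ℂ} (ha : 0 < a.re) (hb : 0 < b.re) :
    Complex.log (a / b) = Complex.log a - Complex.log b := by
  have ha0 : a ≠ 0 := by rintro rfl; simp at ha
  have hb0 : b ≠ 0 := by rintro rfl; simp at hb
  have h1 : |a.arg| < Real.pi / 2 := Complex.abs_arg_lt_pi_div_two_iff.mpr (Or.inl ha)
  have h2 : |b.arg| < Real.pi / 2 := Complex.abs_arg_lt_pi_div_two_iff.mpr (Or.inl hb)
  have h3 := abs_lt.mp h1
  have h4 := abs_lt.mp h2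
  have hpi := Real.pi_pos
  have hbpi : b.arg ≠ Real.pi := by intro h; rw [h] at h4; linarith [h4.2]
  have hbinv : (b⁻¹).arg = -b.arg := by rw [Complex.arg_inv, if_neg hbpi]
  rw [div_eq_mul_inv, Complex.log_mul ha0 (inv_ne_zero hb0), Complex.log_inv _ hbpi, sub_eq_add_neg]
  rw [hbinv]
  exact ⟨by linarith [h3.1, h4.2], by linarith [h3.2, h4.1]⟩

theorem NNS_log_quot {μ : ℝ} (hμ : 1 < μ) :
    NNS 1 (fun d : ℂ => Complex.log (((μ : ℂ) ^ 2 + d) / (1 - d)) - Complex.log ((μ : ℂ) ^ 2)) := by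
  have hμ0 : 0 < μ := by linarith
  have hm : 1 < μ ^ 2 := by nlinarith
  have hmc : ((μ : ℂ) ^ 2) ≠ 0 := by
    exact pow_ne_zero _ (Complex.ofReal_ne_zero.mpr hμ0.ne')
  refine ⟨fun n => (1 - (-(μ ^ 2)⁻¹) ^ n) / n, fun n => ?_, fun z hz => ?_⟩
  · apply div_nonneg _ (Nat.cast_nonneg n)
    have h1 : |(-(μ ^ 2)⁻¹) ^ n| ≤ 1 := by
      rw [abs_pow, abs_neg, abs_of_pos (by positivity)]
      exact pow_le_one₀ (by positivity) (inv_le_one_of_one_le₀ hm.le)
    linarith [(abs_le.mp h1).2]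
  · have hz2 : ‖z / (μ : ℂ) ^ 2‖ < 1 := by
      rw [norm_div, norm_pow, Complex.norm_real, Real.norm_of_nonneg hμ0.le,
        div_lt_one (by positivity)]
      linarith
    have h1 := Complex.hasSum_taylorSeries_log hz2
    have h2 := Complex.hasSum_taylorSeries_neg_log hz
    have h3 := h1.add h2
    have hre1 : 0 < (1 + z / (μ : ℂ) ^ 2).re := by
      have := Complex.abs_re_le_norm (z / (μ : ℂ) ^ 2)
      have h5 := (abs_le.mp this).1
      simp only [Complex.add_re, Complex.one_re]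
      linarith
    have hre2 : 0 < (1 - z).re := by
      have := Complex.abs_re_le_norm z
      have h5 := (abs_le.mp this).2
      simp only [Complex.sub_re, Complex.one_re]
      linarith
    have hne1 : (1 + z / (μ : ℂ) ^ 2) ≠ 0 := by
      intro h; rw [h] at hre1; simp at hre1
    have hne2 : (1 - z) ≠ 0 := by
      intro h; rw [h] at hre2; simp at hre2
    have hlog : Complex.log (((μ : ℂ) ^ 2 + z) / (1 - z)) - Complex.log ((μ : ℂ) ^ 2) =
        Complex.log (1 + z / (μ : ℂ) ^ 2) + -Complex.log (1 - z) := by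
      have h6 : ((μ : ℂ) ^ 2 + z) / (1 - z) =
          ((μ ^ 2 : ℝ) : ℂ) * ((1 + z / (μ : ℂ) ^ 2) / (1 - z)) := by
        have h8 : (μ : ℂ) ^ 2 * (1 + z / (μ : ℂ) ^ 2) = (μ : ℂ) ^ 2 + z := by
          rw [mul_add, mul_one, mul_div_cancel₀ _ hmc]
        push_cast
        rw [← mul_div_assoc, h8]
      rw [h6, Complex.log_ofReal_mul (by positivity) (div_ne_zero hne1 hne2),
        log_sub_of_re hre1 hre2]
      have h7 : Complex.log ((μ : ℂ) ^ 2) = ((Real.log (μ ^ 2) : ℝ) : ℂ) := by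
        rw [← Complex.ofReal_pow, Complex.ofReal_log (by positivity)]
      rw [h7]
      ring
    show HasSum (fun n : ℕ => (((1 - (-(μ ^ 2)⁻¹) ^ n) / n : ℝ) : ℂ) * z ^ n)
      (Complex.log (((μ : ℂ) ^ 2 + z) / (1 - z)) - Complex.log ((μ : ℂ) ^ 2))
    rw [hlog]
    convert h3 using 1
    funext n
    push_cast
    rcases Nat.eq_zero_or_pos n with rfl | hn
    · simp
    · have hnc : (n : ℂ) ≠ 0 := by exact_mod_cast hn.ne'
      rw [neg_pow (((μ : ℂ) ^ 2)⁻¹) n, div_pow, inv_pow, pow_succ (-1 : ℂ) n]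
      ring

private theorem NNS.re_mono {r : ℝ} {g : ℂ → ℂ} (hg : NNS r g) {t s : ℝ} (h0 : 0 ≤ t) (hts : t ≤ s)
    (hs : s < r) : (g (t : ℂ)).re ≤ (g (s : ℂ)).re := by
  obtain ⟨a, ha, hsum⟩ := hg
  have h1 := hsum (t : ℂ) (by rw [Complex.norm_real, Real.norm_of_nonneg h0]; linarith)
  have h2 := hsum (s : ℂ) (by rw [Complex.norm_real, Real.norm_of_nonneg (h0.trans hts)]; exact hs)
  have h3 := Complex.hasSum_re h1
  have h4 := Complex.hasSum_re h2
  refine hasSum_le (fun n => ?_) h3 h4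
  have e1 : ((a n : ℂ) * (t : ℂ) ^ n).re = a n * t ^ n := by
    rw [← Complex.ofReal_pow, ← Complex.ofReal_mul, Complex.ofReal_re]
  have e2 : ((a n : ℂ) * (s : ℂ) ^ n).re = a n * s ^ n := by
    rw [← Complex.ofReal_pow, ← Complex.ofReal_mul, Complex.ofReal_re]
  rw [e1, e2]
  exact mul_le_mul_of_nonneg_left (pow_le_pow_left₀ h0 hts n) (ha n)

theorem NNS_Sq {μ : ℝ} (hμ : 1 < μ) : NNS 1 (Sq μ) := by
  have hμ0 : 0 < μ := by linarith
  set g : ℂ → ℂ := fun d =>
    (((1 / 2 : ℝ)) : ℂ) * (Complex.log (((μ : ℂ) ^ 2 + d) / (1 - d)) - Complex.log ((μ : ℂ) ^ 2))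
    with hg
  have hgN : NNS 1 g := (NNS.const 1 (1 / 2) (by norm_num)).mul (NNS_log_quot hμ)
  have hSq : ∀ d, Sq μ d = (μ : ℂ) * Complex.exp (g d) := by
    intro d
    have h1 : Complex.log (((μ : ℂ) ^ 2 + d) / (1 - d)) / 2 =
        Complex.log (μ : ℂ) + g d := by
      have h7 : Complex.log ((μ : ℂ) ^ 2) = 2 * Complex.log (μ : ℂ) := by
        rw [← Complex.ofReal_pow, ← Complex.ofReal_log (by positivity),
          ← Complex.ofReal_log hμ0.le, Real.log_pow]
        push_cast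
        ring
      rw [hg]
      simp only [h7]
      push_cast
      ring
    unfold Sq
    rw [h1, Complex.exp_add, Complex.exp_log (Complex.ofReal_ne_zero.mpr hμ0.ne')]
  -- `NNS s (Sq μ)` for every `s < 1`
  have hs : ∀ s : ℝ, 0 < s → s < 1 → NNS s (Sq μ) := by
    intro s hs0 hs1
    have hgs : NNS s g := by
      obtain ⟨a, ha, hsum⟩ := hgN
      exact ⟨a, ha, fun z hz => hsum z (hz.trans hs1)⟩
    have h1 : NNS s (fun z => Complex.exp (g z)) := by
      refine NNS.comp (r := (g (s : ℂ)).re + 1) (NNS_exp _) hgs ?_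
      intro t ht0 hts
      have := hgN.re_mono ht0 hts.le hs1
      linarith
    have h2 := (NNS.const s μ hμ0.le).mul h1
    obtain ⟨a, ha, hsum⟩ := h2
    refine ⟨a, ha, fun z hz => ?_⟩
    rw [hSq]
    exact hsum z hz
  obtain ⟨a, ha, hsum⟩ := hs (1 / 2) (by norm_num) (by norm_num)
  refine ⟨a, ha, fun z hz => ?_⟩
  set s : ℝ := (‖z‖ + 1) / 2 with hsdef
  have hzn := norm_nonneg z
  have hs0 : 0 < s := by rw [hsdef]; linarith
  have hs1 : s < 1 := by rw [hsdef]; linarith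
  have hzs : ‖z‖ < s := by rw [hsdef]; linarith
  obtain ⟨b, hb, hbsum⟩ := hs s hs0 hs1
  have hab : (fun n => (a n : ℂ)) = (fun n => (b n : ℂ)) := by
    refine NNS.unique (ε := min (1 / 2) s) (lt_min (by norm_num) hs0) (f := Sq μ) ?_ ?_
    · intro w hw
      exact hsum w (hw.trans_le (min_le_left _ _))
    · intro w hw
      exact hbsum w (hw.trans_le (min_le_right _ _))
  have h3 := hbsum z hzs
  have h4 : (fun n => (b n : ℂ) * z ^ n) = fun n => (a n : ℂ) * z ^ n := by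
    funext n
    rw [← congrFun hab n]
  rw [h4] at h3
  exact h3

end EQ2
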