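import Pool.Agent.Lib.MP_226de1_co.RealLine

/-! Extension of `q`, `p` to `Re x < 3ℓ/2`, `|Im x| < π/2`. -/

set_option autoImplicit false

namespace EQ2

open Complex Set Filter Topology

noncomputable section

/-- `D_n = q_n - q_{n+1} = 2a/(S Y)` -/
def Dn (μ : ℝ) (F : ℕ → ℝ) (y : ℂ → ℂ) (x : ℂ) : ℂ := ((μ : ℂ) - 1) / (Sx μ F x * Yx y x)

def qE (μ : ℝ) (F : ℕ → ℝ) (y : ℂ → ℂ) (x : ℂ) : ℂ :=
  qx μ F y (x - (ell μ : ℂ)) - Dn μ F y (x - (ell μ : ℂ))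

def pE (μ : ℝ) (F : ℕ → ℝ) (y : ℂ → ℂ) (x : ℂ) : ℂ :=
  (Sx μ F (x - (ell μ : ℂ)) * Yx y (x - (ell μ : ℂ)) / ((μ : ℂ) - 1)) ^ 2

/-- the domain: open strip up to `3ℓ/2`, everything up to `ℓ` -/
def Dom (μ : ℝ) (x : ℂ) : Prop :=
  (x.re < 3 * ell μ / 2 ∧ |x.im| < Real.pi / 2) ∨ x.re < ell μ

end

variable {μ : ℝ} {F : ℕ → ℝ} {y : ℂ → ℂ}

/-- values of `D` on `Re x < ℓ/2`, `|Im x| < π/2` are admissible (`P1_lt`, `rD_gt`, `rD_neg'`,
conjugation) -/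
theorem adm_Dx (h : HF μ F) (hy : HY μ F y) {x : ℂ} (hx : x.re < ell μ / 2)
    (hi : |x.im| < Real.pi / 2) : Adm μ (Dx F x) := by
  have hl := ell_pos h.hμ
  rw [abs_lt] at hi
  rcases lt_trichotomy x.im 0 with h0 | h0 | h0
  · left
    have h1 := P1_lt h hy (x := (starRingEnd ℂ) x) (by rw [Complex.conj_re]; exact hx)
      (by rw [Complex.conj_im]; linarith) (by rw [Complex.conj_im]; linarith [hi.1])
    rw [h.Dx_conj, Complex.conj_im] at h1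
    intro h2
    rw [h2] at h1
    simp at h1
  · right
    have hxr : x = ((x.re : ℝ) : ℂ) := by
      apply Complex.ext
      · simp
      · simp [h0]
    rw [hxr, h.Dx_ofReal (by linarith), Complex.ofReal_re]
    have h1 := rD_gt h hy hx
    have h2 := rD_neg' h hy hx
    exact ⟨h1, by linarith⟩
  · left
    have h1 := P1_lt h hy hx h0 hi.2
    exact ne_of_lt h1

/-- admissible also for `Re x < 0` (`|D| < 1`) -/
theorem adm_Dx' (h : HF μ F) {x : ℂ} (hx : x.re < 0) : Adm μ (Dx F x) :=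
  Adm.of_norm h.hμ (h.norm_Dx_lt hx)

private theorem ext_SY_aux (h : HF μ F) (hy : HY μ F y) {x : ℂ} (hx : x.re < ell μ / 2)
    (h0 : 0 ≤ x.im) (h1 : x.im < Real.pi / 2) : 0 < (Sx μ F x * Yx y x).re := by
  have hadm := adm_Dx h hy hx (by rw [abs_of_nonneg h0]; exact h1)
  have hS1 : 0 < (Sx μ F x).re := Sq_re_pos h.hμ hadm
  have hS2 : (Sx μ F x).im ≤ 0 := Sq_im_nonpos h.hμ hadm (P1_le h hy hx h0 h1.le)
  obtain ⟨hY1, hY2⟩ := Y_Q1 h hy hx h0 h1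
  rw [Complex.mul_re]
  have h2 : 0 < (Sx μ F x).re * (Yx y x).re := mul_pos hS1 hY1
  have h3 : (Sx μ F x).im * (Yx y x).im ≤ 0 := mul_nonpos_of_nonpos_of_nonneg hS2 hY2
  linarith

/-- `Re (S Y) > 0`: for `0 ≤ Im x`, `S ∈ Q4`, `Y ∈ Q1`, real parts positive; conjugate otherwise -/
theorem SY_re_pos (h : HF μ F) (hy : HY μ F y) {x : ℂ} (hx : x.re < ell μ / 2)
    (hi : |x.im| < Real.pi / 2) : 0 < (Sx μ F x * Yx y x).re := by
  have hl := ell_pos h.hμ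
  rcases le_or_gt 0 x.im with h0 | h0
  · rw [abs_of_nonneg h0] at hi
    exact ext_SY_aux h hy hx h0 hi
  · have hadm := adm_Dx h hy hx hi
    rw [abs_of_neg h0] at hi
    have h1 := ext_SY_aux h hy (x := (starRingEnd ℂ) x) (by rw [Complex.conj_re]; exact hx)
      (by rw [Complex.conj_im]; linarith) (by rw [Complex.conj_im]; exact hi)
    have h2 : Sx μ F ((starRingEnd ℂ) x) = (starRingEnd ℂ) (Sx μ F x) := by
      unfold Sx
      rw [h.Dx_conj, Sq_conj h.hμ hadm]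
    rw [h2, HY.Yx_conj h hy (by linarith), ← map_mul, Complex.conj_re] at h1
    exact h1

theorem Dn_re_pos (h : HF μ F) (hy : HY μ F y) {x : ℂ} (hx : x.re < ell μ / 2)
    (hi : |x.im| < Real.pi / 2) : 0 < (Dn μ F y x).re := by
  have h1 := SY_re_pos h hy hx hi
  have hμ := h.hμ
  unfold Dn
  obtain ⟨w, hw⟩ : ∃ w, w = Sx μ F x * Yx y x := ⟨_, rfl⟩
  rw [← hw] at h1 ⊢
  have h2 : ((μ : ℂ) - 1) = (((μ - 1 : ℝ)) : ℂ) := by push_cast; ring
  have hw0 : w ≠ 0 := by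
    intro h0
    rw [h0] at h1
    simp at h1
  rw [h2, div_eq_mul_inv, Complex.re_ofReal_mul, Complex.inv_re]
  apply mul_pos (by linarith)
  exact div_pos h1 (Complex.normSq_pos.mpr hw0)

end EQ2
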