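import Mathlib

/-! The half-step maximum principle: two reflection lemmas for holomorphic functions on the
rectangle `|Re z - c| ≤ h, 0 ≤ Im z ≤ π/2`.

Proof: put `g z = f z - conj (f (2c - conj z))` (the point `2c - conj z` is the reflection of `z`
in the line `Re = c`; `g` is holomorphic on the rectangle, since `z ↦ conj (f (2c - conj z))` is).
* `Im g z = Im f z + Im f (refl z)` is `≥ 0` on the boundary of the rectangle, so
  `‖exp (i g)‖ = exp (-Im g) ≤ 1` on the frontier and hence inside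
  (`Complex.norm_le_of_forall_mem_frontier_norm_le`); at `Re z = c`, `Im g = 2 Im f`.
* `Re g z = Re f z - Re f (refl z)` is `≤ 0` on the boundary of the right half
  `c ≤ Re z ≤ c + h` of the rectangle (it vanishes on `Re z = c`), so `‖exp g‖ ≤ 1` inside,
  `Re f (c+t+is) ≤ Re f (c-t+is)` for `0 ≤ t ≤ h`; differentiate at `t = 0`. -/

set_option autoImplicit false

namespace EQ2

open Complex Set Filter Topology

/-- maximum principle for the real part on a closed rectangle -/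
private theorem rect_max {G : ℂ → ℂ} {a b d : ℝ} (hab : a < b) (hd : 0 < d)
    (hG : ∀ z : ℂ, a ≤ z.re → z.re ≤ b → 0 ≤ z.im → z.im ≤ d → DifferentiableAt ℂ G z)
    (hbot : ∀ t : ℝ, a ≤ t → t ≤ b → (G ⟨t, 0⟩).re ≤ 0)
    (htop : ∀ t : ℝ, a ≤ t → t ≤ b → (G ⟨t, d⟩).re ≤ 0)
    (hleft : ∀ s : ℝ, 0 ≤ s → s ≤ d → (G ⟨a, s⟩).re ≤ 0)
    (hright : ∀ s : ℝ, 0 ≤ s → s ≤ d → (G ⟨b, s⟩).re ≤ 0)
    {z : ℂ} (h1 : a ≤ z.re) (h2 : z.re ≤ b) (h3 : 0 ≤ z.im) (h4 : z.im ≤ d) :
    (G z).re ≤ 0 := by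
  have hcl : closure (Ioo a b ×ℂ Ioo 0 d) = Icc a b ×ℂ Icc 0 d := by
    rw [Complex.closure_reProdIm, closure_Ioo hab.ne, closure_Ioo hd.ne]
  have hfr : frontier (Ioo a b ×ℂ Ioo 0 d) = Icc a b ×ℂ {0, d} ∪ {a, b} ×ℂ Icc 0 d := by
    rw [Complex.frontier_reProdIm, closure_Ioo hab.ne, closure_Ioo hd.ne, frontier_Ioo hab,
      frontier_Ioo hd]
  have hB : Bornology.IsBounded (Ioo a b ×ℂ Ioo 0 d) :=
    (Metric.isBounded_Ioo _ _).reProdIm (Metric.isBounded_Ioo _ _)
  have hdc : DiffContOnCl ℂ (fun w => Complex.exp (G w)) (Ioo a b ×ℂ Ioo 0 d) := by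
    apply DifferentiableOn.diffContOnCl
    rw [hcl]
    intro w hw
    have hw' := Complex.mem_reProdIm.mp hw
    exact (hG w hw'.1.1 hw'.1.2 hw'.2.1 hw'.2.2).cexp.differentiableWithinAt
  have hexp : ∀ w : ℂ, ‖Complex.exp (G w)‖ ≤ 1 ↔ (G w).re ≤ 0 := by
    intro w
    rw [Complex.norm_exp, Real.exp_le_one_iff]
  have hzcl : z ∈ closure (Ioo a b ×ℂ Ioo 0 d) := by
    rw [hcl]
    exact Complex.mem_reProdIm.mpr ⟨⟨h1, h2⟩, ⟨h3, h4⟩⟩
  have key := Complex.norm_le_of_forall_mem_frontier_norm_le hB hdc (C := 1) (by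
    intro w hw
    rw [hexp]
    rw [hfr] at hw
    rcases hw with hw | hw
    · have hw' := Complex.mem_reProdIm.mp hw
      rcases hw'.2 with h | h
      · have := hbot w.re hw'.1.1 hw'.1.2
        have e : (⟨w.re, 0⟩ : ℂ) = w := Complex.ext rfl h.symm
        rwa [e] at this
      · have := htop w.re hw'.1.1 hw'.1.2
        have e : (⟨w.re, d⟩ : ℂ) = w := Complex.ext rfl (Set.mem_singleton_iff.mp h).symm
        rwa [e] at this
    · have hw' := Complex.mem_reProdIm.mp hw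
      rcases hw'.1 with h | h
      · have := hleft w.im hw'.2.1 hw'.2.2
        have e : (⟨a, w.im⟩ : ℂ) = w := Complex.ext h.symm rfl
        rwa [e] at this
      · have := hright w.im hw'.2.1 hw'.2.2
        have e : (⟨b, w.im⟩ : ℂ) = w := Complex.ext (Set.mem_singleton_iff.mp h).symm rfl
        rwa [e] at this) hzcl
  exact (hexp z).mp key

/-- the reflection in the line `Re = c` -/
private noncomputable def rfl' (c : ℝ) (z : ℂ) : ℂ := ⟨2 * c - z.re, z.im⟩

/-- the reflected function -/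
private noncomputable def refF (f : ℂ → ℂ) (c : ℝ) (z : ℂ) : ℂ :=
  (starRingEnd ℂ) (f (rfl' c z))

private theorem refF_diff {f : ℂ → ℂ} {c : ℝ} {z : ℂ} (hf : DifferentiableAt ℂ f (rfl' c z)) :
    DifferentiableAt ℂ (refF f c) z := by
  have h1 : (fun w : ℂ => refF f c w) =
      fun w : ℂ => ((starRingEnd ℂ) ∘ f ∘ (starRingEnd ℂ)) (2 * c - w) := by
    funext w
    unfold refF rfl'
    simp only [Function.comp_apply]
    congr 2
    apply Complex.ext <;> simp
  have h2 : DifferentiableAt ℂ ((starRingEnd ℂ) ∘ f ∘ (starRingEnd ℂ)) (2 * c - z) := by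
    have e : (2 * c - z : ℂ) = (starRingEnd ℂ) (rfl' c z) := by
      unfold rfl'
      apply Complex.ext <;> simp
    rw [e]
    exact hf.conj_conj
  have h3 : DifferentiableAt ℂ (fun w : ℂ => (2 * c - w : ℂ)) z := by fun_prop
  have h4 := DifferentiableAt.comp (g := (starRingEnd ℂ) ∘ f ∘ (starRingEnd ℂ))
    (f := fun w : ℂ => (2 * c - w : ℂ)) z h2 h3
  have : refF f c = ((starRingEnd ℂ) ∘ f ∘ (starRingEnd ℂ)) ∘ (fun w : ℂ => (2 * c - w : ℂ)) := h1
  rw [this]
  exact h4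

theorem halfstep_sum {f : ℂ → ℂ} {c h : ℝ} (hh : 0 < h)
    (hf : ∀ z : ℂ, |z.re - c| ≤ h → 0 ≤ z.im → z.im ≤ Real.pi / 2 → DifferentiableAt ℂ f z)
    (hbot : ∀ t : ℝ, |t - c| ≤ h → 0 ≤ (f ⟨t, 0⟩).im)
    (htop : ∀ t : ℝ, |t - c| ≤ h → 0 ≤ (f ⟨t, Real.pi / 2⟩).im)
    (hside : ∀ s : ℝ, 0 ≤ s → s ≤ Real.pi / 2 → 0 ≤ (f ⟨c - h, s⟩).im + (f ⟨c + h, s⟩).im) :
    ∀ s : ℝ, 0 ≤ s → s ≤ Real.pi / 2 → 0 ≤ (f ⟨c, s⟩).im := by
  intro s hs0 hs1
  have hpi : 0 < Real.pi / 2 := by positivity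
  have key : ∀ z : ℂ, c - h ≤ z.re → z.re ≤ c + h → 0 ≤ z.im → z.im ≤ Real.pi / 2 →
      ((I * (f z - refF f c z)).re ≤ 0) := by
    intro z h1 h2 h3 h4
    refine rect_max (G := fun z => I * (f z - refF f c z)) (a := c - h) (b := c + h)
      (by linarith) hpi ?_ ?_ ?_ ?_ ?_ h1 h2 h3 h4
    · intro w w1 w2 w3 w4
      have d1 : DifferentiableAt ℂ f w := hf w (abs_le.mpr ⟨by linarith, by linarith⟩) w3 w4
      have d2 : DifferentiableAt ℂ f (rfl' c w) :=
        hf _ (by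
          show |2 * c - w.re - c| ≤ h
          exact abs_le.mpr ⟨by linarith, by linarith⟩) w3 w4
      exact (d1.sub (refF_diff d2)).const_mul I
    · intro t t1 t2
      have e1 := hbot t (abs_le.mpr ⟨by linarith, by linarith⟩)
      have e2 := hbot (2 * c - t) (abs_le.mpr ⟨by linarith, by linarith⟩)
      simp only [refF, rfl', mul_re, I_re, zero_mul, I_im, one_mul, sub_im, conj_im]
      linarith
    · intro t t1 t2
      have e1 := htop t (abs_le.mpr ⟨by linarith, by linarith⟩)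
      have e2 := htop (2 * c - t) (abs_le.mpr ⟨by linarith, by linarith⟩)
      simp only [refF, rfl', mul_re, I_re, zero_mul, I_im, one_mul, sub_im, conj_im]
      linarith
    · intro r r1 r2
      have e1 := hside r r1 r2
      simp only [refF, rfl', mul_re, I_re, zero_mul, I_im, one_mul, sub_im, conj_im]
      have e : 2 * c - (c - h) = c + h := by ring
      rw [e]
      linarith
    · intro r r1 r2
      have e1 := hside r r1 r2
      simp only [refF, rfl', mul_re, I_re, zero_mul, I_im, one_mul, sub_im, conj_im]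
      have e : 2 * c - (c + h) = c - h := by ring
      rw [e]
      linarith
  have k := key ⟨c, s⟩ (by show c - h ≤ c; linarith) (by show c ≤ c + h; linarith) hs0 hs1
  simp only [refF, rfl', mul_re, I_re, zero_mul, I_im, one_mul, sub_im, conj_im] at k
  have e : 2 * c - c = c := by ring
  rw [e] at k
  linarith

theorem halfstep_diff {f : ℂ → ℂ} {c h : ℝ} (hh : 0 < h)
    (hf : ∀ z : ℂ, |z.re - c| ≤ h → 0 ≤ z.im → z.im ≤ Real.pi / 2 → DifferentiableAt ℂ f z)
    (hbot : ∀ t : ℝ, 0 ≤ t → t ≤ h → (f ⟨c + t, 0⟩).re ≤ (f ⟨c - t, 0⟩).re)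
    (htop : ∀ t : ℝ, 0 ≤ t → t ≤ h → (f ⟨c + t, Real.pi / 2⟩).re ≤ (f ⟨c - t, Real.pi / 2⟩).re)
    (hside : ∀ s : ℝ, 0 ≤ s → s ≤ Real.pi / 2 → (f ⟨c + h, s⟩).re ≤ (f ⟨c - h, s⟩).re) :
    ∀ s : ℝ, 0 ≤ s → s ≤ Real.pi / 2 → (deriv f ⟨c, s⟩).re ≤ 0 := by
  intro s hs0 hs1
  have hpi : 0 < Real.pi / 2 := by positivity
  have key : ∀ z : ℂ, c ≤ z.re → z.re ≤ c + h → 0 ≤ z.im → z.im ≤ Real.pi / 2 →
      ((f z - refF f c z).re ≤ 0) := by
    intro z h1 h2 h3 h4
    refine rect_max (G := fun z => f z - refF f c z) (a := c) (b := c + h)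
      (by linarith) hpi ?_ ?_ ?_ ?_ ?_ h1 h2 h3 h4
    · intro w w1 w2 w3 w4
      have d1 : DifferentiableAt ℂ f w := hf w (abs_le.mpr ⟨by linarith, by linarith⟩) w3 w4
      have d2 : DifferentiableAt ℂ f (rfl' c w) :=
        hf _ (by
          show |2 * c - w.re - c| ≤ h
          exact abs_le.mpr ⟨by linarith, by linarith⟩) w3 w4
      exact d1.sub (refF_diff d2)
    · intro t t1 t2
      have e1 := hbot (t - c) (by linarith) (by linarith)
      simp only [refF, rfl', sub_re, conj_re]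
      have e2 : c + (t - c) = t := by ring
      have e3 : c - (t - c) = 2 * c - t := by ring
      rw [e2, e3] at e1
      linarith
    · intro t t1 t2
      have e1 := htop (t - c) (by linarith) (by linarith)
      simp only [refF, rfl', sub_re, conj_re]
      have e2 : c + (t - c) = t := by ring
      have e3 : c - (t - c) = 2 * c - t := by ring
      rw [e2, e3] at e1
      linarith
    · intro r r1 r2
      simp only [refF, rfl', sub_re, conj_re]
      have e2 : 2 * c - c = c := by ring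
      rw [e2]
      linarith
    · intro r r1 r2
      have e1 := hside r r1 r2
      simp only [refF, rfl', sub_re, conj_re]
      have e : 2 * c - (c + h) = c - h := by ring
      rw [e]
      linarith
  have hd : HasDerivAt f (deriv f ⟨c, s⟩) ⟨c, s⟩ :=
    (hf ⟨c, s⟩ (by show |c - c| ≤ h; rw [sub_self, abs_zero]; exact hh.le) hs0 hs1).hasDerivAt
  have hp : HasDerivAt (fun t : ℝ => (f ⟨c + t, s⟩).re) (deriv f ⟨c, s⟩).re 0 := by
    have h1 : HasDerivAt (fun w : ℂ => f (⟨c, s⟩ + w)) (deriv f ⟨c, s⟩) ((0 : ℝ) : ℂ) := by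
      have h2 : HasDerivAt (fun w : ℂ => (⟨c, s⟩ : ℂ) + w) 1 ((0 : ℝ) : ℂ) :=
        (hasDerivAt_id _).const_add _
      have h3 : HasDerivAt f (deriv f ⟨c, s⟩) ((⟨c, s⟩ : ℂ) + ((0 : ℝ) : ℂ)) := by simpa using hd
      have h4 := HasDerivAt.comp ((0 : ℝ) : ℂ) h3 h2
      rw [mul_one] at h4
      exact h4
    have h5 := h1.real_of_complex
    refine h5.congr_of_eventuallyEq (Filter.Eventually.of_forall fun t => ?_)
    show (f ⟨c + t, s⟩).re = (f (⟨c, s⟩ + (t : ℂ))).re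
    congr 2
    apply Complex.ext <;> simp
  have hm : HasDerivAt (fun t : ℝ => (f ⟨c - t, s⟩).re) (-(deriv f ⟨c, s⟩).re) 0 := by
    have h2 : HasDerivAt (fun t : ℝ => -t) (-1) (0 : ℝ) := hasDerivAt_neg' 0
    have h3 : HasDerivAt (fun t : ℝ => (f ⟨c + t, s⟩).re) (deriv f ⟨c, s⟩).re (-(0 : ℝ)) := by
      simpa using hp
    have h4 := HasDerivAt.comp (0 : ℝ) h3 h2
    have h5 : ((fun t : ℝ => (f ⟨c + t, s⟩).re) ∘ fun t : ℝ => -t) =
        fun t : ℝ => (f ⟨c - t, s⟩).re := by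
      funext t
      show (f ⟨c + -t, s⟩).re = _
      rw [← sub_eq_add_neg]
    rw [h5] at h4
    simpa using h4
  have hdiff := hp.sub hm
  have hlim := hdiff.tendsto_slope_zero_right
  have hle : (deriv f ⟨c, s⟩).re - -(deriv f ⟨c, s⟩).re ≤ 0 := by
    refine le_of_tendsto hlim ?_
    have hmem : Ioc (0 : ℝ) h ∈ 𝓝[>] (0 : ℝ) := Ioc_mem_nhdsGT hh
    filter_upwards [hmem] with t ht
    have k := key ⟨c + t, s⟩ (by show c ≤ c + t; linarith [ht.1])
      (by show c + t ≤ c + h; linarith [ht.2]) hs0 hs1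
    simp only [refF, rfl', sub_re, conj_re] at k
    have e : 2 * c - (c + t) = c - t := by ring
    rw [e] at k
    simp only [Pi.sub_apply, zero_add, add_zero, sub_zero, smul_eq_mul, sub_self]
    have ht0 : 0 < t⁻¹ := inv_pos.mpr ht.1
    exact mul_nonpos_of_nonneg_of_nonpos ht0.le k
  linarith

end EQ2
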