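import Mathlib

/-! Local lemmas on analytic functions of constant sign. -/

set_option autoImplicit false

namespace EQ2

open Complex Set Filter Topology

/-- If `Im f ≤ 0` near `z₀` and `f` is not locally constant then `Im f z₀ < 0`
(open mapping: `AnalyticAt.eventually_constant_or_nhds_le_map_nhds`). -/
theorem im_neg_of_nonpos {f : ℂ → ℂ} {z₀ : ℂ} (hf : AnalyticAt ℂ f z₀)
    (hs : ∀ᶠ z in 𝓝 z₀, (f z).im ≤ 0) (hnc : ¬ ∀ᶠ z in 𝓝 z₀, f z = f z₀) : (f z₀).im < 0 := by
  rcases hf.eventually_constant_or_nhds_le_map_nhds with h | h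
  · exact absurd h hnc
  · by_contra hge
    push Not at hge
    have h1 : {w : ℂ | w.im ≤ 0} ∈ 𝓝 (f z₀) := h hs
    have h2 : Tendsto (fun t : ℝ => f z₀ + (t : ℂ) * I) (𝓝[>] (0 : ℝ)) (𝓝 (f z₀)) := by
      have h3 : Tendsto (fun t : ℝ => f z₀ + (t : ℂ) * I) (𝓝 (0 : ℝ)) (𝓝 (f z₀)) := by
        have : Continuous (fun t : ℝ => f z₀ + (t : ℂ) * I) := by fun_prop
        have h4 := this.tendsto 0
        simpa using h4
      exact h3.mono_left nhdsWithin_le_nhds
    have h5 : ∀ᶠ t : ℝ in 𝓝[>] (0 : ℝ), (f z₀ + (t : ℂ) * I).im ≤ 0 := h2.eventually h1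
    have h6 : ∀ᶠ t : ℝ in 𝓝[>] (0 : ℝ), t ∈ Ioi (0 : ℝ) := self_mem_nhdsWithin
    obtain ⟨t, ht1, ht2⟩ := (h5.and h6).exists
    simp only [add_im, mul_im, ofReal_re, I_im, mul_one, ofReal_im,
      I_re, mul_zero, add_zero, mem_Ioi] at ht1 ht2
    linarith

/-- `f` real on the real axis, `Im f ≤ 0` above the real axis near `t`, `f` not locally constant:
then `f'(t) < 0`.  (Write `f z - f t = (z-t)^N g z`, `g t ≠ 0`, `g t` real.  If `N ≥ 2`, the
numbers `ε^N e^{iNφ} g t`, `0 ≤ φ ≤ π`, cover all directions, contradiction; `N = 1` and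
`Im (f (t+iε)) ≤ 0` gives `f' < 0`.) -/
theorem deriv_neg_of_im_nonpos_up {f : ℂ → ℂ} {t : ℝ} (hf : AnalyticAt ℂ f (t : ℂ))
    (hreal : ∀ᶠ s : ℝ in 𝓝 t, (f (s : ℂ)).im = 0)
    (hs : ∀ᶠ z in 𝓝 (t : ℂ), 0 ≤ z.im → (f z).im ≤ 0)
    (hnc : ¬ ∀ᶠ z in 𝓝 (t : ℂ), f z = f (t : ℂ)) : (deriv f (t : ℂ)).re < 0 := by
  have hft : (f (t : ℂ)).im = 0 := hreal.self_of_nhds
  have hF : AnalyticAt ℂ (fun z => f z - f t) (t : ℂ) := hf.sub analyticAt_const
  have hne : ¬ ∀ᶠ z in 𝓝 (t : ℂ), f z - f t = 0 := by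
    intro h
    exact hnc (h.mono fun z hz => sub_eq_zero.mp hz)
  obtain ⟨N, g, hg, hgt, hgeq⟩ := (hF.exists_eventuallyEq_pow_smul_nonzero_iff).mpr hne
  have hN : N ≠ 0 := by
    rintro rfl
    have := hgeq.self_of_nhds
    simp at this
    exact hgt this.symm
  -- `g t` is real
  have hgreal : (g t).im = 0 := by
    have hcont : Tendsto (fun s : ℝ => g (s : ℂ)) (𝓝[≠] t) (𝓝 (g t)) := by
      have h1 : Tendsto (fun s : ℝ => (s : ℂ)) (𝓝[≠] t) (𝓝 (t : ℂ)) :=
        (Complex.continuous_ofReal.tendsto t).mono_left nhdsWithin_le_nhds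
      exact hg.continuousAt.tendsto.comp h1
    have him : Tendsto (fun s : ℝ => (g (s : ℂ)).im) (𝓝[≠] t) (𝓝 (g t).im) :=
      (Complex.continuous_im.tendsto _).comp hcont
    have hz : ∀ᶠ s : ℝ in 𝓝[≠] t, (g (s : ℂ)).im = 0 := by
      have e1 : ∀ᶠ s : ℝ in 𝓝 t, f s - f t = ((s : ℂ) - t) ^ N • g s :=
        (Complex.continuous_ofReal.tendsto t).eventually hgeq
      filter_upwards [nhdsWithin_le_nhds e1, nhdsWithin_le_nhds hreal, self_mem_nhdsWithin]
        with s h1 h2 h3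
      have h4 : ((s : ℂ) - t) ^ N = (((s - t) ^ N : ℝ) : ℂ) := by push_cast; ring
      rw [h4] at h1
      have h5 := congrArg Complex.im h1
      rw [smul_eq_mul, Complex.im_ofReal_mul, Complex.sub_im, h2, hft, sub_zero] at h5
      have h6 : ((s - t) ^ N : ℝ) ≠ 0 := pow_ne_zero _ (sub_ne_zero.mpr h3)
      exact (mul_eq_zero.mp h5.symm).resolve_left h6
    have h0 : Tendsto (fun s : ℝ => (g (s : ℂ)).im) (𝓝[≠] t) (𝓝 0) :=
      (tendsto_congr' hz).mpr tendsto_const_nhds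
    exact tendsto_nhds_unique him h0
  have hdir : ∀ w : ℂ, 0 ≤ w.im → (w ^ N * g t).im ≤ 0 := by
    intro w hw
    have hpath : Tendsto (fun ε : ℝ => (t : ℂ) + ε * w) (𝓝[>] (0 : ℝ)) (𝓝 (t : ℂ)) := by
      have h3 : Tendsto (fun ε : ℝ => (t : ℂ) + ε * w) (𝓝 (0 : ℝ)) (𝓝 (t : ℂ)) := by
        have : Continuous (fun ε : ℝ => (t : ℂ) + ε * w) := by fun_prop
        have h4 := this.tendsto 0
        simpa using h4
      exact h3.mono_left nhdsWithin_le_nhds
    have hlim : Tendsto (fun ε : ℝ => (w ^ N * g ((t : ℂ) + ε * w)).im) (𝓝[>] (0 : ℝ))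
        (𝓝 (w ^ N * g t).im) := by
      have h1 : Tendsto (fun ε : ℝ => g ((t : ℂ) + ε * w)) (𝓝[>] (0 : ℝ)) (𝓝 (g t)) :=
        hg.continuousAt.tendsto.comp hpath
      exact (Complex.continuous_im.tendsto _).comp (h1.const_mul (w ^ N))
    refine le_of_tendsto hlim ?_
    filter_upwards [hpath.eventually hgeq, hpath.eventually hs, self_mem_nhdsWithin]
      with ε h1 h2 h3
    have h3' : 0 < ε := h3
    have h4 : (f ((t : ℂ) + ε * w)).im ≤ 0 := by
      apply h2
      simp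
      positivity
    have h5 := congrArg Complex.im h1
    have h6 : ((t : ℂ) + ε * w - t) ^ N • g ((t : ℂ) + ε * w) =
        ((ε ^ N : ℝ) : ℂ) * (w ^ N * g ((t : ℂ) + ε * w)) := by
      rw [add_sub_cancel_left, mul_pow, smul_eq_mul]
      push_cast
      ring
    rw [h6, Complex.im_ofReal_mul, Complex.sub_im, hft, sub_zero] at h5
    have h7 : 0 < ε ^ N := pow_pos h3' N
    rw [h5] at h4
    by_contra hcon
    push Not at hcon
    have := mul_pos h7 hcon
    linarith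
  obtain ⟨r, hr⟩ : ∃ r : ℝ, g t = (r : ℂ) := ⟨(g t).re, by
    apply Complex.ext
    · simp
    · simp [hgreal]⟩
  have hr0 : r ≠ 0 := by
    rintro rfl
    exact hgt (by simpa using hr)
  have hNR : (N : ℝ) ≠ 0 := by exact_mod_cast hN
  have hNC : (N : ℂ) ≠ 0 := by exact_mod_cast hN
  have hNpos : (1 : ℝ) ≤ N := by exact_mod_cast Nat.one_le_iff_ne_zero.mpr hN
  have hrneg : r < 0 := by
    have h1 := hdir (Complex.exp (((Real.pi / (2 * N) : ℝ) : ℂ) * I)) (by
      rw [Complex.exp_ofReal_mul_I_im]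
      apply Real.sin_nonneg_of_nonneg_of_le_pi
      · positivity
      · rw [div_le_iff₀ (by positivity)]
        nlinarith [Real.pi_pos])
    have h2 : Complex.exp (((Real.pi / (2 * N) : ℝ) : ℂ) * I) ^ N = I := by
      rw [← Complex.exp_nat_mul]
      have : (N : ℂ) * (((Real.pi / (2 * N) : ℝ) : ℂ) * I) = (Real.pi / 2 : ℂ) * I := by
        push_cast
        field_simp
      rw [this, Complex.exp_mul_I]
      simp
    rw [h2, hr] at h1
    simp at h1
    exact lt_of_le_of_ne h1 hr0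
  have hN1 : N = 1 := by
    by_contra hN1
    have hN2 : 2 ≤ N := by omega
    have hN2' : (2 : ℝ) ≤ N := by exact_mod_cast hN2
    have h1 := hdir (Complex.exp (((3 * Real.pi / (2 * N) : ℝ) : ℂ) * I)) (by
      rw [Complex.exp_ofReal_mul_I_im]
      apply Real.sin_nonneg_of_nonneg_of_le_pi
      · positivity
      · rw [div_le_iff₀ (by positivity)]
        nlinarith [Real.pi_pos])
    have h2 : Complex.exp (((3 * Real.pi / (2 * N) : ℝ) : ℂ) * I) ^ N = -I := by
      rw [← Complex.exp_nat_mul]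
      have : (N : ℂ) * (((3 * Real.pi / (2 * N) : ℝ) : ℂ) * I) =
          (Real.pi : ℂ) * I + (Real.pi / 2 : ℂ) * I := by
        push_cast
        field_simp
        ring
      rw [this, Complex.exp_add, Complex.exp_pi_mul_I, Complex.exp_mul_I]
      simp
    rw [h2, hr] at h1
    simp at h1
    linarith
  have hder : HasDerivAt f (g t) (t : ℂ) := by
    have h1 : HasDerivAt (fun z : ℂ => f t + (z - t) * g z) (g t) (t : ℂ) := by
      have h2 : HasDerivAt (fun z : ℂ => z - (t : ℂ)) 1 (t : ℂ) := (hasDerivAt_id _).sub_const _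
      have h3 := (h2.mul hg.differentiableAt.hasDerivAt).const_add (f t)
      simpa using h3
    refine h1.congr_of_eventuallyEq ?_
    filter_upwards [hgeq] with z hz
    rw [hN1, pow_one, smul_eq_mul] at hz
    rw [← hz]
    ring
  rw [hder.deriv, hr]
  simpa using hrneg

/-- `f` analytic on the half plane `Re x < b`, locally constant somewhere: constant. -/
theorem eq_const_of_loc_const {f : ℂ → ℂ} {b : ℝ}
    (hf : ∀ x : ℂ, x.re < b → DifferentiableAt ℂ f x) {x₀ : ℂ} (h₀ : x₀.re < b)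
    (hc : ∀ᶠ z in 𝓝 x₀, f z = f x₀) : ∀ x : ℂ, x.re < b → f x = f x₀ := by
  have hopen : IsOpen {x : ℂ | x.re < b} := isOpen_lt Complex.continuous_re continuous_const
  have hd : DifferentiableOn ℂ f {x : ℂ | x.re < b} := fun x hx =>
    (hf x hx).differentiableWithinAt
  have han : AnalyticOnNhd ℂ f {x : ℂ | x.re < b} := hd.analyticOnNhd hopen
  have hcon : AnalyticOnNhd ℂ (fun _ => f x₀) {x : ℂ | x.re < b} := analyticOnNhd_const
  have hpre : IsPreconnected {x : ℂ | x.re < b} := (convex_halfSpace_re_lt b).isPreconnected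
  intro x hx
  exact han.eqOn_of_preconnected_of_eventuallyEq hcon hpre h₀ hc hx

end EQ2
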