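import Pool.Agent.Lib.MP_226de1_co.LoopP

/-! Quadrant loop, real line. -/

set_option autoImplicit false

namespace EQ2

open Complex Set Filter Topology

variable {μ : ℝ} {F : ℕ → ℝ} {y : ℂ → ℂ} {r : ℝ}

/-- derivative of the restriction to the real line -/
theorem hasDerivAt_real_of {f : ℂ → ℂ} {g : ℝ → ℝ} {t : ℝ} (hf : DifferentiableAt ℂ f (t : ℂ))
    (hg : ∀ᶠ s : ℝ in 𝓝 t, f (s : ℂ) = (g s : ℂ)) : HasDerivAt g (deriv f (t : ℂ)).re t := by
  have h1 := hf.hasDerivAt.real_of_complex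
  refine h1.congr_of_eventuallyEq ?_
  filter_upwards [hg] with s hs
  rw [hs]
  simp

theorem monotoneOn_Iic_of_Iio {g : ℝ → ℝ} {b : ℝ} (h : MonotoneOn g (Set.Iio b))
    (hc : ContinuousAt g b) : MonotoneOn g (Set.Iic b) := by
  intro s hs t ht hst
  rcases lt_or_eq_of_le (show t ≤ b from ht) with h1 | h1
  · exact h (lt_of_le_of_lt hst h1) h1 hst
  · subst h1
    rcases lt_or_eq_of_le hst with h2 | h2
    · have hlim : Tendsto g (𝓝[<] t) (𝓝 (g t)) := hc.tendsto.mono_left nhdsWithin_le_nhds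
      refine ge_of_tendsto hlim ?_
      filter_upwards [Ioo_mem_nhdsLT h2] with x hx
      exact h h2 hx.2 hx.1.le
    · rw [h2]

theorem analyticAt_of_halfplane {f : ℂ → ℂ} {c : ℝ}
    (hf : ∀ x : ℂ, x.re < c → DifferentiableAt ℂ f x) {x : ℂ} (hx : x.re < c) :
    AnalyticAt ℂ f x := by
  have hopen : IsOpen {x : ℂ | x.re < c} := isOpen_lt Complex.continuous_re continuous_const
  have hd : DifferentiableOn ℂ f {x : ℂ | x.re < c} := fun x hx =>
    (hf x hx).differentiableWithinAt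
  exact hd.analyticAt (hopen.mem_nhds hx)

theorem eventually_lt_real {t c : ℝ} (h : t < c) : ∀ᶠ s : ℝ in 𝓝 t, s < c :=
  Iio_mem_nhds h

theorem eventually_strip {t c : ℝ} (h : t < c) :
    ∀ᶠ z : ℂ in 𝓝 (t : ℂ), z.re < c ∧ z.im ≤ Real.pi / 2 := by
  have h1 : ∀ᶠ z : ℂ in 𝓝 (t : ℂ), z.re < c := by
    have : IsOpen {x : ℂ | x.re < c} := isOpen_lt Complex.continuous_re continuous_const
    exact this.mem_nhds (by simpa using h)
  have h2 : ∀ᶠ z : ℂ in 𝓝 (t : ℂ), z.im < Real.pi / 2 := by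
    have : IsOpen {x : ℂ | x.im < Real.pi / 2} := isOpen_lt Complex.continuous_im continuous_const
    exact this.mem_nhds (by simpa using Real.pi_pos)
  filter_upwards [h1, h2] with z h3 h4
  exact ⟨h3, h4.le⟩

/-- If `Im D ≤ 0` on `Re x ≤ b`, `0 ≤ Im x ≤ π/2` then `rD` has negative derivative at real
`t < b` (`deriv_neg_of_im_nonpos_up`, `Dx_not_loc_const`). -/
theorem rD_deriv_neg (h : HF μ F) {b : ℝ} (hb : b ≤ ell μ)
    (hP : ∀ x : ℂ, x.re < b → 0 ≤ x.im → x.im ≤ Real.pi / 2 → (Dx F x).im ≤ 0)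
    {t : ℝ} (ht : t < b) : (deriv (Dx F) (t : ℂ)).re < 0 ∧ HasDerivAt (rD F) (deriv (Dx F) (t : ℂ)).re t := by
  have htl : t < ell μ := lt_of_lt_of_le ht hb
  have hev : ∀ᶠ s : ℝ in 𝓝 t, Dx F (s : ℂ) = (rD F s : ℂ) := by
    filter_upwards [eventually_lt_real htl] with s hs
    exact h.Dx_ofReal hs
  refine ⟨?_, hasDerivAt_real_of (h.Dx_differentiableAt (by simpa using htl)) hev⟩
  apply deriv_neg_of_im_nonpos_up
  · exact analyticAt_of_halfplane (fun x hx => h.Dx_differentiableAt hx) (by simpa using htl)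
  · filter_upwards [hev] with s hs
    rw [hs]
    simp
  · filter_upwards [eventually_strip ht] with z hz h0
    exact hP z hz.1 h0 hz.2
  · exact Dx_not_loc_const h (by simpa using htl)

theorem rD_strictAnti (h : HF μ F) {b : ℝ} (hb : b ≤ ell μ)
    (hP : ∀ x : ℂ, x.re < b → 0 ≤ x.im → x.im ≤ Real.pi / 2 → (Dx F x).im ≤ 0) :
    StrictAntiOn (rD F) (Set.Iio b) := by
  apply strictAntiOn_of_deriv_neg (convex_Iio b)
  · intro t ht
    exact (rD_deriv_neg h hb hP ht).2.continuousAt.continuousWithinAt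
  · intro t ht
    rw [interior_Iio] at ht
    have := rD_deriv_neg h hb hP ht
    rw [this.2.deriv]
    exact this.1

/-- `rD t < 0` for `t < b` (`rD` is decreasing and tends to `0` at `-∞`) -/
theorem rD_neg (h : HF μ F) {b : ℝ} (hb : b ≤ ell μ)
    (hP : ∀ x : ℂ, x.re < b → 0 ≤ x.im → x.im ≤ Real.pi / 2 → (Dx F x).im ≤ 0)
    {t : ℝ} (ht : t < b) : rD F t < 0 := by
  have hanti := rD_strictAnti h hb hP
  have h1 : rD F t < rD F (t - 1) := hanti (show t - 1 < b by linarith) ht (by linarith)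
  have hlim : Tendsto (rD F) atBot (𝓝 0) := by
    have h2 : Tendsto (fun s : ℝ => Real.exp (2 * s)) atBot (𝓝 0) :=
      Real.tendsto_exp_atBot.comp (tendsto_id.const_mul_atBot (by norm_num : (0 : ℝ) < 2))
    refine squeeze_zero_norm' ?_ h2
    filter_upwards [Filter.eventually_le_atBot (0 : ℝ)] with s hs
    have h3 : |(-Real.exp (2 * s))| = Real.exp (2 * s) := by
      rw [abs_neg, abs_of_pos (Real.exp_pos _)]
    have h4 : Real.exp (2 * s) ≤ 1 := Real.exp_le_one_iff.mpr (by linarith)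
    have h5 := h.abs_dr_le (t := -Real.exp (2 * s)) (by rw [h3]; exact h4)
    rw [h3] at h5
    exact h5
  have h2 : rD F (t - 1) ≤ 0 := by
    refine ge_of_tendsto hlim ?_
    filter_upwards [Filter.eventually_lt_atBot (t - 1)] with s hs
    exact (hanti (show s < b by linarith) (show t - 1 < b by linarith) hs).le
  linarith

/-- same for `p`: `rY` is nondecreasing where `Im p ≥ 0` (`deriv_neg_of_im_nonpos_up` for `-p`;
`rY > 0`, `rp = (rY/(μ-1))²`) -/
theorem rY_mono (h : HF μ F) (hy : HY μ F y) {b : ℝ} (hb : b ≤ ell μ)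
    (hP : ∀ x : ℂ, x.re < b → 0 ≤ x.im → x.im ≤ Real.pi / 2 → 0 ≤ (px μ y x).im) :
    MonotoneOn (rY y) (Set.Iio b) := by
  have hder : ∀ t : ℝ, t < b → ∃ d : ℝ, 0 < d ∧ HasDerivAt (rp μ y) d t := by
    intro t ht
    have htl : t < ell μ := lt_of_lt_of_le ht hb
    have hev : ∀ᶠ s : ℝ in 𝓝 t, px μ y (s : ℂ) = (rp μ y s : ℂ) := by
      filter_upwards [eventually_lt_real htl] with s hs
      exact hy.px_ofReal h hs
    have hdiff : DifferentiableAt ℂ (px μ y) (t : ℂ) :=
      hy.px_differentiableAt h (by simpa using htl)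
    refine ⟨_, ?_, hasDerivAt_real_of hdiff hev⟩
    have hneg : (deriv (fun z => - px μ y z) (t : ℂ)).re < 0 := by
      apply deriv_neg_of_im_nonpos_up
      · exact (analyticAt_of_halfplane (fun x hx => hy.px_differentiableAt h hx)
          (by simpa using htl)).neg
      · filter_upwards [hev] with s hs
        rw [hs]
        simp
      · filter_upwards [eventually_strip ht] with z hz h0
        have := hP z hz.1 h0 hz.2
        simpa using this
      · intro hc
        apply px_not_loc_const h hy (x := (t : ℂ)) (by simpa using htl)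
        filter_upwards [hc] with z hz
        simpa using hz
    rw [deriv.fun_neg] at hneg
    simpa using hneg
  have hmono : StrictMonoOn (rp μ y) (Set.Iio b) := by
    apply strictMonoOn_of_deriv_pos (convex_Iio b)
    · intro t ht
      obtain ⟨d, hd, hd'⟩ := hder t ht
      exact hd'.continuousAt.continuousWithinAt
    · intro t ht
      rw [interior_Iio] at ht
      obtain ⟨d, hd, hd'⟩ := hder t ht
      rw [hd'.deriv]
      exact hd
  intro s hs t ht hst
  have h1 : rp μ y s ≤ rp μ y t := hmono.monotoneOn hs ht hst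
  have hs' : 0 < rY y s := hy.rY_pos h (lt_of_lt_of_le hs hb)
  have ht' : 0 < rY y t := hy.rY_pos h (lt_of_lt_of_le ht hb)
  have hμ : 0 < μ - 1 := by have := h.hμ; linarith
  unfold rp at h1
  have h2 : rY y s / (μ - 1) ≤ rY y t / (μ - 1) :=
    (pow_le_pow_iff_left₀ (by positivity) (by positivity) (by norm_num)).mp h1
  exact (div_le_div_iff_of_pos_right hμ).mp h2

theorem half_lt_ell (h : HF μ F) (hr : r < 0) : r + ell μ / 2 < ell μ := by
  have := ell_pos h.hμ
  linarith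

theorem rX_hasDeriv (_h : HF μ F) {t d1 d2 : ℝ} (h1 : HasDerivAt (rD F) d1 t)
    (h2 : HasDerivAt (rD F) d2 (t - ell μ)) :
    HasDerivAt (rX μ F) ((d1 + d2) / (2 * (μ - 1))) t := by
  have h3 : HasDerivAt (fun s => rD F (s - ell μ)) d2 t := by
    have h4 : HasDerivAt (fun s : ℝ => s - ell μ) 1 t := (hasDerivAt_id t).sub_const (ell μ)
    have h5 := HasDerivAt.comp (h₂ := rD F) t h2 h4
    rw [mul_one] at h5
    exact h5
  exact ((h1.add h3).div_const _).const_add 1

/-- on `Re ≤ r + ℓ/2`, `rX` is antitone and `rY` is monotone -/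
theorem QB_rX_anti (h : HF μ F) (hy : HY μ F y) (hr : r < 0) (hQ : QB μ F y r) :
    AntitoneOn (rX μ F) (Set.Iic (r + ell μ / 2)) := by
  have hb := half_lt_ell h hr
  have hl := ell_pos h.hμ
  have hμ : 0 < μ - 1 := by have := h.hμ; linarith
  have hP := QB_P1 h hy hr hQ
  have hD : ∀ t : ℝ, t < r + ell μ / 2 → ∃ d : ℝ, d < 0 ∧ HasDerivAt (rD F) d t := fun t ht =>
    ⟨_, (rD_deriv_neg h hb.le (fun x hx h0 h1 => hP x hx.le h0 h1) ht).1,
      (rD_deriv_neg h hb.le (fun x hx h0 h1 => hP x hx.le h0 h1) ht).2⟩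
  have hX : ∀ t : ℝ, t < r + ell μ / 2 → ∃ d : ℝ, d < 0 ∧ HasDerivAt (rX μ F) d t := by
    intro t ht
    obtain ⟨d1, hd1, hd1'⟩ := hD t ht
    obtain ⟨d2, hd2, hd2'⟩ := hD (t - ell μ) (by linarith)
    exact ⟨_, div_neg_of_neg_of_pos (by linarith) (by positivity), rX_hasDeriv h hd1' hd2'⟩
  have hDc : ∀ t : ℝ, t < ell μ → ContinuousAt (rD F) t := by
    intro t ht
    have hev : ∀ᶠ s : ℝ in 𝓝 t, Dx F (s : ℂ) = (rD F s : ℂ) := by
      filter_upwards [eventually_lt_real ht] with s hs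
      exact h.Dx_ofReal hs
    exact (hasDerivAt_real_of (h.Dx_differentiableAt (by simpa using ht)) hev).continuousAt
  apply antitoneOn_of_deriv_nonpos (convex_Iic _)
  · intro t ht
    have ht1 : t < ell μ := lt_of_le_of_lt ht hb
    have c1 := hDc t ht1
    have c2 : ContinuousAt (fun s => rD F (s - ell μ)) t := by
      have c3 := hDc (t - ell μ) (by linarith)
      exact ContinuousAt.comp (f := fun s : ℝ => s - ell μ) (g := rD F) c3 (by fun_prop)
    have : ContinuousAt (rX μ F) t := by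
      unfold rX
      exact continuousAt_const.add ((c1.add c2).div_const _)
    exact this.continuousWithinAt
  · intro t ht
    rw [interior_Iic] at ht
    obtain ⟨d, hd, hd'⟩ := hX t ht
    exact hd'.differentiableAt.differentiableWithinAt
  · intro t ht
    rw [interior_Iic] at ht
    obtain ⟨d, hd, hd'⟩ := hX t ht
    rw [hd'.deriv]
    exact hd.le

theorem rY_hasDeriv (h : HF μ F) (hy : HY μ F y) {t : ℝ} (ht : t < ell μ) :
    HasDerivAt (rY y) (deriv (Yx y) (t : ℂ)).re t := by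
  have hev : ∀ᶠ s : ℝ in 𝓝 t, Yx y (s : ℂ) = (rY y s : ℂ) := by
    filter_upwards [eventually_lt_real ht] with s hs
    exact hy.Yx_ofReal h hs
  exact hasDerivAt_real_of (hy.Yx_differentiableAt h (by simpa using ht)) hev

theorem QB_rY_mono (h : HF μ F) (hy : HY μ F y) (hr : r < 0) (hQ : QB μ F y r) :
    MonotoneOn (rY y) (Set.Iic (r + ell μ / 2)) := by
  have hb := half_lt_ell h hr
  have hP := QB_p h hy hr hQ
  exact monotoneOn_Iic_of_Iio (rY_mono h hy hb.le (fun x hx h0 h1 => hP x hx.le h0 h1))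
    (rY_hasDeriv h hy hb).continuousAt

theorem QB_rq_nonneg (h : HF μ F) (hy : HY μ F y) (hr : r < 0) (hQ : QB μ F y r) {t : ℝ}
    (ht : t ≤ r) : 0 ≤ rq μ F y t := by
  have hl := ell_pos h.hμ
  have h1 := (hQ (t : ℂ) (by simpa using ht) (by simp) (by
    have := Real.pi_pos
    simp only [Complex.ofReal_im]
    linarith)).1
  rw [hy.qx_ofReal h (by linarith)] at h1
  simpa using h1

/-- reflection comparison on the real line: `s₁ ≤ s₂`, `s₁ ≤ r`, `s₂ ≤ r + ℓ/2` implies
`q s₂ ≤ q s₁`.  (`rX` decreasing, `rY` increasing up to `r + ℓ/2`; `q s₁ ≥ 0` by `QB`;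
if `rX s₂ ≥ 0` compare the quotients, otherwise `q s₂ < 0 ≤ q s₁`.  The case `s₂ = r + ℓ/2` by
continuity.) -/
theorem QB_real (h : HF μ F) (hy : HY μ F y) (hr : r < 0) (hQ : QB μ F y r) {s1 s2 : ℝ}
    (h12 : s1 ≤ s2) (h1 : s1 ≤ r) (h2 : s2 ≤ r + ell μ / 2) : rq μ F y s2 ≤ rq μ F y s1 := by
  have hl := ell_pos h.hμ
  have hX := QB_rX_anti h hy hr hQ (show s1 ≤ r + ell μ / 2 by linarith) h2 h12
  have hY := QB_rY_mono h hy hr hQ (show s1 ≤ r + ell μ / 2 by linarith) h2 h12
  have hY1 : 0 < rY y s1 := hy.rY_pos h (by linarith)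
  have hY2 : 0 < rY y s2 := hy.rY_pos h (by linarith)
  have hq := QB_rq_nonneg h hy hr hQ h1
  have hX1 : 0 ≤ rX μ F s1 := by
    unfold rq at hq
    by_contra hc
    push Not at hc
    have := div_neg_of_neg_of_pos hc hY1
    linarith
  unfold rq
  rw [div_le_div_iff₀ hY2 hY1]
  calc rX μ F s2 * rY y s1 ≤ rX μ F s1 * rY y s1 := mul_le_mul_of_nonneg_right hX hY1.le
    _ ≤ rX μ F s1 * rY y s2 := mul_le_mul_of_nonneg_left hY hX1

/-- strict negativity of `q'` at real `t ≤ r`: `q' = X'/Y - q Y'/Y`, `X' < 0`, `q ≥ 0`,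
`Y' ≥ 0`. -/
theorem QB_real_deriv (h : HF μ F) (hy : HY μ F y) (hr : r < 0) (hQ : QB μ F y r) {t : ℝ}
    (ht : t ≤ r) : (deriv (qx μ F y) (t : ℂ)).re < 0 := by
  have hl := ell_pos h.hμ
  have hb := half_lt_ell h hr
  have hμ : 0 < μ - 1 := by have := h.hμ; linarith
  have htl : t < ell μ := by linarith
  have htb : t < r + ell μ / 2 := by linarith
  have hP := QB_P1 h hy hr hQ
  obtain ⟨hd1, hd1'⟩ := rD_deriv_neg h hb.le (fun x hx h0 h1 => hP x hx.le h0 h1) htb
  obtain ⟨hd2, hd2'⟩ := rD_deriv_neg h hb.le (fun x hx h0 h1 => hP x hx.le h0 h1)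
    (show t - ell μ < r + ell μ / 2 by linarith)
  have hX := rX_hasDeriv h hd1' hd2'
  have hY := rY_hasDeriv h hy htl
  have hYpos : 0 < rY y t := hy.rY_pos h htl
  have hq := QB_rq_nonneg h hy hr hQ ht
  have hX1 : 0 ≤ rX μ F t := by
    unfold rq at hq
    by_contra hc
    push Not at hc
    have := div_neg_of_neg_of_pos hc hYpos
    linarith
  have hY' : 0 ≤ (deriv (Yx y) (t : ℂ)).re := by
    have hmono := QB_rY_mono h hy hr hQ
    have hU : Set.Iic (r + ell μ / 2) ∈ 𝓝 t := Iic_mem_nhds htb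
    have h3 := hmono.derivWithin_nonneg (x := t)
    rw [derivWithin_of_mem_nhds hU, hY.deriv] at h3
    exact h3
  have hquot : HasDerivAt (rq μ F y) _ t := hX.div hY hYpos.ne'
  have hev : ∀ᶠ s : ℝ in 𝓝 t, qx μ F y (s : ℂ) = (rq μ F y s : ℂ) := by
    filter_upwards [eventually_lt_real htl] with s hs
    exact hy.qx_ofReal h hs
  have hqd := hasDerivAt_real_of (hy.qx_differentiableAt h (by simpa using htl)) hev
  rw [hqd.unique hquot]
  apply div_neg_of_neg_of_pos
  · have e1 : (((deriv (Dx F) (t : ℂ)).re + (deriv (Dx F) ((t - ell μ : ℝ) : ℂ)).re) /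
        (2 * (μ - 1))) * rY y t < 0 :=
      mul_neg_of_neg_of_pos (div_neg_of_neg_of_pos (by linarith) (by positivity)) hYpos
    have e2 : 0 ≤ rX μ F t * (deriv (Yx y) (t : ℂ)).re := mul_nonneg hX1 hY'
    linarith
  · positivity

end EQ2
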