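import Pool.Agent.Lib.MP_226de1_co.NDefs

/-! Good pairs form a closed subset of `US × US`. -/

set_option autoImplicit false

namespace EQ2

open Complex Set Filter Topology

variable {μ : ℝ} {Q P : ℂ → ℂ} {u w : ℝ → ℝ}

private theorem NClosed_US_open : IsOpen {x : ℂ | US μ x} := by
  have h1 : IsOpen {x : ℂ | x.re < 3 * ell μ / 2} :=
    isOpen_lt Complex.continuous_re continuous_const
  have h2 : IsOpen {x : ℂ | |x.im| < Real.pi / 2} :=
    isOpen_lt Complex.continuous_im.abs continuous_const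
  exact h1.inter h2

private theorem NClosed_anQ (hp : Pack μ Q P u w) {x : ℂ} (hx : US μ x) : AnalyticAt ℂ Q x := by
  rw [Complex.analyticAt_iff_eventually_differentiableAt]
  filter_upwards [NClosed_US_open.mem_nhds hx] with y hy
  exact hp.dQ y (Or.inl hy)

private theorem NClosed_anP (hp : Pack μ Q P u w) {x : ℂ} (hx : US μ x) : AnalyticAt ℂ P x := by
  rw [Complex.analyticAt_iff_eventually_differentiableAt]
  filter_upwards [NClosed_US_open.mem_nhds hx] with y hy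
  exact hp.dP y (Or.inl hy)

private theorem NClosed_Cc_ne (hμ : 1 < μ) : (Cc μ : ℂ) ≠ 0 := by
  have h1 : Cc μ ≠ 0 := by
    unfold Cc
    have : 0 < (μ - 1) ^ 2 := by
      have : 0 < μ - 1 := by linarith
      positivity
    positivity
  exact_mod_cast h1

private theorem NClosed_inv {f h : ℂ → ℂ} {x z : ℂ} (hf : AnalyticAt ℂ f z) (hf' : deriv f z ≠ 0)
    (hh : AnalyticAt ℂ h x) (hxz : f z = h x) :
    ∃ Z : ℂ → ℂ, AnalyticAt ℂ Z x ∧ Z x = z ∧ ∃ V : Set ℂ, IsOpen V ∧ z ∈ V ∧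
      ∀ x' z' : ℂ, z' ∈ V → f z' = h x' → Z x' = z' := by
  have hga : AnalyticAt ℂ (hf.hasStrictDerivAt.localInverse _ _ _ hf') (f z) :=
    hf.analyticAt_localInverse hf'
  have hgl : ∀ᶠ y in 𝓝 z, (hf.hasStrictDerivAt.localInverse _ _ _ hf') (f y) = y :=
    HasStrictDerivAt.eventually_left_inverse ..
  obtain ⟨V, hV, hVo, hzV⟩ := eventually_nhds_iff.1 hgl
  refine ⟨fun x' => (hf.hasStrictDerivAt.localInverse _ _ _ hf') (h x'), ?_, ?_, V, hVo, hzV, ?_⟩
  · rw [hxz] at hga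
    exact AnalyticAt.comp (g := hf.hasStrictDerivAt.localInverse _ _ _ hf') (f := h) (x := x) hga hh
  · show (hf.hasStrictDerivAt.localInverse _ _ _ hf') (h x) = z
    rw [← hxz]
    exact hgl.self_of_nhds
  · intro x' z' hz' h1
    show (hf.hasStrictDerivAt.localInverse _ _ _ hf') (h x') = z'
    rw [← h1]
    exact hV z' hz'

private theorem NClosed_main (hp : Pack μ Q P u w) {xs zs : ℕ → ℂ} {x z : ℂ}
    (hg : ∀ n, GG μ Q P (xs n) (zs n)) (hx : Tendsto xs atTop (𝓝 x)) (hz : Tendsto zs atTop (𝓝 z))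
    (hxU : US μ x) (hzU : US μ z) {Z : ℂ → ℂ} (hZ : AnalyticAt ℂ Z x) (hZx : Z x = z)
    {V : Set ℂ} (hV : IsOpen V) (hzV : z ∈ V)
    (huniq : ∀ x' z' : ℂ, z' ∈ V → LM Q P (Cc μ) x' z' → Z x' = z') : GG μ Q P x z := by
  have aQ := NClosed_anQ hp hxU
  have aP := NClosed_anP hp hxU
  have aQz : AnalyticAt ℂ (Q ∘ Z) x := by
    refine AnalyticAt.comp (g := Q) (f := Z) (x := x) ?_ hZ
    rw [hZx]
    exact NClosed_anQ hp hzU
  have aPz : AnalyticAt ℂ (P ∘ Z) x := by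
    refine AnalyticAt.comp (g := P) (f := Z) (x := x) ?_ hZ
    rw [hZx]
    exact NClosed_anP hp hzU
  have aH1 : AnalyticAt ℂ (fun x' => Q x' + (Q ∘ Z) x') x := aQ.add aQz
  have aH2 : AnalyticAt ℂ (fun x' => (1 + Q x' ^ 2) * (P x' + (P ∘ Z) x') - (Cc μ : ℂ)) x :=
    ((analyticAt_const.add (aQ.pow 2)).mul (aP.add aPz)).sub analyticAt_const
  obtain ⟨r1, hr1, b1⟩ := aH1.exists_ball_analyticOnNhd
  obtain ⟨r2, hr2, b2⟩ := aH2.exists_ball_analyticOnNhd
  have e1 : ∀ᶠ n in atTop, xs n ∈ Metric.ball x (min r1 r2) :=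
    hx.eventually (Metric.ball_mem_nhds x (lt_min hr1 hr2))
  have e2 : ∀ᶠ n in atTop, zs n ∈ V := hz.eventually (hV.mem_nhds hzV)
  obtain ⟨n, hn1, hn2⟩ := (e1.and e2).exists
  obtain ⟨_, _, Zn, hZn, hZnx, hev⟩ := hg n
  have hgerm : ∀ᶠ x' in 𝓝 (xs n), LM Q P (Cc μ) x' (Z x') := by
    have h1 : ∀ᶠ x' in 𝓝 (xs n), Zn x' ∈ V := by
      have h := hZn.continuousAt.tendsto
      rw [hZnx] at h
      exact h.eventually (hV.mem_nhds hn2)
    filter_upwards [h1, hev] with x' h1 h2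
    rw [huniq x' (Zn x') h1 h2]
    exact h2
  have z1 : EqOn (fun x' => Q x' + (Q ∘ Z) x') 0 (Metric.ball x (min r1 r2)) := by
    refine (b1.mono (Metric.ball_subset_ball
      (min_le_left _ _))).eqOn_zero_of_preconnected_of_eventuallyEq_zero
      (convex_ball x _).isPreconnected hn1 ?_
    filter_upwards [hgerm] with x' h
    exact h.1
  have z2 : EqOn (fun x' => (1 + Q x' ^ 2) * (P x' + (P ∘ Z) x') - (Cc μ : ℂ)) 0
      (Metric.ball x (min r1 r2)) := by
    refine (b2.mono (Metric.ball_subset_ball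
      (min_le_right _ _))).eqOn_zero_of_preconnected_of_eventuallyEq_zero
      (convex_ball x _).isPreconnected hn1 ?_
    filter_upwards [hgerm] with x' h
    exact sub_eq_zero.2 h.2
  refine ⟨hxU, hzU, Z, hZ, hZx, ?_⟩
  filter_upwards [Metric.ball_mem_nhds x (lt_min hr1 hr2)] with x' h
  exact ⟨z1 h, sub_eq_zero.1 (z2 h)⟩

/-- By continuity `LM` holds at `(x*, z*)`, in particular `1 + Q x*² ≠ 0`.  Near `x*` put
`G x = C/(1+Q x²) - P x`; then `LM x z ↔ Q z = -Q x ∧ P z = G x`.  By `imm` at `z*` one of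
`Q' z*`, `P' z*` is `≠ 0`; say `Q' z* ≠ 0`.  The local inverse of `-Q` at `z*` composed with `Q`
gives an analytic `Z*` near `x*` with `Q (Z* x) = -Q x`, `Z* x* = z*`.  For large `n`,
`z_n = Z* x_n` (local injectivity) and the germ `Z_n` equals `Z*` near `x_n`; so
`P (Z* x) = G x` near `x_n`, hence on a whole disc around `x*` (identity theorem).  The case
`P' z* ≠ 0` is the same with `P (Z* x) = G x` solved first. -/
theorem GG.closed (hp : Pack μ Q P u w) {xs zs : ℕ → ℂ} {x z : ℂ}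
    (hg : ∀ n, GG μ Q P (xs n) (zs n)) (hx : Tendsto xs atTop (𝓝 x)) (hz : Tendsto zs atTop (𝓝 z))
    (hxU : US μ x) (hzU : US μ z) : GG μ Q P x z := by
  have aQx := NClosed_anQ hp hxU
  have aPx := NClosed_anP hp hxU
  have aQz := NClosed_anQ hp hzU
  have aPz := NClosed_anP hp hzU
  have tQx : Tendsto (fun n => Q (xs n)) atTop (𝓝 (Q x)) := aQx.continuousAt.tendsto.comp hx
  have tPx : Tendsto (fun n => P (xs n)) atTop (𝓝 (P x)) := aPx.continuousAt.tendsto.comp hx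
  have tQz : Tendsto (fun n => Q (zs n)) atTop (𝓝 (Q z)) := aQz.continuousAt.tendsto.comp hz
  have tPz : Tendsto (fun n => P (zs n)) atTop (𝓝 (P z)) := aPz.continuousAt.tendsto.comp hz
  have l1 : Q x + Q z = 0 := by
    have h1 := tQx.add tQz
    have h2 : (fun n => Q (xs n) + Q (zs n)) = fun _ => 0 := by
      funext n
      exact (hg n).lm.1
    rw [h2] at h1
    exact tendsto_nhds_unique h1 tendsto_const_nhds
  have l2 : (1 + Q x ^ 2) * (P x + P z) = (Cc μ : ℂ) := by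
    have h1 := ((tendsto_const_nhds (x := (1 : ℂ))).add (tQx.pow 2)).mul (tPx.add tPz)
    have h2 : (fun n => (1 + Q (xs n) ^ 2) * (P (xs n) + P (zs n))) = fun _ => (Cc μ : ℂ) := by
      funext n
      exact (hg n).lm.2
    rw [h2] at h1
    exact tendsto_nhds_unique h1 tendsto_const_nhds
  have hC := NClosed_Cc_ne hp.hμ
  have hne : ∀ x' z' : ℂ, (1 + Q x' ^ 2) * (P x' + P z') = (Cc μ : ℂ) → 1 + Q x' ^ 2 ≠ 0 := by
    intro x' z' h h0
    rw [h0, zero_mul] at h
    exact hC h.symm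
  rcases hp.imm z hzU with hd | hd
  · obtain ⟨Z, hZ, hZx, V, hV, hzV, hu⟩ := NClosed_inv (h := fun x' => -Q x') aQz hd aQx.neg
      (eq_neg_of_add_eq_zero_right l1)
    refine NClosed_main hp hg hx hz hxU hzU hZ hZx hV hzV (fun x' z' hz' hlm => hu x' z' hz' ?_)
    exact eq_neg_of_add_eq_zero_right hlm.1
  · have hGan : AnalyticAt ℂ (fun x' => (Cc μ : ℂ) / (1 + Q x' ^ 2) - P x') x := by
      refine (analyticAt_const.div (analyticAt_const.add (aQx.pow 2)) ?_).sub aPx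
      exact hne x z l2
    have hG : ∀ x' z' : ℂ, (1 + Q x' ^ 2) * (P x' + P z') = (Cc μ : ℂ) →
        P z' = (Cc μ : ℂ) / (1 + Q x' ^ 2) - P x' := by
      intro x' z' h
      have h0 := hne x' z' h
      rw [← h, mul_div_cancel_left₀ _ h0]
      ring
    obtain ⟨Z, hZ, hZx, V, hV, hzV, hu⟩ := NClosed_inv
      (h := fun x' => (Cc μ : ℂ) / (1 + Q x' ^ 2) - P x') aPz hd hGan (hG x z l2)
    refine NClosed_main hp hg hx hz hxU hzU hZ hZx hV hzV (fun x' z' hz' hlm => hu x' z' hz' ?_)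
    exact hG x' z' hlm.2

end EQ2
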