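import Pool.Agent.Lib.MP_226de1_co.PackDef

/-! End game: matched pairs `(x, z)` (a line seen from the end A and from the end B). -/

set_option autoImplicit false

namespace EQ2

open Complex Set Filter Topology

/-- line matching -/
def LM (Q P : ℂ → ℂ) (C : ℝ) (x z : ℂ) : Prop :=
  Q x + Q z = 0 ∧ (1 + Q x ^ 2) * (P x + P z) = (C : ℂ)

/-- vertex matching: lines `x` and `w` are consecutive, `D = Q x + Q w` -/
def VM (Q P : ℂ → ℂ) (C : ℝ) (x w : ℂ) : Prop :=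
  Q x + Q w ≠ 0 ∧
  (1 + Q x ^ 2) * (1 + P x * (Q x + Q w) ^ 2) = (C : ℂ) * (Q x + Q w) ^ 2 ∧
  (1 + Q w ^ 2) * (1 + P w * (Q x + Q w) ^ 2) = (C : ℂ) * (Q x + Q w) ^ 2

/-- good pair: line matching holds along an analytic germ -/
def GG (μ : ℝ) (Q P : ℂ → ℂ) (x z : ℂ) : Prop :=
  US μ x ∧ US μ z ∧ ∃ Z : ℂ → ℂ, AnalyticAt ℂ Z x ∧ Z x = z ∧
    ∀ᶠ x' in 𝓝 x, LM Q P (Cc μ) x' (Z x')

variable {μ : ℝ} {Q P : ℂ → ℂ} {u w : ℝ → ℝ}

private theorem NDefs_ell_pos (hμ : 1 < μ) : 0 < ell μ := Real.log_pos hμ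

private theorem NDefs_Cc_ne (hμ : 1 < μ) : (Cc μ : ℂ) ≠ 0 := by
  have h1 : Cc μ ≠ 0 := by
    unfold Cc
    have : 0 < (μ - 1) ^ 2 := by
      have : 0 < μ - 1 := by linarith
      positivity
    positivity
  exact_mod_cast h1

private theorem NDefs_US_dom {x : ℂ} (hx : US μ x) : Dom μ x := Or.inl hx

private theorem NDefs_US_open : IsOpen {x : ℂ | US μ x} := by
  have h1 : IsOpen {x : ℂ | x.re < 3 * ell μ / 2} :=
    isOpen_lt Complex.continuous_re continuous_const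
  have h2 : IsOpen {x : ℂ | |x.im| < Real.pi / 2} :=
    isOpen_lt Complex.continuous_im.abs continuous_const
  exact h1.inter h2

private theorem NDefs_US_conj {x : ℂ} (hx : US μ x) : US μ ((starRingEnd ℂ) x) := by
  refine ⟨?_, ?_⟩
  · rw [Complex.conj_re]
    exact hx.1
  · rw [Complex.conj_im, abs_neg]
    exact hx.2

theorem GG.lm {x z : ℂ} (hg : GG μ Q P x z) : LM Q P (Cc μ) x z := by
  obtain ⟨_, _, Z, _, hZx, hev⟩ := hg
  have h := hev.self_of_nhds
  rwa [hZx] at h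

private theorem NDefs_lm_conj (hp : Pack μ Q P u w) {x z : ℂ} (hx : US μ x) (hz : US μ z)
    (hl : LM Q P (Cc μ) x z) : LM Q P (Cc μ) ((starRingEnd ℂ) x) ((starRingEnd ℂ) z) := by
  obtain ⟨h1, h2⟩ := hl
  have a1 := hp.conjQ x (NDefs_US_dom hx)
  have a2 := hp.conjQ z (NDefs_US_dom hz)
  have a3 := hp.conjP x (NDefs_US_dom hx)
  have a4 := hp.conjP z (NDefs_US_dom hz)
  refine ⟨?_, ?_⟩
  · rw [a1, a2, ← map_add, h1, map_zero]
  · rw [a1, a3, a4]
    have h3 := congrArg (starRingEnd ℂ) h2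
    rw [Complex.conj_ofReal] at h3
    rw [← h3]
    simp

theorem GG.conj (hp : Pack μ Q P u w) {x z : ℂ} (hg : GG μ Q P x z) :
    GG μ Q P ((starRingEnd ℂ) x) ((starRingEnd ℂ) z) := by
  obtain ⟨hx, hz, Z, hZ, hZx, hev⟩ := hg
  refine ⟨NDefs_US_conj hx, NDefs_US_conj hz,
    fun x' => (starRingEnd ℂ) (Z ((starRingEnd ℂ) x')), ?_, ?_, ?_⟩
  · rw [Complex.analyticAt_iff_eventually_differentiableAt] at hZ ⊢
    have hc : Tendsto (fun y : ℂ => (starRingEnd ℂ) y) (𝓝 ((starRingEnd ℂ) x)) (𝓝 x) := by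
      have := (Complex.continuous_conj).tendsto ((starRingEnd ℂ) x)
      rwa [Complex.conj_conj] at this
    filter_upwards [hc.eventually hZ] with y hy
    have h1 := hy.hasDerivAt.conj_conj
    rw [Complex.conj_conj] at h1
    exact h1.differentiableAt
  · simp [hZx]
  · have hc : Tendsto (fun y : ℂ => (starRingEnd ℂ) y) (𝓝 ((starRingEnd ℂ) x)) (𝓝 x) := by
      have := (Complex.continuous_conj).tendsto ((starRingEnd ℂ) x)
      rwa [Complex.conj_conj] at this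
    have e1 : ∀ᶠ x' in 𝓝 x, US μ x' := NDefs_US_open.mem_nhds hx
    have e2 : ∀ᶠ x' in 𝓝 x, US μ (Z x') := by
      refine hZ.continuousAt.eventually ?_
      rw [hZx]
      exact NDefs_US_open.mem_nhds hz
    filter_upwards [hc.eventually hev, hc.eventually e1, hc.eventually e2] with y h1 h2 h3
    have h4 := NDefs_lm_conj hp h2 h3 h1
    rwa [Complex.conj_conj] at h4

/-- shift of a matched line: `P (x+ℓ) = C/(1+Q x²) - P x = P z`, so
`D(x)² = 1/P(x+ℓ) = 1/P z = D(z-ℓ)²`, both with positive real part, hence equal;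
`Q (z-ℓ) = Q z + D = -(Q x - D) = -Q (x+ℓ)`; and `(1+Q(z-ℓ)²)(P(z-ℓ)+P z) = C` by `rel`. -/
theorem LM.shift (hp : Pack μ Q P u w) {x z : ℂ} (hx : US μ x) (hz : US μ z)
    (hl : LM Q P (Cc μ) x z) (hr : x.re < ell μ / 2) :
    LM Q P (Cc μ) (x + (ell μ : ℂ)) (z - (ell μ : ℂ)) := by
  obtain ⟨h1, h2⟩ := hl
  have hzr : (z - (ell μ : ℂ)).re < ell μ / 2 := by
    have := hz.1
    simp only [Complex.sub_re, Complex.ofReal_re]
    linarith
  have hzi : |(z - (ell μ : ℂ)).im| < Real.pi / 2 := by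
    simp only [Complex.sub_im, Complex.ofReal_im, sub_zero]
    exact hz.2
  have d1 := hp.stepD x hr hx.2
  have p1 := hp.stepP x hr hx.2
  have r1 := hp.rel x hr hx.2
  have d2 := hp.stepD _ hzr hzi
  have p2 := hp.stepP _ hzr hzi
  have r2 := hp.rel _ hzr hzi
  rw [sub_add_cancel] at d2 p2 r2
  have hC := NDefs_Cc_ne hp.hμ
  have hne : (1 + Q x ^ 2) ≠ 0 := by
    intro h0
    rw [h0, zero_mul] at h2
    exact hC h2.symm
  have hP : P z = P (x + (ell μ : ℂ)) := by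
    have h3 := h2.trans r1.symm
    have h4 := mul_left_cancel₀ hne h3
    exact add_left_cancel h4
  have hD2 : (Q x - Q (x + (ell μ : ℂ))) ^ 2 = (Q (z - (ell μ : ℂ)) - Q z) ^ 2 := by
    rw [hP] at p2
    have hPne : P (x + (ell μ : ℂ)) ≠ 0 := by
      intro h0
      rw [h0, zero_mul] at p1
      exact zero_ne_one p1
    exact mul_left_cancel₀ hPne (p1.trans p2.symm)
  have hD : Q x - Q (x + (ell μ : ℂ)) = Q (z - (ell μ : ℂ)) - Q z := by
    rcases sq_eq_sq_iff_eq_or_eq_neg.1 hD2 with h | h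
    · exact h
    · exfalso
      have h5 := congrArg Complex.re h
      rw [Complex.neg_re] at h5
      linarith
  have hq : Q (x + (ell μ : ℂ)) + Q (z - (ell μ : ℂ)) = 0 := by
    linear_combination h1 - hD
  refine ⟨hq, ?_⟩
  have hqq : Q (x + (ell μ : ℂ)) = -Q (z - (ell μ : ℂ)) := eq_neg_of_add_eq_zero_left hq
  rw [hqq, ← hP, neg_sq, add_comm (P z)]
  exact r2

theorem LM.symm {C : ℝ} {x z : ℂ} (hl : LM Q P C x z) : LM Q P C z x := by
  obtain ⟨h1, h2⟩ := hl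
  refine ⟨by rw [add_comm]; exact h1, ?_⟩
  have hqq : Q z = -Q x := eq_neg_of_add_eq_zero_right h1
  rw [hqq, neg_sq, add_comm (P z)]
  exact h2

private theorem NDefs_GG_shift_aux {x z : ℂ} (c : ℂ)
    {Z : ℂ → ℂ} (hZ : AnalyticAt ℂ Z x) (hZx : Z x = z) :
    AnalyticAt ℂ (fun x' => Z (x' - c) - c) (x + c) ∧ Z (x + c - c) - c = z - c ∧
      Tendsto (fun x' : ℂ => x' - c) (𝓝 (x + c)) (𝓝 x) := by
  have hc : Tendsto (fun x' : ℂ => x' - c) (𝓝 (x + c)) (𝓝 (x + c - c)) :=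
    (continuous_id.sub continuous_const).tendsto _
  rw [add_sub_cancel_right] at hc ⊢
  refine ⟨?_, by rw [hZx], hc⟩
  have h1 : AnalyticAt ℂ (fun x' : ℂ => x' - c) (x + c) := analyticAt_id.sub analyticAt_const
  have h2 : AnalyticAt ℂ Z ((fun x' : ℂ => x' - c) (x + c)) := by
    show AnalyticAt ℂ Z (x + c - c)
    rw [add_sub_cancel_right]
    exact hZ
  have h3 : AnalyticAt ℂ (Z ∘ (fun x' : ℂ => x' - c)) (x + c) :=
    AnalyticAt.comp (g := Z) (f := fun x' : ℂ => x' - c) (x := x + c) h2 h1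
  exact h3.sub analyticAt_const

theorem GG.shift (hp : Pack μ Q P u w) {x z : ℂ} (hg : GG μ Q P x z) (hr : x.re < ell μ / 2) :
    GG μ Q P (x + (ell μ : ℂ)) (z - (ell μ : ℂ)) := by
  obtain ⟨hx, hz, Z, hZ, hZx, hev⟩ := hg
  have hl := NDefs_ell_pos hp.hμ
  obtain ⟨a1, a2, a3⟩ := NDefs_GG_shift_aux (ell μ : ℂ) hZ hZx
  refine ⟨⟨?_, ?_⟩, ⟨?_, ?_⟩, _, a1, a2, ?_⟩
  · simp only [Complex.add_re, Complex.ofReal_re]
    linarith
  · simp only [Complex.add_im, Complex.ofReal_im, add_zero]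
    exact hx.2
  · simp only [Complex.sub_re, Complex.ofReal_re]
    linarith [hz.1]
  · simp only [Complex.sub_im, Complex.ofReal_im, sub_zero]
    exact hz.2
  · have e1 : ∀ᶠ x' in 𝓝 x, US μ x' := NDefs_US_open.mem_nhds hx
    have e2 : ∀ᶠ x' in 𝓝 x, US μ (Z x') := by
      refine hZ.continuousAt.eventually ?_
      rw [hZx]
      exact NDefs_US_open.mem_nhds hz
    have e3 : ∀ᶠ x' in 𝓝 x, x'.re < ell μ / 2 :=
      (isOpen_lt Complex.continuous_re continuous_const).mem_nhds hr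
    filter_upwards [a3.eventually hev, a3.eventually e1, a3.eventually e2, a3.eventually e3]
      with y h1 h2 h3 h4
    have h5 := LM.shift hp h2 h3 h1 h4
    rwa [sub_add_cancel] at h5

theorem GG.shift' (hp : Pack μ Q P u w) {x z : ℂ} (hg : GG μ Q P x z) (hr : z.re < ell μ / 2) :
    GG μ Q P (x - (ell μ : ℂ)) (z + (ell μ : ℂ)) := by
  obtain ⟨hx, hz, Z, hZ, hZx, hev⟩ := hg
  have hl := NDefs_ell_pos hp.hμ
  obtain ⟨a1, a2, a3⟩ := NDefs_GG_shift_aux (-(ell μ : ℂ)) hZ hZx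
  simp only [sub_neg_eq_add, ← sub_eq_add_neg] at a1 a2 a3
  refine ⟨⟨?_, ?_⟩, ⟨?_, ?_⟩, _, a1, a2, ?_⟩
  · simp only [Complex.sub_re, Complex.ofReal_re]
    linarith [hx.1]
  · simp only [Complex.sub_im, Complex.ofReal_im, sub_zero]
    exact hx.2
  · simp only [Complex.add_re, Complex.ofReal_re]
    linarith
  · simp only [Complex.add_im, Complex.ofReal_im, add_zero]
    exact hz.2
  · have e1 : ∀ᶠ x' in 𝓝 x, US μ x' := NDefs_US_open.mem_nhds hx
    have e2 : ∀ᶠ x' in 𝓝 x, US μ (Z x') := by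
      refine hZ.continuousAt.eventually ?_
      rw [hZx]
      exact NDefs_US_open.mem_nhds hz
    have e3 : ∀ᶠ x' in 𝓝 x, (Z x').re < ell μ / 2 := by
      have h := hZ.continuousAt.tendsto
      rw [hZx] at h
      exact h.eventually ((isOpen_lt Complex.continuous_re continuous_const).mem_nhds hr)
    filter_upwards [a3.eventually hev, a3.eventually e1, a3.eventually e2, a3.eventually e3]
      with y h1 h2 h3 h4
    have h5 := (LM.shift hp h3 h2 h1.symm h4).symm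
    rwa [add_sub_cancel_right] at h5

/-- from a matched line to matched vertices -/
theorem LM.vm (hp : Pack μ Q P u w) {x z : ℂ} (hx : US μ x) (hz : US μ z)
    (hl : LM Q P (Cc μ) x z) : VM Q P (Cc μ) x (z - (ell μ : ℂ)) := by
  obtain ⟨h1, h2⟩ := hl
  have hzr : (z - (ell μ : ℂ)).re < ell μ / 2 := by
    have := hz.1
    simp only [Complex.sub_re, Complex.ofReal_re]
    linarith
  have hzi : |(z - (ell μ : ℂ)).im| < Real.pi / 2 := by
    simp only [Complex.sub_im, Complex.ofReal_im, sub_zero]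
    exact hz.2
  have d2 := hp.stepD _ hzr hzi
  have p2 := hp.stepP _ hzr hzi
  have r2 := hp.rel _ hzr hzi
  rw [sub_add_cancel] at d2 p2 r2
  have hD : Q x + Q (z - (ell μ : ℂ)) = Q (z - (ell μ : ℂ)) - Q z := by
    linear_combination h1
  refine ⟨?_, ?_, ?_⟩
  · rw [hD]
    intro h0
    rw [h0, Complex.zero_re] at d2
    exact lt_irrefl _ d2
  · rw [hD]
    linear_combination (-(1 + Q x ^ 2)) * p2 + (Q (z - (ell μ : ℂ)) - Q z) ^ 2 * h2
  · rw [hD]
    linear_combination (-(1 + Q (z - (ell μ : ℂ)) ^ 2)) * p2 +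
      (Q (z - (ell μ : ℂ)) - Q z) ^ 2 * r2

theorem LM.vm' (hp : Pack μ Q P u w) {x z : ℂ} (hx : US μ x) (hz : US μ z)
    (hl : LM Q P (Cc μ) x z) : VM Q P (Cc μ) (x - (ell μ : ℂ)) z := by
  obtain ⟨h1, h2, h3⟩ := LM.vm hp hz hx hl.symm
  refine ⟨by rw [add_comm]; exact h1, ?_, ?_⟩
  · rw [add_comm (Q (x - (ell μ : ℂ))) (Q z)]
    exact h3
  · rw [add_comm (Q (x - (ell μ : ℂ))) (Q z)]
    exact h2

end EQ2
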