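import Pool.Agent.Lib.MP_226de1_co.Ext

/-! Basic properties of the extended functions `qE`, `pE`. -/

set_option autoImplicit false

namespace EQ2

open Complex Set Filter Topology

variable {μ : ℝ} {F : ℕ → ℝ} {y : ℂ → ℂ}

private theorem ext2_mu_ne (h : HF μ F) : (μ : ℂ) - 1 ≠ 0 := by
  have := h.hμ
  have h2 : (μ : ℂ) ≠ 1 := by
    intro h3
    have : μ = 1 := by exact_mod_cast h3
    linarith
  exact sub_ne_zero.2 h2

private theorem ext2_re (x : ℂ) : (x - (ell μ : ℂ)).re = x.re - ell μ := by simp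

private theorem ext2_im (x : ℂ) : (x - (ell μ : ℂ)).im = x.im := by simp

private theorem ext2_adm (h : HF μ F) (hy : HY μ F y) {x : ℂ} (hx : Dom μ x) :
    Adm μ (Dx F (x - (ell μ : ℂ))) := by
  rcases hx with ⟨h1, h2⟩ | h1
  · apply adm_Dx h hy
    · rw [ext2_re]
      linarith
    · rw [ext2_im]
      exact h2
  · apply adm_Dx' h
    rw [ext2_re]
    linarith

private theorem ext2_lt (h : HF μ F) {x : ℂ} (hx : Dom μ x) :
    (x - (ell μ : ℂ)).re < ell μ := by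
  have hl := ell_pos h.hμ
  rw [ext2_re]
  rcases hx with ⟨h1, h2⟩ | h1
  · linarith
  · linarith

private theorem ext2_Sx_diff (h : HF μ F) {x : ℂ} (hx : x.re < ell μ) (ha : Adm μ (Dx F x)) :
    DifferentiableAt ℂ (Sx μ F) x := by
  have h1 : DifferentiableAt ℂ (Sq μ) (Dx F x) := Sq_differentiableAt h.hμ ha
  exact DifferentiableAt.comp x h1 (h.Dx_differentiableAt hx)

private theorem ext2_Dn_diff (h : HF μ F) (hy : HY μ F y) {x : ℂ} (hx : x.re < ell μ)
    (ha : Adm μ (Dx F x)) : DifferentiableAt ℂ (Dn μ F y) x := by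
  unfold Dn
  apply DifferentiableAt.div
  · exact differentiableAt_const _
  · exact (ext2_Sx_diff h hx ha).mul (HY.Yx_differentiableAt h hy hx)
  · exact mul_ne_zero (Sq_ne _ _) (HY.Yx_ne h hy hx)

private theorem ext2_shift_diff {f : ℂ → ℂ} {x : ℂ}
    (hf : DifferentiableAt ℂ f (x - (ell μ : ℂ))) :
    DifferentiableAt ℂ (fun x => f (x - (ell μ : ℂ))) x := by
  have h1 : DifferentiableAt ℂ (fun x : ℂ => x - (ell μ : ℂ)) x :=
    differentiableAt_id.sub_const _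
  exact DifferentiableAt.comp (f := fun x : ℂ => x - (ell μ : ℂ)) x hf h1

private theorem ext2_conj_sub (x : ℂ) :
    (starRingEnd ℂ) x - (ell μ : ℂ) = (starRingEnd ℂ) (x - (ell μ : ℂ)) := by
  rw [map_sub, Complex.conj_ofReal]

private theorem ext2_Sx_conj (h : HF μ F) {x : ℂ} (ha : Adm μ (Dx F x)) :
    Sx μ F ((starRingEnd ℂ) x) = (starRingEnd ℂ) (Sx μ F x) := by
  unfold Sx
  rw [h.Dx_conj, Sq_conj h.hμ ha]

theorem qE_eq (h : HF μ F) (hy : HY μ F y) {x : ℂ} (hx : x.re < ell μ) :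
    qE μ F y x = qx μ F y x := by
  have hr : (x - (ell μ : ℂ)).re < 0 := by
    rw [ext2_re]
    linarith
  have h1 := HY.qx_shift h hy hr
  have h2 := HY.Yx_shift h hy hr
  rw [h2, sub_add_cancel] at h1
  unfold qE Dn
  rw [← h1]
  ring

theorem pE_eq (h : HF μ F) (hy : HY μ F y) {x : ℂ} (hx : x.re < ell μ) :
    pE μ F y x = px μ y x := by
  have hr : (x - (ell μ : ℂ)).re < 0 := by
    rw [ext2_re]
    linarith
  have h2 := HY.Yx_shift h hy hr
  rw [sub_add_cancel] at h2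
  unfold pE px
  rw [← h2]

theorem qE_differentiableAt (h : HF μ F) (hy : HY μ F y) {x : ℂ} (hx : Dom μ x) :
    DifferentiableAt ℂ (qE μ F y) x := by
  have ha := ext2_adm h hy hx
  have hl := ext2_lt h hx
  exact (ext2_shift_diff (HY.qx_differentiableAt h hy hl)).sub
    (ext2_shift_diff (ext2_Dn_diff h hy hl ha))

theorem pE_differentiableAt (h : HF μ F) (hy : HY μ F y) {x : ℂ} (hx : Dom μ x) :
    DifferentiableAt ℂ (pE μ F y) x := by
  have ha := ext2_adm h hy hx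
  have hl := ext2_lt h hx
  exact (((ext2_shift_diff (ext2_Sx_diff h hl ha)).mul
    (ext2_shift_diff (HY.Yx_differentiableAt h hy hl))).div_const _).pow 2

theorem qE_conj (h : HF μ F) (hy : HY μ F y) {x : ℂ} (hx : Dom μ x) :
    qE μ F y ((starRingEnd ℂ) x) = (starRingEnd ℂ) (qE μ F y x) := by
  have ha := ext2_adm h hy hx
  have hl := ext2_lt h hx
  unfold qE Dn
  rw [ext2_conj_sub, HY.qx_conj h hy hl, ext2_Sx_conj h ha, HY.Yx_conj h hy hl]
  simp only [map_sub, map_div₀, map_mul, Complex.conj_ofReal, map_one]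

theorem pE_conj (h : HF μ F) (hy : HY μ F y) {x : ℂ} (hx : Dom μ x) :
    pE μ F y ((starRingEnd ℂ) x) = (starRingEnd ℂ) (pE μ F y x) := by
  have ha := ext2_adm h hy hx
  have hl := ext2_lt h hx
  unfold pE
  rw [ext2_conj_sub, ext2_Sx_conj h ha, HY.Yx_conj h hy hl]
  simp only [map_sub, map_div₀, map_mul, map_pow, Complex.conj_ofReal, map_one]

theorem qE_step (h : HF μ F) (hy : HY μ F y) {x : ℂ} (hx : x.re < ell μ / 2)
    (hi : |x.im| < Real.pi / 2) :
    qE μ F y x - qE μ F y (x + (ell μ : ℂ)) = Dn μ F y x := by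
  have hl := ell_pos h.hμ
  have h1 : qE μ F y (x + (ell μ : ℂ)) = qx μ F y x - Dn μ F y x := by
    unfold qE
    rw [add_sub_cancel_right]
  rw [h1, qE_eq h hy (by linarith)]
  ring

theorem pE_step (h : HF μ F) (hy : HY μ F y) {x : ℂ} (hx : x.re < ell μ / 2)
    (hi : |x.im| < Real.pi / 2) :
    pE μ F y (x + (ell μ : ℂ)) * Dn μ F y x ^ 2 = 1 := by
  have hl := ell_pos h.hμ
  have h1 : Yx y x ≠ 0 := HY.Yx_ne h hy (by linarith)
  have h2 : Sx μ F x ≠ 0 := Sq_ne _ _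
  have h3 := ext2_mu_ne h
  unfold pE Dn
  rw [add_sub_cancel_right]
  field_simp

/-- `(1+q²)(p(x) + p(x+ℓ)) = C`: `1+q² = (1-D)/Y²`, `1 + S² = (1+μ²)/(1-D)` -/
theorem qpE_rel (h : HF μ F) (hy : HY μ F y) {x : ℂ} (hx : x.re < ell μ / 2)
    (hi : |x.im| < Real.pi / 2) :
    (1 + qE μ F y x ^ 2) * (pE μ F y x + pE μ F y (x + (ell μ : ℂ))) = (Cc μ : ℂ) := by
  have hl := ell_pos h.hμ
  have hxl : x.re < ell μ := by linarith
  have h1 : Yx y x ≠ 0 := HY.Yx_ne h hy hxl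
  have h3 := ext2_mu_ne h
  have ha := adm_Dx h hy hx hi
  have hS : Sx μ F x ^ 2 = ((μ : ℂ) ^ 2 + Dx F x) / (1 - Dx F x) := Sq_sq h.hμ ha
  have hne := (Adm.ne h.hμ ha).1
  have hXY := HY.XY_sq h hy hxl
  have hp : pE μ F y (x + (ell μ : ℂ)) = (Sx μ F x * Yx y x / ((μ : ℂ) - 1)) ^ 2 := by
    unfold pE
    rw [add_sub_cancel_right]
  rw [qE_eq h hy hxl, pE_eq h hy hxl, hp]
  unfold qx px Cc
  have e1 : (1 + (Xx μ F x / Yx y x) ^ 2) *
      ((Yx y x / ((μ : ℂ) - 1)) ^ 2 + (Sx μ F x * Yx y x / ((μ : ℂ) - 1)) ^ 2)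
      = (Xx μ F x ^ 2 + Yx y x ^ 2) * (1 + Sx μ F x ^ 2) / ((μ : ℂ) - 1) ^ 2 := by
    field_simp
    ring
  rw [e1, hXY, hS]
  push_cast
  field_simp
  ring

end EQ2
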