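import Pool.Agent.Lib.MP_226de1_co.Ext2

/-! Immersion property, size at `-∞`, boundedness on windows. -/

set_option autoImplicit false

namespace EQ2

open Complex Set Filter Topology

variable {μ : ℝ} {F : ℕ → ℝ} {y : ℂ → ℂ}

/-- `q x = e^{-x} G (xv x)` -/
private noncomputable def Gq (μ : ℝ) (F : ℕ → ℝ) (y : ℂ → ℂ) (v : ℂ) : ℂ := Xv μ F v / y v

private theorem qx_Gq (x : ℂ) : qx μ F y x = Complex.exp (-x) * Gq μ F y (xv x) := by
  unfold qx Xx Yx Gq
  rw [Complex.exp_neg]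
  ring

private theorem mu_gt (h : HF μ F) : 1 < μ ^ 2 := by
  have := h.hμ
  nlinarith

private theorem Gq_diff (h : HF μ F) (hy : HY μ F y) :
    DifferentiableOn ℂ (Gq μ F y) (Metric.ball 0 (μ ^ 2)) := by
  have hm := mu_gt h
  have hm0 : (0 : ℝ) < μ ^ 2 := by linarith
  have hnorm : ‖((μ : ℂ) ^ 2)‖ = μ ^ 2 := by
    rw [norm_pow, Complex.norm_real, Real.norm_eq_abs, sq_abs]
  have h1 : DifferentiableOn ℂ (fun v => dd F (v / (μ : ℂ) ^ 2)) (Metric.ball 0 (μ ^ 2)) := by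
    refine h.dd_differentiableOn.comp (differentiable_id.div_const _).differentiableOn ?_
    intro v hv
    simp only [id]
    rw [mem_ball_zero_iff] at hv ⊢
    rw [norm_div, hnorm, div_lt_iff₀ hm0]
    nlinarith
  have h2 : DifferentiableOn ℂ (Xv μ F) (Metric.ball 0 (μ ^ 2)) := by
    unfold Xv
    exact ((h.dd_differentiableOn.add h1).div_const _).const_add 1
  exact h2.div hy.an hy.ne

private theorem Gq_zero (h : HF μ F) (hy : HY μ F y) : Gq μ F y 0 ≠ 0 := by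
  have hm := mu_gt h
  have h0 : (0 : ℂ) ∈ Metric.ball (0 : ℂ) (μ ^ 2) := Metric.mem_ball_self (by linarith)
  unfold Gq Xv
  rw [zero_div, h.dd_zero]
  refine div_ne_zero ?_ (hy.ne 0 h0)
  norm_num

private theorem ball_nhds (h : HF μ F) : Metric.ball (0 : ℂ) (μ ^ 2) ∈ 𝓝 (0 : ℂ) :=
  Metric.ball_mem_nhds _ (by linarith [mu_gt h])

private theorem xv_small {δ : ℝ} (hδ : 0 < δ) : ∃ A : ℝ, A < 0 ∧ ∀ x : ℂ, x.re < A → ‖xv x‖ < δ := by
  refine ⟨min (-1) (Real.log δ / 2), lt_of_le_of_lt (min_le_left _ _) (by norm_num), ?_⟩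
  intro x hx
  have h1 : x.re < Real.log δ / 2 := hx.trans_le (min_le_right _ _)
  rw [norm_xv]
  calc Real.exp (2 * x.re) < Real.exp (Real.log δ) := Real.exp_lt_exp.mpr (by linarith)
    _ = δ := Real.exp_log hδ

/-- `qx x = e^{-x} g (xv x)`, `g = Xv/y`, `g 0 ≠ 0`; so `|q| → ∞` as `Re x → -∞` -/
theorem qx_large (h : HF μ F) (hy : HY μ F y) (M : ℝ) :
    ∃ A : ℝ, A < 0 ∧ ∀ x : ℂ, x.re < A → M < ‖qx μ F y x‖ := by
  have hc : ContinuousAt (Gq μ F y) 0 :=
    ((Gq_diff h hy).differentiableAt (ball_nhds h)).continuousAt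
  have hG0 : 0 < ‖Gq μ F y 0‖ := norm_pos_iff.mpr (Gq_zero h hy)
  have hev : ∀ᶠ v in 𝓝 (0 : ℂ), ‖Gq μ F y 0‖ / 2 < ‖Gq μ F y v‖ :=
    hc.norm.eventually (lt_mem_nhds (by linarith))
  obtain ⟨δ, hδ, hball⟩ := Metric.eventually_nhds_iff.mp hev
  obtain ⟨A, hA, hsm⟩ := xv_small hδ
  set c := ‖Gq μ F y 0‖ / 2 with hcdef
  have hc0 : 0 < c := by linarith
  refine ⟨min A (-(|M| / c)), lt_of_le_of_lt (min_le_left _ _) hA, ?_⟩
  intro x hx
  have h1 : x.re < A := hx.trans_le (min_le_left _ _)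
  have h2 : x.re < -(|M| / c) := hx.trans_le (min_le_right _ _)
  have h3 : c < ‖Gq μ F y (xv x)‖ := hball (by rw [dist_zero_right]; exact hsm x h1)
  have h4 : |M| / c < Real.exp (-x.re) := by
    have := Real.add_one_le_exp (-x.re)
    linarith
  rw [qx_Gq, norm_mul, Complex.norm_exp, Complex.neg_re]
  have h5 : 0 ≤ |M| / c := by positivity
  calc M ≤ |M| := le_abs_self M
    _ = |M| / c * c := by field_simp
    _ < Real.exp (-x.re) * ‖Gq μ F y (xv x)‖ := mul_lt_mul'' h4 h3 h5 hc0.le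

private theorem xv_deriv (x : ℂ) : HasDerivAt xv (2 * xv x) x := by
  have h1 : HasDerivAt (fun z : ℂ => 2 * z) 2 x := by
    simpa using (hasDerivAt_id x).const_mul (2 : ℂ)
  have h2 := h1.cexp.neg
  have h3 : -(Complex.exp (2 * x) * 2) = 2 * xv x := by
    unfold xv
    ring
  rw [h3] at h2
  exact h2

/-- `q' = -q + 2 v e^{-x} g'(v) ≠ 0` for `Re x` very negative -/
theorem deriv_qx_ne (h : HF μ F) (hy : HY μ F y) :
    ∃ A : ℝ, A < 0 ∧ ∀ x : ℂ, x.re < A → deriv (qx μ F y) x ≠ 0 := by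
  have hd := Gq_diff h hy
  have hc : ContinuousAt (Gq μ F y) 0 := (hd.differentiableAt (ball_nhds h)).continuousAt
  have hd2 : ContinuousAt (deriv (Gq μ F y)) 0 :=
    ((hd.deriv Metric.isOpen_ball).differentiableAt (ball_nhds h)).continuousAt
  have hH : ContinuousAt (fun v => -Gq μ F y v + 2 * v * deriv (Gq μ F y) v) 0 :=
    hc.neg.add ((continuousAt_const.mul continuousAt_id).mul hd2)
  have hH0 : -Gq μ F y 0 + 2 * 0 * deriv (Gq μ F y) 0 ≠ 0 := by
    simpa using Gq_zero h hy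
  have hev := hH.eventually_ne hH0
  obtain ⟨δ, hδ, hball⟩ := Metric.eventually_nhds_iff.mp hev
  have hm := mu_gt h
  obtain ⟨A, hA, hsm⟩ := xv_small (lt_min hδ (by linarith : (0 : ℝ) < μ ^ 2))
  refine ⟨A, hA, fun x hx => ?_⟩
  have h1 := hsm x hx
  have h2 : ‖xv x‖ < δ := h1.trans_le (min_le_left _ _)
  have h3 : ‖xv x‖ < μ ^ 2 := h1.trans_le (min_le_right _ _)
  have h4 : HasDerivAt (Gq μ F y) (deriv (Gq μ F y) (xv x)) (xv x) :=
    (hd.differentiableAt (Metric.isOpen_ball.mem_nhds (mem_ball_zero_iff.mpr h3))).hasDerivAt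
  have h5 : HasDerivAt (fun z => Gq μ F y (xv z)) (deriv (Gq μ F y) (xv x) * (2 * xv x)) x :=
    h4.comp x (xv_deriv x)
  have h6 : HasDerivAt (fun z : ℂ => Complex.exp (-z)) (Complex.exp (-x) * (-1)) x :=
    (hasDerivAt_neg x).cexp
  have h7 := h6.mul h5
  have e1 : qx μ F y = fun z => Complex.exp (-z) * Gq μ F y (xv z) := by
    funext z
    exact qx_Gq z
  have h8 : deriv (qx μ F y) x = Complex.exp (-x) *
      (-Gq μ F y (xv x) + 2 * xv x * deriv (Gq μ F y) (xv x)) := by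
    rw [e1]
    refine h7.deriv.trans ?_
    ring
  rw [h8]
  exact mul_ne_zero (Complex.exp_ne_zero _) (hball (by rw [dist_zero_right]; exact h2))

private theorem dom_open (μ : ℝ) {x : ℂ} (hx : x.re < 3 * ell μ / 2) (hi : |x.im| < Real.pi / 2) :
    ∀ᶠ z in 𝓝 x, z.re < 3 * ell μ / 2 ∧ |z.im| < Real.pi / 2 := by
  have h1 : ∀ᶠ z in 𝓝 x, z.re < 3 * ell μ / 2 :=
    Complex.continuous_re.continuousAt.eventually (gt_mem_nhds hx)
  have h2 : ∀ᶠ z in 𝓝 x, |z.im| < Real.pi / 2 :=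
    (Complex.continuous_im.abs.continuousAt).eventually (gt_mem_nhds hi)
  exact h1.and h2

/-- one step of the backward propagation -/
private theorem back_step (h : HF μ F) (hy : HY μ F y) {x : ℂ} (hx : x.re < 3 * ell μ / 2)
    (hi : |x.im| < Real.pi / 2) (hq : deriv (qE μ F y) x = 0) (hp : deriv (pE μ F y) x = 0) :
    deriv (qE μ F y) (x - (ell μ : ℂ)) = 0 ∧ deriv (pE μ F y) (x - (ell μ : ℂ)) = 0 := by
  have hl := ell_pos h.hμ
  have hre : ∀ z : ℂ, (z - (ell μ : ℂ)).re = z.re - ell μ := fun z => by simp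
  have him : ∀ z : ℂ, (z - (ell μ : ℂ)).im = z.im := fun z => by simp
  have hdom : Dom μ x := Or.inl ⟨hx, hi⟩
  have hdom1 : Dom μ (x - (ell μ : ℂ)) := by
    refine Or.inl ⟨?_, ?_⟩
    · rw [hre]; linarith
    · rw [him]; exact hi
  -- derivatives
  have dq : HasDerivAt (qE μ F y) 0 x := by
    have := (qE_differentiableAt h hy hdom).hasDerivAt
    rwa [hq] at this
  have dp : HasDerivAt (pE μ F y) 0 x := by
    have := (pE_differentiableAt h hy hdom).hasDerivAt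
    rwa [hp] at this
  have dq1 : HasDerivAt (fun z => qE μ F y (z - (ell μ : ℂ)))
      (deriv (qE μ F y) (x - (ell μ : ℂ))) x :=
    HasDerivAt.comp_sub_const x _ (qE_differentiableAt h hy hdom1).hasDerivAt
  have dp1 : HasDerivAt (fun z => pE μ F y (z - (ell μ : ℂ)))
      (deriv (pE μ F y) (x - (ell μ : ℂ))) x :=
    HasDerivAt.comp_sub_const x _ (pE_differentiableAt h hy hdom1).hasDerivAt
  have hev := dom_open μ hx hi
  -- first relation
  have r1 : ∀ᶠ z in 𝓝 x, pE μ F y z * (qE μ F y (z - (ell μ : ℂ)) - qE μ F y z) ^ 2 = 1 := by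
    filter_upwards [hev] with z hz
    have h1 : (z - (ell μ : ℂ)).re < ell μ / 2 := by rw [hre]; linarith [hz.1]
    have h2 : |(z - (ell μ : ℂ)).im| < Real.pi / 2 := by rw [him]; exact hz.2
    have h3 := qE_step h hy h1 h2
    have h4 := pE_step h hy h1 h2
    rw [sub_add_cancel] at h3 h4
    rw [h3]
    exact h4
  have r2 : ∀ᶠ z in 𝓝 x, (1 + qE μ F y (z - (ell μ : ℂ)) ^ 2) *
      (pE μ F y (z - (ell μ : ℂ)) + pE μ F y z) = (Cc μ : ℂ) := by
    filter_upwards [hev] with z hz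
    have h1 : (z - (ell μ : ℂ)).re < ell μ / 2 := by rw [hre]; linarith [hz.1]
    have h2 : |(z - (ell μ : ℂ)).im| < Real.pi / 2 := by rw [him]; exact hz.2
    have h3 := qpE_rel h hy h1 h2
    rwa [sub_add_cancel] at h3
  have r1x := r1.self_of_nhds
  have r2x := r2.self_of_nhds
  set q := qE μ F y x with hqd
  set p := pE μ F y x with hpd
  set q1 := qE μ F y (x - (ell μ : ℂ)) with hq1d
  set p1 := pE μ F y (x - (ell μ : ℂ)) with hp1d
  set q1' := deriv (qE μ F y) (x - (ell μ : ℂ)) with hq1'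
  set p1' := deriv (pE μ F y) (x - (ell μ : ℂ)) with hp1'
  have e1 := dp.mul ((dq1.sub dq).pow 2)
  have e2 := (e1.congr_of_eventuallyEq (f₁ := fun _ => (1 : ℂ)) (r1.mono fun z hz => by
    simpa using hz.symm)).unique (hasDerivAt_const x (1 : ℂ))
  have hpne : p ≠ 0 := by
    intro hc
    rw [hc, zero_mul] at r1x
    exact zero_ne_one r1x
  have hDne : q1 - q ≠ 0 := by
    intro hc
    rw [hc] at r1x
    simp at r1x
  have hz1 : q1' = 0 := by
    have e3 : p * (2 * (q1 - q) * q1') = 0 := by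
      have e4 : p * (2 * (q1 - q) * q1') = 0 * (fun z => qE μ F y (z - (ell μ : ℂ)) - qE μ F y z) x ^ 2 +
          p * (2 * (q1 - q) * (q1' - 0)) := by ring
      rw [e4]
      simpa [hq1d, hqd] using e2
    have e5 := (mul_eq_zero.mp e3).resolve_left hpne
    refine (mul_eq_zero.mp e5).resolve_left ?_
    exact mul_ne_zero two_ne_zero hDne
  refine ⟨hz1, ?_⟩
  have f1 := ((dq1.pow 2).const_add 1).mul (dp1.add dp)
  have f2 := (f1.congr_of_eventuallyEq (f₁ := fun _ => (Cc μ : ℂ)) (r2.mono fun z hz => by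
    simpa using hz.symm)).unique (hasDerivAt_const x (Cc μ : ℂ))
  have hC : (Cc μ : ℂ) ≠ 0 := by
    have h1 : 0 < Cc μ := by
      have := h.hμ
      unfold Cc
      have h2 : 0 < μ - 1 := by linarith
      positivity
    exact_mod_cast h1.ne'
  have hqne : 1 + q1 ^ 2 ≠ 0 := by
    intro hc
    rw [hc, zero_mul] at r2x
    exact hC r2x.symm
  have f3 : (1 + q1 ^ 2) * p1' = 0 := by
    rw [hz1] at f2
    simpa [hq1d] using f2
  exact (mul_eq_zero.mp f3).resolve_left hqne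

/-- Immersion, by backward propagation: if `q'(x) = p'(x) = 0` then, with `x₁ = x - ℓ`
(`Re x₁ < ℓ/2`), `D(x₁)² = 1/p(x)` (`pE_step`) has zero derivative, so `D'(x₁) = 0`
(`D ≠ 0`), `q(x₁) = q(x) + D(x₁)` has zero derivative and `p(x₁) = C/(1+q(x₁)²) - p(x)` too.
Iterate and use `deriv_qx_ne`. -/
theorem immersion (h : HF μ F) (hy : HY μ F y) {x : ℂ} (hx : x.re < 3 * ell μ / 2)
    (hi : |x.im| < Real.pi / 2) :
    deriv (qE μ F y) x ≠ 0 ∨ deriv (pE μ F y) x ≠ 0 := by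
  by_contra hcon
  push Not at hcon
  obtain ⟨hq, hp⟩ := hcon
  have hl := ell_pos h.hμ
  obtain ⟨A, hA, hne⟩ := deriv_qx_ne h hy
  have key : ∀ k : ℕ, deriv (qE μ F y) (x - (k : ℂ) * (ell μ : ℂ)) = 0 ∧
      deriv (pE μ F y) (x - (k : ℂ) * (ell μ : ℂ)) = 0 := by
    intro k
    induction k with
    | zero => simpa using ⟨hq, hp⟩
    | succ k ih =>
      have hk : (0 : ℝ) ≤ (k : ℝ) * ell μ := by positivity
      have hre : (x - (k : ℂ) * (ell μ : ℂ)).re = x.re - k * ell μ := by simp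
      have him : (x - (k : ℂ) * (ell μ : ℂ)).im = x.im := by simp
      have h1 := back_step h hy (x := x - (k : ℂ) * (ell μ : ℂ)) (by rw [hre]; linarith)
        (by rw [him]; exact hi) ih.1 ih.2
      have e : x - ((k + 1 : ℕ) : ℂ) * (ell μ : ℂ) = x - (k : ℂ) * (ell μ : ℂ) - (ell μ : ℂ) := by
        push_cast
        ring
      rw [e]
      exact h1
  obtain ⟨k, hk⟩ := exists_nat_gt ((x.re - A) / ell μ)
  rw [div_lt_iff₀ hl] at hk
  have hre : (x - (k : ℂ) * (ell μ : ℂ)).re = x.re - k * ell μ := by simp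
  have h1 : (x - (k : ℂ) * (ell μ : ℂ)).re < A := by rw [hre]; linarith
  have h2 : deriv (qE μ F y) (x - (k : ℂ) * (ell μ : ℂ)) =
      deriv (qx μ F y) (x - (k : ℂ) * (ell μ : ℂ)) := by
    refine Filter.EventuallyEq.deriv_eq ?_
    have h3 : ∀ᶠ z in 𝓝 (x - (k : ℂ) * (ell μ : ℂ)), z.re < ell μ :=
      Complex.continuous_re.continuousAt.eventually (gt_mem_nhds (by linarith))
    exact h3.mono fun z hz => qE_eq h hy hz
  exact hne _ h1 (h2 ▸ (key k).1)

/-- boundedness: on the compact set `a - ℓ ≤ Re ≤ b - ℓ`, `|Im| ≤ π/2` (`b - ℓ < ℓ/2`) the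
functions `qx`, `1/Yx`, `(1 - Dx)/(μ² + Dx)` are continuous (`μ² + Dx ≠ 0`: `adm_Dx` inside,
`Dx = tD ≥ 0` on `|Im| = π/2`), and `|1/S|² = |(1-D)/(μ²+D)|` in the open strip. -/
theorem qE_bdd (h : HF μ F) (hy : HY μ F y) (a b : ℝ) (hb : b < 3 * ell μ / 2) :
    ∃ M : ℝ, ∀ x : ℂ, a ≤ x.re → x.re ≤ b → |x.im| < Real.pi / 2 → ‖qE μ F y x‖ ≤ M := by
  have hl := ell_pos h.hμ
  set K : Set ℂ := Icc (a - ell μ) (b - ell μ) ×ℂ Icc (-(Real.pi / 2)) (Real.pi / 2) with hK
  have hKc : IsCompact K := isCompact_Icc.reProdIm isCompact_Icc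
  have hKre : ∀ z ∈ K, z.re < ell μ / 2 := by
    intro z hz
    have := (Complex.mem_reProdIm.mp hz).1.2
    linarith
  -- `μ² + D ≠ 0`
  have hne : ∀ z ∈ K, (μ : ℂ) ^ 2 + Dx F z ≠ 0 := by
    intro z hz
    have hz1 := hKre z hz
    have hz2 := (Complex.mem_reProdIm.mp hz).2
    have htop : ∀ s : ℝ, s < ell μ / 2 → (μ : ℂ) ^ 2 + Dx F (pt s (Real.pi / 2)) ≠ 0 := by
      intro s hs
      rw [h.Dx_top (by linarith)]
      have h1 : 0 ≤ tD F s := by
        unfold tD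
        exact h.dr_nonneg (Real.exp_pos _).le
      have h2 : 0 < μ ^ 2 + tD F s := by
        have := mu_gt h
        linarith
      intro hc
      have h3 : ((μ ^ 2 + tD F s : ℝ) : ℂ) = 0 := by
        push_cast
        exact hc
      exact h2.ne' (by exact_mod_cast h3)
    rcases lt_or_eq_of_le (abs_le.mpr hz2) with h1 | h1
    · exact (Adm.ne h.hμ (adm_Dx h hy hz1 h1)).2
    · rcases abs_eq (by positivity) |>.mp h1 with h2 | h2
      · have e : z = pt z.re (Real.pi / 2) := Complex.ext rfl h2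
        rw [e]
        exact htop z.re hz1
      · have e : z = (starRingEnd ℂ) (pt z.re (Real.pi / 2)) := by
          apply Complex.ext
          · simp
          · simpa using h2
        rw [e, h.Dx_conj]
        intro hc
        have h3 := congrArg (starRingEnd ℂ) hc
        rw [map_add, Complex.conj_conj, map_pow, Complex.conj_ofReal, map_zero] at h3
        exact htop z.re hz1 h3
  have hDc : ContinuousOn (Dx F) K := fun z hz =>
    (h.Dx_differentiableAt (by linarith [hKre z hz])).continuousAt.continuousWithinAt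
  have hqc : ContinuousOn (qx μ F y) K := fun z hz =>
    (HY.qx_differentiableAt h hy (by linarith [hKre z hz])).continuousAt.continuousWithinAt
  have hYc : ContinuousOn (fun z => (Yx y z)⁻¹) K := fun z hz =>
    ((HY.Yx_differentiableAt h hy (by linarith [hKre z hz])).continuousAt.inv₀
      (HY.Yx_ne h hy (by linarith [hKre z hz]))).continuousWithinAt
  have hSc : ContinuousOn (fun z => (1 - Dx F z) / ((μ : ℂ) ^ 2 + Dx F z)) K :=
    (continuousOn_const.sub hDc).div (continuousOn_const.add hDc) hne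
  obtain ⟨M1, hM1⟩ := hKc.exists_bound_of_continuousOn hqc
  obtain ⟨M2, hM2⟩ := hKc.exists_bound_of_continuousOn hYc
  obtain ⟨M3, hM3⟩ := hKc.exists_bound_of_continuousOn hSc
  refine ⟨M1 + ‖(μ : ℂ) - 1‖ * ((1 + M3) * M2), fun x hxa hxb hxi => ?_⟩
  set z := x - (ell μ : ℂ) with hz
  have hzre : z.re = x.re - ell μ := by rw [hz]; simp
  have hzim : z.im = x.im := by rw [hz]; simp
  have hzi : |z.im| < Real.pi / 2 := by rw [hzim]; exact hxi
  have hzK : z ∈ K := by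
    refine Complex.mem_reProdIm.mpr ⟨⟨by rw [hzre]; linarith, by rw [hzre]; linarith⟩, ?_⟩
    exact abs_le.mp hzi.le
  have hzr := hKre z hzK
  have hadm := adm_Dx h hy hzr hzi
  have hS : ‖(Sx μ F z)⁻¹‖ ≤ 1 + M3 := by
    have h1 : Sx μ F z ^ 2 = ((μ : ℂ) ^ 2 + Dx F z) / (1 - Dx F z) := Sq_sq h.hμ hadm
    have h2 : ‖(Sx μ F z)⁻¹‖ ^ 2 ≤ M3 := by
      have h3 : ‖(Sx μ F z)⁻¹‖ ^ 2 = ‖(1 - Dx F z) / ((μ : ℂ) ^ 2 + Dx F z)‖ := by
        rw [← norm_pow, inv_pow, h1, inv_div]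
      rw [h3]
      exact hM3 z hzK
    nlinarith [sq_nonneg (‖(Sx μ F z)⁻¹‖ - 1), norm_nonneg (Sx μ F z)⁻¹]
  have hM3' : 0 ≤ 1 + M3 := (norm_nonneg _).trans hS
  have hD : ‖Dn μ F y z‖ ≤ ‖(μ : ℂ) - 1‖ * ((1 + M3) * M2) := by
    have e : Dn μ F y z = ((μ : ℂ) - 1) * ((Sx μ F z)⁻¹ * (Yx y z)⁻¹) := by
      unfold Dn
      rw [div_eq_mul_inv, mul_inv]
    rw [e, norm_mul, norm_mul]
    exact mul_le_mul_of_nonneg_left (mul_le_mul hS (hM2 z hzK) (norm_nonneg _) hM3')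
      (norm_nonneg _)
  unfold qE
  exact (norm_sub_le _ _).trans (add_le_add (hM1 z hzK) hD)

end EQ2
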