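import Pool.Agent.Lib.MP_226de1_co.DDBasic
import Pool.Agent.Lib.MP_226de1_co.CmpPoly

/-! Second Taylor coefficient of the chart. -/

set_option autoImplicit false

namespace EQ2

open Complex Set Filter Topology

variable {μ : ℝ} {F : ℕ → ℝ}

private theorem m_gt (h : HF μ F) : 1 < μ ^ 2 := by
  have := h.hμ
  nlinarith

/-- cubic remainder -/
private theorem taylor (h : HF μ F) {t : ℝ} (ht : |t| ≤ 1) :
    |dr F t - F 1 * t - F 2 * t ^ 2| ≤ |t| ^ 3 := by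
  have hm := m_gt h
  have h1 := h.hasSum_real (t := t) (lt_of_le_of_lt ht hm)
  have h2 : HasSum (fun n => F (n + 3) * t ^ (n + 3))
      (dr F t - ∑ i ∈ Finset.range 3, F i * t ^ i) := (hasSum_nat_add_iff' 3).2 h1
  have h3 : ∑ i ∈ Finset.range 3, F i * t ^ i = F 1 * t + F 2 * t ^ 2 := by
    simp [Finset.sum_range_succ, h.F0]
  rw [h3] at h2
  have h4 : HasSum (fun n => F (n + 3)) (1 - ∑ i ∈ Finset.range 3, F i) :=
    (hasSum_nat_add_iff' 3).2 h.sum1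
  have h5 : 1 - ∑ i ∈ Finset.range 3, F i ≤ 1 := by
    have : 0 ≤ ∑ i ∈ Finset.range 3, F i := Finset.sum_nonneg fun i _ => h.nonneg i
    linarith
  have h6 : HasSum (fun n => F (n + 3) * |t| ^ 3) ((1 - ∑ i ∈ Finset.range 3, F i) * |t| ^ 3) :=
    h4.mul_right _
  have hb : ∀ n, |F (n + 3) * t ^ (n + 3)| ≤ F (n + 3) * |t| ^ 3 := by
    intro n
    rw [abs_mul, abs_of_nonneg (h.nonneg _), abs_pow]
    refine mul_le_mul_of_nonneg_left ?_ (h.nonneg _)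
    rw [pow_add]
    exact mul_le_of_le_one_left (by positivity) (pow_le_one₀ (abs_nonneg _) ht)
  have h7 : |dr F t - (F 1 * t + F 2 * t ^ 2)| ≤ (1 - ∑ i ∈ Finset.range 3, F i) * |t| ^ 3 := by
    rw [abs_le]
    constructor
    · have := hasSum_le (fun n => (abs_le.1 (hb n)).1) h6.neg h2
      exact this
    · exact hasSum_le (fun n => (abs_le.1 (hb n)).2) h2 h6
  have h8 : dr F t - F 1 * t - F 2 * t ^ 2 = dr F t - (F 1 * t + F 2 * t ^ 2) := by ring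
  rw [h8]
  refine h7.trans ?_
  exact mul_le_of_le_one_left (by positivity) h5

/-- limit of the second difference quotient at scale `a` -/
private theorem lim2 (h : HF μ F) {a : ℝ} (ha : 0 < a) :
    Tendsto (fun t : ℝ => (dr F (a * t) - F 1 * (a * t)) / t ^ 2) (𝓝[>] 0) (𝓝 (F 2 * a ^ 2)) := by
  have h0 : Tendsto (fun t : ℝ => a ^ 3 * t) (𝓝[>] 0) (𝓝 0) := by
    have : Tendsto (fun t : ℝ => a ^ 3 * t) (𝓝 0) (𝓝 (a ^ 3 * 0)) :=
      (continuous_const.mul continuous_id).tendsto 0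
    rw [mul_zero] at this
    exact this.mono_left nhdsWithin_le_nhds
  rw [tendsto_iff_norm_sub_tendsto_zero]
  refine squeeze_zero' (Eventually.of_forall fun t => norm_nonneg _) ?_ h0
  have hev : ∀ᶠ t in 𝓝[>] (0 : ℝ), t < 1 / a :=
    nhdsWithin_le_nhds (Iio_mem_nhds (by positivity))
  filter_upwards [hev, self_mem_nhdsWithin] with t h1 h2
  have h2' : (0 : ℝ) < t := h2
  have hat : 0 < a * t := mul_pos ha h2'
  have h3 : a * t ≤ 1 := by
    rw [lt_div_iff₀ ha] at h1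
    linarith
  have h4 := taylor h (t := a * t) (by rw [abs_of_pos hat]; exact h3)
  rw [abs_of_pos hat] at h4
  rw [Real.norm_eq_abs]
  have h5 : (dr F (a * t) - F 1 * (a * t)) / t ^ 2 - F 2 * a ^ 2 =
      (dr F (a * t) - F 1 * (a * t) - F 2 * (a * t) ^ 2) / t ^ 2 := by
    field_simp
  rw [h5, abs_div, abs_of_pos (pow_pos h2' 2), div_le_iff₀ (pow_pos h2' 2)]
  calc _ ≤ (a * t) ^ 3 := h4
    _ = a ^ 3 * t * t ^ 2 := by ring

private theorem lim1 (h : HF μ F) {a : ℝ} (ha : 0 < a) :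
    Tendsto (fun t : ℝ => dr F (a * t) / t) (𝓝[>] 0) (𝓝 (F 1 * a)) := by
  have h1 := lim2 h ha
  have h2 : Tendsto (fun t : ℝ => t) (𝓝[>] (0 : ℝ)) (𝓝 0) :=
    (continuous_id.tendsto (0 : ℝ)).mono_left nhdsWithin_le_nhds
  have h3 := (h2.mul h1).add_const (F 1 * a)
  rw [zero_mul, zero_add] at h3
  refine h3.congr' ?_
  filter_upwards [self_mem_nhdsWithin] with t ht
  have ht' : t ≠ 0 := ne_of_gt ht
  field_simp
  ring

private theorem lim0 (h : HF μ F) {a : ℝ} (ha : 0 < a) :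
    Tendsto (fun t : ℝ => dr F (a * t)) (𝓝[>] 0) (𝓝 0) := by
  have h1 := lim1 h ha
  have h2 : Tendsto (fun t : ℝ => t) (𝓝[>] (0 : ℝ)) (𝓝 0) :=
    (continuous_id.tendsto (0 : ℝ)).mono_left nhdsWithin_le_nhds
  have h3 := h2.mul h1
  rw [zero_mul] at h3
  refine h3.congr' ?_
  filter_upwards [self_mem_nhdsWithin] with t ht
  have ht' : t ≠ 0 := ne_of_gt ht
  field_simp

/-- the squared functional equation -/
private theorem feq_sq (h : HF μ F) {t : ℝ} (h0 : 0 < t) (ht : t < 1) :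
    (dr F (μ ^ 2 * t) + dr F t + 2 * μ * (μ - 1)) ^ 2 * (1 - dr F t) =
      (μ ^ 2 + dr F t) * (2 * (μ - 1) + dr F t + dr F (t / μ ^ 2)) ^ 2 := by
  have h1 := h.feq_real (t := t) (by rw [abs_of_pos h0]; exact ht)
  have h2 := h.dr_nonneg h0.le
  have h3 : dr F t < 1 := by
    have h4 := h.abs_dr_le (t := t) (by rw [abs_of_pos h0]; exact ht.le)
    rw [abs_of_pos h0] at h4
    exact lt_of_le_of_lt ((le_abs_self _).trans h4) ht
  rw [h1, mul_pow]
  have h5 : Sr μ (dr F t) ^ 2 = (μ ^ 2 + dr F t) / (1 - dr F t) := by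
    unfold Sr
    rw [Real.sq_sqrt]
    exact div_nonneg (by positivity) (by linarith)
  rw [h5]
  have h6 : 1 - dr F t ≠ 0 := by linarith
  field_simp

private theorem coef (h : HF μ F) :
    F 2 * (4 * (μ - 1) ^ 2 * (μ + 1) * (μ ^ 5 + 1)) =
      F 1 ^ 2 * ((μ ^ 2 + 1) * (μ ^ 2 - 1) * (3 * μ ^ 2 - 4 * μ + 3)) := by
  have hm := m_gt h
  have hμ := h.hμ
  have hμ0 : (0 : ℝ) < μ := by linarith
  have hμne : μ ≠ 0 := hμ0.ne'
  have hm0 : (0 : ℝ) < μ ^ 2 := by positivity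
  have ha : (0 : ℝ) < 1 / μ ^ 2 := by positivity
  have x0 := lim2 h (a := 1) one_pos
  have x1 := lim2 h (a := μ ^ 2) hm0
  have x2 := lim2 h (a := 1 / μ ^ 2) ha
  have y0 := lim1 h (a := 1) one_pos
  have y1 := lim1 h (a := μ ^ 2) hm0
  have y2 := lim1 h (a := 1 / μ ^ 2) ha
  have z0 := lim0 h (a := 1) one_pos
  have hG := ((((x1.add x0).const_mul (2 * (2 * μ * (μ - 1)))).add ((y1.add y0).pow 2)).sub
    (x0.const_mul ((2 * μ * (μ - 1)) ^ 2))).sub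
    ((((y1.add y0).mul y0).const_mul (2 * (2 * μ * (μ - 1)))))
  have hG2 := hG.sub (((y1.add y0).pow 2).mul z0)
  have hK := ((((x0.add x2).const_mul (μ ^ 2 * (2 * (2 * (μ - 1))))).add
    (((y0.add y2).pow 2).const_mul (μ ^ 2))).add (x0.const_mul ((2 * (μ - 1)) ^ 2))).add
    (((y0.mul (y0.add y2)).const_mul (2 * (2 * (μ - 1)))))
  have hK2 := hK.add (z0.mul ((y0.add y2).pow 2))
  have hT := hG2.sub hK2
  have hzero : Tendsto (fun _ : ℝ => (0 : ℝ)) (𝓝[>] 0) (𝓝 0) := tendsto_const_nhds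
  have hev : ∀ᶠ t in 𝓝[>] (0 : ℝ), t < 1 :=
    nhdsWithin_le_nhds (Iio_mem_nhds one_pos)
  have hlim := tendsto_nhds_unique (hzero.congr' ?_) hT
  · have hexp : F 2 * (4 * (μ - 1) ^ 2 * (μ + 1) * (μ ^ 5 + 1)) -
      F 1 ^ 2 * ((μ ^ 2 + 1) * (μ ^ 2 - 1) * (3 * μ ^ 2 - 4 * μ + 3)) = 0 := by
      have h9 := congrArg (fun z => μ ^ 2 * z) hlim
      simp only [mul_zero] at h9
      rw [h9]
      field_simp
      ring
    linarith
  · filter_upwards [hev, self_mem_nhdsWithin] with t h1 h2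
    have h2' : (0 : ℝ) < t := h2
    have ht : t ≠ 0 := h2'.ne'
    have h3 := feq_sq h h2' h1
    have e1 : (1 : ℝ) * t = t := one_mul t
    have e2 : 1 / μ ^ 2 * t = t / μ ^ 2 := by ring
    rw [e1, e2]
    generalize dr F t = d0 at *
    generalize dr F (μ ^ 2 * t) = d1 at *
    generalize dr F (t / μ ^ 2) = d2 at *
    have h4 : (0 : ℝ) = ((d1 + d0 + 2 * μ * (μ - 1)) ^ 2 * (1 - d0) -
      (μ ^ 2 + d0) * (2 * (μ - 1) + d0 + d2) ^ 2) / t ^ 2 := by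
      rw [h3, sub_self, zero_div]
    rw [h4]
    field_simp
    ring

/-- Order `v²` of `HF.feq`, with `S(d) = μ + s₁ d + s₂ d² + …`, `s₁ = (1+m)/(2μ)`,
`s₂ = (3m-1)(1+m)/(8μ³)` (`m = μ²`):
`F₂ (m² + 1 - μ - μ/m² - 2(μ-1) s₁) = F₁² (s₁ (1+1/m) + 2(μ-1) s₂)`.  Multiplied by `4μ³` the
left factor is `4(μ-1)(μ+1)²(μ⁴-μ³+μ²-μ+1)`, and
`4μ³ [ (left factor) - (m-1)(right factor) ] = (μ-1)³ (μ+1)⁴ > 0`. -/
theorem HF.F2_lt (h : HF μ F) : F 2 < F 1 ^ 2 / (μ ^ 2 - 1) := by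
  have hm := m_gt h
  have hμ := h.hμ
  have h1 := coef h
  have hF1 := h.F1
  have hL : 0 < 4 * (μ - 1) ^ 2 * (μ + 1) * (μ ^ 5 + 1) := by
    have : 0 < μ - 1 := by linarith
    positivity
  rw [lt_div_iff₀ (by linarith)]
  have h2 : F 1 ^ 2 * (4 * (μ - 1) ^ 2 * (μ + 1) * (μ ^ 5 + 1)) -
      (F 2 * (μ ^ 2 - 1)) * (4 * (μ - 1) ^ 2 * (μ + 1) * (μ ^ 5 + 1)) =
      F 1 ^ 2 * ((μ - 1) ^ 2 * (μ + 1) ^ 2 * (μ ^ 2 - 1) ^ 2) := by
    linear_combination (-(μ ^ 2 - 1)) * h1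
  have h3 : 0 < F 1 ^ 2 * ((μ - 1) ^ 2 * (μ + 1) ^ 2 * (μ ^ 2 - 1) ^ 2) := by
    have h4 : 0 < μ - 1 := by linarith
    have h5 : 0 < μ ^ 2 - 1 := by linarith
    positivity
  by_contra hc
  have h6 := mul_le_mul_of_nonneg_right (not_lt.1 hc) hL.le
  linarith

/-- hence, with `γ = F 1/(μ²-1)`, near `0` the chart is below `Dbar v = (μ²-1)γ v/(1-γ v)`
(both sides of `0`: the difference is `(F₁²/(μ²-1) - F₂) v² + O(v³)`). -/
theorem HF.base_le (h : HF μ F) : ∃ ε : ℝ, 0 < ε ∧ ∀ v : ℝ, |v| < ε →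
    dr F v ≤ (μ ^ 2 - 1) * (F 1 / (μ ^ 2 - 1) * v) / (1 - F 1 / (μ ^ 2 - 1) * v) := by
  have hm := m_gt h
  have h1 := h.F2_lt
  have hF1 := h.F1
  set γ := F 1 / (μ ^ 2 - 1) with hγ
  have hm1 : 0 < μ ^ 2 - 1 := by linarith
  have hγ0 : 0 < γ := by positivity
  have hγm : (μ ^ 2 - 1) * γ = F 1 := by
    rw [hγ]
    field_simp
  have hγ2 : F 1 ^ 2 / (μ ^ 2 - 1) = F 1 * γ := by
    rw [hγ]
    ring
  rw [hγ2] at h1
  set δ := F 1 * γ - F 2 with hδ
  have hδ0 : 0 < δ := by linarith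
  have hK : 0 < 2 * F 1 * γ ^ 2 + 1 := by positivity
  refine ⟨min 1 (min (1 / (2 * γ)) (δ / (2 * F 1 * γ ^ 2 + 1))), by positivity, fun v hv => ?_⟩
  have v1 : |v| < 1 := lt_of_lt_of_le hv (min_le_left _ _)
  have v2 : |v| < 1 / (2 * γ) := lt_of_lt_of_le hv ((min_le_right _ _).trans (min_le_left _ _))
  have v3 : |v| < δ / (2 * F 1 * γ ^ 2 + 1) :=
    lt_of_lt_of_le hv ((min_le_right _ _).trans (min_le_right _ _))
  rw [lt_div_iff₀ (by positivity)] at v2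
  rw [lt_div_iff₀ hK] at v3
  have ht := taylor h v1.le
  have ht2 := (abs_le.1 ht).2
  have hgv : |γ * v| < 1 / 2 := by
    rw [abs_mul, abs_of_pos hγ0]
    linarith
  have hden : 1 / 2 < 1 - γ * v := by
    have := (abs_lt.1 hgv).2
    linarith
  have hd0 : 0 < 1 - γ * v := by linarith
  have h5 : (μ ^ 2 - 1) * (γ * v) / (1 - γ * v) =
      F 1 * v + F 1 * γ * v ^ 2 + F 1 * γ ^ 2 * v ^ 3 / (1 - γ * v) := by
    have hne : 1 - γ * v ≠ 0 := hd0.ne'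
    rw [← mul_assoc, hγm, div_eq_iff hne, add_mul, div_mul_cancel₀ _ hne]
    ring
  rw [h5]
  have h6 : -(2 * F 1 * γ ^ 2 * |v| ^ 3) ≤ F 1 * γ ^ 2 * v ^ 3 / (1 - γ * v) := by
    have h7 : |F 1 * γ ^ 2 * v ^ 3 / (1 - γ * v)| ≤ 2 * F 1 * γ ^ 2 * |v| ^ 3 := by
      rw [abs_div, abs_of_pos hd0, div_le_iff₀ hd0, abs_mul, abs_pow,
        abs_of_pos (show 0 < F 1 * γ ^ 2 by positivity)]
      have h8 : 0 ≤ F 1 * γ ^ 2 * |v| ^ 3 := by positivity
      nlinarith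
    exact (abs_le.1 h7).1
  have h9 : 0 ≤ |v| ^ 2 * (δ - |v| * (2 * F 1 * γ ^ 2 + 1)) := by
    refine mul_nonneg (by positivity) (by linarith)
  have h10 : |v| ^ 2 = v ^ 2 := sq_abs v
  have h11 : |v| ^ 2 * (δ - |v| * (2 * F 1 * γ ^ 2 + 1)) =
      δ * |v| ^ 2 - 2 * F 1 * γ ^ 2 * |v| ^ 3 - |v| ^ 3 := by ring
  rw [h11, h10, hδ] at h9
  linarith

/-- positive axis comparison: if `γ < 1/μ²` then `dr F v ≤ Dbar v` for all `v ∈ (0,1]`
(induction on the scale: `D v = Psi (D (v/m)) (D (v/m²)) ≤ Psi (Dbar ..) (Dbar ..) ≤ Dbar v` by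
`Psi_mono`, `Psi_bar`, `HF.feq_real`), in particular `1 = D 1 ≤ (m-1)γ/(1-γ) < 1`,
contradiction.  Hence `γ ≥ 1/μ²`. -/
theorem HF.F1_ge (h : HF μ F) : (μ ^ 2 - 1) / μ ^ 2 ≤ F 1 := by
  have hm := m_gt h
  have hμ := h.hμ
  have hF1 := h.F1
  obtain ⟨ε, hε, hbase⟩ := h.base_le
  by_contra hc
  rw [not_le, lt_div_iff₀ (by linarith)] at hc
  have hm1 : 0 < μ ^ 2 - 1 := by linarith
  have hm0 : 0 < μ ^ 2 := by linarith
  set γ := F 1 / (μ ^ 2 - 1) with hγ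
  have hγ0 : 0 < γ := by positivity
  have hγm : μ ^ 2 * γ < 1 := by
    rw [hγ, ← mul_div_assoc, div_lt_one hm1]
    linarith
  have key : ∀ n : ℕ, ∀ v : ℝ, 0 < v → v ≤ 1 → v ≤ ε / 2 * (μ ^ 2) ^ n →
      dr F v ≤ (μ ^ 2 - 1) * (γ * v) / (1 - γ * v) := by
    intro n
    induction n with
    | zero =>
      intro v h0 _ h2
      refine hbase v ?_
      rw [abs_of_pos h0]
      rw [pow_zero, mul_one] at h2
      linarith
    | succ n ih =>
      intro v h0 h1 h2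
      set t := v / μ ^ 2 with ht
      have hv : v = μ ^ 2 * t := by
        rw [ht]
        field_simp
      have ht0 : 0 < t := by positivity
      have ht1 : t < 1 := by
        rw [ht, div_lt_one hm0]
        linarith
      have ht2 : t ≤ ε / 2 * (μ ^ 2) ^ n := by
        rw [ht, div_le_iff₀ hm0, mul_assoc, ← pow_succ]
        exact h2
      have ht3 : t / μ ^ 2 ≤ t := div_le_self ht0.le hm.le
      have i1 := ih t ht0 ht1.le ht2
      have i2 := ih (t / μ ^ 2) (by positivity) (ht3.trans ht1.le) (ht3.trans ht2)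
      have hw1 : μ ^ 2 * (γ * t) < 1 := by
        calc μ ^ 2 * (γ * t) = (μ ^ 2 * γ) * t := by ring
          _ < 1 := by nlinarith [mul_pos hm0 hγ0]
      have hγt : γ * t < 1 := by
        have : γ * t ≤ μ ^ 2 * (γ * t) := le_mul_of_one_le_left (by positivity) hm.le
        linarith
      have e2 : (μ ^ 2 - 1) * (γ * (t / μ ^ 2)) / (1 - γ * (t / μ ^ 2)) =
          (μ ^ 2 - 1) * (γ * t) / (μ ^ 2 - γ * t) := by
        have h5 : μ ^ 2 - γ * t ≠ 0 := by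
          have : 0 < μ ^ 2 - γ * t := by linarith
          exact this.ne'
        have h6 : 1 - γ * (t / μ ^ 2) = (μ ^ 2 - γ * t) / μ ^ 2 := by
          field_simp
        rw [h6]
        field_simp
      rw [e2] at i2
      have hlt : (μ ^ 2 - 1) * (γ * t) / (1 - γ * t) < 1 := by
        rw [div_lt_one (by linarith)]
        linarith
      have hfe := h.feq_real (t := t) (by rw [abs_of_pos ht0]; exact ht1)
      have hPsi : dr F (μ ^ 2 * t) = Psi μ (dr F t) (dr F (t / μ ^ 2)) := by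
        unfold Psi
        linarith
      have hmono := Psi_mono hμ (h.dr_nonneg ht0.le) (h.dr_nonneg (t := t / μ ^ 2) (by positivity))
        i1 i2 hlt
      have hbar := Psi_bar hμ (w := γ * t) (by positivity) hw1
      rw [hv, hPsi]
      have e3 : γ * (μ ^ 2 * t) = μ ^ 2 * (γ * t) := by ring
      rw [e3]
      exact hmono.trans hbar
  obtain ⟨n, hn⟩ := pow_unbounded_of_one_lt (1 / (ε / 2)) hm
  have hn' : 1 ≤ ε / 2 * (μ ^ 2) ^ n := by
    rw [div_lt_iff₀ (by positivity)] at hn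
    linarith
  have h1 := key n 1 one_pos le_rfl hn'
  rw [h.dr_one, mul_one] at h1
  have hγ1 : γ < 1 := by
    have : γ ≤ μ ^ 2 * γ := le_mul_of_one_le_left hγ0.le hm.le
    linarith
  rw [le_div_iff₀ (by linarith)] at h1
  linarith

theorem HF.F1_le (h : HF μ F) : F 1 ≤ 1 :=
  le_hasSum h.sum1 1 (fun j _ => h.nonneg j)

end EQ2
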