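import Pool.Agent.Lib.MP_226de1_co.GeoGauge

/-! The power constant is determined by the area: area `= π c₀ / 2`. -/

set_option autoImplicit false

namespace EQ2

open Complex Set Filter Topology MeasureTheory

variable {K : Set ℂ} {c : ℂ}

private theorem ga_mem (hc : Convex ℝ K) (hK : IsCompact K) (hi : c ∈ interior K) (w : ℂ) :
    w + c ∈ K ↔ gK K c w ≤ 1 := by
  unfold gK
  have h1 : Convex ℝ {z : ℂ | z + c ∈ K} := hc.translate_preimage_left c
  have h2 : {z : ℂ | z + c ∈ K} ∈ 𝓝 (0 : ℂ) := by
    have h3 : Continuous (fun z : ℂ => z + c) := by fun_prop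
    apply h3.continuousAt.preimage_mem_nhds
    simpa using mem_interior_iff_mem_nhds.mp hi
  have h3 : IsClosed {z : ℂ | z + c ∈ K} := hK.isClosed.preimage (by fun_prop)
  rw [gauge_le_one_iff_mem_closure h1 h2, h3.closure_eq]
  rfl

private theorem ga_inner (ρ : ℝ) (hρ : 0 ≤ ρ) :
    ∫⁻ r in Ioi (0 : ℝ), ENNReal.ofReal r * (Iic ρ).indicator 1 r = ENNReal.ofReal (ρ ^ 2 / 2) := by
  have h1 : ∀ r : ℝ, ENNReal.ofReal r * (Iic ρ).indicator 1 r =
      (Iic ρ).indicator (fun r => ENNReal.ofReal r) r := by
    intro r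
    by_cases h : r ∈ Iic ρ
    · rw [indicator_of_mem h, indicator_of_mem h, Pi.one_apply, mul_one]
    · rw [indicator_of_notMem h, indicator_of_notMem h, mul_zero]
  rw [lintegral_congr h1, lintegral_indicator measurableSet_Iic, Measure.restrict_restrict
    measurableSet_Iic, inter_comm, Ioi_inter_Iic]
  rw [← ofReal_integral_eq_lintegral_ofReal]
  · rw [← intervalIntegral.integral_of_le hρ, integral_id]
    congr 1
    ring
  · have : IntervalIntegrable (fun r : ℝ => r) volume 0 ρ := continuous_id.intervalIntegrable _ _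
    exact (intervalIntegrable_iff_integrableOn_Ioc_of_le hρ).mp this
  · filter_upwards [ae_restrict_mem measurableSet_Ioc] with r hr
    exact hr.1.le

/-- area in polar coordinates about `c` (translate, then `Complex.lintegral_comp_polarCoord_symm` or
`Complex.integral_comp_polarCoord_symm`): `z = c + r e^{iθ} ∈ K` iff `r ≤ 1/gK K c (e^{iθ})`
(up to a null set). -/
theorem area_polar (hc : Convex ℝ K) (hK : IsCompact K) (hi : c ∈ interior K) :
    (volume K).toReal = ∫ θ in (-Real.pi)..Real.pi,
      1 / (2 * gK K c (Complex.exp (θ * Complex.I)) ^ 2) := by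
  have hgc := gK_continuous hc hi
  have hexp : ∀ θ : ℝ, Complex.exp (θ * Complex.I) ≠ 0 := fun θ => Complex.exp_ne_zero _
  have hpos : ∀ θ : ℝ, 0 < gK K c (Complex.exp (θ * Complex.I)) := fun θ => gK_pos hK hi (hexp θ)
  have hcont : Continuous (fun θ : ℝ => 1 / (2 * gK K c (Complex.exp (θ * Complex.I)) ^ 2)) := by
    have h1 : Continuous (fun θ : ℝ => gK K c (Complex.exp (θ * Complex.I))) :=
      hgc.comp (by fun_prop)
    refine Continuous.div continuous_const (continuous_const.mul (h1.pow 2)) fun θ => ?_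
    have := hpos θ
    positivity
  have hs : MeasurableSet {z : ℂ | z + c ∈ K} :=
    (hK.isClosed.preimage (by fun_prop : Continuous fun z : ℂ => z + c)).measurableSet
  have hvol : volume K = volume {z : ℂ | z + c ∈ K} :=
    (measure_preimage_add_right volume c K).symm
  have hlin : volume {z : ℂ | z + c ∈ K} = ∫⁻ z, ({z : ℂ | z + c ∈ K}).indicator 1 z := by
    rw [lintegral_indicator_one hs]
  have hmeas : Measurable (fun p : ℝ × ℝ => ENNReal.ofReal p.1 •
      ({z : ℂ | z + c ∈ K}).indicator (1 : ℂ → ENNReal) (Complex.polarCoord.symm p)) := by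
    apply Measurable.fun_smul
    · exact ENNReal.measurable_ofReal.comp measurable_fst
    · apply Measurable.comp (g := ({z : ℂ | z + c ∈ K}).indicator (1 : ℂ → ENNReal))
      · exact measurable_one.indicator hs
      · have : Continuous (fun p : ℝ × ℝ => Complex.polarCoord.symm p) := by
          simp only [Complex.polarCoord_symm_apply]
          fun_prop
        exact this.measurable
  have hstep : volume K = ∫⁻ θ in Ioo (-Real.pi) Real.pi,
      ENNReal.ofReal (1 / (2 * gK K c (Complex.exp (θ * Complex.I)) ^ 2)) := by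
    rw [hvol, hlin, ← Complex.lintegral_comp_polarCoord_symm]
    have htar : polarCoord.target = Ioi (0 : ℝ) ×ˢ Ioo (-Real.pi) Real.pi := rfl
    rw [htar, Measure.volume_eq_prod, ← Measure.prod_restrict, lintegral_prod_symm _ hmeas.aemeasurable]
    refine lintegral_congr fun θ => ?_
    have h1 : 1 / (2 * gK K c (Complex.exp (θ * Complex.I)) ^ 2) =
        (1 / gK K c (Complex.exp (θ * Complex.I))) ^ 2 / 2 := by
      rw [div_pow, one_pow, div_div, mul_comm]
    rw [h1, ← ga_inner _ (by have := hpos θ; positivity)]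
    refine setLIntegral_congr_fun measurableSet_Ioi fun r hr => ?_
    have hr' : (0 : ℝ) < r := hr
    simp only [smul_eq_mul]
    congr 1
    have h2 : Complex.polarCoord.symm (r, θ) = (r : ℂ) * Complex.exp (θ * Complex.I) := by
      rw [Complex.polarCoord_symm_apply, Complex.exp_mul_I]
      push_cast
      rfl
    have h3 : Complex.polarCoord.symm (r, θ) ∈ {z : ℂ | z + c ∈ K} ↔
        r ∈ Iic (1 / gK K c (Complex.exp (θ * Complex.I))) := by
      rw [mem_ofPred_eq, ga_mem hc hK hi, h2, gK_smul r hr'.le, mem_Iic, le_div_iff₀ (hpos θ)]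
    by_cases h : r ∈ Iic (1 / gK K c (Complex.exp (θ * Complex.I)))
    · rw [indicator_of_mem h, indicator_of_mem (h3.mpr h)]
      rfl
    · rw [indicator_of_notMem h, indicator_of_notMem (fun h' => h (h3.mp h'))]
  have hpi := Real.pi_pos
  rw [hstep, intervalIntegral.integral_of_le (by linarith), integral_Ioc_eq_integral_Ioo,
    integral_eq_lintegral_of_nonneg_ae]
  · exact Filter.Eventually.of_forall fun θ => by
      have := hpos θ
      simp only [Pi.zero_apply]
      positivity
  · exact hcont.aestronglyMeasurable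

/-- with the equipower condition: substitute `θ ↦ θ + π` (periodicity) and average -/
theorem area_eq (hc : Convex ℝ K) (hK : IsCompact K) (hi : c ∈ interior K) {c₀ : ℝ}
    (he : ∀ x ∈ frontier K, ∀ y ∈ frontier K, x ≠ y → c ∈ segment ℝ x y →
      dist c x ^ 2 + dist c y ^ 2 = c₀) : (volume K).toReal = Real.pi * c₀ / 2 := by
  have hgc := gK_continuous hc hi
  have hexp : ∀ θ : ℝ, Complex.exp (θ * Complex.I) ≠ 0 := fun θ => Complex.exp_ne_zero _
  have hpos : ∀ θ : ℝ, 0 < gK K c (Complex.exp (θ * Complex.I)) := fun θ => gK_pos hK hi (hexp θ)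
  have hcont : Continuous (fun θ : ℝ => 1 / (2 * gK K c (Complex.exp (θ * Complex.I)) ^ 2)) := by
    have h1 : Continuous (fun θ : ℝ => gK K c (Complex.exp (θ * Complex.I))) :=
      hgc.comp (by fun_prop)
    refine Continuous.div continuous_const (continuous_const.mul (h1.pow 2)) fun θ => ?_
    have := hpos θ
    positivity
  set f : ℝ → ℝ := fun θ => 1 / (2 * gK K c (Complex.exp (θ * Complex.I)) ^ 2) with hf
  have hkey : ∀ θ : ℝ, f (θ - Real.pi) + f θ = c₀ / 2 := by
    intro θ
    have h1 := gK_equi hc hK hi he (hexp θ)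
    have h2 : Complex.exp (((θ - Real.pi : ℝ) : ℂ) * Complex.I) = -Complex.exp (θ * Complex.I) := by
      push_cast
      rw [sub_mul, Complex.exp_sub, Complex.exp_pi_mul_I]
      ring
    have h3 : ‖Complex.exp (θ * Complex.I)‖ = 1 := Complex.norm_exp_ofReal_mul_I θ
    rw [h3, one_pow, one_mul] at h1
    simp only [hf, h2]
    rw [← h1]
    ring
  rw [area_polar hc hK hi]
  change ∫ θ in (-Real.pi)..Real.pi, f θ = _
  have h1 : ∫ θ in (-Real.pi)..Real.pi, f θ =
      (∫ θ in (-Real.pi)..0, f θ) + ∫ θ in (0 : ℝ)..Real.pi, f θ :=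
    (intervalIntegral.integral_add_adjacent_intervals (hcont.intervalIntegrable _ _)
      (hcont.intervalIntegrable _ _)).symm
  have h2 : ∫ θ in (-Real.pi)..0, f θ = ∫ θ in (0 : ℝ)..Real.pi, f (θ - Real.pi) := by
    rw [intervalIntegral.integral_comp_sub_right, zero_sub, sub_self]
  rw [h1, h2, ← intervalIntegral.integral_add]
  · simp only [hkey, intervalIntegral.integral_const, smul_eq_mul]
    ring
  · have : Continuous (fun θ : ℝ => f (θ - Real.pi)) := hcont.comp (by fun_prop)
    exact this.intervalIntegrable _ _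
  · exact hcont.intervalIntegrable _ _

end EQ2
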