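import Mathlib

/-! Radial function of a planar convex body from an interior point, by the gauge. -/

set_option autoImplicit false

namespace EQ2

open Complex Set Filter Topology

/-- `1 / gK K c w` is the `h > 0` with `c + h w ∈ frontier K` -/
noncomputable def gK (K : Set ℂ) (c w : ℂ) : ℝ := gauge {z : ℂ | z + c ∈ K} w

variable {K : Set ℂ} {c : ℂ}

private theorem geoGauge_convex (hc : Convex ℝ K) : Convex ℝ {z : ℂ | z + c ∈ K} := by
  intro x hx y hy a b ha hb hab
  have h := hc hx hy ha hb hab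
  have e : a • (x + c) + b • (y + c) = a • x + b • y + c := by
    have : a • (x + c) + b • (y + c) = a • x + b • y + (a + b) • c := by
      rw [smul_add, smul_add, add_smul]
      ring
    rw [this, hab, one_smul]
  rw [e] at h
  exact h

private theorem geoGauge_nhds (hi : c ∈ interior K) : {z : ℂ | z + c ∈ K} ∈ 𝓝 (0 : ℂ) := by
  have h1 : K ∈ 𝓝 ((0 : ℂ) + c) := by
    rw [zero_add]
    exact mem_interior_iff_mem_nhds.1 hi
  have h2 : Continuous (fun z : ℂ => z + c) := by fun_prop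
  exact h2.continuousAt.preimage_mem_nhds h1

private theorem geoGauge_frontier (w : ℂ) :
    w ∈ frontier {z : ℂ | z + c ∈ K} ↔ w + c ∈ frontier K := by
  have h := (Homeomorph.addRight c).preimage_frontier K
  have h1 : {z : ℂ | z + c ∈ K} = (Homeomorph.addRight c) ⁻¹' K := rfl
  rw [h1, ← h]
  rfl

theorem gK_continuous (hc : Convex ℝ K) (hi : c ∈ interior K) : Continuous (gK K c) :=
  continuous_gauge (geoGauge_convex hc) (geoGauge_nhds hi)

theorem gK_smul (h : ℝ) (hh : 0 ≤ h) (w : ℂ) : gK K c ((h : ℂ) * w) = h * gK K c w := by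
  unfold gK
  have e : (h : ℂ) * w = h • w := by
    rw [Complex.real_smul]
  rw [e, gauge_smul_of_nonneg hh, smul_eq_mul]

/-- `gauge w ≥ δ ‖w‖` since `K` is bounded -/
theorem gK_lower (hK : IsCompact K) (hi : c ∈ interior K) :
    ∃ δ : ℝ, 0 < δ ∧ ∀ w : ℂ, δ * ‖w‖ ≤ gK K c w := by
  obtain ⟨r, hr0, hr⟩ := hK.isBounded.subset_closedBall_lt 0 c
  refine ⟨1 / r, by positivity, fun w => ?_⟩
  have hsub : {z : ℂ | z + c ∈ K} ⊆ Metric.closedBall 0 r := by
    intro z hz
    have h1 := hr hz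
    rw [Metric.mem_closedBall, dist_eq_norm] at h1
    rw [mem_closedBall_zero_iff]
    simpa using h1
  have h2 := le_gauge_of_subset_closedBall (absorbent_nhds_zero (geoGauge_nhds hi)) hr0.le hsub
    (x := w)
  unfold gK
  calc 1 / r * ‖w‖ = ‖w‖ / r := by ring
    _ ≤ _ := h2

theorem gK_pos (hK : IsCompact K) (hi : c ∈ interior K) {w : ℂ} (hw : w ≠ 0) : 0 < gK K c w := by
  obtain ⟨δ, hδ, h⟩ := gK_lower hK hi
  exact lt_of_lt_of_le (mul_pos hδ (norm_pos_iff.2 hw)) (h w)

/-- `gauge = 1` iff on the frontier (`gauge_eq_one_iff_mem_frontier`) -/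
theorem gK_mem_frontier (hc : Convex ℝ K) (hK : IsCompact K) (hi : c ∈ interior K) {w : ℂ}
    (hw : w ≠ 0) : c + ((1 / gK K c w : ℝ) : ℂ) * w ∈ frontier K := by
  have hp := gK_pos hK hi hw
  have h1 : gK K c (((1 / gK K c w : ℝ) : ℂ) * w) = 1 := by
    rw [gK_smul _ (by positivity)]
    field_simp
  have h2 := (gauge_eq_one_iff_mem_frontier (geoGauge_convex (c := c) hc)
    (geoGauge_nhds hi)).1 h1
  rw [geoGauge_frontier] at h2
  rw [add_comm]
  exact h2

theorem gK_eq_of_mem (hc : Convex ℝ K) (hK : IsCompact K) (hi : c ∈ interior K) {w : ℂ}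
    {h : ℝ} (hh : 0 < h) (hm : c + (h : ℂ) * w ∈ frontier K) : gK K c w = 1 / h := by
  rw [add_comm] at hm
  have h1 := (geoGauge_frontier (K := K) (c := c) ((h : ℂ) * w)).2 hm
  have h2 : gK K c ((h : ℂ) * w) = 1 :=
    (gauge_eq_one_iff_mem_frontier (geoGauge_convex (c := c) hc) (geoGauge_nhds hi)).2 h1
  rw [gK_smul _ hh.le] at h2
  rw [eq_div_iff hh.ne']
  linarith

/-- the equipower condition in terms of `gK` -/
theorem gK_equi (hc : Convex ℝ K) (hK : IsCompact K) (hi : c ∈ interior K) {c₀ : ℝ}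
    (he : ∀ x ∈ frontier K, ∀ y ∈ frontier K, x ≠ y → c ∈ segment ℝ x y →
      dist c x ^ 2 + dist c y ^ 2 = c₀) {w : ℂ} (hw : w ≠ 0) :
    ‖w‖ ^ 2 * (1 / gK K c w ^ 2 + 1 / gK K c (-w) ^ 2) = c₀ := by
  have hw' : -w ≠ 0 := neg_ne_zero.2 hw
  have hp := gK_pos hK hi hw
  have hp' := gK_pos hK hi hw'
  have h1 := gK_mem_frontier hc hK hi hw
  have h2 := gK_mem_frontier hc hK hi hw'
  set a := gK K c w with ha
  set b := gK K c (-w) with hb
  have hne : c + ((1 / a : ℝ) : ℂ) * w ≠ c + ((1 / b : ℝ) : ℂ) * (-w) := by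
    intro h
    have h3 : (((1 / a + 1 / b : ℝ)) : ℂ) * w = 0 := by
      push_cast at h ⊢
      linear_combination h
    rcases mul_eq_zero.1 h3 with h4 | h4
    · have h5 : (1 / a + 1 / b : ℝ) = 0 := by exact_mod_cast h4
      have : 0 < 1 / a + 1 / b := by positivity
      linarith
    · exact hw h4
  have hseg : c ∈ segment ℝ (c + ((1 / a : ℝ) : ℂ) * w) (c + ((1 / b : ℝ) : ℂ) * (-w)) := by
    refine ⟨a / (a + b), b / (a + b), by positivity, by positivity, by field_simp, ?_⟩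
    rw [Complex.real_smul, Complex.real_smul]
    have ha0 : (a : ℂ) ≠ 0 := by exact_mod_cast hp.ne'
    have hb0 : (b : ℂ) ≠ 0 := by exact_mod_cast hp'.ne'
    have hab : (a : ℂ) + b ≠ 0 := by
      have : a + b ≠ 0 := by positivity
      exact_mod_cast this
    push_cast
    field_simp
    ring
  have h3 := he _ h1 _ h2 hne hseg
  have d1 : dist c (c + ((1 / a : ℝ) : ℂ) * w) = 1 / a * ‖w‖ := by
    rw [dist_eq_norm, sub_add_cancel_left, norm_neg, norm_mul, Complex.norm_real,
      Real.norm_of_nonneg (by positivity)]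
  have d2 : dist c (c + ((1 / b : ℝ) : ℂ) * (-w)) = 1 / b * ‖w‖ := by
    rw [dist_eq_norm, sub_add_cancel_left, norm_neg, norm_mul, Complex.norm_real,
      Real.norm_of_nonneg (by positivity), norm_neg]
  rw [d1, d2] at h3
  rw [← h3]
  ring

end EQ2
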