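import Pool.Agent.Lib.MP_226de1_co.Conseq

/-! The two families of lines of a body with two equipower points (`k = 2`), as a recursion for
the cotangents.  `s : Bool` names the centre, `dn s q` (resp. `dp s q`) is the difference of the
cotangents of the line and of the next (resp. previous) line. -/

set_option autoImplicit false

namespace EQ2

open Complex Set Filter Topology

structure LineSys (μ : ℝ) (dn dp : Bool → ℝ → ℝ) : Prop where
  hμ : 1 < μ
  δpos : ∃ δ : ℝ, 0 < δ ∧ ∀ s q, δ ≤ dn s q ∧ δ ≤ dp s q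
  rel : ∀ s q, (1 + q ^ 2) * (1 / dn s q ^ 2 + 1 / dp s q ^ 2) = Cc μ
  nxt : ∀ s q, dp (!s) (q - dn s q) = dn s q
  prv : ∀ s q, dn (!s) (q + dp s q) = dp s q
  lim_top : ∀ s, Tendsto (fun q : ℝ => (1 + q ^ 2) / dp s q ^ 2) atTop (𝓝 (1 / (μ - 1) ^ 2))
  lim_bot : ∀ s, Tendsto (fun q : ℝ => (1 + q ^ 2) / dn s q ^ 2) atBot (𝓝 (1 / (μ - 1) ^ 2))

variable {μ : ℝ} {dn dp : Bool → ℝ → ℝ} {F : ℕ → ℝ} {y : ℂ → ℂ}

theorem LineSys.mirror (hL : LineSys μ dn dp) :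
    LineSys μ (fun s q => dp s (-q)) (fun s q => dn s (-q)) := by
  refine ⟨hL.hμ, ?_, ?_, ?_, ?_, ?_, ?_⟩
  · obtain ⟨δ, hδ, h⟩ := hL.δpos
    exact ⟨δ, hδ, fun s q => ⟨(h s (-q)).2, (h s (-q)).1⟩⟩
  · intro s q
    have h := hL.rel s (-q)
    rw [neg_sq] at h
    rw [← h, add_comm (1 / dn s (-q) ^ 2)]
  · intro s q
    have h := hL.prv s (-q)
    show dn (!s) (-(q - dp s (-q))) = dp s (-q)
    rw [← h]
    congr 1
    rw [h]
    ring
  · intro s q
    have h := hL.nxt s (-q)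
    show dp (!s) (-(q + dn s (-q))) = dn s (-q)
    rw [← h]
    congr 1
    rw [h]
    ring
  · intro s
    have h := (hL.lim_bot s).comp tendsto_neg_atTop_atBot
    refine h.congr (fun q => ?_)
    simp [Function.comp]
  · intro s
    have h := (hL.lim_top s).comp tendsto_neg_atBot_atTop
    refine h.congr (fun q => ?_)
    simp [Function.comp]

/-- squared distance of the centre to the previous vertex (near distance `1`) -/
noncomputable def Gs (μ : ℝ) (dp : Bool → ℝ → ℝ) (s : Bool) (q : ℝ) : ℝ :=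
  (μ - 1) ^ 2 * (1 + q ^ 2) / dp s q ^ 2

/-- the one-step map: `F' ↦ F` along a line with cotangent `q'` -/
noncomputable def stepG (μ F' q' : ℝ) : ℝ :=
  1 + μ ^ 2 - F' + (μ - 1) ^ 2 - 2 * (μ - 1) * Real.sqrt (1 + μ ^ 2 - F') * q' / Real.sqrt (1 + q' ^ 2)

/-- difference of cotangents to the next line -/
noncomputable def stepD (μ F' q' : ℝ) : ℝ :=
  (μ - 1) * Real.sqrt (1 + q' ^ 2) / Real.sqrt (1 + μ ^ 2 - F')

private theorem ls_dn_pos (hL : LineSys μ dn dp) (s : Bool) (q : ℝ) : 0 < dn s q := by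
  obtain ⟨δ, hδ, h⟩ := hL.δpos
  exact lt_of_lt_of_le hδ (h s q).1

private theorem ls_dp_pos (hL : LineSys μ dn dp) (s : Bool) (q : ℝ) : 0 < dp s q := by
  obtain ⟨δ, hδ, h⟩ := hL.δpos
  exact lt_of_lt_of_le hδ (h s q).2

/-- `1 + μ² - Gs = (μ-1)² (1+q²)/dn²` -/
private theorem ls_key (hL : LineSys μ dn dp) (s : Bool) (q : ℝ) :
    1 + μ ^ 2 - Gs μ dp s q = (μ - 1) ^ 2 * (1 + q ^ 2) / dn s q ^ 2 := by
  have h := hL.rel s q
  have h1 := ls_dn_pos hL s q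
  have h2 := ls_dp_pos hL s q
  have h3 : μ - 1 ≠ 0 := by linarith [hL.hμ]
  unfold Gs
  unfold Cc at h
  have h4 : (μ - 1) ^ 2 * ((1 + q ^ 2) * (1 / dn s q ^ 2 + 1 / dp s q ^ 2)) = 1 + μ ^ 2 := by
    rw [h]
    field_simp
  rw [← h4]
  field_simp
  ring

theorem Gs_lt (hL : LineSys μ dn dp) (s : Bool) (q : ℝ) : 0 < Gs μ dp s q ∧
    Gs μ dp s q < 1 + μ ^ 2 := by
  have h1 := ls_dn_pos hL s q
  have h2 := ls_dp_pos hL s q
  have h3 : 0 < μ - 1 := by linarith [hL.hμ]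
  have h4 : 0 < 1 + q ^ 2 := by positivity
  constructor
  · unfold Gs
    positivity
  · have h5 := ls_key hL s q
    have h6 : 0 < (μ - 1) ^ 2 * (1 + q ^ 2) / dn s q ^ 2 := by positivity
    linarith

private theorem ls_sqrt (hL : LineSys μ dn dp) (s : Bool) (q : ℝ) :
    Real.sqrt (1 + μ ^ 2 - Gs μ dp s q) = (μ - 1) * Real.sqrt (1 + q ^ 2) / dn s q := by
  have h1 := ls_dn_pos hL s q
  have h3 : 0 < μ - 1 := by linarith [hL.hμ]
  have h4 : 0 ≤ 1 + q ^ 2 := by positivity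
  rw [ls_key hL s q]
  have : (μ - 1) ^ 2 * (1 + q ^ 2) / dn s q ^ 2 =
      ((μ - 1) * Real.sqrt (1 + q ^ 2) / dn s q) ^ 2 := by
    rw [div_pow, mul_pow, Real.sq_sqrt h4]
  rw [this, Real.sqrt_sq (by positivity)]

/-- `dn s q = stepD μ (Gs s q) q` -/
theorem dn_eq (hL : LineSys μ dn dp) (s : Bool) (q : ℝ) :
    dn s q = stepD μ (Gs μ dp s q) q := by
  have h1 := ls_dn_pos hL s q
  have h3 : 0 < μ - 1 := by linarith [hL.hμ]
  have h4 : 0 < Real.sqrt (1 + q ^ 2) := Real.sqrt_pos.2 (by positivity)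
  unfold stepD
  rw [ls_sqrt hL s q]
  field_simp

/-- one step for the body -/
theorem Gs_step (hL : LineSys μ dn dp) (s : Bool) (q : ℝ) :
    Gs μ dp (!s) (q - dn s q) = stepG μ (Gs μ dp s q) q := by
  have h1 := ls_dn_pos hL s q
  have h3 : 0 < μ - 1 := by linarith [hL.hμ]
  have h4 : 0 < Real.sqrt (1 + q ^ 2) := Real.sqrt_pos.2 (by positivity)
  unfold stepG
  rw [ls_sqrt hL s q, ls_key hL s q]
  unfold Gs
  rw [hL.nxt s q]
  have h5 : 2 * (μ - 1) * ((μ - 1) * Real.sqrt (1 + q ^ 2) / dn s q) * q / Real.sqrt (1 + q ^ 2) =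
      2 * (μ - 1) ^ 2 * q / dn s q := by
    field_simp
  rw [h5]
  field_simp
  ring

theorem Gs_tendsto (hL : LineSys μ dn dp) (s : Bool) :
    Tendsto (Gs μ dp s) atTop (𝓝 1) := by
  have h3 : 0 < μ - 1 := by linarith [hL.hμ]
  have h := (hL.lim_top s).const_mul ((μ - 1) ^ 2)
  have e : (μ - 1) ^ 2 * (1 / (μ - 1) ^ 2) = 1 := by field_simp
  rw [e] at h
  refine h.congr (fun q => ?_)
  unfold Gs
  ring

end EQ2
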