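import Pool.Agent.Lib.MP_226de1_co.GeoArea
import Pool.Agent.Lib.MP_226de1_co.LineSys

/-! From a planar body with two equipower points `∓a` to a `LineSys`. -/

set_option autoImplicit false

namespace EQ2

open Complex Set Filter Topology

/-- two equipower points `-a`, `a` of `K`, with constants `c₁`, `c₂` -/
structure TwoEqui (K : Set ℂ) (a c₁ c₂ : ℝ) : Prop where
  ha : 0 < a
  hc : Convex ℝ K
  hK : IsCompact K
  hi₁ : ((-a : ℝ) : ℂ) ∈ interior K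
  hi₂ : (a : ℂ) ∈ interior K
  he₁ : ∀ x ∈ frontier K, ∀ y ∈ frontier K, x ≠ y → ((-a : ℝ) : ℂ) ∈ segment ℝ x y →
    dist ((-a : ℝ) : ℂ) x ^ 2 + dist ((-a : ℝ) : ℂ) y ^ 2 = c₁
  he₂ : ∀ x ∈ frontier K, ∀ y ∈ frontier K, x ≠ y → (a : ℂ) ∈ segment ℝ x y →
    dist (a : ℂ) x ^ 2 + dist (a : ℂ) y ^ 2 = c₂

variable {K : Set ℂ} {a c₁ c₂ : ℝ}

noncomputable def dnK (K : Set ℂ) (a : ℝ) (s : Bool) (q : ℝ) : ℝ :=
  if s then 2 * a * gK K ((-a : ℝ) : ℂ) ⟨q, 1⟩ else 2 * a * gK K (a : ℂ) (-⟨q, 1⟩)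

noncomputable def dpK (K : Set ℂ) (a : ℝ) (s : Bool) (q : ℝ) : ℝ :=
  if s then 2 * a * gK K ((-a : ℝ) : ℂ) (-⟨q, 1⟩) else 2 * a * gK K (a : ℂ) ⟨q, 1⟩

/-- near distance on the left, `r₁`: the left end of the axis chord is `-a - r₁` -/
noncomputable def rL (K : Set ℂ) (a : ℝ) : ℝ := 1 / gK K ((-a : ℝ) : ℂ) (-1)
noncomputable def rR (K : Set ℂ) (a : ℝ) : ℝ := 1 / gK K (a : ℂ) 1

private theorem geoSys_key {c c' w w' : ℂ} (hc : Convex ℝ K) (hK : IsCompact K)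
    (hi : c ∈ interior K) (hi' : c' ∈ interior K) (hw : w ≠ 0)
    (he : c + ((1 / gK K c w : ℝ) : ℂ) * w = c' + ((1 / gK K c w : ℝ) : ℂ) * w') :
    gK K c' w' = gK K c w := by
  have h1 := gK_mem_frontier hc hK hi hw
  have hp := gK_pos hK hi hw
  rw [he] at h1
  have h2 := gK_eq_of_mem hc hK hi' (h := 1 / gK K c w) (by positivity) h1
  rw [h2, one_div_one_div]

private theorem geoSys_ne (q : ℝ) : (⟨q, 1⟩ : ℂ) ≠ 0 := by
  intro h
  have := congrArg Complex.im h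
  simp at this

private theorem geoSys_ne' (q : ℝ) : (-⟨q, 1⟩ : ℂ) ≠ 0 := neg_ne_zero.mpr (geoSys_ne q)

theorem TwoEqui.c_eq (h : TwoEqui K a c₁ c₂) : c₁ = c₂ := by
  have h1 := area_eq h.hc h.hK h.hi₁ h.he₁
  have h2 := area_eq h.hc h.hK h.hi₂ h.he₂
  rw [h1] at h2
  have hpi := Real.pi_pos
  have h3 : Real.pi * c₁ = Real.pi * c₂ := by linarith
  exact mul_left_cancel₀ hpi.ne' h3

/-- ends of the axis chord seen from the other centre (`gK_eq_of_mem`) -/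
theorem TwoEqui.far (h : TwoEqui K a c₁ c₂) :
    1 / gK K ((-a : ℝ) : ℂ) 1 = 2 * a + rR K a ∧ 1 / gK K (a : ℂ) (-1) = 2 * a + rL K a := by
  have ha := h.ha
  have n1 : (1 : ℂ) ≠ 0 := one_ne_zero
  have n2 : (-1 : ℂ) ≠ 0 := neg_ne_zero.mpr one_ne_zero
  constructor
  · have h1 := gK_mem_frontier h.hc h.hK h.hi₂ n1
    have hp : 0 < rR K a := by
      have := gK_pos h.hK h.hi₂ n1
      unfold rR
      positivity
    have e : (a : ℂ) + ((1 / gK K (a : ℂ) 1 : ℝ) : ℂ) * 1 =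
        ((-a : ℝ) : ℂ) + ((2 * a + rR K a : ℝ) : ℂ) * 1 := by
      unfold rR
      push_cast
      ring
    rw [e] at h1
    rw [gK_eq_of_mem h.hc h.hK h.hi₁ (by positivity) h1, one_div_one_div]
  · have h1 := gK_mem_frontier h.hc h.hK h.hi₁ n2
    have hp : 0 < rL K a := by
      have := gK_pos h.hK h.hi₁ n2
      unfold rL
      positivity
    have e : ((-a : ℝ) : ℂ) + ((1 / gK K ((-a : ℝ) : ℂ) (-1) : ℝ) : ℂ) * (-1) =
        (a : ℂ) + ((2 * a + rL K a : ℝ) : ℂ) * (-1) := by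
      unfold rL
      push_cast
      ring
    rw [e] at h1
    rw [gK_eq_of_mem h.hc h.hK h.hi₂ (by positivity) h1, one_div_one_div]

/-- `r₁² + (2a+r₂)² = c₁ = c₂ = r₂² + (2a+r₁)²`, so `r₁ = r₂` -/
theorem TwoEqui.r_eq (h : TwoEqui K a c₁ c₂) : 0 < rL K a ∧ rL K a = rR K a ∧
    c₁ = rL K a ^ 2 + (2 * a + rL K a) ^ 2 := by
  have ha := h.ha
  obtain ⟨f1, f2⟩ := h.far
  have n1 : (1 : ℂ) ≠ 0 := one_ne_zero
  have n2 : (-1 : ℂ) ≠ 0 := neg_ne_zero.mpr one_ne_zero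
  have e1 := gK_equi h.hc h.hK h.hi₁ h.he₁ n1
  have e2 := gK_equi h.hc h.hK h.hi₂ h.he₂ n1
  have hp : 0 < rL K a := by
    have := gK_pos h.hK h.hi₁ n2
    unfold rL
    positivity
  have q1 : 1 / gK K ((-a : ℝ) : ℂ) 1 ^ 2 = (2 * a + rR K a) ^ 2 := by
    rw [← f1, div_pow, one_pow]
  have q2 : 1 / gK K ((-a : ℝ) : ℂ) (-1) ^ 2 = rL K a ^ 2 := by
    unfold rL
    rw [div_pow, one_pow]
  have q3 : 1 / gK K (a : ℂ) 1 ^ 2 = rR K a ^ 2 := by
    unfold rR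
    rw [div_pow, one_pow]
  have q4 : 1 / gK K (a : ℂ) (-1) ^ 2 = (2 * a + rL K a) ^ 2 := by
    rw [← f2, div_pow, one_pow]
  rw [q1, q2, norm_one, one_pow, one_mul] at e1
  rw [q3, q4, norm_one, one_pow, one_mul, ← h.c_eq] at e2
  have h3 : 4 * a * rR K a = 4 * a * rL K a := by nlinarith
  have h4 : rR K a = rL K a := mul_left_cancel₀ (by positivity) h3
  refine ⟨hp, h4.symm, ?_⟩
  rw [← e1, h4]
  ring

/-- next/previous vertices: `-a + h(q+i) = a + h(q'+i)`, `q' = q - 2a/h`, etc. -/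
theorem TwoEqui.nxt (h : TwoEqui K a c₁ c₂) (s : Bool) (q : ℝ) :
    dpK K a (!s) (q - dnK K a s q) = dnK K a s q := by
  have ha := h.ha
  cases s
  · have hp := gK_pos h.hK h.hi₂ (geoSys_ne' q)
    have hpc : ((gK K (a : ℂ) (-⟨q, 1⟩) : ℝ) : ℂ) ≠ 0 := by exact_mod_cast hp.ne'
    simp only [dpK, dnK, Bool.not_false, if_true, Bool.false_eq_true, if_false]
    congr 1
    apply geoSys_key h.hc h.hK h.hi₂ h.hi₁ (geoSys_ne' q)
    apply Complex.ext
    · simp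
      field_simp
      ring
    · simp
  · have hp := gK_pos h.hK h.hi₁ (geoSys_ne q)
    have hp' := hp
    rw [Complex.ofReal_neg] at hp'
    simp only [dpK, dnK, Bool.not_true, if_true, Bool.false_eq_true, if_false]
    congr 1
    apply geoSys_key h.hc h.hK h.hi₁ h.hi₂ (geoSys_ne q)
    apply Complex.ext
    · simp
      field_simp
      ring
    · simp

theorem TwoEqui.prv (h : TwoEqui K a c₁ c₂) (s : Bool) (q : ℝ) :
    dnK K a (!s) (q + dpK K a s q) = dpK K a s q := by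
  have ha := h.ha
  cases s
  · have hp := gK_pos h.hK h.hi₂ (geoSys_ne q)
    simp only [dpK, dnK, Bool.not_false, if_true, Bool.false_eq_true, if_false]
    congr 1
    apply geoSys_key h.hc h.hK h.hi₂ h.hi₁ (geoSys_ne q)
    apply Complex.ext
    · simp
      field_simp
      ring
    · simp
  · have hp := gK_pos h.hK h.hi₁ (geoSys_ne' q)
    have hp' := hp
    rw [Complex.ofReal_neg] at hp'
    simp only [dpK, dnK, Bool.not_true, if_true, Bool.false_eq_true, if_false]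
    congr 1
    apply geoSys_key h.hc h.hK h.hi₁ h.hi₂ (geoSys_ne' q)
    apply Complex.ext
    · simp
      field_simp
      ring
    · simp

end EQ2
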