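import Pool.Agent.Lib.MP_226de1_co.GeoSys

/-! Limits, and the `LineSys` of a body. -/

set_option autoImplicit false

namespace EQ2

open Complex Set Filter Topology

variable {K : Set ℂ} {a c₁ c₂ : ℝ}

private theorem geoSys2_den : Tendsto (fun q : ℝ => 1 / (1 + q ^ 2)) atTop (𝓝 0) := by
  simp only [one_div]
  apply Tendsto.inv_tendsto_atTop
  exact tendsto_atTop_add_const_left _ _ (tendsto_pow_atTop two_ne_zero)

private theorem geoSys2_top1 : Tendsto (fun q : ℝ => 1 / Real.sqrt (1 + q ^ 2)) atTop (𝓝 0) := by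
  have h := (Real.continuous_sqrt.tendsto 0).comp geoSys2_den
  rw [Real.sqrt_zero] at h
  refine h.congr fun q => ?_
  simp [Function.comp]

private theorem geoSys2_top2 : Tendsto (fun q : ℝ => q / Real.sqrt (1 + q ^ 2)) atTop (𝓝 1) := by
  have h0 : Tendsto (fun q : ℝ => 1 - 1 / (1 + q ^ 2)) atTop (𝓝 1) := by
    simpa using (tendsto_const_nhds (x := (1 : ℝ))).sub geoSys2_den
  have h := (Real.continuous_sqrt.tendsto 1).comp h0
  rw [Real.sqrt_one] at h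
  refine h.congr' ?_
  filter_upwards [eventually_gt_atTop (0 : ℝ)] with q hq
  simp only [Function.comp]
  have hpos : (0 : ℝ) < 1 + q ^ 2 := by positivity
  have e : 1 - 1 / (1 + q ^ 2) = q ^ 2 / (1 + q ^ 2) := by
    field_simp
    ring
  rw [e, Real.sqrt_div (by positivity), Real.sqrt_sq hq.le]

private theorem geoSys2_bot1 : Tendsto (fun q : ℝ => 1 / Real.sqrt (1 + q ^ 2)) atBot (𝓝 0) := by
  have h := geoSys2_top1.comp tendsto_neg_atBot_atTop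
  refine h.congr fun q => ?_
  simp [Function.comp]

private theorem geoSys2_bot2 : Tendsto (fun q : ℝ => q / Real.sqrt (1 + q ^ 2)) atBot (𝓝 (-1)) := by
  have h := (geoSys2_top2.comp tendsto_neg_atBot_atTop).neg
  refine h.congr fun q => ?_
  simp only [Function.comp, neg_sq]
  ring

private theorem geoSys2_dir {l : Filter ℝ} {e : ℝ}
    (h1 : Tendsto (fun q : ℝ => 1 / Real.sqrt (1 + q ^ 2)) l (𝓝 0))
    (h2 : Tendsto (fun q : ℝ => q / Real.sqrt (1 + q ^ 2)) l (𝓝 e)) :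
    Tendsto (fun q : ℝ => ((q / Real.sqrt (1 + q ^ 2) : ℝ) : ℂ)
      + ((1 / Real.sqrt (1 + q ^ 2) : ℝ) : ℂ) * I) l (𝓝 (e : ℂ)) := by
  have h3 := (Complex.continuous_ofReal.tendsto e).comp h2
  have h4 := ((Complex.continuous_ofReal.tendsto 0).comp h1).mul_const I
  have h5 := h3.add h4
  simpa [Function.comp] using h5

private theorem geoSys2_vec (q : ℝ) : (⟨q, 1⟩ : ℂ) = ((Real.sqrt (1 + q ^ 2) : ℝ) : ℂ) *
    (((q / Real.sqrt (1 + q ^ 2) : ℝ) : ℂ) + ((1 / Real.sqrt (1 + q ^ 2) : ℝ) : ℂ) * I) := by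
  have hpos : Real.sqrt (1 + q ^ 2) ≠ 0 := (Real.sqrt_pos.2 (by positivity)).ne'
  apply Complex.ext
  · simp
    field_simp
  · simp
    field_simp

/-- the general limit -/
private theorem geoSys2_lim {K : Set ℂ} {c : ℂ} (hc : Convex ℝ K) (hi : c ∈ interior K)
    {l : Filter ℝ} {a r e σ : ℝ} (ha : 0 < a) (hr : 0 < r)
    (h1 : Tendsto (fun q : ℝ => 1 / Real.sqrt (1 + q ^ 2)) l (𝓝 0))
    (h2 : Tendsto (fun q : ℝ => q / Real.sqrt (1 + q ^ 2)) l (𝓝 e))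
    (hg : gK K c ((σ : ℂ) * (e : ℂ)) = 1 / r) :
    Tendsto (fun q : ℝ => (1 + q ^ 2) / (2 * a * gK K c ((σ : ℂ) * ⟨q, 1⟩)) ^ 2) l
      (𝓝 (r ^ 2 / (2 * a) ^ 2)) := by
  have h3 := (geoSys2_dir h1 h2).const_mul (σ : ℂ)
  have h4 := ((gK_continuous hc hi).tendsto ((σ : ℂ) * (e : ℂ))).comp h3
  rw [hg] at h4
  have h5 : Tendsto (fun q : ℝ => 1 / ((2 * a) ^ 2 *
      (gK K c ((σ : ℂ) * (((q / Real.sqrt (1 + q ^ 2) : ℝ) : ℂ)
        + ((1 / Real.sqrt (1 + q ^ 2) : ℝ) : ℂ) * I))) ^ 2)) l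
      (𝓝 (1 / ((2 * a) ^ 2 * (1 / r) ^ 2))) := by
    apply Tendsto.div tendsto_const_nhds
    · exact (h4.pow 2).const_mul _
    · positivity
  have e1 : 1 / ((2 * a) ^ 2 * (1 / r) ^ 2) = r ^ 2 / (2 * a) ^ 2 := by
    field_simp
  rw [e1] at h5
  refine h5.congr fun q => ?_
  have hpos : (0 : ℝ) < 1 + q ^ 2 := by positivity
  have e2 : gK K c ((σ : ℂ) * ⟨q, 1⟩) = Real.sqrt (1 + q ^ 2) *
      gK K c ((σ : ℂ) * (((q / Real.sqrt (1 + q ^ 2) : ℝ) : ℂ)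
        + ((1 / Real.sqrt (1 + q ^ 2) : ℝ) : ℂ) * I)) := by
    rw [geoSys2_vec q, ← gK_smul _ (Real.sqrt_nonneg _)]
    congr 1
    ring
  rw [e2]
  set g := gK K c ((σ : ℂ) * (((q / Real.sqrt (1 + q ^ 2) : ℝ) : ℂ)
        + ((1 / Real.sqrt (1 + q ^ 2) : ℝ) : ℂ) * I)) with hgdef
  have e3 : (2 * a * (Real.sqrt (1 + q ^ 2) * g)) ^ 2 = (1 + q ^ 2) * ((2 * a) ^ 2 * g ^ 2) := by
    have := Real.sq_sqrt hpos.le
    calc (2 * a * (Real.sqrt (1 + q ^ 2) * g)) ^ 2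
        = (Real.sqrt (1 + q ^ 2)) ^ 2 * ((2 * a) ^ 2 * g ^ 2) := by ring
      _ = _ := by rw [this]
  rw [e3]
  have e4 := mul_div_mul_left 1 ((2 * a) ^ 2 * g ^ 2) hpos.ne'
  rw [mul_one] at e4
  exact e4.symm

private theorem geoSys2_gL (h : TwoEqui K a c₁ c₂) :
    gK K ((-a : ℝ) : ℂ) (-1) = 1 / rL K a := by
  unfold rL
  rw [one_div_one_div]

private theorem geoSys2_gR (h : TwoEqui K a c₁ c₂) :
    gK K (a : ℂ) 1 = 1 / rL K a := by
  rw [h.r_eq.2.1]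
  unfold rR
  rw [one_div_one_div]

/-- limits: `(1+q²)/dp² = 1/(4a² gK(±(q+i)/√(1+q²))²)` and the direction tends to `±1` -/
theorem TwoEqui.lim_top (h : TwoEqui K a c₁ c₂) (s : Bool) :
    Tendsto (fun q : ℝ => (1 + q ^ 2) / dpK K a s q ^ 2) atTop
      (𝓝 (rL K a ^ 2 / (2 * a) ^ 2)) := by
  cases s with
  | true =>
    have h1 := geoSys2_lim (σ := -1) (e := 1) h.hc h.hi₁ h.ha h.r_eq.1 geoSys2_top1 geoSys2_top2
      (by
        have e : (((-1 : ℝ) : ℂ)) * ((1 : ℝ) : ℂ) = -1 := by push_cast; ring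
        rw [e]
        exact geoSys2_gL h)
    refine h1.congr fun q => ?_
    have e : ((-1 : ℝ) : ℂ) * ⟨q, 1⟩ = -⟨q, 1⟩ := by push_cast; ring
    rw [e]
    simp [dpK]
  | false =>
    have h1 := geoSys2_lim (σ := 1) (e := 1) h.hc h.hi₂ h.ha h.r_eq.1 geoSys2_top1 geoSys2_top2
      (by
        have e : (((1 : ℝ) : ℂ)) * ((1 : ℝ) : ℂ) = 1 := by push_cast; ring
        rw [e]
        exact geoSys2_gR h)
    refine h1.congr fun q => ?_
    have e : ((1 : ℝ) : ℂ) * ⟨q, 1⟩ = ⟨q, 1⟩ := by push_cast; ring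
    rw [e]
    simp [dpK]

theorem TwoEqui.lim_bot (h : TwoEqui K a c₁ c₂) (s : Bool) :
    Tendsto (fun q : ℝ => (1 + q ^ 2) / dnK K a s q ^ 2) atBot
      (𝓝 (rL K a ^ 2 / (2 * a) ^ 2)) := by
  cases s with
  | true =>
    have h1 := geoSys2_lim (σ := 1) (e := -1) h.hc h.hi₁ h.ha h.r_eq.1 geoSys2_bot1 geoSys2_bot2
      (by
        have e : (((1 : ℝ) : ℂ)) * ((-1 : ℝ) : ℂ) = -1 := by push_cast; ring
        rw [e]
        exact geoSys2_gL h)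
    refine h1.congr fun q => ?_
    have e : ((1 : ℝ) : ℂ) * ⟨q, 1⟩ = ⟨q, 1⟩ := by push_cast; ring
    rw [e]
    simp [dnK]
  | false =>
    have h1 := geoSys2_lim (σ := -1) (e := -1) h.hc h.hi₂ h.ha h.r_eq.1 geoSys2_bot1 geoSys2_bot2
      (by
        have e : (((-1 : ℝ) : ℂ)) * ((-1 : ℝ) : ℂ) = 1 := by push_cast; ring
        rw [e]
        exact geoSys2_gR h)
    refine h1.congr fun q => ?_
    have e : ((-1 : ℝ) : ℂ) * ⟨q, 1⟩ = -⟨q, 1⟩ := by push_cast; ring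
    rw [e]
    simp [dnK]

private theorem geoSys2_norm (q : ℝ) : ‖(⟨q, 1⟩ : ℂ)‖ ^ 2 = 1 + q ^ 2 := by
  rw [← Complex.normSq_eq_norm_sq, Complex.normSq_mk]
  ring

private theorem geoSys2_norm_ge (q : ℝ) : 1 ≤ ‖(⟨q, 1⟩ : ℂ)‖ := by
  have h := geoSys2_norm q
  have h2 := norm_nonneg (⟨q, 1⟩ : ℂ)
  nlinarith [sq_nonneg q]

private theorem geoSys2_ne (q : ℝ) : (⟨q, 1⟩ : ℂ) ≠ 0 := by
  intro h
  have := geoSys2_norm_ge q
  rw [h, norm_zero] at this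
  linarith

private theorem geoSys2_rel {c : ℂ} {c₀ : ℝ} (h : TwoEqui K a c₁ c₂) (hi : c ∈ interior K)
    (he : ∀ x ∈ frontier K, ∀ y ∈ frontier K, x ≠ y → c ∈ segment ℝ x y →
      dist c x ^ 2 + dist c y ^ 2 = c₀) (q : ℝ) :
    (1 + q ^ 2) * (1 / (2 * a * gK K c ⟨q, 1⟩) ^ 2 + 1 / (2 * a * gK K c (-⟨q, 1⟩)) ^ 2)
      = c₀ / (2 * a) ^ 2 := by
  have h1 := gK_equi h.hc h.hK hi he (geoSys2_ne q)
  rw [geoSys2_norm] at h1
  have e : ∀ x : ℝ, 1 / (2 * a * x) ^ 2 = 1 / x ^ 2 / (2 * a) ^ 2 := by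
    intro x
    rw [mul_pow, div_div, mul_comm]
  rw [← h1, e, e]
  ring

/-- `μ = (2a + r)/r` -/
theorem TwoEqui.lineSys (h : TwoEqui K a c₁ c₂) :
    LineSys ((2 * a + rL K a) / rL K a) (dnK K a) (dpK K a) := by
  have ha := h.ha
  obtain ⟨hr, hrr, hc1⟩ := h.r_eq
  have hμ1 : (2 * a + rL K a) / rL K a - 1 = 2 * a / rL K a := by
    field_simp
    ring
  have hlim : 1 / ((2 * a + rL K a) / rL K a - 1) ^ 2 = rL K a ^ 2 / (2 * a) ^ 2 := by
    rw [hμ1]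
    field_simp
  have hC : Cc ((2 * a + rL K a) / rL K a) = c₁ / (2 * a) ^ 2 := by
    unfold Cc
    rw [hμ1, hc1]
    field_simp
  refine ⟨?_, ?_, ?_, h.nxt, h.prv, ?_, ?_⟩
  · rw [lt_div_iff₀ hr]
    linarith
  · obtain ⟨δ₁, hδ₁, hl₁⟩ := gK_lower h.hK h.hi₁
    obtain ⟨δ₂, hδ₂, hl₂⟩ := gK_lower h.hK h.hi₂
    refine ⟨2 * a * min δ₁ δ₂, by positivity, ?_⟩
    have key : ∀ (c : ℂ) (δ : ℝ), 0 < δ → min δ₁ δ₂ ≤ δ → (∀ w : ℂ, δ * ‖w‖ ≤ gK K c w) →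
        ∀ q : ℝ, 2 * a * min δ₁ δ₂ ≤ 2 * a * gK K c ⟨q, 1⟩ ∧
          2 * a * min δ₁ δ₂ ≤ 2 * a * gK K c (-⟨q, 1⟩) := by
      intro c δ hδ hm hl q
      have hn := geoSys2_norm_ge q
      have e1 := hl ⟨q, 1⟩
      have e2 := hl (-⟨q, 1⟩)
      rw [norm_neg] at e2
      have e3 : δ ≤ δ * ‖(⟨q, 1⟩ : ℂ)‖ := le_mul_of_one_le_right hδ.le hn
      exact ⟨mul_le_mul_of_nonneg_left (by linarith) (by positivity),
        mul_le_mul_of_nonneg_left (by linarith) (by positivity)⟩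
    intro s q
    cases s with
    | true =>
      have := key _ δ₁ hδ₁ (min_le_left _ _) hl₁ q
      simp only [dnK, dpK, if_true]
      exact this
    | false =>
      have := key _ δ₂ hδ₂ (min_le_right _ _) hl₂ q
      simp only [dnK, dpK, Bool.false_eq_true, if_false]
      exact ⟨this.2, this.1⟩
  · intro s q
    rw [hC]
    cases s with
    | true =>
      simp only [dnK, dpK, if_true]
      exact geoSys2_rel h h.hi₁ h.he₁ q
    | false =>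
      simp only [dnK, dpK, Bool.false_eq_true, if_false]
      rw [add_comm (1 / (2 * a * gK K (a : ℂ) (-⟨q, 1⟩)) ^ 2)]
      rw [h.c_eq]
      exact geoSys2_rel h h.hi₂ h.he₂ q
  · intro s
    rw [hlim]
    exact h.lim_top s
  · intro s
    rw [hlim]
    exact h.lim_bot s

end EQ2
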