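import Pool.Agent.Lib.MP_226de1_co.LocUniq

/-! Propagation of the local coincidence, and the body identity. -/

set_option autoImplicit false

namespace EQ2

open Complex Set Filter Topology

variable {μ : ℝ} {dn dp : Bool → ℝ → ℝ} {F : ℕ → ℝ} {y : ℂ → ℂ}

private theorem id_dn_pos (hL : LineSys μ dn dp) (s : Bool) (q : ℝ) : 0 < dn s q := by
  obtain ⟨δ, hδ, h⟩ := hL.δpos
  exact lt_of_lt_of_le hδ (h s q).1

private theorem id_dp_pos (hL : LineSys μ dn dp) (s : Bool) (q : ℝ) : 0 < dp s q := by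
  obtain ⟨δ, hδ, h⟩ := hL.δpos
  exact lt_of_lt_of_le hδ (h s q).2

private theorem id_pos_eq {a b c : ℝ} (ha : 0 < a) (hb : 0 < b) (h1 : c * a ^ 2 = 1)
    (h2 : c * b ^ 2 = 1) : a = b := by
  have hc : c ≠ 0 := by
    rintro rfl
    rw [zero_mul] at h1
    exact zero_ne_one h1
  have h3 : a ^ 2 = b ^ 2 := mul_left_cancel₀ hc (h1.trans h2.symm)
  exact (pow_left_inj₀ ha.le hb.le two_ne_zero).1 h3

/-- `rp x (q (x-ℓ) - q x)² = 1` -/
private theorem id_rp (h : HF μ F) (hy : HY μ F y) {x : ℝ} (hx : x < ell μ) :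
    rp μ y x * (rq μ F y (x - ell μ) - rq μ F y x) ^ 2 = 1 ∧
      0 < rq μ F y (x - ell μ) - rq μ F y x := by
  have h1 := rp_step h hy (t := x - ell μ) (by linarith)
  have h2 := rq_sub h hy (t := x - ell μ) (by linarith)
  rw [sub_add_cancel] at h1 h2
  exact ⟨h1, h2⟩

/-- near `-∞`: `(μ-1)²(1+q²)/dp² = 1 - rD x = (μ-1)²(1+q²) rp x` (`rG_eq`), so `dp² = 1/rp x`, and
`rp_step` at `x - ℓ`. -/
theorem dp_local (h : HF μ F) (hy : HY μ F y) (hL : LineSys μ dn dp) :
    ∃ X₀ : ℝ, X₀ < 0 ∧ ∀ s : Bool, ∀ x ≤ X₀,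
      dp s (rq μ F y x) = rq μ F y (x - ell μ) - rq μ F y x := by
  obtain ⟨X₀, hX, hu⟩ := local_uniqueness h hy hL
  have hl := ell_pos h.hμ
  refine ⟨X₀, hX, fun s x hx => ?_⟩
  have h1 := hu s x hx
  have hxl : x < ell μ := by linarith
  have h2 := rG_eq h hy hxl
  obtain ⟨h3, h4⟩ := id_rp h hy hxl
  have hd := id_dp_pos hL s (rq μ F y x)
  refine id_pos_eq (c := rp μ y x) hd h4 ?_ h3
  rw [← h2] at h1
  unfold Gs at h1
  have hm : 0 < μ - 1 := by linarith [h.hμ]
  have hq : 0 < (μ - 1) ^ 2 * (1 + rq μ F y x ^ 2) := by positivity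
  have h5 : (μ - 1) ^ 2 * (1 + rq μ F y x ^ 2) * (rp μ y x * dp s (rq μ F y x) ^ 2)
      = (μ - 1) ^ 2 * (1 + rq μ F y x ^ 2) * 1 := by
    have h6 : (μ - 1) ^ 2 * (1 + rq μ F y x ^ 2) * rp μ y x * dp s (rq μ F y x) ^ 2
        = (μ - 1) ^ 2 * (1 + rq μ F y x ^ 2) := by
      rw [← h1]
      field_simp
    linarith
  exact mul_left_cancel₀ hq.ne' h5

/-- one step forward: if `dp s (q x) = q (x-ℓ) - q x` then `1/dp² = rp x`, so by `rel` and
`rqp_rel`, `1/dn² = rp (x+ℓ)`, `dn s (q x) = q x - q (x+ℓ)`, and `nxt` gives the claim at `x+ℓ` for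
the other centre. -/
theorem dp_propagate (h : HF μ F) (hy : HY μ F y) (hL : LineSys μ dn dp) {x : ℝ} (hx : x < 0)
    (hc : ∀ s : Bool, dp s (rq μ F y x) = rq μ F y (x - ell μ) - rq μ F y x) :
    ∀ s : Bool, dp s (rq μ F y (x + ell μ)) = rq μ F y x - rq μ F y (x + ell μ) := by
  have hl := ell_pos h.hμ
  have hxl : x < ell μ := by linarith
  have key : ∀ s : Bool, dn s (rq μ F y x) = rq μ F y x - rq μ F y (x + ell μ) := by
    intro s
    obtain ⟨h3, h4⟩ := id_rp h hy hxl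
    rw [← hc s] at h3 h4
    have h5 := hL.rel s (rq μ F y x)
    have h6 := rqp_rel h hy hx
    have h7 := rp_step h hy hx
    have h8 := rq_sub h hy hx
    have hd := id_dn_pos hL s (rq μ F y x)
    refine id_pos_eq (c := rp μ y (x + ell μ)) hd h8 ?_ h7
    have hq : 0 < 1 + rq μ F y x ^ 2 := by positivity
    have h9 : 1 / dn s (rq μ F y x) ^ 2 + 1 / dp s (rq μ F y x) ^ 2
        = rp μ y x + rp μ y (x + ell μ) := mul_left_cancel₀ hq.ne' (h5.trans h6.symm)
    have h10 : 1 / dp s (rq μ F y x) ^ 2 = rp μ y x := by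
      rw [div_eq_iff (by positivity)]
      exact h3.symm
    have h11 : rp μ y (x + ell μ) = 1 / dn s (rq μ F y x) ^ 2 := by linarith
    rw [h11]
    field_simp
  intro s
  have h1 := hL.nxt (!s) (rq μ F y x)
  rw [key (!s), Bool.not_not, sub_sub_cancel] at h1
  exact h1

theorem dp_all (h : HF μ F) (hy : HY μ F y) (hL : LineSys μ dn dp) {x : ℝ} (hx : x < ell μ)
    (s : Bool) : dp s (rq μ F y x) = rq μ F y (x - ell μ) - rq μ F y x := by
  obtain ⟨X₀, _, hloc⟩ := dp_local h hy hL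
  have hl := ell_pos h.hμ
  have hall : ∀ n : ℕ, ∀ x : ℝ, x ≤ X₀ + n * ell μ → x < ell μ → ∀ s : Bool,
      dp s (rq μ F y x) = rq μ F y (x - ell μ) - rq μ F y x := by
    intro n
    induction n with
    | zero =>
      intro x hx _ s
      exact hloc s x (by simpa using hx)
    | succ n ih =>
      intro x hx hxl s
      have h1 : x - ell μ ≤ X₀ + n * ell μ := by
        push_cast at hx
        linarith
      have h2 := dp_propagate h hy hL (x := x - ell μ) (by linarith)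
        (ih (x - ell μ) h1 (by linarith)) s
      rw [sub_add_cancel] at h2
      exact h2
  obtain ⟨n, hn⟩ := exists_nat_ge ((x - X₀) / ell μ)
  rw [div_le_iff₀ hl] at hn
  exact hall n x (by linarith) hx s

/-- mirrored: apply `dp_all` to `LineSys.mirror` -/
theorem dn_all (h : HF μ F) (hy : HY μ F y) (hL : LineSys μ dn dp) {x : ℝ} (hx : x < ell μ)
    (s : Bool) : dn s (-rq μ F y x) = rq μ F y (x - ell μ) - rq μ F y x :=
  dp_all h hy hL.mirror hx s

/-- the body identity: `q = rq x = -rq z`, `1/dp² = rp x`, `1/dn² = rp z`, and `rel`. -/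
theorem body_identity (h : HF μ F) (hy : HY μ F y) (hL : LineSys μ dn dp) {x z : ℝ}
    (hx : x < ell μ) (hz : z < ell μ) (hq : rq μ F y x + rq μ F y z = 0) :
    (1 + rq μ F y x ^ 2) * (rp μ y x + rp μ y z) = Cc μ := by
  have h1 := hL.rel true (rq μ F y x)
  have h2 := dp_all h hy hL hx true
  have h3 := dn_all h hy hL hz true
  have hqz : rq μ F y x = -rq μ F y z := by linarith
  obtain ⟨k1, k2⟩ := id_rp h hy hx
  obtain ⟨k3, k4⟩ := id_rp h hy hz
  rw [← h2] at k1 k2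
  rw [← h3, ← hqz] at k3 k4
  have e1 : 1 / dp true (rq μ F y x) ^ 2 = rp μ y x := by
    rw [div_eq_iff (by positivity)]
    exact k1.symm
  have e2 : 1 / dn true (rq μ F y x) ^ 2 = rp μ y z := by
    rw [div_eq_iff (by positivity)]
    exact k3.symm
  rw [e1, e2] at h1
  rw [← h1]
  ring

end EQ2
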