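import Pool.Agent.Lib.MP_226de1_co.LineSys

/-! The one-step map is a contraction near the end. -/

set_option autoImplicit false

namespace EQ2

open Complex Set Filter Topology

variable {μ : ℝ}

private theorem stepLip_sqrt_diff {a b : ℝ} (ha : 0 < a) (hb : 0 < b) :
    Real.sqrt a - Real.sqrt b = (a - b) / (Real.sqrt a + Real.sqrt b) := by
  have h1 := Real.sq_sqrt ha.le
  have h2 := Real.sq_sqrt hb.le
  have h3 := Real.sqrt_pos.2 ha
  have h4 := Real.sqrt_pos.2 hb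
  rw [eq_div_iff (by positivity)]
  nlinarith

/-- `stepG` is a contraction in `F'` near `F' = 1`, `q' = +∞`: the derivative is
`-1 + (μ-1) ρ / sqrt(1+μ²-F')`, `ρ = q'/sqrt(1+q'²) → 1`, with value `-1/μ` in the limit. -/
theorem stepG_lip (hμ : 1 < μ) : ∃ ε Q₀ κ K : ℝ, 0 < ε ∧ ε < 1 ∧ 0 < Q₀ ∧ 0 < κ ∧ κ < 1 ∧ 0 < K ∧
    ∀ F₁ F₂ q : ℝ, |F₁ - 1| ≤ ε → |F₂ - 1| ≤ ε → Q₀ ≤ q →
      |stepG μ F₁ q - stepG μ F₂ q| ≤ κ * |F₁ - F₂| ∧
      |stepD μ F₁ q - stepD μ F₂ q| ≤ K * q * |F₁ - F₂| := by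
  have hr1 : 0 < (μ - 1) / (2 * (μ + 1)) := div_pos (by linarith) (by linarith)
  have hr2 : (μ - 1) / (2 * (μ + 1)) < 1 := by
    rw [div_lt_one (by linarith)]
    linarith
  refine ⟨1 / 2, 1, 1 - (μ - 1) / (2 * (μ + 1)), 8 * (μ - 1), by norm_num, by norm_num,
    by norm_num, by linarith, by linarith, by linarith, ?_⟩
  intro F₁ F₂ q h1 h2 hq
  rw [abs_le] at h1 h2
  have hA1 : μ ^ 2 - 1 / 2 ≤ 1 + μ ^ 2 - F₁ := by linarith [h1.2]
  have hA2 : μ ^ 2 - 1 / 2 ≤ 1 + μ ^ 2 - F₂ := by linarith [h2.2]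
  have hB1 : 1 + μ ^ 2 - F₁ ≤ (μ + 1) ^ 2 := by nlinarith [h1.1]
  have hB2 : 1 + μ ^ 2 - F₂ ≤ (μ + 1) ^ 2 := by nlinarith [h2.1]
  have hpos1 : 0 < 1 + μ ^ 2 - F₁ := by nlinarith
  have hpos2 : 0 < 1 + μ ^ 2 - F₂ := by nlinarith
  have hlow : ∀ A : ℝ, μ ^ 2 - 1 / 2 ≤ A → μ - 1 ≤ Real.sqrt A ∧ 1 / 2 ≤ Real.sqrt A := by
    intro A hA
    constructor
    · exact Real.le_sqrt_of_sq_le (by nlinarith)
    · exact Real.le_sqrt_of_sq_le (by nlinarith)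
  have hupp : ∀ A : ℝ, A ≤ (μ + 1) ^ 2 → Real.sqrt A ≤ μ + 1 := by
    intro A hA
    exact Real.sqrt_le_iff.2 ⟨by linarith, hA⟩
  have hd := stepLip_sqrt_diff hpos1 hpos2
  have hF : 1 + μ ^ 2 - F₁ - (1 + μ ^ 2 - F₂) = F₂ - F₁ := by ring
  rw [hF] at hd
  obtain ⟨l1, m1⟩ := hlow _ hA1
  obtain ⟨l2, m2⟩ := hlow _ hA2
  have u1 := hupp _ hB1
  have u2 := hupp _ hB2
  set a := Real.sqrt (1 + μ ^ 2 - F₁) with ha
  set b := Real.sqrt (1 + μ ^ 2 - F₂) with hb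
  set c := Real.sqrt (1 + q ^ 2) with hc
  have hcsq : c ^ 2 = 1 + q ^ 2 := Real.sq_sqrt (by positivity)
  have hc1 : q ≤ c := Real.le_sqrt_of_sq_le (by linarith)
  have hc2 : c ≤ 2 * q := Real.sqrt_le_iff.2 ⟨by linarith, by nlinarith⟩
  have hcpos : 0 < c := by linarith
  have hab : 0 < a + b := by linarith
  constructor
  · have e1 : stepG μ F₁ q - stepG μ F₂ q
        = (F₂ - F₁) * (1 - 2 * (μ - 1) * (q / c) / (a + b)) := by
      unfold stepG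
      rw [← ha, ← hb, ← hc]
      have : 1 + μ ^ 2 - F₁ + (μ - 1) ^ 2 - 2 * (μ - 1) * a * q / c
          - (1 + μ ^ 2 - F₂ + (μ - 1) ^ 2 - 2 * (μ - 1) * b * q / c)
          = (F₂ - F₁) - 2 * (μ - 1) * (q / c) * (a - b) := by ring
      rw [this, hd]
      ring
    rw [e1, abs_mul, abs_sub_comm F₂ F₁, mul_comm]
    apply mul_le_mul_of_nonneg_right _ (abs_nonneg _)
    have hρ1 : q / c ≤ 1 := by
      rw [div_le_one hcpos]
      exact hc1
    have hρ2 : 1 / 2 ≤ q / c := by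
      rw [le_div_iff₀ hcpos]
      linarith
    have hub : 2 * (μ - 1) * (q / c) / (a + b) ≤ 1 := by
      rw [div_le_one hab]
      have : 2 * (μ - 1) * (q / c) ≤ 2 * (μ - 1) * 1 :=
        mul_le_mul_of_nonneg_left hρ1 (by linarith)
      linarith
    have hlb : (μ - 1) / (2 * (μ + 1)) ≤ 2 * (μ - 1) * (q / c) / (a + b) := by
      rw [div_le_div_iff₀ (by linarith) hab]
      have t1 : (μ - 1) * (a + b) ≤ (μ - 1) * (2 * (μ + 1)) :=
        mul_le_mul_of_nonneg_left (by linarith) (by linarith)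
      have t2 : (μ - 1) * (2 * (μ + 1)) ≤ 2 * (μ - 1) * (q / c) * (2 * (μ + 1)) := by
        apply mul_le_mul_of_nonneg_right _ (by linarith)
        nlinarith
      linarith
    rw [abs_le]
    constructor
    · linarith
    · linarith
  · have e2 : stepD μ F₁ q - stepD μ F₂ q
        = (μ - 1) * c * ((F₁ - F₂) / ((a + b) * (a * b))) := by
      unfold stepD
      rw [← ha, ← hb, ← hc]
      have ha0 : a ≠ 0 := by linarith
      have hb0 : b ≠ 0 := by linarith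
      have e3 : (μ - 1) * c / a - (μ - 1) * c / b = (μ - 1) * c * (-(a - b) / (a * b)) := by
        field_simp
        ring
      rw [e3, hd]
      congr 1
      field_simp
      ring
    rw [e2, abs_mul, abs_of_nonneg (mul_nonneg (by linarith) hcpos.le), abs_div]
    have hprod : 1 / 4 ≤ (a + b) * (a * b) := by
      have t1 : 1 / 4 ≤ a * b := by nlinarith
      have t2 : 1 ≤ a + b := by linarith
      nlinarith
    rw [abs_of_pos (show 0 < (a + b) * (a * b) by linarith)]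
    have hq2 : |F₁ - F₂| / ((a + b) * (a * b)) ≤ 4 * |F₁ - F₂| := by
      rw [div_le_iff₀ (by linarith)]
      have := abs_nonneg (F₁ - F₂)
      nlinarith
    calc (μ - 1) * c * (|F₁ - F₂| / ((a + b) * (a * b)))
        ≤ (μ - 1) * (2 * q) * (4 * |F₁ - F₂|) := by
          apply mul_le_mul _ hq2 (by positivity)
          · exact mul_nonneg (by linarith) (by linarith)
          · exact mul_le_mul_of_nonneg_left hc2 (by linarith)
      _ = 8 * (μ - 1) * q * |F₁ - F₂| := by ring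

/-- `q' - stepD μ F' q' ≥ q'/(2μ)` for `F'` near `1`, `q'` large (the limit ratio is `1/μ`) -/
theorem stepD_lower (hμ : 1 < μ) : ∃ ε Q₀ : ℝ, 0 < ε ∧ ε < 1 ∧ 0 < Q₀ ∧
    ∀ F₁ q : ℝ, |F₁ - 1| ≤ ε → Q₀ ≤ q → q / (2 * μ) ≤ q - stepD μ F₁ q := by
  refine ⟨1 / 8, 3 * μ, by norm_num, by norm_num, by linarith, ?_⟩
  intro F q h1 hq
  rw [abs_le] at h1
  have hA : μ ^ 2 - 1 / 8 ≤ 1 + μ ^ 2 - F := by linarith [h1.2]
  have hpos : 0 < 1 + μ ^ 2 - F := by nlinarith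
  unfold stepD
  set A := 1 + μ ^ 2 - F with hAdef
  have hb := Real.sqrt_pos.2 hpos
  have hbsq := Real.sq_sqrt hpos.le
  set b := Real.sqrt A with hbdef
  set c := Real.sqrt (1 + q ^ 2) with hc
  have hcsq : c ^ 2 = 1 + q ^ 2 := Real.sq_sqrt (by positivity)
  have hc0 : 0 ≤ c := Real.sqrt_nonneg _
  have hq0 : 0 < q := by linarith
  have key : 2 * μ * ((μ - 1) * c) ≤ (2 * μ - 1) * q * b := by
    rw [← pow_le_pow_iff_left₀ (by
      exact mul_nonneg (by linarith) (mul_nonneg (by linarith) hc0))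
      (by exact mul_nonneg (mul_nonneg (by linarith) hq0.le) hb.le) two_ne_zero]
    have e1 : (2 * μ * ((μ - 1) * c)) ^ 2 = 4 * μ ^ 2 * (μ - 1) ^ 2 * (1 + q ^ 2) := by
      rw [← hcsq]; ring
    have e2 : ((2 * μ - 1) * q * b) ^ 2 = (2 * μ - 1) ^ 2 * q ^ 2 * A := by
      rw [← hbsq]; ring
    rw [e1, e2]
    have s1 : (2 * μ - 1) ^ 2 * q ^ 2 * (μ ^ 2 - 1 / 8) ≤ (2 * μ - 1) ^ 2 * q ^ 2 * A :=
      mul_le_mul_of_nonneg_left hA (by positivity)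
    refine le_trans ?_ s1
    have s2 : (2 * μ - 1) ^ 2 * (μ ^ 2 - 1 / 8) - 4 * μ ^ 2 * (μ - 1) ^ 2 ≥ μ ^ 2 / 2 := by
      nlinarith [mul_pos (show (0:ℝ) < μ by linarith) (show (0:ℝ) < μ - 1 by linarith),
        mul_pos (mul_pos (show (0:ℝ) < μ by linarith) (show (0:ℝ) < μ by linarith))
          (show (0:ℝ) < μ - 1 by linarith)]
    have s3 : 9 * μ ^ 2 ≤ q ^ 2 := by nlinarith
    have s4 : 4 * μ ^ 2 * (μ - 1) ^ 2 ≤ μ ^ 2 / 2 * (9 * μ ^ 2) := by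
      have : (μ - 1) ^ 2 ≤ μ ^ 2 := by nlinarith
      nlinarith [sq_nonneg μ, sq_nonneg (μ * μ)]
    have s5 : μ ^ 2 / 2 * (9 * μ ^ 2) ≤ μ ^ 2 / 2 * q ^ 2 :=
      mul_le_mul_of_nonneg_left s3 (by positivity)
    have s6 : μ ^ 2 / 2 * q ^ 2 ≤
        ((2 * μ - 1) ^ 2 * (μ ^ 2 - 1 / 8) - 4 * μ ^ 2 * (μ - 1) ^ 2) * q ^ 2 :=
      mul_le_mul_of_nonneg_right s2 (by positivity)
    nlinarith
  have h2 : (μ - 1) * c / b ≤ q * (2 * μ - 1) / (2 * μ) := by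
    rw [div_le_div_iff₀ hb (by linarith)]
    nlinarith
  have h3 : q * (2 * μ - 1) / (2 * μ) = q - q / (2 * μ) := by
    field_simp
  linarith

end EQ2
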