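import Pool.Agent.Lib.MP_226de1_co.ChartAsymp
import Pool.Agent.Lib.MP_226de1_co.StepLip

/-! Local uniqueness near the end: the body's squared distance coincides with the chart. -/

set_option autoImplicit false

namespace EQ2

open Complex Set Filter Topology

variable {μ : ℝ} {dn dp : Bool → ℝ → ℝ} {F : ℕ → ℝ} {y : ℂ → ℂ}

/-- Main inequality.  For `s` and `x ≤ X₂` let `q = rq x`, `q' = q + dp s q`, `x' ≤ x` with
`rq x' = q'` (IVT, `chart_asymp`).  By `prv`, `q = q' - dn (!s) q'`, so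
`Gs s q = stepG (Gs (!s) q') q'`, `q = q' - stepD (Gs (!s) q') q'`; the chart gives
`1 - rD (x'+ℓ) = stepG (1 - rD x') q'`, `rq (x'+ℓ) = q' - stepD (1 - rD x') q'`.  Hence, with
`e(s,x) = |Gs s (rq x) - (1 - rD x)|`,
`e(s,x) ≤ κ e(!s,x') + |rD (x'+ℓ) - rD x| ≤ (κ + K e^{3 max(x,x'+ℓ)} K' q') e(!s,x')`,
and `x ≤ x' + const` by `stepD_lower` and the bounds on `rq`, `q' ≤ c₂ e^{-x'}`, so the second
coefficient is `≤ const * e^{2x'}`, small. -/
theorem contraction_step (h : HF μ F) (hy : HY μ F y) (hL : LineSys μ dn dp) :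
    ∃ X₂ κ : ℝ, X₂ < 0 ∧ 0 < κ ∧ κ < 1 ∧ ∀ s : Bool, ∀ x ≤ X₂, ∃ x' ≤ x,
      |Gs μ dp s (rq μ F y x) - (1 - rD F x)| ≤
        κ * |Gs μ dp (!s) (rq μ F y x') - (1 - rD F x')| := by
  have hμ := h.hμ
  have hμ0 : 0 < μ := by linarith
  obtain ⟨X, c1, c2, K, hX0, hc1, hc2, hK, hanti, hcont, htop, hbd, hlip⟩ := chart_asymp h hy
  obtain ⟨ε1, Q1, κ, K', hε1, hε1', hQ1, hκ0, hκ1, hK', hstep⟩ := stepG_lip hμ
  obtain ⟨ε2, Q2, hε2, hε2', hQ2, hlow⟩ := stepD_lower hμ
  obtain ⟨δ, hδ, hdδ⟩ := hL.δpos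
  have hell : 0 < ell μ := ell_pos hμ
  set ε := min ε1 ε2 with hεdef
  have hε : 0 < ε := lt_min hε1 hε2
  -- `Gs` near 1
  have hG : ∀ s : Bool, ∃ Q : ℝ, ∀ q ≥ Q, |Gs μ dp s q - 1| ≤ ε := by
    intro s
    have h1 := (Gs_tendsto hL s).eventually (Metric.closedBall_mem_nhds 1 hε)
    obtain ⟨Q, hQ⟩ := eventually_atTop.1 h1
    refine ⟨Q, fun q hq => ?_⟩
    have h2 := hQ q hq
    rwa [Real.dist_eq] at h2
  obtain ⟨Qf, hQf⟩ := hG false
  obtain ⟨Qt, hQt⟩ := hG true
  have hGall : ∀ s : Bool, ∀ q ≥ max Qf Qt, |Gs μ dp s q - 1| ≤ ε := by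
    intro s q hq
    cases s
    · exact hQf q ((le_max_left _ _).trans hq)
    · exact hQt q ((le_max_right _ _).trans hq)
  set Q := max (max Qf Qt) (max Q1 Q2) with hQdef
  set M := c2 * (μ ^ 3 + 2 * μ * c2 / c1) with hM
  have hMpos : 0 < M := by rw [hM]; positivity
  have hrD : ∀ᶠ t in atBot, |rD F t| ≤ ε := by
    have h1 := (rD_tendsto h).eventually (Metric.closedBall_mem_nhds 0 hε)
    filter_upwards [h1] with t ht
    rwa [Real.dist_eq, sub_zero] at ht
  have hrq : ∀ᶠ t in atBot, Q ≤ rq μ F y t := htop.eventually (eventually_ge_atTop Q)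
  have hexp : ∀ᶠ t : ℝ in atBot, K * K' * M * Real.exp (2 * t) ≤ (1 - κ) / 2 := by
    have h1 : Tendsto (fun t : ℝ => K * K' * M * Real.exp (2 * t)) atBot (𝓝 (K * K' * M * 0)) := by
      refine Tendsto.const_mul _ ?_
      have h2 : Tendsto (fun t : ℝ => 2 * t) atBot atBot :=
        Tendsto.const_mul_atBot (by norm_num) tendsto_id
      exact Real.tendsto_exp_atBot.comp h2
    rw [mul_zero] at h1
    filter_upwards [h1.eventually (gt_mem_nhds (show (0 : ℝ) < (1 - κ) / 2 by linarith))] with t ht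
    exact ht.le
  obtain ⟨X3, hX3⟩ := eventually_atBot.1 (hrD.and (hrq.and hexp))
  refine ⟨min X3 (X - ell μ), (1 + κ) / 2, ?_, by linarith, by linarith, ?_⟩
  · exact lt_of_le_of_lt (min_le_right _ _) (by linarith)
  intro s x hx
  have hxX3 : x ≤ X3 := hx.trans (min_le_left _ _)
  have hxX' : x ≤ X - ell μ := hx.trans (min_le_right _ _)
  have hxX : x ≤ X := by linarith
  set q := rq μ F y x with hq
  set q' := q + dp s q with hq'
  have hdp : 0 < dp s q := lt_of_lt_of_le hδ (hdδ s q).2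
  have hqq' : q < q' := by rw [hq']; linarith
  -- the point x'
  have hx' : ∃ x' ≤ x, rq μ F y x' = q' := by
    obtain ⟨z, hz⟩ := eventually_atBot.1 (htop.eventually (eventually_ge_atTop q'))
    set z' := min z x with hz'
    have hz'x : z' ≤ x := min_le_right _ _
    have h1 : q' ≤ rq μ F y z' := hz z' (min_le_left _ _)
    have h2 : ContinuousOn (rq μ F y) (Set.Icc z' x) :=
      hcont.mono (fun t ht => ht.2.trans hxX)
    have h3 := intermediate_value_Icc' hz'x h2
    obtain ⟨x', hx'1, hx'2⟩ := h3 ⟨hqq'.le, h1⟩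
    exact ⟨x', hx'1.2, hx'2⟩
  obtain ⟨x', hx'x, hx'q⟩ := hx'
  refine ⟨x', hx'x, ?_⟩
  have hx'X : x' ≤ X := hx'x.trans hxX
  have hx'0 : x' < 0 := by linarith
  obtain ⟨hDx', -, -⟩ := hX3 x' (hx'x.trans hxX3)
  obtain ⟨-, hqQ, hexpx⟩ := hX3 x hxX3
  have hqQ' : Q ≤ q' := hqQ.trans hqq'.le
  -- body
  have hdn : dn (!s) q' = dp s q := hL.prv s q
  have hGstep : Gs μ dp s q = stepG μ (Gs μ dp (!s) q') q' := by
    have h1 := Gs_step hL (!s) q'
    rw [Bool.not_not, hdn] at h1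
    rw [← h1, hq']
    congr 1
    ring
  have hqstep : q = q' - stepD μ (Gs μ dp (!s) q') q' := by
    rw [← dn_eq hL (!s) q', hdn, hq']
    ring
  -- chart
  obtain ⟨hc1', hc2'⟩ := rG_step h hy hx'0
  rw [hx'q] at hc1' hc2'
  rw [hx'q]
  have hGε : |Gs μ dp (!s) q' - 1| ≤ ε :=
    hGall (!s) q' (ge_iff_le.2 ((le_max_left _ _).trans hqQ'))
  have hDε : |(1 - rD F x') - 1| ≤ ε := by
    rw [show (1 - rD F x') - 1 = -rD F x' by ring, abs_neg]
    exact hDx'
  have hQ1' : Q1 ≤ q' := ((le_max_left _ _).trans (le_max_right _ _)).trans hqQ'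
  have hQ2' : Q2 ≤ q' := ((le_max_right _ _).trans (le_max_right _ _)).trans hqQ'
  have hq'pos : 0 < q' := lt_of_lt_of_le hQ1 hQ1'
  obtain ⟨hs1, hs2⟩ := hstep (Gs μ dp (!s) q') (1 - rD F x') q'
    (hGε.trans (min_le_left _ _)) (hDε.trans (min_le_left _ _)) hQ1'
  have hl := hlow (Gs μ dp (!s) q') q' (hGε.trans (min_le_right _ _)) hQ2'
  rw [← hqstep] at hl
  set e' := |Gs μ dp (!s) q' - (1 - rD F x')| with he'
  have he'0 : 0 ≤ e' := abs_nonneg _
  -- comparison of exponentials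
  have hb1 := (hbd x' hx'X).1
  have hb2 := (hbd x hxX).2
  have hb3 := (hbd x' hx'X).2
  rw [hx'q] at hb1 hb3
  have hxe : Real.exp (-x') ≤ 2 * μ * c2 / c1 * Real.exp (-x) := by
    have h1 : c1 * Real.exp (-x') / (2 * μ) ≤ c2 * Real.exp (-x) := by
      calc c1 * Real.exp (-x') / (2 * μ) ≤ q' / (2 * μ) :=
            div_le_div_of_nonneg_right hb1 (by positivity)
        _ ≤ q := hl
        _ ≤ c2 * Real.exp (-x) := hb2
    rw [div_le_iff₀ (by positivity)] at h1
    rw [div_mul_eq_mul_div, le_div_iff₀ hc1]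
    linarith
  have hkey : Real.exp (3 * max (x' + ell μ) x) * q' ≤ M * Real.exp (2 * x) := by
    have hE : Real.exp (3 * max (x' + ell μ) x) * Real.exp (-x') ≤
        (μ ^ 3 + 2 * μ * c2 / c1) * Real.exp (2 * x) := by
      rcases le_total (x' + ell μ) x with hc | hc
      · rw [max_eq_right hc]
        have h1 : Real.exp (3 * x) * Real.exp (-x') ≤
            Real.exp (3 * x) * (2 * μ * c2 / c1 * Real.exp (-x)) :=
          mul_le_mul_of_nonneg_left hxe (Real.exp_pos _).le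
        have h2 : Real.exp (3 * x) * (2 * μ * c2 / c1 * Real.exp (-x)) =
            2 * μ * c2 / c1 * Real.exp (2 * x) := by
          have h3 : Real.exp (2 * x) = Real.exp (3 * x) * Real.exp (-x) := by
            rw [← Real.exp_add]
            congr 1
            ring
          rw [h3]
          ring
        have h4 : 0 ≤ μ ^ 3 * Real.exp (2 * x) := by positivity
        rw [h2] at h1
        linarith
      · rw [max_eq_left hc]
        have h1 : Real.exp (3 * (x' + ell μ)) * Real.exp (-x') =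
            μ ^ 3 * Real.exp (2 * x') := by
          have h2 : Real.exp (3 * ell μ) = μ ^ 3 := by
            unfold ell
            rw [show 3 * Real.log μ = ((3 : ℕ) : ℝ) * Real.log μ by norm_num, Real.exp_nat_mul,
              Real.exp_log hμ0]
          rw [← h2, ← Real.exp_add, ← Real.exp_add]
          congr 1
          ring
        rw [h1]
        have h5 : Real.exp (2 * x') ≤ Real.exp (2 * x) := Real.exp_le_exp.2 (by linarith)
        have h6 : μ ^ 3 * Real.exp (2 * x') ≤ μ ^ 3 * Real.exp (2 * x) :=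
          mul_le_mul_of_nonneg_left h5 (by positivity)
        have h7 : 0 ≤ 2 * μ * c2 / c1 * Real.exp (2 * x) := by positivity
        linarith
    calc Real.exp (3 * max (x' + ell μ) x) * q'
        ≤ Real.exp (3 * max (x' + ell μ) x) * (c2 * Real.exp (-x')) :=
          mul_le_mul_of_nonneg_left hb3 (Real.exp_pos _).le
      _ = c2 * (Real.exp (3 * max (x' + ell μ) x) * Real.exp (-x')) := by ring
      _ ≤ c2 * ((μ ^ 3 + 2 * μ * c2 / c1) * Real.exp (2 * x)) :=
          mul_le_mul_of_nonneg_left hE hc2.le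
      _ = M * Real.exp (2 * x) := by rw [hM]; ring
  -- second term
  have hsecond : |rD F (x' + ell μ) - rD F x| ≤ (1 - κ) / 2 * e' := by
    have h1 := hlip (x' + ell μ) (by linarith) x hxX
    have h2 : rq μ F y (x' + ell μ) - rq μ F y x =
        stepD μ (Gs μ dp (!s) q') q' - stepD μ (1 - rD F x') q' := by
      rw [hc1', ← hq]
      linarith
    rw [h2] at h1
    calc |rD F (x' + ell μ) - rD F x| ≤ K * Real.exp (3 * max (x' + ell μ) x) *
          |stepD μ (Gs μ dp (!s) q') q' - stepD μ (1 - rD F x') q'| := h1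
      _ ≤ K * Real.exp (3 * max (x' + ell μ) x) * (K' * q' * e') :=
          mul_le_mul_of_nonneg_left hs2 (by positivity)
      _ = K * K' * (Real.exp (3 * max (x' + ell μ) x) * q') * e' := by ring
      _ ≤ K * K' * (M * Real.exp (2 * x)) * e' := by
          refine mul_le_mul_of_nonneg_right ?_ he'0
          exact mul_le_mul_of_nonneg_left hkey (by positivity)
      _ = K * K' * M * Real.exp (2 * x) * e' := by ring
      _ ≤ (1 - κ) / 2 * e' := mul_le_mul_of_nonneg_right hexpx he'0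
  calc |Gs μ dp s q - (1 - rD F x)|
      = |(stepG μ (Gs μ dp (!s) q') q' - stepG μ (1 - rD F x') q') +
          ((1 - rD F (x' + ell μ)) - (1 - rD F x))| := by
        rw [hGstep, hc2']
        congr 1
        ring
    _ ≤ |stepG μ (Gs μ dp (!s) q') q' - stepG μ (1 - rD F x') q'| +
          |(1 - rD F (x' + ell μ)) - (1 - rD F x)| := abs_add_le _ _
    _ ≤ κ * e' + (1 - κ) / 2 * e' := by
        refine add_le_add hs1 ?_
        rw [show (1 - rD F (x' + ell μ)) - (1 - rD F x) = -(rD F (x' + ell μ) - rD F x) by ring,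
          abs_neg]
        exact hsecond
    _ = (1 + κ) / 2 * e' := by ring

/-- the error is bounded on `x ≤ X₂` (`Gs_lt`, `rD` bounded there), so it is `0` -/
theorem local_uniqueness (h : HF μ F) (hy : HY μ F y) (hL : LineSys μ dn dp) :
    ∃ X₀ : ℝ, X₀ < 0 ∧ ∀ s : Bool, ∀ x ≤ X₀, Gs μ dp s (rq μ F y x) = 1 - rD F x := by
  obtain ⟨X2, κ, hX2, hκ0, hκ1, hstep⟩ := contraction_step h hy hL
  have hrD : ∀ᶠ t in atBot, |rD F t| ≤ 1 := by
    have h1 := (rD_tendsto h).eventually (Metric.closedBall_mem_nhds 0 one_pos)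
    filter_upwards [h1] with t ht
    rwa [Real.dist_eq, sub_zero] at ht
  obtain ⟨X3, hX3⟩ := eventually_atBot.1 hrD
  refine ⟨min X2 X3, lt_of_le_of_lt (min_le_left _ _) hX2, ?_⟩
  have hbound : ∀ n : ℕ, ∀ s : Bool, ∀ x ≤ min X2 X3,
      |Gs μ dp s (rq μ F y x) - (1 - rD F x)| ≤ κ ^ n * (3 + μ ^ 2) := by
    intro n
    induction n with
    | zero =>
      intro s x hx
      obtain ⟨h1, h2⟩ := Gs_lt hL s (rq μ F y x)
      have h3 := abs_le.1 (hX3 x (hx.trans (min_le_right _ _)))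
      rw [pow_zero, one_mul, abs_le]
      constructor
      · nlinarith [h3.1, h3.2]
      · nlinarith [h3.1, h3.2]
    | succ n ih =>
      intro s x hx
      obtain ⟨x', hx', hle⟩ := hstep s x (hx.trans (min_le_left _ _))
      have h1 := ih (!s) x' (hx'.trans hx)
      calc |Gs μ dp s (rq μ F y x) - (1 - rD F x)|
          ≤ κ * |Gs μ dp (!s) (rq μ F y x') - (1 - rD F x')| := hle
        _ ≤ κ * (κ ^ n * (3 + μ ^ 2)) := mul_le_mul_of_nonneg_left h1 hκ0.le
        _ = κ ^ (n + 1) * (3 + μ ^ 2) := by ring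
  intro s x hx
  have hlim : Tendsto (fun n : ℕ => κ ^ n * (3 + μ ^ 2)) atTop (𝓝 (0 * (3 + μ ^ 2))) :=
    (tendsto_pow_atTop_nhds_zero_of_lt_one hκ0.le hκ1).mul_const _
  rw [zero_mul] at hlim
  have h0 : |Gs μ dp s (rq μ F y x) - (1 - rD F x)| ≤ 0 :=
    ge_of_tendsto' hlim (fun n => hbound n s x hx)
  have h1 := abs_nonpos_iff.1 h0
  linarith

end EQ2
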