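import Pool.Agent.Lib.MP_226de1_co.LocalExist

/-! Local existence, see the header of `LocalExist.lean` for the proof. -/

set_option autoImplicit false

namespace EQ2

open Complex Set Filter Topology

/-- derivative at `0` of the sum of a power series -/
private theorem le2_hasDerivAt {c : ℕ → ℂ} {r : ℝ} (hr : 0 < r) {f : ℂ → ℂ}
    (h : ∀ z : ℂ, ‖z‖ < r → HasSum (fun n => c n * z ^ n) (f z)) : HasDerivAt f (c 1) 0 := by
  have hρ : (0 : ℝ) < r / 2 := by positivity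
  have hs : Summable (fun n => ‖c n‖ * (r / 2) ^ n) := by
    have h1 := (h ((r / 2 : ℝ) : ℂ) (by
      rw [Complex.norm_real, Real.norm_of_nonneg hρ.le]; linarith)).summable.norm
    refine h1.congr (fun n => ?_)
    rw [norm_mul, norm_pow, Complex.norm_real, Real.norm_of_nonneg hρ.le]
  have hs2 : Summable (fun n => ‖c (n + 2)‖ * (r / 2) ^ n) := by
    have h1 := (summable_nat_add_iff 2).2 hs
    have h2 := h1.mul_left (((r / 2) ^ 2)⁻¹)
    refine h2.congr (fun n => ?_)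
    rw [pow_add]
    field_simp
  set M := ∑' n, ‖c (n + 2)‖ * (r / 2) ^ n with hM
  have h0 : f 0 = c 0 := by
    have h1 := h 0 (by simpa using hr)
    have h2 : HasSum (fun n => c n * (0 : ℂ) ^ n) (c 0 * (0 : ℂ) ^ 0) :=
      hasSum_single 0 (fun n hn => by simp [hn])
    have := h1.unique h2
    simpa using this
  rw [hasDerivAt_iff_isLittleO_nhds_zero]
  refine Asymptotics.IsBigO.trans_isLittleO (g := fun z : ℂ => z ^ 2) ?_
    (Asymptotics.isLittleO_pow_id (by norm_num))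
  refine Asymptotics.IsBigO.of_bound M ?_
  have hball : ∀ᶠ z : ℂ in 𝓝 0, ‖z‖ < r / 2 := by
    have := Metric.ball_mem_nhds (0 : ℂ) hρ
    filter_upwards [this] with z hz
    simpa using hz
  filter_upwards [hball] with z hz
  rw [zero_add, h0]
  have h1 := h z (by linarith)
  have h2 := (hasSum_nat_add_iff' 2).2 h1
  rw [Finset.sum_range_succ, Finset.sum_range_one, pow_zero, mul_one, pow_one] at h2
  have h3 : f z - c 0 - z • c 1 = f z - (c 0 + c 1 * z) := by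
    rw [smul_eq_mul]; ring
  rw [h3, ← h2.tsum_eq]
  have hb : ∀ n, ‖c (n + 2) * z ^ (n + 2)‖ ≤ (‖c (n + 2)‖ * (r / 2) ^ n) * ‖z‖ ^ 2 := by
    intro n
    rw [norm_mul, norm_pow, pow_add, ← mul_assoc]
    apply mul_le_mul_of_nonneg_right _ (by positivity)
    apply mul_le_mul_of_nonneg_left _ (norm_nonneg _)
    exact pow_le_pow_left₀ (norm_nonneg _) hz.le n
  have h4 := tsum_of_norm_bounded (hs2.mul_right (‖z‖ ^ 2)).hasSum hb
  rw [tsum_mul_right] at h4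
  rw [norm_pow]
  exact h4

private theorem le2_Sq_zero {μ : ℝ} (hμ : 1 < μ) : Sq μ 0 = (μ : ℂ) := by
  have h1 := Sq_ofReal hμ (d := 0) (by nlinarith) (by norm_num)
  rw [Complex.ofReal_zero] at h1
  rw [h1]
  unfold Sr
  rw [add_zero, sub_zero, div_one, Real.sqrt_sq (by linarith)]

private theorem le2_Sq_deriv {μ : ℝ} (hμ : 1 < μ) :
    HasDerivAt (Sq μ) ((1 + (μ : ℂ) ^ 2) / (2 * (μ : ℂ))) 0 := by
  have hμ0 : (μ : ℂ) ≠ 0 := by
    exact_mod_cast (by linarith : μ ≠ 0)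
  have h1 : HasDerivAt (fun d : ℂ => ((μ : ℂ) ^ 2 + d) / (1 - d)) (1 + (μ : ℂ) ^ 2) 0 := by
    have e1 : HasDerivAt (fun d : ℂ => (μ : ℂ) ^ 2 + d) 1 0 := (hasDerivAt_id (0 : ℂ)).const_add _
    have e2 : HasDerivAt (fun d : ℂ => 1 - d) (-1) 0 := (hasDerivAt_id (0 : ℂ)).const_sub 1
    have e3 := e1.div e2 (by norm_num)
    refine e3.congr_deriv ?_
    simp
  have h2 : HasDerivAt (fun d : ℂ => Complex.log (((μ : ℂ) ^ 2 + d) / (1 - d)))
      ((1 + (μ : ℂ) ^ 2) / (((μ : ℂ) ^ 2 + 0) / (1 - 0))) 0 := by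
    apply h1.clog
    have := (Adm.of_norm hμ (d := 0) (by simp)).slit hμ
    exact this
  have h3 := (h2.div_const 2).cexp
  have h4 : HasDerivAt (Sq μ) (Complex.exp (Complex.log (((μ : ℂ) ^ 2 + 0) / (1 - 0)) / 2) *
      ((1 + (μ : ℂ) ^ 2) / (((μ : ℂ) ^ 2 + 0) / (1 - 0)) / 2)) 0 := h3
  have h5 : Complex.exp (Complex.log (((μ : ℂ) ^ 2 + 0) / (1 - 0)) / 2) = (μ : ℂ) :=
    le2_Sq_zero hμ
  rw [h5] at h4
  refine h4.congr_deriv ?_
  rw [add_zero, sub_zero, div_one]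
  field_simp

/-- the super-solution -/
private noncomputable def Db (μ t : ℝ) : ℝ := t / (1 - t / (μ ^ 2 - 1))

/-- the invariant of the iteration -/
private structure Inv (μ : ℝ) (a : ℕ → ℝ) : Prop where
  z : a 0 = 0
  o : a 1 = 1
  nn : ∀ n, 0 ≤ a n
  s : ∀ t : ℝ, 0 ≤ t → t < (μ ^ 2 - 1) / μ ^ 2 → Summable (fun n => a n * t ^ n) ∧
    ∑' n, a n * t ^ n ≤ Db μ t

private theorem le2_m {μ : ℝ} (hμ : 1 < μ) : 1 < μ ^ 2 := by nlinarith

private theorem le2_rho {μ : ℝ} (hμ : 1 < μ) : 0 < (μ ^ 2 - 1) / μ ^ 2 := by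
  have := le2_m hμ
  exact div_pos (by linarith) (by linarith)

private theorem le2_rho_lt {μ : ℝ} (hμ : 1 < μ) {t : ℝ} (ht : t < (μ ^ 2 - 1) / μ ^ 2) :
    t * μ ^ 2 < μ ^ 2 - 1 := by
  have := le2_m hμ
  rwa [lt_div_iff₀ (by linarith)] at ht

private theorem le2_Db {μ : ℝ} (hμ : 1 < μ) {t : ℝ} (h0 : 0 ≤ t)
    (ht : t < (μ ^ 2 - 1) / μ ^ 2) : t ≤ Db μ t ∧ Db μ t < 1 := by
  have hm := le2_m hμ
  have h1 := le2_rho_lt hμ ht
  have h2 : 0 < μ ^ 2 - 1 := by linarith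
  have h3 : t / (μ ^ 2 - 1) < 1 := by
    rw [div_lt_one h2]; nlinarith
  have h3' : 0 ≤ t / (μ ^ 2 - 1) := by positivity
  have h4 : 0 < 1 - t / (μ ^ 2 - 1) := by linarith
  unfold Db
  constructor
  · rw [le_div_iff₀ h4]
    nlinarith
  · rw [div_lt_one h4, lt_sub_iff_add_lt]
    have h5 : t + t / (μ ^ 2 - 1) = t * μ ^ 2 / (μ ^ 2 - 1) := by field_simp; ring
    rw [h5, div_lt_one h2]
    exact h1

private theorem le2_dd_ofReal (a : ℕ → ℝ) (t : ℝ) :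
    dd a (t : ℂ) = ((∑' n, a n * t ^ n : ℝ) : ℂ) := by
  unfold dd
  rw [Complex.ofReal_tsum]
  congr 1
  funext n
  push_cast
  rfl

private theorem Inv.hasSum {μ : ℝ} {a : ℕ → ℝ} (ha : Inv μ a) {v : ℂ}
    (hv : ‖v‖ < (μ ^ 2 - 1) / μ ^ 2) : HasSum (fun n => (a n : ℂ) * v ^ n) (dd a v) := by
  have h1 := (ha.s ‖v‖ (norm_nonneg _) hv).1
  have h2 : Summable (fun n => (a n : ℂ) * v ^ n) := by
    apply Summable.of_norm
    refine h1.congr (fun n => ?_)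
    rw [norm_mul, norm_pow, Complex.norm_real, Real.norm_of_nonneg (ha.nn n)]
  exact h2.hasSum

private theorem Inv.norm_le {μ : ℝ} (hμ : 1 < μ) {a : ℕ → ℝ} (ha : Inv μ a) {v : ℂ}
    (hv : ‖v‖ < (μ ^ 2 - 1) / μ ^ 2) : ‖dd a v‖ < 1 := by
  have h1 := ha.s ‖v‖ (norm_nonneg _) hv
  have h2 : ‖dd a v‖ ≤ ∑' n, a n * ‖v‖ ^ n := by
    refine tsum_of_norm_bounded h1.1.hasSum (fun n => ?_)
    rw [norm_mul, norm_pow, Complex.norm_real, Real.norm_of_nonneg (ha.nn n)]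
  exact h2.trans_lt (h1.2.trans_lt (le2_Db hμ (norm_nonneg _) hv).2)

/-- the step relation -/
private def Stp (μ : ℝ) (a a' : ℕ → ℝ) : Prop :=
  ∀ v : ℂ, ‖v‖ < (μ ^ 2 - 1) / μ ^ 2 →
    HasSum (fun n => (a' n : ℂ) * v ^ n) (PsiC μ (dd a (v / (μ : ℂ) ^ 2)) (dd a (v / (μ : ℂ) ^ 4)))

private theorem le2_small {μ : ℝ} (hμ : 1 < μ) {t : ℝ} (h0 : 0 ≤ t)
    (ht : t < (μ ^ 2 - 1) / μ ^ 2) :
    t / μ ^ 2 < (μ ^ 2 - 1) / μ ^ 2 ∧ t / μ ^ 4 < (μ ^ 2 - 1) / μ ^ 2 := by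
  have hm := le2_m hμ
  have hm4 : 1 < μ ^ 4 := by nlinarith
  constructor
  · exact (div_le_self h0 hm.le).trans_lt ht
  · exact (div_le_self h0 hm4.le).trans_lt ht

private theorem step_exists {μ : ℝ} (hμ : 1 < μ) {a : ℕ → ℝ} (ha : Inv μ a) :
    ∃ a', Inv μ a' ∧ Stp μ a a' := by
  have hm := le2_m hμ
  have hρ := le2_rho hμ
  have hs : ∀ t : ℝ, 0 ≤ t → t < (μ ^ 2 - 1) / μ ^ 2 / μ ^ 2 →
      Summable (fun n => a n * t ^ n) ∧ ∑' n, a n * t ^ n < 1 := by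
    intro t h0 ht
    have h1 : t < (μ ^ 2 - 1) / μ ^ 2 := ht.trans_le (div_le_self hρ.le hm.le)
    exact ⟨(ha.s t h0 h1).1, (ha.s t h0 h1).2.trans_lt (le2_Db hμ h0 h1).2⟩
  obtain ⟨a', b', ha0, -, hnn, -, hst⟩ := PsiC_step_mono hμ hρ ha.z ha.z ha.nn
    (fun n => le_refl (a n)) hs
  have hst' : Stp μ a a' := fun v hv => (hst v hv).1
  refine ⟨a', ⟨ha0, ?_, hnn, ?_⟩, hst'⟩
  · -- the derivative at `0`
    have h1 := le2_hasDerivAt (c := fun n => (a' n : ℂ)) hρ hst'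
    have hD : HasDerivAt (dd a) (1 : ℂ) 0 := by
      have := le2_hasDerivAt (c := fun n => (a n : ℂ)) hρ (fun z hz => ha.hasSum hz)
      rw [ha.o, Complex.ofReal_one] at this
      exact this
    have hd0 : dd a 0 = 0 := by
      have h2 := le2_dd_ofReal a 0
      rw [Complex.ofReal_zero] at h2
      rw [h2]
      have : ∑' n, a n * (0 : ℝ) ^ n = 0 := by
        rw [tsum_eq_single 0 (fun n hn => by simp [hn])]
        simp [ha.z]
      rw [this, Complex.ofReal_zero]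
    have hμ0 : (μ : ℂ) ≠ 0 := by exact_mod_cast (by linarith : μ ≠ 0)
    have e1 : HasDerivAt (fun v : ℂ => v / (μ : ℂ) ^ 2) (1 / (μ : ℂ) ^ 2) 0 :=
      (hasDerivAt_id (0 : ℂ)).div_const _
    have e2 : HasDerivAt (fun v : ℂ => v / (μ : ℂ) ^ 4) (1 / (μ : ℂ) ^ 4) 0 :=
      (hasDerivAt_id (0 : ℂ)).div_const _
    have hD1 : HasDerivAt (fun v : ℂ => dd a (v / (μ : ℂ) ^ 2)) (1 * (1 / (μ : ℂ) ^ 2)) 0 := by
      have hD' : HasDerivAt (dd a) (1 : ℂ) ((fun v : ℂ => v / (μ : ℂ) ^ 2) 0) := by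
        simpa using hD
      exact hD'.comp (0 : ℂ) e1
    have hD2 : HasDerivAt (fun v : ℂ => dd a (v / (μ : ℂ) ^ 4)) (1 * (1 / (μ : ℂ) ^ 4)) 0 := by
      have hD' : HasDerivAt (dd a) (1 : ℂ) ((fun v : ℂ => v / (μ : ℂ) ^ 4) 0) := by
        simpa using hD
      exact hD'.comp (0 : ℂ) e2
    have hS : HasDerivAt (fun v : ℂ => Sq μ (dd a (v / (μ : ℂ) ^ 2)))
        ((1 + (μ : ℂ) ^ 2) / (2 * (μ : ℂ)) * (1 * (1 / (μ : ℂ) ^ 2))) 0 := by
      have hS' : HasDerivAt (Sq μ) ((1 + (μ : ℂ) ^ 2) / (2 * (μ : ℂ)))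
          ((fun v : ℂ => dd a (v / (μ : ℂ) ^ 2)) 0) := by
        simp only [zero_div, hd0]
        exact le2_Sq_deriv hμ
      exact HasDerivAt.comp (h₂ := Sq μ) (h := fun v : ℂ => dd a (v / (μ : ℂ) ^ 2)) (0 : ℂ) hS' hD1
    have hP : HasDerivAt (fun v : ℂ => PsiC μ (dd a (v / (μ : ℂ) ^ 2)) (dd a (v / (μ : ℂ) ^ 4)))
        _ 0 := (((hS.sub_const (μ : ℂ)).const_mul (2 * ((μ : ℂ) - 1))).add
          ((hS.sub_const 1).mul hD1)).add (hS.mul hD2)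
    have h3 := h1.unique hP
    rw [zero_div, zero_div, hd0, le2_Sq_zero hμ] at h3
    have h4 : (a' 1 : ℂ) = 1 := by
      rw [h3]
      field_simp
      ring
    exact_mod_cast h4
  · intro t h0 ht
    obtain ⟨hs1, hs2⟩ := le2_small hμ h0 ht
    have p1 : 0 ≤ t / μ ^ 2 := by positivity
    have p2 : 0 ≤ t / μ ^ 4 := by positivity
    have h1 := hst' (t : ℂ) (by rwa [Complex.norm_real, Real.norm_of_nonneg h0])
    have c1 : (t : ℂ) / (μ : ℂ) ^ 2 = ((t / μ ^ 2 : ℝ) : ℂ) := by push_cast; rfl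
    have c2 : (t : ℂ) / (μ : ℂ) ^ 4 = ((t / μ ^ 4 : ℝ) : ℂ) := by push_cast; rfl
    rw [c1, c2, le2_dd_ofReal, le2_dd_ofReal] at h1
    have q1 := ha.s _ p1 hs1
    have q2 := ha.s _ p2 hs2
    have d1 := le2_Db hμ p1 hs1
    have d2 := le2_Db hμ p2 hs2
    have n1 : 0 ≤ ∑' n, a n * (t / μ ^ 2) ^ n :=
      tsum_nonneg (fun n => mul_nonneg (ha.nn n) (pow_nonneg p1 n))
    have n2 : 0 ≤ ∑' n, a n * (t / μ ^ 4) ^ n :=
      tsum_nonneg (fun n => mul_nonneg (ha.nn n) (pow_nonneg p2 n))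
    rw [PsiC_ofReal hμ n1 (q1.2.trans_lt d1.2)] at h1
    have h2 : HasSum (fun n => a' n * t ^ n)
        (Psi μ (∑' n, a n * (t / μ ^ 2) ^ n) (∑' n, a n * (t / μ ^ 4) ^ n)) := by
      rw [← Complex.hasSum_ofReal]
      refine h1.congr_fun (fun n => ?_) |> fun h => h
      push_cast
      rfl
    refine ⟨h2.summable, ?_⟩
    rw [h2.tsum_eq]
    refine (Psi_mono hμ n1 n2 q1.2 q2.2 d1.2).trans ?_
    have hm1 : 0 < μ ^ 2 - 1 := by linarith
    have hm0 : 0 < μ ^ 2 := by linarith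
    have htm := le2_rho_lt hμ ht
    have hw0 : 0 ≤ t / (μ ^ 2 * (μ ^ 2 - 1)) := by positivity
    have hw1 : μ ^ 2 * (t / (μ ^ 2 * (μ ^ 2 - 1))) < 1 := by
      have : μ ^ 2 * (t / (μ ^ 2 * (μ ^ 2 - 1))) = t / (μ ^ 2 - 1) := by field_simp
      rw [this, div_lt_one hm1]
      nlinarith
    have hb := Psi_bar hμ hw0 hw1
    have E1 : Db μ (t / μ ^ 2) = (μ ^ 2 - 1) * (t / (μ ^ 2 * (μ ^ 2 - 1))) /
        (1 - t / (μ ^ 2 * (μ ^ 2 - 1))) := by
      unfold Db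
      have e1 : (μ ^ 2 - 1) * (t / (μ ^ 2 * (μ ^ 2 - 1))) = t / μ ^ 2 := by field_simp
      have e2 : t / μ ^ 2 / (μ ^ 2 - 1) = t / (μ ^ 2 * (μ ^ 2 - 1)) := by rw [div_div]
      rw [e1, e2]
    have E2 : Db μ (t / μ ^ 4) = (μ ^ 2 - 1) * (t / (μ ^ 2 * (μ ^ 2 - 1))) /
        (μ ^ 2 - t / (μ ^ 2 * (μ ^ 2 - 1))) := by
      unfold Db
      have e1 : (μ ^ 2 - 1) * (t / (μ ^ 2 * (μ ^ 2 - 1))) = μ ^ 2 * (t / μ ^ 4) := by field_simp
      have e2 : μ ^ 2 - t / (μ ^ 2 * (μ ^ 2 - 1)) = μ ^ 2 * (1 - t / μ ^ 4 / (μ ^ 2 - 1)) := by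
        field_simp
      rw [e1, e2, mul_div_mul_left _ _ hm0.ne']
    have E3 : Db μ t = (μ ^ 2 - 1) * (μ ^ 2 * (t / (μ ^ 2 * (μ ^ 2 - 1)))) /
        (1 - μ ^ 2 * (t / (μ ^ 2 * (μ ^ 2 - 1)))) := by
      unfold Db
      have e1 : μ ^ 2 * (t / (μ ^ 2 * (μ ^ 2 - 1))) = t / (μ ^ 2 - 1) := by field_simp
      have e2 : (μ ^ 2 - 1) * (t / (μ ^ 2 - 1)) = t := by field_simp
      rw [e1, e2]
    rw [E1, E2, E3]
    exact hb

private theorem step_unique {μ : ℝ} (hμ : 1 < μ) {a a' a'' : ℕ → ℝ} (h1 : Stp μ a a')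
    (h2 : Stp μ a a'') : a' = a'' := by
  have h3 := NNS.unique (le2_rho hμ) h1 h2
  funext n
  have := congrFun h3 n
  exact_mod_cast this

private theorem step_mono {μ : ℝ} (hμ : 1 < μ) {a b a' b' : ℕ → ℝ} (ha : Inv μ a) (hb : Inv μ b)
    (hab : ∀ n, a n ≤ b n) (h1 : Stp μ a a') (h2 : Stp μ b b') : ∀ n, a' n ≤ b' n := by
  have hm := le2_m hμ
  have hρ := le2_rho hμ
  obtain ⟨a'', b'', -, -, -, hle, hst⟩ := PsiC_step_mono hμ hρ ha.z hb.z ha.nn hab (by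
    intro t h0 ht
    have h1 : t < (μ ^ 2 - 1) / μ ^ 2 := ht.trans_le (div_le_self hρ.le hm.le)
    exact ⟨(hb.s t h0 h1).1, (hb.s t h0 h1).2.trans_lt (le2_Db hμ h0 h1).2⟩)
  have e1 := step_unique hμ h1 (fun v hv => (hst v hv).1)
  have e2 := step_unique hμ h2 (fun v hv => (hst v hv).2)
  rw [e1, e2]
  exact hle

private theorem inv_start {μ : ℝ} (hμ : 1 < μ) : Inv μ (fun n => if n = 1 then 1 else 0) := by
  refine ⟨by simp, by simp, fun n => by split_ifs <;> norm_num, ?_⟩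
  intro t h0 ht
  have h1 : HasSum (fun n => (if n = 1 then (1 : ℝ) else 0) * t ^ n)
      ((if 1 = 1 then (1 : ℝ) else 0) * t ^ 1) :=
    hasSum_single 1 (fun n hn => by simp [hn])
  refine ⟨h1.summable, ?_⟩
  rw [h1.tsum_eq]
  simpa using (le2_Db hμ h0 ht).1

theorem local_existence {μ : ℝ} (hμ : 1 < μ) :
    ∃ r : ℝ, 0 < r ∧ ∃ a : ℕ → ℝ, a 0 = 0 ∧ a 1 = 1 ∧ (∀ n, 0 ≤ a n) ∧
      Summable (fun n => a n * r ^ n) ∧ ∑' n, a n * r ^ n < 1 ∧
      ∀ v : ℂ, ‖v‖ < r / μ ^ 2 →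
        dd a ((μ : ℂ) ^ 2 * v) + dd a v + 2 * (μ : ℂ) * ((μ : ℂ) - 1) =
          Sq μ (dd a v) * (2 * ((μ : ℂ) - 1) + dd a v + dd a (v / (μ : ℂ) ^ 2)) := by
  classical
  have hm := le2_m hμ
  have hρ := le2_rho hμ
  set ρ := (μ ^ 2 - 1) / μ ^ 2 with hρdef
  choose st hst1 hst2 using fun a : {a : ℕ → ℝ // Inv μ a} => step_exists hμ a.2
  let A : ℕ → {a : ℕ → ℝ // Inv μ a} := fun N =>
    Nat.rec ⟨_, inv_start hμ⟩ (fun _ a => ⟨st a, hst1 a⟩) N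
  have hA : ∀ N, (A (N + 1)).1 = st (A N) := fun N => rfl
  have hStp : ∀ N, Stp μ (A N).1 (A (N + 1)).1 := fun N => hst2 (A N)
  have hmono : ∀ N n, (A N).1 n ≤ (A (N + 1)).1 n := by
    intro N
    induction N with
    | zero =>
      intro n
      have h1 := (A 1).2
      show (if n = 1 then (1 : ℝ) else 0) ≤ (A 1).1 n
      by_cases hn : n = 1
      · subst hn; rw [if_pos rfl, h1.o]
      · rw [if_neg hn]; exact h1.nn n
    | succ N ih => exact step_mono hμ (A N).2 (A (N + 1)).2 ih (hStp N) (hStp (N + 1))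
  have hmono' : ∀ n, Monotone (fun N => (A N).1 n) := fun n => monotone_nat_of_le_succ
    (fun N => hmono N n)
  -- bound for the coefficients
  have hr0 : 0 < ρ / 2 := by positivity
  have hrρ : ρ / 2 < ρ := by linarith
  have hbd : ∀ n N, (A N).1 n ≤ 1 / (ρ / 2) ^ n := by
    intro n N
    obtain ⟨h1, h2⟩ := (A N).2.s (ρ / 2) hr0.le hrρ
    have h3 : (A N).1 n * (ρ / 2) ^ n ≤ 1 :=
      (h1.le_tsum n (fun j _ => mul_nonneg ((A N).2.nn j) (by positivity))).trans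
        (h2.trans (le2_Db hμ hr0.le hrρ).2.le)
    rw [le_div_iff₀ (by positivity)]
    exact h3
  have hbdd : ∀ n, BddAbove (Set.range (fun N => (A N).1 n)) := fun n =>
    ⟨_, by rintro _ ⟨N, rfl⟩; exact hbd n N⟩
  let a : ℕ → ℝ := fun n => ⨆ N, (A N).1 n
  have hlim : ∀ n, Tendsto (fun N => (A N).1 n) atTop (𝓝 (a n)) := fun n =>
    tendsto_atTop_ciSup (hmono' n) (hbdd n)
  have hle : ∀ n N, (A N).1 n ≤ a n := fun n N => le_ciSup (hbdd n) N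
  have hInv : Inv μ a := by
    refine ⟨?_, ?_, ?_, ?_⟩
    · refine tendsto_nhds_unique (hlim 0) ?_
      simp only [fun N => (A N).2.z]
      exact tendsto_const_nhds
    · refine tendsto_nhds_unique (hlim 1) ?_
      simp only [fun N => (A N).2.o]
      exact tendsto_const_nhds
    · exact fun n => ((A 0).2.nn n).trans (hle n 0)
    · intro t h0 ht
      have hnn : ∀ n, 0 ≤ a n * t ^ n := fun n =>
        mul_nonneg (((A 0).2.nn n).trans (hle n 0)) (pow_nonneg h0 n)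
      have hpart : ∀ s : Finset ℕ, ∑ n ∈ s, a n * t ^ n ≤ Db μ t := by
        intro s
        have h1 : Tendsto (fun N => ∑ n ∈ s, (A N).1 n * t ^ n) atTop
            (𝓝 (∑ n ∈ s, a n * t ^ n)) :=
          tendsto_finsetSum s (fun n _ => (hlim n).mul_const _)
        refine le_of_tendsto' h1 (fun N => ?_)
        obtain ⟨h2, h3⟩ := (A N).2.s t h0 ht
        exact (h2.sum_le_tsum s (fun n _ => mul_nonneg ((A N).2.nn n) (pow_nonneg h0 n))).trans h3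
      have hsum : Summable (fun n => a n * t ^ n) := summable_of_sum_le hnn hpart
      exact ⟨hsum, hsum.tsum_le_of_sum_le hpart⟩
  -- convergence of the functions
  have hconv : ∀ v : ℂ, ‖v‖ < ρ → Tendsto (fun N => dd (A N).1 v) atTop (𝓝 (dd a v)) := by
    intro v hv
    have h1 := (hInv.s ‖v‖ (norm_nonneg _) hv).1
    refine tendsto_tsum_of_dominated_convergence h1 ?_ ?_
    · intro n
      have h2 : Tendsto (fun N => (((A N).1 n : ℝ) : ℂ)) atTop (𝓝 ((a n : ℝ) : ℂ)) :=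
        (Complex.continuous_ofReal.tendsto _).comp (hlim n)
      exact h2.mul_const _
    · refine Eventually.of_forall (fun N n => ?_)
      rw [norm_mul, norm_pow, Complex.norm_real, Real.norm_of_nonneg ((A N).2.nn n)]
      exact mul_le_mul_of_nonneg_right (hle n N) (by positivity)
  have hμ0 : (μ : ℂ) ≠ 0 := by exact_mod_cast (by linarith : μ ≠ 0)
  have hfix : ∀ v : ℂ, ‖v‖ < ρ →
      dd a v = PsiC μ (dd a (v / (μ : ℂ) ^ 2)) (dd a (v / (μ : ℂ) ^ 4)) := by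
    intro v hv
    obtain ⟨hs1, hs2⟩ := le2_small hμ (norm_nonneg v) hv
    have n1 : ‖v / (μ : ℂ) ^ 2‖ < ρ := by
      rw [norm_div, norm_pow, Complex.norm_real, Real.norm_of_nonneg (by linarith : (0:ℝ) ≤ μ)]
      exact hs1
    have n2 : ‖v / (μ : ℂ) ^ 4‖ < ρ := by
      rw [norm_div, norm_pow, Complex.norm_real, Real.norm_of_nonneg (by linarith : (0:ℝ) ≤ μ)]
      exact hs2
    have h1 : Tendsto (fun N => dd (A (N + 1)).1 v) atTop (𝓝 (dd a v)) :=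
      (tendsto_add_atTop_iff_nat 1).2 (hconv v hv)
    have h2 : ∀ N, dd (A (N + 1)).1 v =
        PsiC μ (dd (A N).1 (v / (μ : ℂ) ^ 2)) (dd (A N).1 (v / (μ : ℂ) ^ 4)) := fun N =>
      ((A (N + 1)).2.hasSum hv).unique (hStp N v hv)
    simp only [h2] at h1
    refine tendsto_nhds_unique h1 ?_
    have c1 := hconv _ n1
    have c2 := hconv _ n2
    have hadm := Adm.of_norm hμ (hInv.norm_le hμ n1)
    have cS : Tendsto (fun N => Sq μ (dd (A N).1 (v / (μ : ℂ) ^ 2))) atTop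
        (𝓝 (Sq μ (dd a (v / (μ : ℂ) ^ 2)))) :=
      ((Sq_differentiableAt hμ hadm).continuousAt.tendsto).comp c1
    unfold PsiC
    exact (((cS.sub_const _).const_mul _).add ((cS.sub_const _).mul c1)).add (cS.mul c2)
  refine ⟨ρ / 2, hr0, a, hInv.z, hInv.o, hInv.nn, (hInv.s _ hr0.le hrρ).1,
    (hInv.s _ hr0.le hrρ).2.trans_lt (le2_Db hμ hr0.le hrρ).2, ?_⟩
  intro v hv
  have hv' : ‖(μ : ℂ) ^ 2 * v‖ < ρ := by
    rw [norm_mul, norm_pow, Complex.norm_real, Real.norm_of_nonneg (by linarith : (0:ℝ) ≤ μ)]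
    rw [lt_div_iff₀ (by linarith)] at hv
    linarith
  have h1 := hfix _ hv'
  have e1 : (μ : ℂ) ^ 2 * v / (μ : ℂ) ^ 2 = v := by field_simp
  have e2 : (μ : ℂ) ^ 2 * v / (μ : ℂ) ^ 4 = v / (μ : ℂ) ^ 2 := by field_simp
  rw [e1, e2] at h1
  rw [h1]
  unfold PsiC
  ring

end EQ2
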