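import Pool.Agent.Lib.MP_226de1_co.LoopDeriv

/-! Quadrant loop: openness, closedness, conclusion. -/

set_option autoImplicit false

namespace EQ2

open Complex Set Filter Topology

variable {μ : ℝ} {F : ℕ → ℝ} {y : ℂ → ℂ} {r : ℝ}

theorem LoopAll_analytic (h : HF μ F) (hy : HY μ F y) {x : ℂ} (hx : x.re < ell μ) :
    AnalyticAt ℂ (qx μ F y) x := by
  have hopen : IsOpen {z : ℂ | z.re < ell μ} := isOpen_lt Complex.continuous_re continuous_const
  have hd : DifferentiableOn ℂ (qx μ F y) {z : ℂ | z.re < ell μ} := fun z hz =>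
    (hy.qx_differentiableAt h hz).differentiableWithinAt
  exact hd.analyticAt (hopen.mem_nhds hx)

/-- the quadrant condition at a point -/
def LoopAll_good (μ : ℝ) (F : ℕ → ℝ) (y : ℂ → ℂ) (x : ℂ) : Prop :=
  0 ≤ (qx μ F y x).re ∧ (qx μ F y x).im ≤ 0

/-- interior points of the segment -/
theorem LoopAll_mid (h : HF μ F) (hy : HY μ F y) (hr : r < 0) (hQ : QB μ F y r) {s : ℝ}
    (h0 : 0 < s) (h1 : s < Real.pi / 2) : ∀ᶠ z in 𝓝 (⟨r, s⟩ : ℂ), LoopAll_good μ F y z := by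
  have hl := ell_pos h.hμ
  have hc : ContinuousAt (qx μ F y) ⟨r, s⟩ :=
    (LoopAll_analytic h hy (by show r < ell μ; linarith)).continuousAt
  have e1 : ∀ᶠ z in 𝓝 (⟨r, s⟩ : ℂ), 0 < (qx μ F y z).re :=
    (Complex.continuous_re.continuousAt.comp hc).eventually_const_lt
      (QB_re_pos h hy hr hQ h0.le h1)
  have e2 : ∀ᶠ z in 𝓝 (⟨r, s⟩ : ℂ), (qx μ F y z).im < 0 :=
    (Complex.continuous_im.continuousAt.comp hc).eventually_lt_const
      (QB_im_neg h hy hr hQ h0 h1.le)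
  filter_upwards [e1, e2] with z a b
  exact ⟨a.le, b.le⟩

/-- the bottom end of the segment -/
theorem LoopAll_bot (h : HF μ F) (hy : HY μ F y) (hr : r < 0) (hQ : QB μ F y r) :
    ∀ᶠ z in 𝓝 (⟨r, 0⟩ : ℂ), 0 ≤ z.im → LoopAll_good μ F y z := by
  have hl := ell_pos h.hμ
  have han := LoopAll_analytic h hy (x := ⟨r, 0⟩) (by show r < ell μ; linarith)
  have hc : ContinuousAt (qx μ F y) ⟨r, 0⟩ := han.continuousAt
  have hc' : ContinuousAt (deriv (qx μ F y)) ⟨r, 0⟩ := han.deriv.continuousAt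
  have e0 : (⟨r, 0⟩ : ℂ) = (r : ℂ) := Complex.ext rfl rfl
  have e1 : ∀ᶠ z in 𝓝 (⟨r, 0⟩ : ℂ), 0 < (qx μ F y z).re :=
    (Complex.continuous_re.continuousAt.comp hc).eventually_const_lt
      (QB_re_pos h hy hr hQ le_rfl (by positivity))
  have e2 : ∀ᶠ z in 𝓝 (⟨r, 0⟩ : ℂ), (deriv (qx μ F y) z).re < 0 := by
    refine (Complex.continuous_re.continuousAt.comp hc').eventually_lt_const ?_
    show (deriv (qx μ F y) ⟨r, 0⟩).re < 0
    rw [e0]
    exact QB_real_deriv h hy hr hQ le_rfl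
  have e3 : ∀ᶠ z in 𝓝 (⟨r, 0⟩ : ℂ), z.re < ell μ :=
    Complex.continuous_re.continuousAt.eventually_lt_const (by show r < ell μ; linarith)
  obtain ⟨δ, hδ, hball⟩ := Metric.eventually_nhds_iff_ball.1 ((e1.and e2).and e3)
  rw [Metric.eventually_nhds_iff_ball]
  refine ⟨δ, hδ, fun z hz him => ?_⟩
  refine ⟨(hball z hz).1.1.le, ?_⟩
  -- the vertical segment lies in the ball
  have hseg : ∀ σ : ℝ, 0 ≤ σ → σ ≤ z.im → (⟨z.re, σ⟩ : ℂ) ∈ Metric.ball (⟨r, 0⟩ : ℂ) δ := by
    intro σ hσ hσ'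
    rw [Metric.mem_ball, Complex.dist_eq] at hz ⊢
    refine lt_of_le_of_lt ?_ hz
    rw [Complex.norm_def, Complex.norm_def]
    refine Real.sqrt_le_sqrt ?_
    rw [Complex.normSq_apply, Complex.normSq_apply]
    simp only [Complex.sub_re, Complex.sub_im, sub_zero]
    nlinarith
  have hdiff : ∀ σ : ℝ, 0 ≤ σ → σ ≤ z.im → DifferentiableAt ℂ (qx μ F y) ⟨z.re, σ⟩ :=
    fun σ a b => hy.qx_differentiableAt h (hball _ (hseg σ a b)).2
  have hanti : AntitoneOn (fun t : ℝ => (qx μ F y ⟨z.re, t⟩).im) (Icc 0 z.im) := by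
    refine antitoneOn_of_deriv_nonpos (convex_Icc _ _)
      (fun t ht => (LoopDeriv_im (hdiff t ht.1 ht.2)).continuousAt.continuousWithinAt)
      (fun t ht => ?_) ?_
    · rw [interior_Icc] at ht
      exact (LoopDeriv_im (hdiff t ht.1.le ht.2.le)).differentiableAt.differentiableWithinAt
    · intro t ht
      rw [interior_Icc] at ht
      rw [(LoopDeriv_im (hdiff t ht.1.le ht.2.le)).deriv]
      exact (hball _ (hseg t ht.1.le ht.2.le)).1.2.le
  have hle := hanti (left_mem_Icc.2 him) (right_mem_Icc.2 him) him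
  have hz0 : (qx μ F y ⟨z.re, 0⟩).im = 0 := by
    have e : (⟨z.re, 0⟩ : ℂ) = (z.re : ℂ) := Complex.ext rfl rfl
    rw [e, hy.qx_ofReal h ((hball z hz).2)]
    simp
  have hzz : (⟨z.re, z.im⟩ : ℂ) = z := Complex.ext rfl rfl
  simp only [hz0, hzz] at hle
  exact hle

/-- the top end of the segment -/
theorem LoopAll_top (h : HF μ F) (hy : HY μ F y) (hr : r < 0) (hQ : QB μ F y r) :
    ∀ᶠ z in 𝓝 (⟨r, Real.pi / 2⟩ : ℂ), z.im ≤ Real.pi / 2 → LoopAll_good μ F y z := by
  have hl := ell_pos h.hμ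
  have han := LoopAll_analytic h hy (x := ⟨r, Real.pi / 2⟩) (by show r < ell μ; linarith)
  have hc : ContinuousAt (qx μ F y) ⟨r, Real.pi / 2⟩ := han.continuousAt
  have hc' : ContinuousAt (deriv (qx μ F y)) ⟨r, Real.pi / 2⟩ := han.deriv.continuousAt
  have e1 : ∀ᶠ z in 𝓝 (⟨r, Real.pi / 2⟩ : ℂ), (qx μ F y z).im < 0 :=
    (Complex.continuous_im.continuousAt.comp hc).eventually_lt_const
      (QB_im_neg h hy hr hQ (by positivity) le_rfl)
  have e2 : ∀ᶠ z in 𝓝 (⟨r, Real.pi / 2⟩ : ℂ), 0 < (deriv (qx μ F y) z).im := by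
    refine (Complex.continuous_im.continuousAt.comp hc').eventually_const_lt ?_
    exact hy.deriv_qx_top_im h hr.le
  have e3 : ∀ᶠ z in 𝓝 (⟨r, Real.pi / 2⟩ : ℂ), z.re < ell μ :=
    Complex.continuous_re.continuousAt.eventually_lt_const (by show r < ell μ; linarith)
  obtain ⟨δ, hδ, hball⟩ := Metric.eventually_nhds_iff_ball.1 ((e1.and e2).and e3)
  rw [Metric.eventually_nhds_iff_ball]
  refine ⟨δ, hδ, fun z hz him => ?_⟩
  refine ⟨?_, (hball z hz).1.1.le⟩
  -- the vertical segment lies in the ball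
  have hseg : ∀ σ : ℝ, z.im ≤ σ → σ ≤ Real.pi / 2 →
      (⟨z.re, σ⟩ : ℂ) ∈ Metric.ball (⟨r, Real.pi / 2⟩ : ℂ) δ := by
    intro σ hσ hσ'
    rw [Metric.mem_ball, Complex.dist_eq] at hz ⊢
    refine lt_of_le_of_lt ?_ hz
    rw [Complex.norm_def, Complex.norm_def]
    refine Real.sqrt_le_sqrt ?_
    rw [Complex.normSq_apply, Complex.normSq_apply]
    simp only [Complex.sub_re, Complex.sub_im]
    nlinarith
  have hdiff : ∀ σ : ℝ, z.im ≤ σ → σ ≤ Real.pi / 2 →
      DifferentiableAt ℂ (qx μ F y) ⟨z.re, σ⟩ :=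
    fun σ a b => hy.qx_differentiableAt h (hball _ (hseg σ a b)).2
  have hanti : AntitoneOn (fun t : ℝ => (qx μ F y ⟨z.re, t⟩).re) (Icc z.im (Real.pi / 2)) := by
    refine antitoneOn_of_deriv_nonpos (convex_Icc _ _)
      (fun t ht => (LoopDeriv_re (hdiff t ht.1 ht.2)).continuousAt.continuousWithinAt)
      (fun t ht => ?_) ?_
    · rw [interior_Icc] at ht
      exact (LoopDeriv_re (hdiff t ht.1.le ht.2.le)).differentiableAt.differentiableWithinAt
    · intro t ht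
      rw [interior_Icc] at ht
      rw [(LoopDeriv_re (hdiff t ht.1.le ht.2.le)).deriv]
      have := (hball _ (hseg t ht.1.le ht.2.le)).1.2
      linarith
  have hle := hanti (left_mem_Icc.2 him) (right_mem_Icc.2 him) him
  have hz0 : (qx μ F y ⟨z.re, Real.pi / 2⟩).re = 0 := by
    have := hy.qx_top h (s := z.re) ((hball z hz).2)
    have e : (pt z.re (Real.pi / 2)) = (⟨z.re, Real.pi / 2⟩ : ℂ) := rfl
    rw [← e, this]
    simp
  have hzz : (⟨z.re, z.im⟩ : ℂ) = z := Complex.ext rfl rfl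
  simp only [hz0, hzz] at hle
  exact hle

/-- openness.  Otherwise there are `x_n`, `r < Re x_n → r`, `0 ≤ Im x_n ≤ π/2`, violating the
quadrant condition, `x_n → x* = r + i s*`.
* `0 < s* < π/2`: strict inequalities `QB_re_pos`, `QB_im_neg` at `x*`.
* `s* = 0`: `Re q > 0` near `x*`, and `Re q' < 0` near `x*` (`QB_real_deriv`), so
  `Im q (t + iε) = ∫₀^ε Re q' ≤ 0` (`q` real on the real axis).
* `s* = π/2`: `Im q < 0` near, and `Im q' > 0` near (`HY.deriv_qx_top_im`), so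
  `Re q (t + i (π/2 - ε)) = ∫ Im q' ≥ 0` (`Re q = 0` on the top line). -/
theorem QB_open (h : HF μ F) (hy : HY μ F y) (hr : r < 0) (hQ : QB μ F y r) :
    ∃ r' : ℝ, r < r' ∧ QB μ F y r' := by
  have hpi : (0 : ℝ) < Real.pi / 2 := by positivity
  have key : ∀ᶠ t : ℝ in 𝓝 r, ∀ s ∈ Icc (0 : ℝ) (Real.pi / 2),
      (s ∈ Icc (0 : ℝ) (Real.pi / 2) → LoopAll_good μ F y ⟨t, s⟩) := by
    refine isCompact_Icc.eventually_forall_of_forall_eventually
      (P := fun t s => s ∈ Icc (0 : ℝ) (Real.pi / 2) → LoopAll_good μ F y ⟨t, s⟩) ?_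
    intro s hs
    have hcont : Tendsto (fun p : ℝ × ℝ => (⟨p.1, p.2⟩ : ℂ)) (𝓝 (r, s)) (𝓝 (⟨r, s⟩ : ℂ)) := by
      have : Continuous (fun p : ℝ × ℝ => (⟨p.1, p.2⟩ : ℂ)) :=
        Complex.equivRealProdCLM.symm.continuous
      exact this.tendsto (r, s)
    rcases eq_or_lt_of_le hs.1 with h0 | h0
    · rw [← h0] at hcont ⊢
      filter_upwards [hcont.eventually (LoopAll_bot h hy hr hQ)] with p hp hps
      exact hp hps.1
    · rcases eq_or_lt_of_le hs.2 with h1 | h1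
      · rw [h1] at hcont ⊢
        filter_upwards [hcont.eventually (LoopAll_top h hy hr hQ)] with p hp hps
        exact hp hps.2
      · filter_upwards [hcont.eventually (LoopAll_mid h hy hr hQ h0 h1)] with p hp _
        exact hp
  obtain ⟨δ, hδ, hball⟩ := Metric.eventually_nhds_iff.1 key
  refine ⟨r + δ / 2, by linarith, ?_⟩
  intro x hx hx0 hx1
  rcases le_or_gt x.re r with hxr | hxr
  · exact hQ x hxr hx0 hx1
  · have hd : dist x.re r < δ := by
      rw [Real.dist_eq, abs_of_pos (by linarith)]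
      linarith
    have := hball hd x.im ⟨hx0, hx1⟩ ⟨hx0, hx1⟩
    have hxx : (⟨x.re, x.im⟩ : ℂ) = x := Complex.ext rfl rfl
    rw [hxx] at this
    exact this

theorem LoopAll_mono {r r' : ℝ} (hrr : r' ≤ r) (hQ : QB μ F y r) : QB μ F y r' :=
  fun x hx => hQ x (hx.trans hrr)

/-- closedness -/
theorem LoopAll_closed (h : HF μ F) (hy : HY μ F y) (hr : r < ell μ)
    (hQ : ∀ r' < r, QB μ F y r') : QB μ F y r := by
  intro x hx hx0 hx1
  have hc : ContinuousAt (qx μ F y) x := (hy.qx_differentiableAt h (by linarith)).continuousAt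
  have hpath : Tendsto (fun ε : ℝ => x - (ε : ℂ)) (𝓝[>] 0) (𝓝 x) := by
    have : Tendsto (fun ε : ℝ => x - (ε : ℂ)) (𝓝 0) (𝓝 (x - ((0 : ℝ) : ℂ))) :=
      (continuous_const.sub Complex.continuous_ofReal).tendsto 0
    rw [Complex.ofReal_zero, sub_zero] at this
    exact this.mono_left nhdsWithin_le_nhds
  have hq := hc.tendsto.comp hpath
  have hev : ∀ᶠ ε : ℝ in 𝓝[>] 0, LoopAll_good μ F y (x - (ε : ℂ)) := by
    filter_upwards [self_mem_nhdsWithin] with ε hε
    have hε' : 0 < ε := hε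
    refine hQ (x.re - ε) (by linarith) (x - (ε : ℂ)) ?_ ?_ ?_
    · simp
    · simpa using hx0
    · simpa using hx1
  constructor
  · refine ge_of_tendsto ((Complex.continuous_re.tendsto _).comp hq) ?_
    filter_upwards [hev] with ε hε
    exact hε.1
  · refine le_of_tendsto ((Complex.continuous_im.tendsto _).comp hq) ?_
    filter_upwards [hev] with ε hε
    exact hε.2

theorem LoopAll_neg (h : HF μ F) (hy : HY μ F y) (hr : r < 0) : QB μ F y r := by
  by_contra hn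
  have hl := ell_pos h.hμ
  set A : Set ℝ := {t : ℝ | t < 0 ∧ QB μ F y t} with hA
  obtain ⟨r0, hr0, hQ0⟩ := loop_base h hy
  have hne : A.Nonempty := ⟨r0, hr0, hQ0⟩
  have hub : ∀ t ∈ A, t ≤ r := by
    intro t ht
    by_contra hc
    push Not at hc
    exact hn (LoopAll_mono hc.le ht.2)
  have hbdd : BddAbove A := ⟨r, hub⟩
  set R := sSup A with hR
  have hRr : R ≤ r := csSup_le hne hub
  have hQR : QB μ F y R := by
    refine LoopAll_closed h hy (by linarith) fun t ht => ?_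
    obtain ⟨t', ht', htt⟩ := exists_lt_of_lt_csSup hne ht
    exact LoopAll_mono htt.le ht'.2
  obtain ⟨r', hr', hQ'⟩ := QB_open h hy (lt_of_le_of_lt hRr hr) hQR
  have hm : min r' (R / 2) ∈ A := by
    refine ⟨?_, LoopAll_mono (min_le_left _ _) hQ'⟩
    have : R / 2 < 0 := by linarith
    exact lt_of_le_of_lt (min_le_right _ _) this
  have := le_csSup hbdd hm
  have h2 : R < min r' (R / 2) := lt_min hr' (by linarith)
  linarith

/-- hence `QB r` for all `r < 0`, and by continuity for `r = 0` -/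
theorem QB_zero (h : HF μ F) (hy : HY μ F y) : QB μ F y 0 :=
  LoopAll_closed h hy (ell_pos h.hμ) fun _ ht => LoopAll_neg h hy ht

theorem QB_all (h : HF μ F) (hy : HY μ F y) (hr : r ≤ 0) : QB μ F y r :=
  LoopAll_mono hr (QB_zero h hy)

end EQ2
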