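import Pool.Agent.Lib.MP_226de1_co.LoopDef

/-! Quadrant loop, consequences of `QB r`, first part. -/

set_option autoImplicit false

namespace EQ2

open Complex Set Filter Topology

variable {μ : ℝ} {F : ℕ → ℝ} {y : ℂ → ℂ} {r : ℝ}

private theorem LoopP_im (C : ℝ) (hC : 0 < C) {q P₁ P₂ : ℂ} (h1 : 0 ≤ q.re) (h2 : q.im ≤ 0)
    (h : (1 + q ^ 2) * (P₁ + P₂) = (C : ℂ)) : 0 ≤ P₁.im + P₂.im := by
  have hre := congrArg Complex.re h
  have him := congrArg Complex.im h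
  rw [Complex.mul_re, Complex.ofReal_re] at hre
  rw [Complex.mul_im, Complex.ofReal_im] at him
  set w : ℂ := 1 + q ^ 2 with hw
  set P : ℂ := P₁ + P₂ with hP
  have hwim : w.im ≤ 0 := by
    have : w.im = 2 * (q.re * q.im) := by
      rw [hw, pow_two]
      simp [Complex.mul_im]
      ring
    rw [this]
    have := mul_nonneg h1 (neg_nonneg.2 h2)
    linarith
  have hPim : P.im = P₁.im + P₂.im := by rw [hP, Complex.add_im]
  rw [← hPim]
  -- `|w|² Im P = - C Im w`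
  have h3 : (w.re ^ 2 + w.im ^ 2) * P.im = -(C * w.im) := by
    have e1 : w.re * (w.re * P.im + w.im * P.re) = 0 := by rw [him, mul_zero]
    have e2 : w.im * (w.re * P.re - w.im * P.im) = w.im * C := by rw [hre]
    nlinarith
  have hne : 0 < w.re ^ 2 + w.im ^ 2 := by
    rcases eq_or_ne w.re 0 with h4 | h4
    · rcases eq_or_ne w.im 0 with h5 | h5
      · rw [h4, h5] at hre
        simp at hre
        exact absurd hre.symm hC.ne'
      · positivity
    · positivity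
  have h5 : 0 ≤ (w.re ^ 2 + w.im ^ 2) * P.im := by
    rw [h3]
    have := mul_nonneg hC.le (neg_nonneg.2 hwim)
    linarith
  exact nonneg_of_mul_nonneg_right h5 hne

/-- `Im p ≥ 0` on `Re x ≤ r + ℓ/2`.
On `Re x ≤ r`: `q ∈ Q4`, so `Im (1+q²) ≤ 0` and `p x + p (x+ℓ) = C/(1+q²)` (`HY.qp_rel`) has
`Im ≥ 0`; apply `halfstep_sum` with `f = px μ y`, `h = ℓ/2`, `c ≤ r + ℓ/2`
(`p` is real on `Im x = 0` and on `Im x = π/2`; `c + h ≤ r + ℓ < ℓ`). -/
theorem QB_p (h : HF μ F) (hy : HY μ F y) (hr : r < 0) (hQ : QB μ F y r) :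
    ∀ x : ℂ, x.re ≤ r + ell μ / 2 → 0 ≤ x.im → x.im ≤ Real.pi / 2 → 0 ≤ (px μ y x).im := by
  intro x hx h0 h1
  have hμ := h.hμ
  have hl := ell_pos hμ
  have hC : 0 < Cc μ := by
    unfold Cc
    have : 0 < μ - 1 := by linarith
    positivity
  have key := halfstep_sum (f := px μ y) (c := x.re) (h := ell μ / 2) (by linarith)
    (fun z hz _ _ => HY.px_differentiableAt h hy (by have := (abs_le.1 hz).2; linarith))
    (fun t ht => by
      have ht' : t < ell μ := by have := (abs_le.1 ht).2; linarith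
      have e : (⟨t, 0⟩ : ℂ) = (t : ℂ) := rfl
      rw [e, HY.px_ofReal h hy ht', Complex.ofReal_im])
    (fun t ht => by
      have ht' : t < ell μ := by have := (abs_le.1 ht).2; linarith
      have e := HY.px_top h hy ht'
      show 0 ≤ (px μ y (pt t (Real.pi / 2))).im
      rw [e, Complex.ofReal_im])
    (fun s hs0 hs1 => by
      have ha : (x.re - ell μ / 2) ≤ r := by linarith
      have e1 : (⟨x.re - ell μ / 2, s⟩ : ℂ) + (ell μ : ℂ) = ⟨x.re + ell μ / 2, s⟩ := by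
        apply Complex.ext
        · simp
          ring
        · simp
      have h2 := HY.qp_rel h hy (x := ⟨x.re - ell μ / 2, s⟩) (by show x.re - ell μ / 2 < 0; linarith)
      rw [e1] at h2
      obtain ⟨h3, h4⟩ := hQ ⟨x.re - ell μ / 2, s⟩ ha hs0 hs1
      exact LoopP_im (Cc μ) hC h3 h4 h2)
  exact key x.im h0 h1

/-- `Y` in the closed first quadrant on `Re x ≤ r + ℓ/2`: `Y² = (μ-1)² p` has `Im ≥ 0`, `Y ≠ 0`,
so on each vertical segment (connected) `Y` stays in `Q1` or in `Q3`; `Y > 0` at `Im x = 0`. -/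
theorem QB_Y (h : HF μ F) (hy : HY μ F y) (hr : r < 0) (hQ : QB μ F y r) :
    ∀ x : ℂ, x.re ≤ r + ell μ / 2 → 0 ≤ x.im → x.im ≤ Real.pi / 2 →
      0 ≤ (Yx y x).re ∧ 0 ≤ (Yx y x).im := by
  intro x hx h0 h1
  have hμ := h.hμ
  have hl := ell_pos hμ
  have hxl : x.re < ell μ := by linarith
  have hprod : ∀ s : ℝ, 0 ≤ s → s ≤ Real.pi / 2 →
      0 ≤ (Yx y ⟨x.re, s⟩).re * (Yx y ⟨x.re, s⟩).im := by
    intro s hs0 hs1
    have h2 := QB_p h hy hr hQ ⟨x.re, s⟩ hx hs0 hs1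
    unfold px at h2
    have h3 : (Yx y ⟨x.re, s⟩ / ((μ : ℂ) - 1)) ^ 2
        = ((((μ - 1) ^ 2)⁻¹ : ℝ) : ℂ) * (Yx y ⟨x.re, s⟩) ^ 2 := by
      push_cast
      rw [div_pow]
      ring
    rw [h3, Complex.im_ofReal_mul] at h2
    have h4 : 0 < ((μ - 1) ^ 2)⁻¹ := by
      have : 0 < μ - 1 := by linarith
      positivity
    have h5 := nonneg_of_mul_nonneg_right h2 h4
    rw [pow_two, Complex.mul_im] at h5
    linarith
  have hne : ∀ s : ℝ, Yx y ⟨x.re, s⟩ ≠ 0 := fun s => HY.Yx_ne h hy hxl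
  have hcont : Continuous (fun s : ℝ => (Yx y ⟨x.re, s⟩).re + (Yx y ⟨x.re, s⟩).im) := by
    have h2 : Continuous (fun s : ℝ => Yx y ⟨x.re, s⟩) := by
      rw [continuous_iff_continuousAt]
      intro s
      have h3 : ContinuousAt (Yx y) (⟨x.re, s⟩ : ℂ) :=
        (HY.Yx_differentiableAt h hy (x := ⟨x.re, s⟩) hxl).continuousAt
      have h4 : ContinuousAt (fun s : ℝ => (⟨x.re, s⟩ : ℂ)) s := by
        have h5 : (fun s : ℝ => (⟨x.re, s⟩ : ℂ)) = fun s : ℝ => (x.re : ℂ) + (s : ℂ) * I := by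
          funext s
          apply Complex.ext <;> simp
        rw [h5]
        fun_prop
      exact ContinuousAt.comp (f := fun s : ℝ => (⟨x.re, s⟩ : ℂ)) (x := s) h3 h4
    exact (Complex.continuous_re.comp h2).add (Complex.continuous_im.comp h2)
  have hnz : ∀ s : ℝ, 0 ≤ s → s ≤ Real.pi / 2 →
      (Yx y ⟨x.re, s⟩).re + (Yx y ⟨x.re, s⟩).im ≠ 0 := by
    intro s hs0 hs1 h2
    have h3 := hprod s hs0 hs1
    have h4 : (Yx y ⟨x.re, s⟩).re = -(Yx y ⟨x.re, s⟩).im := by linarith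
    rw [h4] at h3
    have h5 : (Yx y ⟨x.re, s⟩).im = 0 := by nlinarith
    exact hne s (Complex.ext (by rw [h4, h5]; simp) (by rw [h5]; simp))
  have hpos : 0 < (Yx y ⟨x.re, x.im⟩).re + (Yx y ⟨x.re, x.im⟩).im := by
    by_contra hcon
    push Not at hcon
    have h2 : (Yx y ⟨x.re, 0⟩) = (rY y x.re : ℂ) := HY.Yx_ofReal h hy hxl
    have h3 : 0 < (Yx y ⟨x.re, 0⟩).re + (Yx y ⟨x.re, 0⟩).im := by
      rw [h2, Complex.ofReal_re, Complex.ofReal_im, add_zero]
      exact HY.rY_pos h hy hxl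
    have h4 := intermediate_value_Icc' h0 hcont.continuousOn
    obtain ⟨s, hs, hs'⟩ := h4 ⟨hcon, h3.le⟩
    exact hnz s hs.1 (hs.2.trans h1) hs'
  have hp := hprod x.im h0 h1
  have hxe : (⟨x.re, x.im⟩ : ℂ) = x := Complex.ext rfl rfl
  rw [hxe] at hpos hp
  constructor
  · by_contra hcon
    push Not at hcon
    nlinarith
  · by_contra hcon
    push Not at hcon
    nlinarith

/-- `Re X ≥ 0` on `Re x ≤ r`, since `X = q Y` -/
theorem QB_X (h : HF μ F) (hy : HY μ F y) (hr : r < 0) (hQ : QB μ F y r) :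
    ∀ x : ℂ, x.re ≤ r → 0 ≤ x.im → x.im ≤ Real.pi / 2 → 0 ≤ (Xx μ F x).re := by
  intro x hx h0 h1
  have hl := ell_pos h.hμ
  obtain ⟨h2, h3⟩ := hQ x hx h0 h1
  obtain ⟨h4, h5⟩ := QB_Y h hy hr hQ x (by linarith) h0 h1
  have hne := HY.Yx_ne h hy (x := x) (by linarith)
  have h6 : Xx μ F x = qx μ F y x * Yx y x := by
    unfold qx
    rw [div_mul_cancel₀ _ hne]
  rw [h6, Complex.mul_re]
  nlinarith [mul_nonneg h2 h4, mul_nonneg (neg_nonneg.2 h3) h5]

/-- `P1`: `Im D ≤ 0` on `Re x ≤ r + ℓ/2`.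
Start from `P1_base` (true on `Re x ≤ r₀`).  Step: if true on `Re x ≤ ρ` then true on
`Re x ≤ min (ρ + ℓ/2) (r + ℓ/2)`: for such `c`, on the line `Re x = c - ℓ/2 ≤ min ρ r` we have
`Im X ≤ 0` (`HF.Xx_eq`, P1 at `x` and `x - ℓ`), `Re X ≥ 0` (`QB_X`), `Re S > 0`, `Im S ≤ 0`
(`Sq_re_pos`, `Sq_im_nonpos`, `Adm.of_norm`), so `Im (S X) ≤ 0`, hence by `HF.Dx_sum`
`Im (D x + D (x+ℓ)) ≤ 0`; apply `halfstep_sum` to `f = -Dx F`.  Iterate finitely often. -/
theorem QB_P1 (h : HF μ F) (hy : HY μ F y) (hr : r < 0) (hQ : QB μ F y r) :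
    ∀ x : ℂ, x.re ≤ r + ell μ / 2 → 0 ≤ x.im → x.im ≤ Real.pi / 2 → (Dx F x).im ≤ 0 := by
  have hμ := h.hμ
  have hl := ell_pos hμ
  obtain ⟨r₀, _, hr₀⟩ := P1_base h
  have hstep : ∀ ρ : ℝ, (∀ x : ℂ, x.re ≤ ρ → x.re ≤ r + ell μ / 2 → 0 ≤ x.im →
      x.im ≤ Real.pi / 2 → (Dx F x).im ≤ 0) → ∀ x : ℂ, x.re ≤ ρ + ell μ / 2 →
      x.re ≤ r + ell μ / 2 → 0 ≤ x.im → x.im ≤ Real.pi / 2 → (Dx F x).im ≤ 0 := by
    intro ρ hρ x hxρ hx h0 h1
    have key := halfstep_sum (f := fun z => -Dx F z) (c := x.re) (h := ell μ / 2) (by linarith)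
      (fun z hz _ _ => (HF.Dx_differentiableAt h
        (by have := (abs_le.1 hz).2; linarith)).neg)
      (fun t ht => by
        have ht' : t < ell μ := by have := (abs_le.1 ht).2; linarith
        have e : (⟨t, 0⟩ : ℂ) = (t : ℂ) := rfl
        rw [e, HF.Dx_ofReal h ht', Complex.neg_im, Complex.ofReal_im, neg_zero])
      (fun t ht => by
        have ht' : t < ell μ := by have := (abs_le.1 ht).2; linarith
        have e := HF.Dx_top h ht'
        show 0 ≤ (-Dx F (pt t (Real.pi / 2))).im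
        rw [e, Complex.neg_im, Complex.ofReal_im, neg_zero])
      (fun s hs0 hs1 => by
        have ha : (x.re - ell μ / 2) ≤ r := by linarith
        have ha0 : (x.re - ell μ / 2) < 0 := by linarith
        have e1 : (⟨x.re - ell μ / 2, s⟩ : ℂ) + (ell μ : ℂ) = ⟨x.re + ell μ / 2, s⟩ := by
          apply Complex.ext
          · simp
            ring
          · simp
        have h2 := HF.Dx_sum h (x := ⟨x.re - ell μ / 2, s⟩) ha0
        rw [e1] at h2
        have hD1 : (Dx F ⟨x.re - ell μ / 2, s⟩).im ≤ 0 :=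
          hρ _ (by show x.re - ell μ / 2 ≤ ρ; linarith)
            (by show x.re - ell μ / 2 ≤ r + ell μ / 2; linarith) hs0 hs1
        have hD2 : (Dx F (⟨x.re - ell μ / 2, s⟩ - (ell μ : ℂ))).im ≤ 0 := by
          have e2 : (⟨x.re - ell μ / 2, s⟩ : ℂ) - (ell μ : ℂ) = ⟨x.re - ell μ / 2 - ell μ, s⟩ := by
            apply Complex.ext <;> simp
          rw [e2]
          exact hρ _ (by show x.re - ell μ / 2 - ell μ ≤ ρ; linarith)
            (by show x.re - ell μ / 2 - ell μ ≤ r + ell μ / 2; linarith) hs0 hs1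
        have hXre := QB_X h hy hr hQ ⟨x.re - ell μ / 2, s⟩ ha hs0 hs1
        have hXim : (Xx μ F ⟨x.re - ell μ / 2, s⟩).im ≤ 0 := by
          rw [HF.Xx_eq h]
          have e3 : (Dx F ⟨x.re - ell μ / 2, s⟩ + Dx F (⟨x.re - ell μ / 2, s⟩ - (ell μ : ℂ)))
              / (2 * ((μ : ℂ) - 1)) = (((2 * (μ - 1))⁻¹ : ℝ) : ℂ) *
              (Dx F ⟨x.re - ell μ / 2, s⟩ + Dx F (⟨x.re - ell μ / 2, s⟩ - (ell μ : ℂ))) := by
            push_cast
            rw [div_eq_inv_mul]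
          rw [e3, Complex.add_im, Complex.one_im, Complex.im_ofReal_mul, Complex.add_im,
            zero_add]
          have h4 : 0 < (2 * (μ - 1))⁻¹ := by
            have : 0 < μ - 1 := by linarith
            positivity
          exact mul_nonpos_of_nonneg_of_nonpos h4.le (by linarith)
        have hadm : Adm μ (Dx F ⟨x.re - ell μ / 2, s⟩) :=
          Adm.of_norm hμ (HF.norm_Dx_lt h ha0)
        have hSre : 0 < (Sx μ F ⟨x.re - ell μ / 2, s⟩).re := Sq_re_pos hμ hadm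
        have hSim : (Sx μ F ⟨x.re - ell μ / 2, s⟩).im ≤ 0 := Sq_im_nonpos hμ hadm hD1
        have h5 := congrArg Complex.im h2
        have e4 : 2 * ((μ : ℂ) - 1) * (Sx μ F ⟨x.re - ell μ / 2, s⟩ *
            Xx μ F ⟨x.re - ell μ / 2, s⟩ - (μ : ℂ)) = ((2 * (μ - 1) : ℝ) : ℂ) *
            (Sx μ F ⟨x.re - ell μ / 2, s⟩ * Xx μ F ⟨x.re - ell μ / 2, s⟩ - (μ : ℂ)) := by
          push_cast
          rfl
        rw [e4, Complex.im_ofReal_mul, Complex.sub_im, Complex.ofReal_im, sub_zero,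
          Complex.mul_im, Complex.add_im] at h5
        have h6 : (Sx μ F ⟨x.re - ell μ / 2, s⟩).re * (Xx μ F ⟨x.re - ell μ / 2, s⟩).im +
            (Sx μ F ⟨x.re - ell μ / 2, s⟩).im * (Xx μ F ⟨x.re - ell μ / 2, s⟩).re ≤ 0 := by
          have := mul_nonneg hSre.le (neg_nonneg.2 hXim)
          have := mul_nonneg (neg_nonneg.2 hSim) hXre
          linarith
        have h7 : 0 < 2 * (μ - 1) := by linarith
        have h8 := mul_nonpos_of_nonneg_of_nonpos h7.le h6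
        rw [Complex.neg_im, Complex.neg_im]
        linarith)
    have k := key x.im h0 h1
    have hxe : (⟨x.re, x.im⟩ : ℂ) = x := Complex.ext rfl rfl
    rw [hxe, Complex.neg_im] at k
    linarith
  have hall : ∀ n : ℕ, ∀ x : ℂ, x.re ≤ r₀ + n * (ell μ / 2) → x.re ≤ r + ell μ / 2 →
      0 ≤ x.im → x.im ≤ Real.pi / 2 → (Dx F x).im ≤ 0 := by
    intro n
    induction n with
    | zero =>
      intro x hx _ h0 h1
      exact hr₀ x (by simpa using hx) h0 h1
    | succ n ih =>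
      intro x hx hx' h0 h1
      refine hstep _ ih x ?_ hx' h0 h1
      push_cast at hx
      linarith
  obtain ⟨n, hn⟩ := exists_nat_ge ((r + ell μ / 2 - r₀) / (ell μ / 2))
  have hn' : r + ell μ / 2 ≤ r₀ + n * (ell μ / 2) := by
    rw [div_le_iff₀ (by linarith)] at hn
    linarith
  intro x hx h0 h1
  exact hall n x (hx.trans hn') hx h0 h1

end EQ2
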