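import Pool.Agent.Lib.MP_226de1_co.NTop

/-! The corner `Im x = π/2` is impossible. -/

set_option autoImplicit false

namespace EQ2

open Complex Set Filter Topology

variable {μ : ℝ} {Q P : ℂ → ℂ} {u w : ℝ → ℝ}

/-- Limit of matched vertices.  `Q x* = -i u(Re x*)`, `Q w* = i u(Re w*)` (conjugation), so the limit
`D* = Q x* + Q w* = -iδ` with `δ = u(Re x*) - u(Re w*)` real, `P x* = -w₁`, `w₁ > 0`:
`(1 - u²)(1 + w₁ δ²) = - C δ²` for `u = u(Re x*)` and the same with `u(Re w*)`.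
`Re x* ≥ 0` gives `u(Re x*) ≤ 1`, so `δ = 0`, `u = 1`, hence `Re x* = Re w* = 0`,
`Q x* = -i`, `Q w* = i`.  Then subtract the two equations:
`(Q x - Q w) D = Q x² - Q w² = C D² (P w - P x) D² / ((1+P x D²)(1+P w D²))`, divide by
`D ≠ 0`: `Q x - Q w = O(D³) → 0`, but the limit is `-2i`. -/
theorem VM_limit (hp : Pack μ Q P u w) {xs ws : ℕ → ℂ} {x z : ℂ}
    (hv : ∀ n, VM Q P (Cc μ) (xs n) (ws n)) (hx : Tendsto xs atTop (𝓝 x))
    (hw : Tendsto ws atTop (𝓝 z)) (hxi : x.im = Real.pi / 2) (hzi : z.im = -(Real.pi / 2))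
    (hx0 : 0 ≤ x.re) (hx1 : x.re < ell μ) (hz1 : z.re < ell μ) : False := by
  have hxe : x = ⟨x.re, Real.pi / 2⟩ := Complex.ext rfl hxi
  have hze : z = (starRingEnd ℂ) ⟨z.re, Real.pi / 2⟩ := Complex.ext rfl (by simpa using hzi)
  have hDx : Dom μ x := Or.inr hx1
  have hDz : Dom μ z := Or.inr hz1
  have hDz' : Dom μ ⟨z.re, Real.pi / 2⟩ := Or.inr hz1
  have qx : Q x = -Complex.I * (u x.re : ℂ) := by
    conv_lhs => rw [hxe]
    exact hp.topQ _ hx1
  have px : P x = ((-(w x.re) : ℝ) : ℂ) := by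
    conv_lhs => rw [hxe]
    exact hp.topP _ hx1
  have qz : Q z = Complex.I * (u z.re : ℂ) := by
    conv_lhs => rw [hze]
    rw [hp.conjQ _ hDz', hp.topQ _ hz1]
    simp
  have pz : P z = ((-(w z.re) : ℝ) : ℂ) := by
    conv_lhs => rw [hze]
    rw [hp.conjP _ hDz', hp.topP _ hz1, Complex.conj_ofReal]
  have tQx : Tendsto (fun n => Q (xs n)) atTop (𝓝 (Q x)) :=
    (hp.dQ x hDx).continuousAt.tendsto.comp hx
  have tPx : Tendsto (fun n => P (xs n)) atTop (𝓝 (P x)) :=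
    (hp.dP x hDx).continuousAt.tendsto.comp hx
  have tQz : Tendsto (fun n => Q (ws n)) atTop (𝓝 (Q z)) :=
    (hp.dQ z hDz).continuousAt.tendsto.comp hw
  have tPz : Tendsto (fun n => P (ws n)) atTop (𝓝 (P z)) :=
    (hp.dP z hDz).continuousAt.tendsto.comp hw
  have tD := tQx.add tQz
  have tA := ((tPx.mul (tD.pow 2))).const_add 1
  have tB := ((tPz.mul (tD.pow 2))).const_add 1
  -- limit equations
  have l1 : (1 + Q x ^ 2) * (1 + P x * (Q x + Q z) ^ 2) = (Cc μ : ℂ) * (Q x + Q z) ^ 2 := by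
    have h1 := ((tQx.pow 2).const_add 1).mul tA
    have h2 := (tD.pow 2).const_mul (Cc μ : ℂ)
    refine tendsto_nhds_unique h1 ?_
    refine h2.congr (fun n => ?_)
    exact (hv n).2.1.symm
  have l2 : (1 + Q z ^ 2) * (1 + P z * (Q x + Q z) ^ 2) = (Cc μ : ℂ) * (Q x + Q z) ^ 2 := by
    have h1 := ((tQz.pow 2).const_add 1).mul tB
    have h2 := (tD.pow 2).const_mul (Cc μ : ℂ)
    refine tendsto_nhds_unique h1 ?_
    refine h2.congr (fun n => ?_)
    exact (hv n).2.2.symm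
  have hI : Complex.I ^ 2 = -1 := Complex.I_sq
  have r1 : (1 - (u x.re) ^ 2) * (1 + w x.re * (u x.re - u z.re) ^ 2) =
      -(Cc μ * (u x.re - u z.re) ^ 2) := by
    have h : (((1 - (u x.re) ^ 2) * (1 + w x.re * (u x.re - u z.re) ^ 2) : ℝ) : ℂ) =
        ((-(Cc μ * (u x.re - u z.re) ^ 2) : ℝ) : ℂ) := by
      rw [qx, qz, px] at l1
      push_cast at l1 ⊢
      have e1 : (-Complex.I * (u x.re : ℂ)) ^ 2 = -((u x.re : ℂ)) ^ 2 := by
        rw [mul_pow, neg_sq, hI]
        ring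
      have e2 : (-Complex.I * (u x.re : ℂ) + Complex.I * (u z.re : ℂ)) ^ 2 =
          -((u x.re : ℂ) - (u z.re : ℂ)) ^ 2 := by
        have : -Complex.I * (u x.re : ℂ) + Complex.I * (u z.re : ℂ) =
          Complex.I * ((u z.re : ℂ) - (u x.re : ℂ)) := by ring
        rw [this, mul_pow, hI]
        ring
      rw [e1, e2] at l1
      linear_combination l1
    exact_mod_cast h
  have hC : 0 < Cc μ := by
    unfold Cc
    have h1 : 0 < μ - 1 := by linarith [hp.hμ]
    positivity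
  have ha0 := hp.upos x.re hx1
  have ha1 : u x.re ≤ 1 := by
    rcases hx0.lt_or_eq with h | h
    · exact (hp.u_lt _ h hx1).le
    · rw [← h]
      exact hp.u_zero.le
  have hw0 := hp.wpos x.re hx1
  have hδ : u x.re - u z.re = 0 := by
    by_contra hne
    have h1 : 0 < (u x.re - u z.re) ^ 2 := by positivity
    have h2 : 0 ≤ 1 - (u x.re) ^ 2 := by nlinarith
    have h3 : 0 ≤ (1 - (u x.re) ^ 2) * (1 + w x.re * (u x.re - u z.re) ^ 2) := by positivity
    have h4 : 0 < Cc μ * (u x.re - u z.re) ^ 2 := by positivity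
    linarith
  rw [hδ] at r1
  have ha : u x.re = 1 := by
    have h1 : (1 - u x.re) * (1 + u x.re) = 0 := by linear_combination r1
    rcases mul_eq_zero.1 h1 with h | h
    · linarith
    · linarith
  have hb : u z.re = 1 := by linarith
  rw [ha] at qx
  rw [hb] at qz
  -- the subtracted identity
  have key : ∀ n, (Q (xs n) - Q (ws n)) * ((1 + P (xs n) * (Q (xs n) + Q (ws n)) ^ 2) *
      (1 + P (ws n) * (Q (xs n) + Q (ws n)) ^ 2)) =
      (Cc μ : ℂ) * ((Q (xs n) + Q (ws n)) ^ 3 * (P (ws n) - P (xs n))) := by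
    intro n
    obtain ⟨h1, h2, h3⟩ := hv n
    apply mul_left_cancel₀ h1
    linear_combination (1 + P (ws n) * (Q (xs n) + Q (ws n)) ^ 2) * h2 -
      (1 + P (xs n) * (Q (xs n) + Q (ws n)) ^ 2) * h3
  have hlim : (Q x - Q z) * ((1 + P x * (Q x + Q z) ^ 2) * (1 + P z * (Q x + Q z) ^ 2)) =
      (Cc μ : ℂ) * ((Q x + Q z) ^ 3 * (P z - P x)) := by
    have h1 := (tQx.sub tQz).mul (tA.mul tB)
    have h2 := ((tD.pow 3).mul (tPz.sub tPx)).const_mul (Cc μ : ℂ)
    refine tendsto_nhds_unique h1 ?_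
    refine h2.congr (fun n => ?_)
    exact (key n).symm
  have hD0 : Q x + Q z = 0 := by
    rw [qx, qz]
    ring
  rw [hD0] at hlim
  have hfin : Q x - Q z = 0 := by linear_combination hlim
  rw [qx, qz] at hfin
  have h5 := congrArg Complex.im hfin
  simp at h5
  norm_num at h5

end EQ2
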