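import Pool.Agent.Lib.MP_226de1_co.NClosed

/-! The compact window of good pairs. -/

set_option autoImplicit false

namespace EQ2

open Complex Set Filter Topology

/-- window of good pairs (`κ` half the initial sum) -/
def Win (μ : ℝ) (Q P : ℂ → ℂ) (κ τ : ℝ) : Set (ℂ × ℂ) :=
  {p | GG μ Q P p.1 p.2 ∧ κ - ell μ / 2 ≤ p.1.re ∧ p.1.re ≤ κ + ell μ / 2 ∧ 0 ≤ p.1.im ∧
    p.1.im ≤ τ ∧ p.2.im = -p.1.im ∧ p.1.re + p.2.re ≤ 2 * κ}

variable {μ : ℝ} {Q P : ℂ → ℂ} {u w : ℝ → ℝ}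

private theorem nw_ell_pos (hp : Pack μ Q P u w) : 0 < ell μ := Real.log_pos hp.hμ

/-- uniform lower bound of `Re z` on windows: `|Q z| = |Q x| ≤ M` (`bdd`) and `large` -/
theorem Win_lower (hp : Pack μ Q P u w) {κ : ℝ} (hκ : κ < ell μ) :
    ∃ A : ℝ, ∀ τ : ℝ, ∀ p ∈ Win μ Q P κ τ, A ≤ p.2.re := by
  obtain ⟨M, hM⟩ := hp.bdd (κ - ell μ / 2) (κ + ell μ / 2) (by linarith)
  obtain ⟨A, hA⟩ := hp.large M
  refine ⟨A, fun τ p hpW => ?_⟩
  obtain ⟨hg, h1, h2, -⟩ := hpW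
  have h3 := hM p.1 h1 h2 hg.1.2
  have h4 : Q p.2 = -Q p.1 := by
    have h5 := hg.lm.1
    linear_combination h5
  by_contra hlt
  push Not at hlt
  have h5 := hA p.2 hlt
  rw [h4, norm_neg] at h5
  linarith

/-- compactness: bounded by `Win_lower` (`Re z ≤ 2κ - Re x ≤ κ + ℓ/2 < 3ℓ/2`), closed by
`GG.closed` -/
theorem Win_compact (hp : Pack μ Q P u w) {κ τ : ℝ} (hκ : κ < ell μ) (hτ : τ < Real.pi / 2) :
    IsCompact (Win μ Q P κ τ) := by
  obtain ⟨A, hA⟩ := Win_lower hp hκ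
  have hell := nw_ell_pos hp
  have hsub : Win μ Q P κ τ ⊆
      (Icc (κ - ell μ / 2) (κ + ell μ / 2) ×ℂ Icc 0 τ) ×ˢ
        (Icc A (κ + ell μ / 2) ×ℂ Icc (-τ) 0) := by
    intro p hpW
    have h0 := hA τ p hpW
    obtain ⟨-, h1, h2, h3, h4, h5, h6⟩ := hpW
    rw [Set.mem_prod, Complex.mem_reProdIm, Complex.mem_reProdIm]
    refine ⟨⟨⟨h1, h2⟩, ⟨h3, h4⟩⟩, ⟨⟨h0, by linarith⟩, ⟨by linarith, by linarith⟩⟩⟩
  have hcomp : IsCompact ((Icc (κ - ell μ / 2) (κ + ell μ / 2) ×ℂ Icc 0 τ) ×ˢ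
        (Icc A (κ + ell μ / 2) ×ℂ Icc (-τ) 0)) :=
    (isCompact_Icc.reProdIm isCompact_Icc).prod (isCompact_Icc.reProdIm isCompact_Icc)
  refine hcomp.of_isClosed_subset ?_ hsub
  apply IsSeqClosed.isClosed
  intro ps p hps hlim
  have hx : Tendsto (fun n => (ps n).1) atTop (𝓝 p.1) := (continuous_fst.tendsto p).comp hlim
  have hz : Tendsto (fun n => (ps n).2) atTop (𝓝 p.2) := (continuous_snd.tendsto p).comp hlim
  have hxr : Tendsto (fun n => (ps n).1.re) atTop (𝓝 p.1.re) :=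
    (Complex.continuous_re.tendsto _).comp hx
  have hxi : Tendsto (fun n => (ps n).1.im) atTop (𝓝 p.1.im) :=
    (Complex.continuous_im.tendsto _).comp hx
  have hzr : Tendsto (fun n => (ps n).2.re) atTop (𝓝 p.2.re) :=
    (Complex.continuous_re.tendsto _).comp hz
  have hzi : Tendsto (fun n => (ps n).2.im) atTop (𝓝 p.2.im) :=
    (Complex.continuous_im.tendsto _).comp hz
  have h1 : κ - ell μ / 2 ≤ p.1.re := ge_of_tendsto' hxr fun n => (hps n).2.1
  have h2 : p.1.re ≤ κ + ell μ / 2 := le_of_tendsto' hxr fun n => (hps n).2.2.1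
  have h3 : 0 ≤ p.1.im := ge_of_tendsto' hxi fun n => (hps n).2.2.2.1
  have h4 : p.1.im ≤ τ := le_of_tendsto' hxi fun n => (hps n).2.2.2.2.1
  have h5 : p.2.im = -p.1.im := by
    have h6 : Tendsto (fun n => (ps n).2.im) atTop (𝓝 (-p.1.im)) := by
      have h7 : (fun n => (ps n).2.im) = fun n => -(ps n).1.im := by
        funext n
        exact (hps n).2.2.2.2.2.1
      rw [h7]
      exact hxi.neg
    exact tendsto_nhds_unique hzi h6
  have h6 : p.1.re + p.2.re ≤ 2 * κ :=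
    le_of_tendsto' (hxr.add hzr) fun n => (hps n).2.2.2.2.2.2
  refine ⟨?_, h1, h2, h3, h4, h5, h6⟩
  refine GG.closed hp (fun n => (hps n).1) hx hz ⟨by linarith, ?_⟩ ⟨by linarith, ?_⟩
  · rw [abs_of_nonneg h3]
    linarith
  · rw [h5, abs_neg, abs_of_nonneg h3]
    linarith

private theorem nw_up (hp : Pack μ Q P u w) {κ τ : ℝ} (hκ : κ < ell μ) (n : ℕ) :
    ∀ x z : ℂ, GG μ Q P x z → 0 ≤ x.im → x.im ≤ τ → z.im = -x.im → x.re + z.re ≤ 2 * κ →
      x.re ≤ κ + ell μ / 2 → κ - ell μ / 2 - n * ell μ ≤ x.re →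
      ∃ p ∈ Win μ Q P κ τ, p.1.im = x.im ∧ p.1.re + p.2.re = x.re + z.re := by
  have hell := nw_ell_pos hp
  induction n with
  | zero =>
    intro x z hg h0 h1 h2 h3 h4 h5
    refine ⟨(x, z), ⟨hg, ?_, h4, h0, h1, h2, h3⟩, rfl, rfl⟩
    simpa using h5
  | succ n ih =>
    intro x z hg h0 h1 h2 h3 h4 h5
    by_cases hlt : x.re < κ - ell μ / 2
    · have h6 := hg.shift hp (by linarith)
      have h7 : (x + (ell μ : ℂ)).re = x.re + ell μ := by simp
      have h8 : (x + (ell μ : ℂ)).im = x.im := by simp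
      have h9 : (z - (ell μ : ℂ)).re = z.re - ell μ := by simp
      have h10 : (z - (ell μ : ℂ)).im = z.im := by simp
      obtain ⟨p, hpW, hp1, hp2⟩ := ih _ _ h6 (by rw [h8]; exact h0) (by rw [h8]; exact h1)
        (by rw [h8, h10]; exact h2) (by rw [h7, h9]; linarith) (by rw [h7]; linarith)
        (by
          rw [h7]
          push_cast at h5
          linarith)
      refine ⟨p, hpW, by rw [hp1, h8], ?_⟩
      rw [hp2, h7, h9]
      ring
    · push Not at hlt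
      exact ⟨(x, z), ⟨hg, hlt, h4, h0, h1, h2, h3⟩, rfl, rfl⟩

private theorem nw_down (hp : Pack μ Q P u w) {κ τ : ℝ} (hκ : κ < ell μ) (n : ℕ) :
    ∀ x z : ℂ, GG μ Q P x z → 0 ≤ x.im → x.im ≤ τ → z.im = -x.im → x.re + z.re ≤ 2 * κ →
      κ - ell μ / 2 ≤ x.re → x.re ≤ κ + ell μ / 2 + n * ell μ →
      ∃ p ∈ Win μ Q P κ τ, p.1.im = x.im ∧ p.1.re + p.2.re = x.re + z.re := by
  have hell := nw_ell_pos hp
  induction n with
  | zero =>
    intro x z hg h0 h1 h2 h3 h4 h5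
    refine ⟨(x, z), ⟨hg, h4, ?_, h0, h1, h2, h3⟩, rfl, rfl⟩
    simpa using h5
  | succ n ih =>
    intro x z hg h0 h1 h2 h3 h4 h5
    by_cases hlt : κ + ell μ / 2 < x.re
    · have h6 := hg.shift' hp (by linarith)
      have h7 : (x - (ell μ : ℂ)).re = x.re - ell μ := by simp
      have h8 : (x - (ell μ : ℂ)).im = x.im := by simp
      have h9 : (z + (ell μ : ℂ)).re = z.re + ell μ := by simp
      have h10 : (z + (ell μ : ℂ)).im = z.im := by simp
      obtain ⟨p, hpW, hp1, hp2⟩ := ih _ _ h6 (by rw [h8]; exact h0) (by rw [h8]; exact h1)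
        (by rw [h8, h10]; exact h2) (by rw [h7, h9]; linarith) (by rw [h7]; linarith)
        (by
          rw [h7]
          push_cast at h5
          linarith)
      refine ⟨p, hpW, by rw [hp1, h8], ?_⟩
      rw [hp2, h7, h9]
      ring
    · push Not at hlt
      exact ⟨(x, z), ⟨hg, h4, hlt, h0, h1, h2, h3⟩, rfl, rfl⟩

/-- every good pair with `Re (x+z) ≤ 2κ`, `Im z = - Im x`, `0 ≤ Im x ≤ τ` can be shifted into the
window (`GG.shift` while `Re x < κ - ℓ/2`, `GG.shift'` while `Re x > κ + ℓ/2`), keeping `Im x`,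
and `x + z`. -/
theorem exists_mem_Win (hp : Pack μ Q P u w) {κ τ : ℝ} (hκ : κ < ell μ) {x z : ℂ}
    (hg : GG μ Q P x z) (h0 : 0 ≤ x.im) (h1 : x.im ≤ τ) (h2 : z.im = -x.im)
    (h3 : x.re + z.re ≤ 2 * κ) :
    ∃ p ∈ Win μ Q P κ τ, p.1.im = x.im ∧ p.1.re + p.2.re = x.re + z.re := by
  have hell := nw_ell_pos hp
  by_cases hle : x.re ≤ κ + ell μ / 2
  · obtain ⟨n, hn⟩ := exists_nat_ge ((κ - ell μ / 2 - x.re) / ell μ)
    rw [div_le_iff₀ hell] at hn
    exact nw_up hp hκ n x z hg h0 h1 h2 h3 hle (by linarith)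
  · push Not at hle
    obtain ⟨n, hn⟩ := exists_nat_ge ((x.re - (κ + ell μ / 2)) / ell μ)
    rw [div_le_iff₀ hell] at hn
    exact nw_down hp hκ n x z hg h0 h1 h2 h3 (by linarith) (by linarith)

end EQ2
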