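import Pool.Agent.Lib.MP_226de1_co.F2
import Pool.Agent.Lib.MP_226de1_co.Conseq

/-! The real line: lower bound `D > -μ²` for `t < ℓ/2`, and existence of a point with `q < 0`. -/

set_option autoImplicit false

namespace EQ2

open Complex Set Filter Topology

variable {μ : ℝ} {F : ℕ → ℝ} {y : ℂ → ℂ}

/-- `Er τ = -D(-τ)`; `rD F t = - Er F (exp (2t))` -/
noncomputable def Er (F : ℕ → ℝ) (τ : ℝ) : ℝ := - dr F (-τ)

theorem rD_eq_Er (t : ℝ) : rD F t = - Er F (Real.exp (2 * t)) := by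
  unfold rD Er
  rw [neg_neg]

/-- from `HF.feq_real` -/
theorem Er_feq (h : HF μ F) {τ : ℝ} (h0 : 0 ≤ τ) (h1 : τ < 1) :
    Er F (μ ^ 2 * τ) = Ph μ (Er F τ) (Er F (τ / μ ^ 2)) := by
  have h2 := h.feq_real (t := -τ) (by rw [abs_neg, abs_of_nonneg h0]; exact h1)
  have e1 : μ ^ 2 * -τ = -(μ ^ 2 * τ) := by ring
  have e2 : -τ / μ ^ 2 = -(τ / μ ^ 2) := by ring
  rw [e1, e2] at h2
  have h3 : Sr μ (dr F (-τ)) = Real.sqrt ((μ ^ 2 - Er F τ) / (1 + Er F τ)) := by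
    unfold Sr Er
    congr 2
    ring
  rw [h3] at h2
  have e3 : dr F (-τ) = - Er F τ := by unfold Er; ring
  have e4 : dr F (-(τ / μ ^ 2)) = - Er F (τ / μ ^ 2) := by unfold Er; ring
  have e5 : dr F (-(μ ^ 2 * τ)) = - Er F (μ ^ 2 * τ) := by unfold Er; ring
  rw [e3, e4, e5] at h2
  unfold Ph
  linear_combination -h2

private theorem rl_Er_zero (h : HF μ F) : Er F 0 = 0 := by
  have h1 := h.abs_dr_le (t := 0) (by simp)
  rw [abs_zero] at h1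
  have h2 : dr F 0 = 0 := abs_eq_zero.1 (le_antisymm h1 (abs_nonneg _))
  unfold Er
  rw [neg_zero, h2, neg_zero]

private theorem rl_exp_log {τ : ℝ} (h0 : 0 < τ) : Real.exp (2 * (Real.log τ / 2)) = τ := by
  rw [mul_div_cancel₀ _ two_ne_zero, Real.exp_log h0]

private theorem rl_lt {τ : ℝ} (h0 : 0 < τ) (h1 : τ < μ) : Real.log τ / 2 < ell μ / 2 := by
  have := Real.log_lt_log h0 h1
  unfold ell
  linarith

private theorem rl_Er_pos (h : HF μ F) (hy : HY μ F y) {τ : ℝ} (h0 : 0 < τ) (h1 : τ < μ) :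
    0 < Er F τ := by
  have h2 := rD_neg' h hy (rl_lt h0 h1)
  rw [rD_eq_Er, rl_exp_log h0] at h2
  linarith

/-- `τ < μ` iff `t < ℓ/2` -/
theorem Er_mono (h : HF μ F) (hy : HY μ F y) : StrictMonoOn (Er F) (Set.Ico 0 μ) := by
  intro a ha b hb hab
  have hb0 : 0 < b := lt_of_le_of_lt ha.1 hab
  rcases eq_or_lt_of_le ha.1 with h0 | h0
  · rw [← h0, rl_Er_zero h]
    exact rl_Er_pos h hy hb0 hb.2
  · have h2 := rD_strictAnti' h hy (rl_lt h0 ha.2) (rl_lt hb0 hb.2)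
      (by have := Real.log_lt_log h0 hab; linarith)
    rw [rD_eq_Er, rD_eq_Er, rl_exp_log h0, rl_exp_log hb0] at h2
    linarith

theorem Er_nonneg (h : HF μ F) (hy : HY μ F y) {τ : ℝ} (h0 : 0 ≤ τ) (h1 : τ < μ) :
    0 ≤ Er F τ := by
  rcases eq_or_lt_of_le h0 with h2 | h2
  · rw [← h2, rl_Er_zero h]
  · exact (rl_Er_pos h hy h2 h1).le

theorem Er_le (h : HF μ F) {τ : ℝ} (h0 : 0 ≤ τ) (h1 : τ ≤ 1) : Er F τ ≤ τ := by
  have h2 := h.abs_dr_le (t := -τ) (by rw [abs_neg, abs_of_nonneg h0]; exact h1)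
  rw [abs_neg, abs_of_nonneg h0] at h2
  exact (neg_le_abs _).trans h2

/-- `X > 0` for `t ≤ 0` (`rX_pos`) -/
theorem Er_X (h : HF μ F) (hy : HY μ F y) {τ : ℝ} (h0 : 0 ≤ τ) (h1 : τ ≤ 1) :
    Er F τ + Er F (τ / μ ^ 2) < 2 * (μ - 1) := by
  have hμ := h.hμ
  rcases eq_or_lt_of_le h0 with h2 | h2
  · rw [← h2, zero_div, rl_Er_zero h]
    linarith
  · have ht : Real.log τ / 2 ≤ 0 := by
      have := Real.log_nonpos h0 h1
      linarith
    have h3 := rX_pos h hy ht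
    unfold rX at h3
    have e1 : rD F (Real.log τ / 2 - ell μ) = - Er F (τ / μ ^ 2) := by
      rw [rD_eq_Er]
      congr 2
      have : 2 * (Real.log τ / 2 - ell μ) = Real.log τ - Real.log (μ ^ 2) := by
        rw [Real.log_pow]
        unfold ell
        push_cast
        ring
      rw [this, Real.exp_sub, Real.exp_log h2, Real.exp_log (by positivity)]
    rw [e1, rD_eq_Er, rl_exp_log h2] at h3
    have h4 : 0 < 2 * (μ - 1) := by linarith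
    have h5 : 0 < 2 * (μ - 1) * (1 + (-Er F τ + -Er F (τ / μ ^ 2)) / (2 * (μ - 1))) :=
      mul_pos h4 h3
    have h6 : 2 * (μ - 1) * (1 + (-Er F τ + -Er F (τ / μ ^ 2)) / (2 * (μ - 1))) =
        2 * (μ - 1) - Er F τ - Er F (τ / μ ^ 2) := by
      have : 2 * (μ - 1) ≠ 0 := h4.ne'
      rw [mul_add, mul_div_cancel₀ _ this]
      ring
    rw [h6] at h5
    linarith

/-- `Er τ < μ²` for `τ < μ`.  With `e = Er τ`, `e₋ = Er (τ/m) ≥ 0`, `X = rX`, `X₋ > 0`, `S₋ > 0`: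
`e = 2(μ-1) - e₋ - 2(μ-1) X`, `X = S₋ X₋ - (μ-1)`, so `e ≤ 2μ(μ-1) - 2(μ-1) S₋ X₋`.
If `μ ≤ 2` then `e < 2μ(μ-1) ≤ μ²`.  If `μ > 2`: `e₋ ≤ τ/m ≤ 1/μ`, `e₋₋ ≤ 1/μ³` give
`S₋² ≥ (μ³-1)/(μ+1) ≥ (μ-1)²` and `X₋ ≥ 1 - (μ²+1)/(2μ³(μ-1)) ≥ 1/2`, so
`2(μ-1) S₋ X₋ ≥ (μ-1)² > μ(μ-2)`. -/
theorem Er_lt (h : HF μ F) (hy : HY μ F y) {τ : ℝ} (h0 : 0 ≤ τ) (h1 : τ < μ) :
    Er F τ < μ ^ 2 := by
  have hμ := h.hμ
  have hμ0 : 0 < μ := by linarith
  have hm : 0 < μ ^ 2 := by positivity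
  have hm1 : 1 < μ ^ 2 := by nlinarith
  obtain ⟨s, hs⟩ : ∃ s : ℝ, s = τ / μ ^ 2 := ⟨_, rfl⟩
  have hτ : τ = μ ^ 2 * s := by
    rw [hs]
    field_simp
  have hs0 : 0 ≤ s := by rw [hs]; positivity
  have hsμ : μ * s ≤ 1 := by
    have h2 : μ * (μ * s) < μ * 1 := by
      calc μ * (μ * s) = τ := by rw [hτ]; ring
        _ < μ * 1 := by rw [mul_one]; exact h1
    exact (lt_of_mul_lt_mul_left h2 hμ0.le).le
  have hs1 : s < 1 := by
    by_contra hc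
    have h2 : μ * 1 ≤ μ * s := mul_le_mul_of_nonneg_left (not_lt.1 hc) hμ0.le
    linarith
  have hsm : s / μ ^ 2 ≤ s := div_le_self hs0 hm1.le
  have hsm0 : 0 ≤ s / μ ^ 2 := by positivity
  have e0 : 0 ≤ Er F s := Er_nonneg h hy hs0 (by linarith)
  have e1 : Er F s ≤ s := Er_le h hs0 hs1.le
  have e2 : Er F (s / μ ^ 2) ≤ s / μ ^ 2 := Er_le h hsm0 (by linarith)
  have hX := Er_X h hy hs0 hs1.le
  rw [hτ, Er_feq h hs0 hs1]
  unfold Ph
  generalize Er F s = e at *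
  generalize Er F (s / μ ^ 2) = e' at *
  have hq : 0 < (μ ^ 2 - e) / (1 + e) := div_pos (by linarith) (by linarith)
  have hS : 0 < Real.sqrt ((μ ^ 2 - e) / (1 + e)) := Real.sqrt_pos.2 hq
  have hY : 0 < 2 * (μ - 1) - e - e' := by linarith
  rcases le_or_gt μ 2 with h2 | h2
  · have h3 : 0 < Real.sqrt ((μ ^ 2 - e) / (1 + e)) * (2 * (μ - 1) - e - e') := mul_pos hS hY
    have h4 : μ * (μ - 2) ≤ 0 := mul_nonpos_of_nonneg_of_nonpos hμ0.le (by linarith)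
    nlinarith
  · have hs2 : s ≤ 1 / 2 := by
      have : 2 * s ≤ μ * s := mul_le_mul_of_nonneg_right h2.le hs0
      linarith
    have h3 : μ - 1 ≤ Real.sqrt ((μ ^ 2 - e) / (1 + e)) := by
      refine Real.le_sqrt_of_sq_le ?_
      rw [le_div_iff₀ (by linarith)]
      have h4 : e * ((μ - 1) ^ 2 + 1) ≤ s * ((μ - 1) ^ 2 + 1) :=
        mul_le_mul_of_nonneg_right e1 (by positivity)
      have h5 : s * ((μ - 1) ^ 2 + 1) ≤ s * (μ * μ) := by
        refine mul_le_mul_of_nonneg_left ?_ hs0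
        nlinarith
      have h6 : s * (μ * μ) ≤ μ := by
        calc s * (μ * μ) = (μ * s) * μ := by ring
          _ ≤ 1 * μ := mul_le_mul_of_nonneg_right hsμ hμ0.le
          _ = μ := one_mul μ
      nlinarith
    have h4 : μ - 1 ≤ 2 * (μ - 1) - e - e' := by linarith
    have h5 : (μ - 1) * (μ - 1) ≤
        Real.sqrt ((μ ^ 2 - e) / (1 + e)) * (2 * (μ - 1) - e - e') :=
      mul_le_mul h3 h4 (by linarith) hS.le
    nlinarith

theorem rD_gt (h : HF μ F) (hy : HY μ F y) {t : ℝ} (ht : t < ell μ / 2) : -μ ^ 2 < rD F t := by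
  have hμ0 : 0 < μ := by linarith [h.hμ]
  have h1 : Real.exp (2 * t) < μ := by
    rw [← Real.lt_log_iff_exp_lt hμ0]
    unfold ell at ht
    linarith
  have h2 := Er_lt h hy (Real.exp_pos (2 * t)).le h1
  rw [rD_eq_Er]
  linarith

end EQ2
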