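import Pool.Agent.Lib.MP_226de1_co.DDBasic
import Pool.Agent.Lib.MP_226de1_co.NNS

/-! Functional equations of `X` and `R` in the variable `v` (algebra from `HF.feq`; `R = 1 - D - X²`,
`S² = (μ²+D)/(1-D)`, `Sq_sq`, `Adm.of_norm`, `HF.norm_dd_lt`). -/

set_option autoImplicit false

namespace EQ2

open Complex Set Filter Topology

variable {μ : ℝ} {F : ℕ → ℝ}

/-- functional equation of `X` : `X(μ²v) = S X(v) - (μ-1)` -/
theorem HF.Xv_feq (h : HF μ F) {v : ℂ} (hv : ‖v‖ < 1) :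
    Xv μ F ((μ : ℂ) ^ 2 * v) = Sq μ (dd F v) * Xv μ F v - ((μ : ℂ) - 1) := by
  have hμ := h.hμ
  have hμ0 : (μ : ℂ) ≠ 0 := by
    rw [Complex.ofReal_ne_zero]; linarith
  have hμ1 : (μ : ℂ) - 1 ≠ 0 := by
    rw [sub_ne_zero, Ne, Complex.ofReal_eq_one]; exact hμ.ne'
  have h1 : (μ : ℂ) ^ 2 * v / (μ : ℂ) ^ 2 = v := by
    field_simp
  have h2 := h.feq v hv
  have h3 : dd F ((μ : ℂ) ^ 2 * v) + dd F v =
      Sq μ (dd F v) * (2 * ((μ : ℂ) - 1) + dd F v + dd F (v / (μ : ℂ) ^ 2)) -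
        2 * (μ : ℂ) * ((μ : ℂ) - 1) := by
    rw [← h2]; ring
  unfold Xv
  rw [h1, h3]
  field_simp
  ring

/-- functional equation of `R` : `R(μ²v) = S² R(v)` -/
theorem HF.Rv_feq (h : HF μ F) {v : ℂ} (hv : ‖v‖ < 1) :
    Rv μ F ((μ : ℂ) ^ 2 * v) = Sq μ (dd F v) ^ 2 * Rv μ F v := by
  have hμ := h.hμ
  have hμ0 : (μ : ℂ) ≠ 0 := by
    rw [Complex.ofReal_ne_zero]; linarith
  have hμ1 : (μ : ℂ) - 1 ≠ 0 := by
    rw [sub_ne_zero, Ne, Complex.ofReal_eq_one]; exact hμ.ne'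
  have h1 : (μ : ℂ) ^ 2 * v / (μ : ℂ) ^ 2 = v := by
    field_simp
  have hX := h.Xv_feq hv
  have hadm := Adm.of_norm hμ (h.norm_dd_lt hv)
  have hS := Sq_sq hμ hadm
  have hne := (Adm.ne hμ hadm).1
  have hS' : Sq μ (dd F v) ^ 2 * (1 - dd F v) = (μ : ℂ) ^ 2 + dd F v := by
    rw [hS]
    field_simp
  have hD : dd F ((μ : ℂ) ^ 2 * v) =
      2 * ((μ : ℂ) - 1) * (Xv μ F ((μ : ℂ) ^ 2 * v) - 1) - dd F v := by
    unfold Xv
    rw [h1]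
    field_simp
    ring
  have hR : Rv μ F ((μ : ℂ) ^ 2 * v) =
      1 - dd F ((μ : ℂ) ^ 2 * v) - Xv μ F ((μ : ℂ) ^ 2 * v) ^ 2 := rfl
  have hR' : Rv μ F v = 1 - dd F v - Xv μ F v ^ 2 := rfl
  rw [hR, hD, hX, hR']
  linear_combination -hS'

end EQ2
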