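import Pool.Agent.Lib.MP_226de1_co.SqrtY

/-! Existence of the function `y(v)` with `v y(v)^2 = -R(v)`. -/

set_option autoImplicit false

namespace EQ2

open Complex Set Filter Topology

variable {μ : ℝ} {F : ℕ → ℝ}

private theorem ddN_zero (N : ℕ → ℝ) : dd N 0 = (N 0 : ℂ) := by
  unfold dd
  rw [tsum_eq_single 0]
  · simp
  · intro n hn
    simp [hn]

private theorem ddN_conj (N : ℕ → ℝ) (v : ℂ) :
    dd N ((starRingEnd ℂ) v) = (starRingEnd ℂ) (dd N v) := by
  unfold dd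
  rw [Complex.conj_tsum]
  simp

private theorem ddN_diff {N : ℕ → ℝ} {r : ℝ} (hN : ∀ n, 0 ≤ N n)
    (hs : ∀ v : ℂ, ‖v‖ < r → Summable (fun n => (N n : ℂ) * v ^ n)) :
    DifferentiableOn ℂ (dd N) (Metric.ball 0 r) := by
  intro v hv
  rw [mem_ball_zero_iff] at hv
  obtain ⟨ρ, h1, h2⟩ := exists_between hv
  have hρ : 0 < ρ := (norm_nonneg v).trans_lt h1
  have hsum : Summable (fun n => N n * ρ ^ n) := by
    have h3 := (hs (ρ : ℂ) (by rw [Complex.norm_real, Real.norm_of_nonneg hρ.le]; exact h2)).norm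
    refine h3.congr fun n => ?_
    rw [norm_mul, norm_pow, Complex.norm_real, Complex.norm_real, Real.norm_of_nonneg (hN n),
      Real.norm_of_nonneg hρ.le]
  have hd : DifferentiableOn ℂ (fun w : ℂ => ∑' n, (N n : ℂ) * w ^ n) (Metric.ball 0 ρ) := by
    refine differentiableOn_tsum_of_summable_norm hsum (fun n => ?_) Metric.isOpen_ball ?_
    · exact ((differentiable_const _).mul (differentiable_pow n)).differentiableOn
    · intro n w hw
      rw [mem_ball_zero_iff] at hw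
      rw [norm_mul, norm_pow, Complex.norm_real, Real.norm_of_nonneg (hN n)]
      exact mul_le_mul_of_nonneg_left (pow_le_pow_left₀ (norm_nonneg _) hw.le n) (hN n)
  exact ((hd v (mem_ball_zero_iff.mpr h1)).differentiableAt
    (Metric.isOpen_ball.mem_nhds (mem_ball_zero_iff.mpr h1))).differentiableWithinAt

/-- holomorphic logarithm on a disc -/
private theorem exists_logf {r : ℝ} (hr : 0 < r) {f : ℂ → ℂ}
    (hf : DifferentiableOn ℂ f (Metric.ball 0 r)) (hne : ∀ v ∈ Metric.ball (0 : ℂ) r, f v ≠ 0) :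
    ∃ g : ℂ → ℂ, DifferentiableOn ℂ g (Metric.ball 0 r) ∧ g 0 = Complex.log (f 0) ∧
      ∀ v ∈ Metric.ball (0 : ℂ) r, Complex.exp (g v) = f v := by
  have h0 : (0 : ℂ) ∈ Metric.ball (0 : ℂ) r := Metric.mem_ball_self hr
  have hd : DifferentiableOn ℂ (fun z => deriv f z / f z) (Metric.ball 0 r) :=
    (hf.deriv Metric.isOpen_ball).div hf hne
  obtain ⟨g, hg0, hg⟩ := hd.isExactOn_ball.with_val_at 0 (Complex.log (f 0))
  refine ⟨g, fun z hz => (hg z hz).differentiableAt.differentiableWithinAt, hg0, ?_⟩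
  have hh : ∀ z ∈ Metric.ball (0 : ℂ) r, HasDerivAt (fun z => f z * Complex.exp (-g z)) 0 z := by
    intro z hz
    have h1 : HasDerivAt f (deriv f z) z :=
      ((hf z hz).differentiableAt (Metric.isOpen_ball.mem_nhds hz)).hasDerivAt
    have h2 : HasDerivAt (fun z => Complex.exp (-g z))
        (Complex.exp (-g z) * (-(deriv f z / f z))) z := (hg z hz).neg.cexp
    have h3 := h1.mul h2
    have h4 : deriv f z * Complex.exp (-g z) +
        f z * (Complex.exp (-g z) * (-(deriv f z / f z))) = 0 := by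
      have := hne z hz
      field_simp
      ring
    rwa [h4] at h3
  intro v hv
  have h5 := Metric.isOpen_ball.is_const_of_deriv_eq_zero
    (convex_ball (0 : ℂ) r).isPreconnected
    (fun z hz => (hh z hz).differentiableAt.differentiableWithinAt)
    (fun z hz => (hh z hz).deriv) hv h0
  rw [hg0, Complex.exp_neg, Complex.exp_neg, Complex.exp_log (hne 0 h0),
    mul_inv_cancel₀ (hne 0 h0)] at h5
  have h6 := Complex.exp_ne_zero (g v)
  field_simp at h5
  exact h5.symm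

/-- `-R = D + 2W + W²` with `W = X - 1` is given by a power series with nonnegative coefficients,
zero constant term and positive linear term (`NNS` closure), on `|v| < μ²`. -/
theorem HF.negR_series (h : HF μ F) : ∃ N : ℕ → ℝ, (∀ n, 0 ≤ N n) ∧ 0 < N 0 ∧
    ∀ v : ℂ, ‖v‖ < μ ^ 2 → Summable (fun n => (N n : ℂ) * v ^ n) ∧
      v * dd N v = - Rv μ F v := by
  have hμ := h.hμ
  have hμ2 : 1 ≤ μ ^ 2 := by nlinarith
  have hμ2' : (0 : ℝ) < μ ^ 2 := by nlinarith
  have hD : NNS (μ ^ 2) (dd F) := ⟨F, h.nonneg, fun z hz => h.hasSum hz⟩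
  have hD2 : NNS (μ ^ 2) (fun z => dd F (z / ((μ ^ 2 : ℝ) : ℂ))) := hD.scale (μ ^ 2) hμ2
  have hc : 0 ≤ 1 / (2 * (μ - 1)) := by
    have : 0 < μ - 1 := by linarith
    positivity
  have hW : NNS (μ ^ 2) (fun z => ((1 / (2 * (μ - 1)) : ℝ) : ℂ) *
      (dd F z + dd F (z / ((μ ^ 2 : ℝ) : ℂ)))) := (NNS.const (μ ^ 2) _ hc).mul (hD.add hD2)
  have hV := ((NNS.const (μ ^ 2) 2 (by norm_num)).mul hW).add (hW.mul hW)
  obtain ⟨b, hb, hbs⟩ := hV
  have hne : ((μ : ℂ) - 1) ≠ 0 := by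
    intro hc
    have := congrArg Complex.re hc
    simp at this
    linarith
  have hRv : ∀ v : ℂ, ‖v‖ < μ ^ 2 →
      HasSum (fun n => ((F n + b n : ℝ) : ℂ) * v ^ n) (- Rv μ F v) := by
    intro v hv
    have h1 := (h.hasSum hv).add (hbs v hv)
    have e1 : (fun n => ((F n + b n : ℝ) : ℂ) * v ^ n) =
        fun n => (F n : ℂ) * v ^ n + (b n : ℂ) * v ^ n := by
      funext n
      push_cast
      ring
    rw [e1]
    convert h1 using 1
    unfold Rv Xv
    push_cast
    field_simp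
    ring
  have h00 : F 0 + b 0 = 0 := by
    have h1 := hRv 0 (by simpa using hμ2')
    have h2 : HasSum (fun n => ((F n + b n : ℝ) : ℂ) * (0 : ℂ) ^ n) ((F 0 + b 0 : ℝ) : ℂ) := by
      have h3 := hasSum_single (f := fun n => ((F n + b n : ℝ) : ℂ) * (0 : ℂ) ^ n) 0
        (fun n hn => by simp [hn])
      simpa using h3
    have h4 := h1.unique h2
    have h5 : Rv μ F 0 = 0 := by
      unfold Rv Xv
      rw [zero_div, h.dd_zero]
      simp
    rw [h5, neg_zero] at h4
    exact_mod_cast h4.symm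
  refine ⟨fun n => F (n + 1) + b (n + 1), fun n => add_nonneg (h.nonneg _) (hb _), ?_, ?_⟩
  · exact add_pos_of_pos_of_nonneg h.F1 (hb _)
  · intro v hv
    have h1 := hRv v hv
    have h2 : HasSum (fun n => ((F (n + 1) + b (n + 1) : ℝ) : ℂ) * v ^ (n + 1)) (- Rv μ F v) := by
      have h3 := (hasSum_nat_add_iff' 1).mpr h1
      rw [Finset.sum_range_one, h00, Complex.ofReal_zero, zero_mul, sub_zero] at h3
      exact h3
    have hsm : Summable (fun n => ((F (n + 1) + b (n + 1) : ℝ) : ℂ) * v ^ n) := by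
      by_cases hv0 : v = 0
      · refine summable_of_ne_finset_zero (s := {0}) fun n hn => ?_
        have : n ≠ 0 := by simpa using hn
        simp [hv0, this]
      · have h3 := h2.summable.mul_left v⁻¹
        refine h3.congr fun n => ?_
        rw [pow_succ]
        field_simp
    refine ⟨hsm, ?_⟩
    unfold dd
    rw [← tsum_mul_left, ← h2.tsum_eq]
    refine tsum_congr fun n => ?_
    ring

/-- `R(v) = S² R(v/μ²)` (`HF.Rv_feq`), so a zero `v ≠ 0` would give zeros `v/μ^{2k} → 0`. -/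
theorem HF.N_ne (h : HF μ F) {N : ℕ → ℝ} (hN : ∀ n, 0 ≤ N n) (hN0 : 0 < N 0)
    (hR : ∀ v : ℂ, ‖v‖ < μ ^ 2 → Summable (fun n => (N n : ℂ) * v ^ n) ∧
      v * dd N v = - Rv μ F v) {v : ℂ} (hv : ‖v‖ < μ ^ 2) : dd N v ≠ 0 := by
  intro hv0
  have hμ := h.hμ
  have hμ1 : 1 < μ ^ 2 := by nlinarith
  have hμ2 : (0 : ℝ) < μ ^ 2 := by linarith
  have hμC : ((μ : ℂ) ^ 2) ≠ 0 := by
    have : (μ : ℂ) ≠ 0 := by
      exact_mod_cast (by linarith : μ ≠ 0)
    exact pow_ne_zero 2 this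
  have hnorm : ‖((μ : ℂ) ^ 2)‖ = μ ^ 2 := by
    rw [norm_pow, Complex.norm_real, Real.norm_eq_abs, sq_abs]
  have hdd0 : dd N 0 ≠ 0 := by
    rw [ddN_zero]
    exact_mod_cast hN0.ne'
  have hvne : v ≠ 0 := by
    intro hc
    rw [hc] at hv0
    exact hdd0 hv0
  have hdiff := ddN_diff hN (fun v hv => (hR v hv).1)
  have key : ∀ k : ℕ, ‖v / ((μ : ℂ) ^ 2) ^ k‖ < μ ^ 2 ∧ dd N (v / ((μ : ℂ) ^ 2) ^ k) = 0 := by
    intro k
    induction k with
    | zero => simpa using ⟨hv, hv0⟩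
    | succ k ih =>
      obtain ⟨h1, h2⟩ := ih
      set w := v / ((μ : ℂ) ^ 2) ^ k with hw
      have e1 : v / ((μ : ℂ) ^ 2) ^ (k + 1) = w / (μ : ℂ) ^ 2 := by
        rw [hw, pow_succ, div_div]
      rw [e1]
      have h3 : ‖w / (μ : ℂ) ^ 2‖ < 1 := by
        rw [norm_div, hnorm, div_lt_one hμ2]
        exact h1
      refine ⟨h3.trans hμ1, ?_⟩
      have h4 := h.Rv_feq h3
      rw [mul_div_cancel₀ _ hμC] at h4
      have h5 : Rv μ F w = 0 := by
        have := (hR w h1).2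
        rw [h2, mul_zero] at this
        exact neg_eq_zero.mp this.symm
      rw [h5] at h4
      have h6 : Rv μ F (w / (μ : ℂ) ^ 2) = 0 :=
        (mul_eq_zero.mp h4.symm).resolve_left (pow_ne_zero 2 (Sq_ne _ _))
      have h7 := (hR _ (h3.trans hμ1)).2
      rw [h6, neg_zero] at h7
      refine (mul_eq_zero.mp h7).resolve_left ?_
      refine div_ne_zero ?_ hμC
      rw [hw]
      exact div_ne_zero hvne (pow_ne_zero _ hμC)
  have hlim : Tendsto (fun k : ℕ => v / ((μ : ℂ) ^ 2) ^ k) atTop (𝓝 0) := by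
    rw [tendsto_zero_iff_norm_tendsto_zero]
    have e : (fun k : ℕ => ‖v / ((μ : ℂ) ^ 2) ^ k‖) = fun k => ‖v‖ * (1 / μ ^ 2) ^ k := by
      funext k
      rw [norm_div, norm_pow, hnorm, one_div, inv_pow, div_eq_mul_inv]
    rw [e]
    have := (tendsto_pow_atTop_nhds_zero_of_lt_one (r := 1 / μ ^ 2) (by positivity)
      (by rw [div_lt_one hμ2]; exact hμ1)).const_mul ‖v‖
    simpa using this
  have hcont : ContinuousAt (dd N) 0 :=
    (hdiff 0 (Metric.mem_ball_self hμ2)).differentiableAt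
      (Metric.isOpen_ball.mem_nhds (Metric.mem_ball_self hμ2)) |>.continuousAt
  have h8 : Tendsto (fun k : ℕ => dd N (v / ((μ : ℂ) ^ 2) ^ k)) atTop (𝓝 (dd N 0)) :=
    hcont.tendsto.comp hlim
  have h9 : (fun k : ℕ => dd N (v / ((μ : ℂ) ^ 2) ^ k)) = fun _ => 0 := by
    funext k
    exact (key k).2
  rw [h9] at h8
  exact hdd0 (tendsto_nhds_unique h8 tendsto_const_nhds)

/-- `y = sqrt (dd N)` on the ball (zero free holomorphic function on a disc has a holomorphic
square root; normalise `y 0 > 0`).  `y (conj v) = conj (y v)` and `μ y(μ² v) = S y(v)` hold because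
the squares agree, both sides are continuous, non vanishing, and agree at `0` (connectedness).
On the real axis `y² = dd N > 0`... (`dd N` is real, nonzero, positive at `0`), so `y > 0`. -/
theorem HF.exists_HY (h : HF μ F) : ∃ y : ℂ → ℂ, HY μ F y := by
  obtain ⟨N, hN, hN0, hR⟩ := h.negR_series
  have hμ := h.hμ
  have hμ1 : 1 < μ ^ 2 := by nlinarith
  have hμ2 : (0 : ℝ) < μ ^ 2 := by linarith
  have hμC0 : (μ : ℂ) ≠ 0 := by exact_mod_cast (by linarith : μ ≠ 0)
  have hnorm : ‖((μ : ℂ) ^ 2)‖ = μ ^ 2 := by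
    rw [norm_pow, Complex.norm_real, Real.norm_eq_abs, sq_abs]
  have hdiff := ddN_diff hN (fun v hv => (hR v hv).1)
  have hne : ∀ v ∈ Metric.ball (0 : ℂ) (μ ^ 2), dd N v ≠ 0 := fun v hv =>
    h.N_ne hN hN0 hR (mem_ball_zero_iff.mp hv)
  obtain ⟨g, hg, hg0, hge⟩ := exists_logf hμ2 hdiff hne
  set y : ℂ → ℂ := fun v => Complex.exp (g v / 2) with hy
  have hyd : DifferentiableOn ℂ y (Metric.ball 0 (μ ^ 2)) := (hg.div_const 2).cexp
  have hyne : ∀ v, y v ≠ 0 := fun v => Complex.exp_ne_zero _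
  have hysq : ∀ v ∈ Metric.ball (0 : ℂ) (μ ^ 2), y v ^ 2 = dd N v := by
    intro v hv
    rw [hy]
    simp only
    rw [← Complex.exp_nat_mul, ← hge v hv]
    congr 1
    push_cast
    ring
  have hy0 : y 0 = ((Real.exp (Real.log (N 0) / 2) : ℝ) : ℂ) := by
    rw [hy]
    simp only
    rw [hg0, ddN_zero, ← Complex.ofReal_log hN0.le]
    push_cast
    rfl
  have h0mem : (0 : ℂ) ∈ Metric.ball (0 : ℂ) (μ ^ 2) := Metric.mem_ball_self hμ2
  have hconjmem : ∀ v ∈ Metric.ball (0 : ℂ) (μ ^ 2),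
      (starRingEnd ℂ) v ∈ Metric.ball (0 : ℂ) (μ ^ 2) := by
    intro v hv
    rw [mem_ball_zero_iff] at hv ⊢
    rwa [Complex.norm_conj]
  -- conjugation
  have hconj' : EqOn (fun v => (starRingEnd ℂ) (y ((starRingEnd ℂ) v))) y
      (Metric.ball 0 (μ ^ 2)) := by
    refine (convex_ball (0 : ℂ) (μ ^ 2)).isPreconnected.eq_of_sq_eq ?_ hyd.continuousOn ?_
      (fun {x} _ => hyne x) h0mem ?_
    · exact Complex.continuous_conj.comp_continuousOn
        (hyd.continuousOn.comp Complex.continuous_conj.continuousOn hconjmem)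
    · intro v hv
      simp only [Pi.pow_apply]
      rw [← map_pow, hysq _ (hconjmem v hv), ddN_conj, Complex.conj_conj, hysq v hv]
    · simp only [map_zero]
      rw [hy0, Complex.conj_ofReal]
  have hconj : ∀ v ∈ Metric.ball (0 : ℂ) (μ ^ 2),
      y ((starRingEnd ℂ) v) = (starRingEnd ℂ) (y v) := by
    intro v hv
    have := hconj' (hconjmem v hv)
    simp only [Complex.conj_conj] at this
    exact this.symm
  have hrmem : ∀ t : ℝ, |t| < μ ^ 2 → (t : ℂ) ∈ Metric.ball (0 : ℂ) (μ ^ 2) := by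
    intro t ht
    rw [mem_ball_zero_iff, Complex.norm_real, Real.norm_eq_abs]
    exact ht
  have him : ∀ t : ℝ, |t| < μ ^ 2 → (y (t : ℂ)).im = 0 := by
    intro t ht
    have := hconj _ (hrmem t ht)
    rw [Complex.conj_ofReal] at this
    exact Complex.conj_eq_iff_im.mp this.symm
  have hrene : ∀ t : ℝ, |t| < μ ^ 2 → (y (t : ℂ)).re ≠ 0 := by
    intro t ht hc
    exact hyne (t : ℂ) (Complex.ext hc (him t ht))
  have hre0 : 0 < (y ((0 : ℝ) : ℂ)).re := by
    rw [Complex.ofReal_zero, hy0, Complex.ofReal_re]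
    exact Real.exp_pos _
  have hrepos : ∀ t : ℝ, |t| < μ ^ 2 → 0 < (y (t : ℂ)).re := by
    intro t ht
    by_contra hcon
    push Not at hcon
    have hcont : ContinuousOn (fun s : ℝ => (y (s : ℂ)).re) (Ioo (-μ ^ 2) (μ ^ 2)) := by
      refine Complex.continuous_re.comp_continuousOn (hyd.continuousOn.comp
        Complex.continuous_ofReal.continuousOn ?_)
      intro s hs
      exact hrmem s (abs_lt.mpr ⟨by linarith [hs.1], hs.2⟩)
    have hmem : t ∈ Ioo (-μ ^ 2) (μ ^ 2) := ⟨by linarith [(abs_lt.mp ht).1], (abs_lt.mp ht).2⟩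
    have hmem0 : (0 : ℝ) ∈ Ioo (-μ ^ 2) (μ ^ 2) := ⟨by linarith, hμ2⟩
    obtain ⟨s, hs, hs0⟩ := isPreconnected_Ioo.intermediate_value hmem hmem0 hcont
      (⟨hcon, hre0.le⟩ : (0 : ℝ) ∈ Icc ((y (t : ℂ)).re) ((y ((0 : ℝ) : ℂ)).re))
    exact hrene s (abs_lt.mpr ⟨by linarith [hs.1], hs.2⟩) hs0
  refine ⟨y, hyd, ?_, hconj, fun t ht => ⟨hrepos t ht, him t ht⟩, fun v _ => hyne v, ?_⟩
  · intro v hv
    rw [hysq v hv, (hR v (mem_ball_zero_iff.mp hv)).2]
  · -- functional equation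
    have hmul : ∀ v ∈ Metric.ball (0 : ℂ) 1,
        (μ : ℂ) ^ 2 * v ∈ Metric.ball (0 : ℂ) (μ ^ 2) := by
      intro v hv
      rw [mem_ball_zero_iff] at hv ⊢
      rw [norm_mul, hnorm]
      nlinarith
    have hsub : ∀ v ∈ Metric.ball (0 : ℂ) 1, v ∈ Metric.ball (0 : ℂ) (μ ^ 2) := by
      intro v hv
      rw [mem_ball_zero_iff] at hv ⊢
      linarith
    have hSd : DifferentiableOn ℂ (fun v => Sq μ (dd F v)) (Metric.ball (0 : ℂ) 1) := by
      intro v hv
      have hv' := mem_ball_zero_iff.mp hv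
      have h1 := Sq_differentiableAt hμ (Adm.of_norm hμ (h.norm_dd_lt hv'))
      have h2 : DifferentiableAt ℂ (dd F) v :=
        (h.dd_differentiableOn v (hsub v hv)).differentiableAt
          (Metric.isOpen_ball.mem_nhds (hsub v hv))
      exact (h1.comp v h2).differentiableWithinAt
    have hS0 : Sq μ (dd F 0) = (μ : ℂ) := by
      rw [h.dd_zero]
      unfold Sq
      rw [add_zero, sub_zero, div_one]
      have e1 : (μ : ℂ) ^ 2 = ((μ ^ 2 : ℝ) : ℂ) := by push_cast; rfl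
      rw [e1, ← Complex.ofReal_log hμ2.le, Real.log_pow]
      have e2 : (((2 : ℕ) * Real.log μ : ℝ) : ℂ) / 2 = ((Real.log μ : ℝ) : ℂ) := by
        push_cast
        ring
      rw [e2, ← Complex.ofReal_exp, Real.exp_log (by linarith)]
    have hEq : EqOn (fun v => (μ : ℂ) * y ((μ : ℂ) ^ 2 * v)) (fun v => Sq μ (dd F v) * y v)
        (Metric.ball 0 1) := by
      refine (convex_ball (0 : ℂ) 1).isPreconnected.eq_of_sq_eq ?_ ?_ ?_
        (fun {x} _ => mul_ne_zero (Sq_ne _ _) (hyne x)) (Metric.mem_ball_self one_pos) ?_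
      · exact continuousOn_const.mul (hyd.continuousOn.comp
          (continuousOn_const.mul continuousOn_id) hmul)
      · exact hSd.continuousOn.mul (hyd.continuousOn.mono hsub)
      · intro v hv
        simp only [Pi.pow_apply]
        rw [mul_pow, mul_pow, hysq _ (hmul v hv), hysq _ (hsub v hv)]
        by_cases hv0 : v = 0
        · rw [hv0, mul_zero, hS0]
        · have hv' := mem_ball_zero_iff.mp hv
          have h1 := (hR _ (mem_ball_zero_iff.mp (hmul v hv))).2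
          have h2 := (hR _ (mem_ball_zero_iff.mp (hsub v hv))).2
          rw [h.Rv_feq hv'] at h1
          apply mul_left_cancel₀ hv0
          calc v * ((μ : ℂ) ^ 2 * dd N ((μ : ℂ) ^ 2 * v))
              = (μ : ℂ) ^ 2 * v * dd N ((μ : ℂ) ^ 2 * v) := by ring
            _ = Sq μ (dd F v) ^ 2 * -Rv μ F v := by rw [h1]; ring
            _ = v * (Sq μ (dd F v) ^ 2 * dd N v) := by rw [← h2]; ring
      · simp only [mul_zero]
        rw [hS0]
    intro v hv
    exact hEq (mem_ball_zero_iff.mpr hv)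

end EQ2
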