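import Pool.Agent.Lib.MP_226de1_co.SqrtY2

/-! Elementary facts on `xv x = -exp (2x)` and on the top line `Im x = π/2`. -/

set_option autoImplicit false

namespace EQ2

open Complex Set Filter Topology

variable {μ : ℝ}

/-- the point `s + i t` -/
abbrev pt (s t : ℝ) : ℂ := ⟨s, t⟩

theorem ell_pos (hμ : 1 < μ) : 0 < ell μ := Real.log_pos hμ

theorem norm_xv (x : ℂ) : ‖xv x‖ = Real.exp (2 * x.re) := by
  unfold xv
  rw [norm_neg, Complex.norm_exp]
  simp

private theorem exp_two_ell (hμ : 1 < μ) : Real.exp (2 * ell μ) = μ ^ 2 := by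
  unfold ell
  rw [two_mul, Real.exp_add, Real.exp_log (by linarith)]
  ring

private theorem cexp_two_ell (hμ : 1 < μ) : Complex.exp (2 * (ell μ : ℂ)) = (μ : ℂ) ^ 2 := by
  have h := exp_two_ell hμ
  have h2 := congrArg (fun t : ℝ => (t : ℂ)) h
  push_cast at h2
  exact h2

theorem xv_add_ell (hμ : 1 < μ) (x : ℂ) : xv (x + (ell μ : ℂ)) = (μ : ℂ) ^ 2 * xv x := by
  unfold xv
  rw [mul_add, Complex.exp_add, cexp_two_ell hμ]
  ring

theorem xv_sub_ell (hμ : 1 < μ) (x : ℂ) : xv (x - (ell μ : ℂ)) = xv x / (μ : ℂ) ^ 2 := by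
  unfold xv
  rw [mul_sub, Complex.exp_sub, cexp_two_ell hμ]
  ring

theorem xv_conj (x : ℂ) : xv ((starRingEnd ℂ) x) = (starRingEnd ℂ) (xv x) := by
  unfold xv
  rw [map_neg, ← Complex.exp_conj, map_mul, map_ofNat]

theorem norm_xv_lt_iff (hμ : 1 < μ) (x : ℂ) : ‖xv x‖ < μ ^ 2 ↔ x.re < ell μ := by
  rw [norm_xv, ← exp_two_ell hμ, Real.exp_lt_exp]
  constructor <;> intro h <;> linarith

theorem xv_mem_ball_iff (hμ : 1 < μ) (x : ℂ) :
    xv x ∈ Metric.ball (0 : ℂ) (μ ^ 2) ↔ x.re < ell μ := by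
  rw [mem_ball_zero_iff]
  exact norm_xv_lt_iff hμ x

theorem norm_xv_lt_one_iff (x : ℂ) : ‖xv x‖ < 1 ↔ x.re < 0 := by
  rw [norm_xv, Real.exp_lt_one_iff]
  constructor <;> intro h <;> linarith

theorem xv_ofReal (t : ℝ) : xv (t : ℂ) = ((-Real.exp (2 * t) : ℝ) : ℂ) := by
  unfold xv
  push_cast
  rfl

theorem xv_top (s : ℝ) : xv (pt s (Real.pi / 2)) = ((Real.exp (2 * s) : ℝ) : ℂ) := by
  unfold xv
  have h : (2 : ℂ) * pt s (Real.pi / 2) = ((2 * s : ℝ) : ℂ) + Real.pi * I := by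
    apply Complex.ext
    · simp
    · simp
      ring
  rw [h, Complex.exp_add, Complex.exp_pi_mul_I, Complex.ofReal_exp]
  ring

theorem xv_im_eq (x : ℂ) : (xv x).im = -(Real.exp (2 * x.re) * Real.sin (2 * x.im)) := by
  unfold xv
  rw [Complex.neg_im, Complex.exp_im]
  simp

theorem xv_im_neg {x : ℂ} (h0 : 0 < x.im) (h1 : x.im < Real.pi / 2) : (xv x).im < 0 := by
  rw [xv_im_eq]
  have h2 : 0 < Real.sin (2 * x.im) :=
    Real.sin_pos_of_pos_of_lt_pi (by linarith) (by linarith)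
  have h3 := mul_pos (Real.exp_pos (2 * x.re)) h2
  linarith

theorem xv_im_nonpos {x : ℂ} (h0 : 0 ≤ x.im) (h1 : x.im ≤ Real.pi / 2) : (xv x).im ≤ 0 := by
  rw [xv_im_eq]
  have h2 : 0 ≤ Real.sin (2 * x.im) :=
    Real.sin_nonneg_of_nonneg_of_le_pi (by linarith) (by linarith)
  have h3 := mul_nonneg (Real.exp_pos (2 * x.re)).le h2
  linarith

theorem xv_differentiable : Differentiable ℂ xv := by
  unfold xv
  fun_prop

theorem tendsto_xv_zero : Tendsto xv (comap Complex.re atBot) (𝓝 0) := by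
  rw [tendsto_zero_iff_norm_tendsto_zero]
  have h1 : Tendsto (fun s : ℝ => Real.exp (2 * s)) atBot (𝓝 0) :=
    Real.tendsto_exp_atBot.comp (tendsto_id.const_mul_atBot (by norm_num : (0 : ℝ) < 2))
  have h2 := h1.comp (tendsto_comap (f := Complex.re) (x := atBot))
  refine h2.congr ?_
  intro x
  rw [norm_xv]
  rfl

end EQ2
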