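import Pool.Agent.Lib.MP_226de1_co.XRel

/-! Real line (`v = -e^{2t} < 0`); definitions for the top line (`x = s + iπ/2`, `v = e^{2s} > 0`). -/

set_option autoImplicit false

namespace EQ2

open Complex Set Filter Topology

variable {μ : ℝ} {F : ℕ → ℝ} {y : ℂ → ℂ}

noncomputable section

/-- real values on the real line -/
def rD (F : ℕ → ℝ) (t : ℝ) : ℝ := dr F (-Real.exp (2 * t))
def rX (μ : ℝ) (F : ℕ → ℝ) (t : ℝ) : ℝ := 1 + (rD F t + rD F (t - ell μ)) / (2 * (μ - 1))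
def rY (y : ℂ → ℂ) (t : ℝ) : ℝ := Real.exp t * (y ((-Real.exp (2 * t) : ℝ) : ℂ)).re
def rq (μ : ℝ) (F : ℕ → ℝ) (y : ℂ → ℂ) (t : ℝ) : ℝ := rX μ F t / rY y t
def rp (μ : ℝ) (y : ℂ → ℂ) (t : ℝ) : ℝ := (rY y t / (μ - 1)) ^ 2

/-- real values on the top line -/
def tD (F : ℕ → ℝ) (s : ℝ) : ℝ := dr F (Real.exp (2 * s))
def tX (μ : ℝ) (F : ℕ → ℝ) (s : ℝ) : ℝ := 1 + (tD F s + tD F (s - ell μ)) / (2 * (μ - 1))
def tY (y : ℂ → ℂ) (s : ℝ) : ℝ := Real.exp s * (y ((Real.exp (2 * s) : ℝ) : ℂ)).re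
/-- `q = -i u` on the top line -/
def tu (μ : ℝ) (F : ℕ → ℝ) (y : ℂ → ℂ) (s : ℝ) : ℝ := tX μ F s / tY y s

end

/-! ### real line -/

private theorem XReal_abs (h : HF μ F) {t : ℝ} (ht : t < ell μ) : |-Real.exp (2 * t)| < μ ^ 2 := by
  have h1 := (norm_xv_lt_iff h.hμ (t : ℂ)).2 (by simpa using ht)
  rw [xv_ofReal, Complex.norm_real] at h1
  exact h1

theorem HF.Dx_ofReal (h : HF μ F) {t : ℝ} (ht : t < ell μ) : Dx F (t : ℂ) = (rD F t : ℂ) := by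
  unfold Dx rD
  rw [xv_ofReal, h.dd_ofReal (XReal_abs h ht)]

theorem HF.Xx_ofReal (h : HF μ F) {t : ℝ} (ht : t < ell μ) : Xx μ F (t : ℂ) = (rX μ F t : ℂ) := by
  have hl := ell_pos h.hμ
  rw [h.Xx_eq, ← Complex.ofReal_sub, h.Dx_ofReal ht, h.Dx_ofReal (t := t - ell μ) (by linarith)]
  unfold rX
  push_cast
  ring

private theorem XReal_y (h : HF μ F) (hy : HY μ F y) {t : ℝ} (ht : t < ell μ) :
    y ((-Real.exp (2 * t) : ℝ) : ℂ) = (((y ((-Real.exp (2 * t) : ℝ) : ℂ)).re : ℝ) : ℂ) ∧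
      0 < (y ((-Real.exp (2 * t) : ℝ) : ℂ)).re := by
  have h1 := hy.pos (-Real.exp (2 * t)) (XReal_abs h ht)
  refine ⟨Complex.ext ?_ ?_, h1.1⟩
  · rw [Complex.ofReal_re]
  · rw [h1.2, Complex.ofReal_im]

theorem HY.Yx_ofReal (h : HF μ F) (hy : HY μ F y) {t : ℝ} (ht : t < ell μ) :
    Yx y (t : ℂ) = (rY y t : ℂ) := by
  unfold Yx rY
  rw [xv_ofReal, (XReal_y h hy ht).1, Complex.ofReal_mul, Complex.ofReal_exp, Complex.ofReal_re]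

theorem HY.rY_pos (h : HF μ F) (hy : HY μ F y) {t : ℝ} (ht : t < ell μ) : 0 < rY y t := by
  unfold rY
  exact mul_pos (Real.exp_pos _) (XReal_y h hy ht).2

theorem HY.qx_ofReal (h : HF μ F) (hy : HY μ F y) {t : ℝ} (ht : t < ell μ) :
    qx μ F y (t : ℂ) = (rq μ F y t : ℂ) := by
  unfold qx rq
  rw [h.Xx_ofReal ht, HY.Yx_ofReal h hy ht, Complex.ofReal_div]

theorem HY.px_ofReal (h : HF μ F) (hy : HY μ F y) {t : ℝ} (ht : t < ell μ) :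
    px μ y (t : ℂ) = (rp μ y t : ℂ) := by
  unfold px rp
  rw [HY.Yx_ofReal h hy ht]
  push_cast
  ring

end EQ2
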