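import Pool.Agent.Lib.MP_226de1_co.XBasic

/-! The functions `Dx, Sx, Xx, Yx, qx, px` of the logarithmic coordinate `x`: differentiability,
conjugation symmetry and the one-step relations (all immediate from `XBasic`, `DDBasic`, `SqrtY`). -/

set_option autoImplicit false

namespace EQ2

open Complex Set Filter Topology

variable {μ : ℝ} {F : ℕ → ℝ} {y : ℂ → ℂ}

private theorem XRel_mu_ne (hμ : 1 < μ) : (μ : ℂ) - 1 ≠ 0 := by
  have h : μ - 1 ≠ 0 := by linarith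
  intro h0
  apply h
  have : ((μ - 1 : ℝ) : ℂ) = 0 := by push_cast; exact h0
  exact_mod_cast this

private theorem XRel_mem (hμ : 1 < μ) {x : ℂ} (hx : x.re < ell μ) :
    xv x ∈ Metric.ball (0 : ℂ) (μ ^ 2) := (xv_mem_ball_iff hμ x).2 hx

private theorem XRel_exp_ell (hμ : 1 < μ) : Complex.exp (ell μ : ℂ) = (μ : ℂ) := by
  rw [← Complex.ofReal_exp]
  unfold ell
  rw [Real.exp_log (by linarith)]

private theorem XRel_Sx_ne (μ : ℝ) (F : ℕ → ℝ) (x : ℂ) : Sx μ F x ≠ 0 := by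
  unfold Sx Sq
  exact Complex.exp_ne_zero _

theorem HF.Dx_differentiableAt (h : HF μ F) {x : ℂ} (hx : x.re < ell μ) :
    DifferentiableAt ℂ (Dx F) x := by
  have h1 : DifferentiableAt ℂ (dd F) (xv x) :=
    h.dd_differentiableOn.differentiableAt (Metric.isOpen_ball.mem_nhds (XRel_mem h.hμ hx))
  exact h1.comp x xv_differentiable.differentiableAt

private theorem XRel_Xx_eq (h : HF μ F) (x : ℂ) :
    Xx μ F x = 1 + (Dx F x + Dx F (x - (ell μ : ℂ))) / (2 * ((μ : ℂ) - 1)) := by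
  unfold Xx Xv Dx
  rw [xv_sub_ell h.hμ]

theorem HF.Xx_differentiableAt (h : HF μ F) {x : ℂ} (hx : x.re < ell μ) :
    DifferentiableAt ℂ (Xx μ F) x := by
  have h1 : Xx μ F = fun x => 1 + (Dx F x + Dx F (x - (ell μ : ℂ))) / (2 * ((μ : ℂ) - 1)) := by
    funext z
    exact XRel_Xx_eq h z
  rw [h1]
  have h2 : (x - (ell μ : ℂ)).re < ell μ := by
    have := ell_pos h.hμ
    simp only [Complex.sub_re, Complex.ofReal_re]
    linarith
  have h3 : DifferentiableAt ℂ (fun x : ℂ => Dx F (x - (ell μ : ℂ))) x :=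
    DifferentiableAt.comp (g := Dx F) (f := fun x : ℂ => x - (ell μ : ℂ)) x
      (h.Dx_differentiableAt h2) (differentiableAt_id.sub_const _)
  exact (((h.Dx_differentiableAt hx).add h3).div_const _).const_add _

theorem HY.Yx_differentiableAt (h : HF μ F) (hy : HY μ F y) {x : ℂ} (hx : x.re < ell μ) :
    DifferentiableAt ℂ (Yx y) x := by
  have h1 : DifferentiableAt ℂ y (xv x) :=
    hy.an.differentiableAt (Metric.isOpen_ball.mem_nhds (XRel_mem h.hμ hx))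
  have h2 : DifferentiableAt ℂ (fun x => y (xv x)) x :=
    h1.comp x xv_differentiable.differentiableAt
  exact Complex.differentiableAt_exp.mul h2

theorem HY.Yx_ne (h : HF μ F) (hy : HY μ F y) {x : ℂ} (hx : x.re < ell μ) : Yx y x ≠ 0 := by
  unfold Yx
  exact mul_ne_zero (Complex.exp_ne_zero _) (hy.ne _ (XRel_mem h.hμ hx))

theorem HY.qx_differentiableAt (h : HF μ F) (hy : HY μ F y) {x : ℂ} (hx : x.re < ell μ) :
    DifferentiableAt ℂ (qx μ F y) x := by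
  exact (h.Xx_differentiableAt hx).div (HY.Yx_differentiableAt h hy hx) (HY.Yx_ne h hy hx)

theorem HY.px_differentiableAt (h : HF μ F) (hy : HY μ F y) {x : ℂ} (hx : x.re < ell μ) :
    DifferentiableAt ℂ (px μ y) x := by
  exact ((HY.Yx_differentiableAt h hy hx).div_const _).pow 2

theorem HY.px_ne (h : HF μ F) (hy : HY μ F y) {x : ℂ} (hx : x.re < ell μ) : px μ y x ≠ 0 := by
  unfold px
  exact pow_ne_zero 2 (div_ne_zero (HY.Yx_ne h hy hx) (XRel_mu_ne h.hμ))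

theorem HF.Dx_conj (h : HF μ F) (x : ℂ) :
    Dx F ((starRingEnd ℂ) x) = (starRingEnd ℂ) (Dx F x) := by
  unfold Dx
  rw [xv_conj, h.dd_conj]

theorem HF.Xx_conj (h : HF μ F) (x : ℂ) :
    Xx μ F ((starRingEnd ℂ) x) = (starRingEnd ℂ) (Xx μ F x) := by
  rw [XRel_Xx_eq h, XRel_Xx_eq h]
  have h1 : (starRingEnd ℂ) x - (ell μ : ℂ) = (starRingEnd ℂ) (x - (ell μ : ℂ)) := by
    rw [map_sub, Complex.conj_ofReal]
  rw [h1, h.Dx_conj, h.Dx_conj]
  simp only [map_add, map_div₀, map_one, map_mul, map_sub, Complex.conj_ofReal, map_ofNat]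

theorem HY.Yx_conj (h : HF μ F) (hy : HY μ F y) {x : ℂ} (hx : x.re < ell μ) :
    Yx y ((starRingEnd ℂ) x) = (starRingEnd ℂ) (Yx y x) := by
  unfold Yx
  rw [xv_conj, hy.conj _ (XRel_mem h.hμ hx), map_mul, Complex.exp_conj]

theorem HY.qx_conj (h : HF μ F) (hy : HY μ F y) {x : ℂ} (hx : x.re < ell μ) :
    qx μ F y ((starRingEnd ℂ) x) = (starRingEnd ℂ) (qx μ F y x) := by
  unfold qx
  rw [h.Xx_conj, HY.Yx_conj h hy hx, map_div₀]

theorem HY.px_conj (h : HF μ F) (hy : HY μ F y) {x : ℂ} (hx : x.re < ell μ) :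
    px μ y ((starRingEnd ℂ) x) = (starRingEnd ℂ) (px μ y x) := by
  unfold px
  rw [HY.Yx_conj h hy hx]
  simp only [map_pow, map_div₀, map_sub, Complex.conj_ofReal, map_one]

theorem HF.Xx_eq (h : HF μ F) (x : ℂ) :
    Xx μ F x = 1 + (Dx F x + Dx F (x - (ell μ : ℂ))) / (2 * ((μ : ℂ) - 1)) := by
  exact XRel_Xx_eq h x

/-- `X² + Y² = 1 - D` -/
theorem HY.XY_sq (h : HF μ F) (hy : HY μ F y) {x : ℂ} (hx : x.re < ell μ) :
    Xx μ F x ^ 2 + Yx y x ^ 2 = 1 - Dx F x := by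
  have h1 := hy.sq _ (XRel_mem h.hμ hx)
  have h2 : Yx y x ^ 2 = - (xv x * y (xv x) ^ 2) := by
    unfold Yx xv
    rw [mul_pow, ← Complex.exp_nat_mul]
    push_cast
    ring
  rw [h2, h1]
  unfold Rv Xx Dx
  ring

theorem HF.Xx_shift (h : HF μ F) {x : ℂ} (hx : x.re < 0) :
    Xx μ F (x + (ell μ : ℂ)) = Sx μ F x * Xx μ F x - ((μ : ℂ) - 1) := by
  unfold Xx Sx Dx
  rw [xv_add_ell h.hμ]
  exact h.Xv_feq ((norm_xv_lt_one_iff x).2 hx)

theorem HY.Yx_shift (h : HF μ F) (hy : HY μ F y) {x : ℂ} (hx : x.re < 0) :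
    Yx y (x + (ell μ : ℂ)) = Sx μ F x * Yx y x := by
  unfold Yx Sx Dx
  rw [xv_add_ell h.hμ, Complex.exp_add, XRel_exp_ell h.hμ, mul_assoc,
    hy.feq _ ((norm_xv_lt_one_iff x).2 hx)]
  ring

private theorem XRel_re_add {x : ℂ} (hx : x.re < 0) : (x + (ell μ : ℂ)).re < ell μ := by
  simp only [Complex.add_re, Complex.ofReal_re]
  linarith

private theorem XRel_re_lt (hμ : 1 < μ) {x : ℂ} (hx : x.re < 0) : x.re < ell μ :=
  hx.trans (ell_pos hμ)

/-- `D_n = q_n - q_{n+1} = 2a / Y_{n+1}` -/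
theorem HY.qx_shift (h : HF μ F) (hy : HY μ F y) {x : ℂ} (hx : x.re < 0) :
    qx μ F y x - qx μ F y (x + (ell μ : ℂ)) = ((μ : ℂ) - 1) / Yx y (x + (ell μ : ℂ)) := by
  have hS := XRel_Sx_ne μ F x
  have hY := HY.Yx_ne h hy (XRel_re_lt h.hμ hx)
  unfold qx
  rw [h.Xx_shift hx, HY.Yx_shift h hy hx]
  field_simp
  ring

theorem HY.px_shift (h : HF μ F) (hy : HY μ F y) {x : ℂ} (hx : x.re < 0) :
    px μ y (x + (ell μ : ℂ)) * (qx μ F y x - qx μ F y (x + (ell μ : ℂ))) ^ 2 = 1 := by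
  rw [HY.qx_shift h hy hx]
  have hY := HY.Yx_ne h hy (XRel_re_add hx)
  have hm := XRel_mu_ne h.hμ
  unfold px
  field_simp

private theorem XRel_norm_Dx_lt (h : HF μ F) {x : ℂ} (hx : x.re < 0) : ‖Dx F x‖ < 1 := by
  unfold Dx
  exact h.norm_dd_lt ((norm_xv_lt_one_iff x).2 hx)

theorem HY.qp_rel (h : HF μ F) (hy : HY μ F y) {x : ℂ} (hx : x.re < 0) :
    (1 + qx μ F y x ^ 2) * (px μ y x + px μ y (x + (ell μ : ℂ))) = (Cc μ : ℂ) := by
  have hY := HY.Yx_ne h hy (XRel_re_lt h.hμ hx)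
  have hm := XRel_mu_ne h.hμ
  have hD := XRel_norm_Dx_lt h hx
  have hD1 : 1 - Dx F x ≠ 0 := by
    intro h0
    have h1 : Dx F x = 1 := (sub_eq_zero.1 h0).symm
    rw [h1, norm_one] at hD
    exact lt_irrefl _ hD
  have hS : Sx μ F x ^ 2 = ((μ : ℂ) ^ 2 + Dx F x) / (1 - Dx F x) := by
    unfold Sx
    exact Sq_sq h.hμ (Adm.of_norm h.hμ hD)
  have hXY := HY.XY_sq h hy (XRel_re_lt h.hμ hx)
  unfold px qx
  rw [HY.Yx_shift h hy hx]
  have h1 : 1 + (Xx μ F x / Yx y x) ^ 2 = (1 - Dx F x) / Yx y x ^ 2 := by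
    rw [← hXY]
    field_simp
    ring
  have h2 : (Yx y x / ((μ : ℂ) - 1)) ^ 2 + (Sx μ F x * Yx y x / ((μ : ℂ) - 1)) ^ 2 =
      Yx y x ^ 2 * (1 + Sx μ F x ^ 2) / ((μ : ℂ) - 1) ^ 2 := by
    field_simp
  rw [h1, h2, hS]
  unfold Cc
  push_cast
  field_simp
  ring

/-- for `k = 2` the squared distances satisfy a linear relation -/
theorem HF.Dx_sum (h : HF μ F) {x : ℂ} (hx : x.re < 0) :
    Dx F x + Dx F (x + (ell μ : ℂ)) = 2 * ((μ : ℂ) - 1) * (Sx μ F x * Xx μ F x - (μ : ℂ)) := by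
  have h1 := h.Xx_shift hx
  have h2 := XRel_Xx_eq h (x + (ell μ : ℂ))
  have hm := XRel_mu_ne h.hμ
  rw [add_sub_cancel_right] at h2
  rw [h2] at h1
  field_simp at h1
  linear_combination h1

theorem HF.norm_Dx_lt (h : HF μ F) {x : ℂ} (hx : x.re < 0) : ‖Dx F x‖ < 1 := by
  exact XRel_norm_Dx_lt h hx

end EQ2
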